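import Pool.Agent.Helper270_PL.Morrey

/-!
# Lower bound for the third eigenvalue when `p` is large
-/

open MeasureTheory Set Filter Topology
open scoped ENNReal

namespace Pool.Agent.Helper270_PL

variable {p : ℝ≥0∞} [Fact (1 ≤ p)]

/-- pairing with a bounded function is continuous on `L^p` -/
theorem continuous_pairing {h : ℝ × ℝ → ℝ} (hm : Measurable h) {C : ℝ} (hC : ∀ z, |h z| ≤ C) :
    Continuous fun w : Amb p => ∫ z, h z * w.1 z ∂muOm := by
  have hC0 : 0 ≤ C := (abs_nonneg _).trans (hC 0)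
  have hint : ∀ f : Lp ℝ p muOm, Integrable (fun z => h z * f z) muOm := by
    intro f
    exact ((Lp.memLp f).integrable Fact.out).bdd_mul hm.aestronglyMeasurable
      (Eventually.of_forall fun z => hC z)
  have key : LipschitzWith C.toNNReal fun f : Lp ℝ p muOm => ∫ z, h z * f z ∂muOm := by
    refine LipschitzWith.of_dist_le_mul fun f g => ?_
    rw [Real.dist_eq, ← integral_sub (hint f) (hint g), Real.coe_toNNReal C hC0, dist_eq_norm]
    have h1 : |∫ z, (h z * f z - h z * g z) ∂muOm| ≤ ∫ z, C * |(f - g : Lp ℝ p muOm) z| ∂muOm := by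
      refine abs_integral_le_integral_abs.trans ?_
      refine integral_mono_ae ((hint f).sub (hint g)).abs ?_ ?_
      · exact (((Lp.memLp (f - g)).integrable Fact.out).abs).const_mul C
      · filter_upwards [Lp.coeFn_sub f g] with z hz
        rw [hz, Pi.sub_apply, ← mul_sub, abs_mul]
        exact mul_le_mul_of_nonneg_right (hC z) (abs_nonneg _)
    refine h1.trans ?_
    rw [integral_const_mul]
    refine mul_le_mul_of_nonneg_left ?_ hC0
    have h2 := eLpNorm_le_eLpNorm_of_exponent_le (μ := muOm) (Fact.out : (1 : ℝ≥0∞) ≤ p)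
      (Lp.aestronglyMeasurable (f - g))
    rw [Lp.norm_def]
    have h3 : ∫ z, |(f - g : Lp ℝ p muOm) z| ∂muOm = (eLpNorm (f - g : Lp ℝ p muOm) 1 muOm).toReal := by
      rw [eLpNorm_one_eq_lintegral_enorm, ← integral_norm_eq_lintegral_enorm
        (Lp.aestronglyMeasurable (f - g))]
      rfl
    rw [h3]
    exact ENNReal.toReal_mono (Lp.eLpNorm_ne_top _) h2
  exact key.continuous.comp continuous_fst

theorem IsTest.eq_zero_of_notMem {φ : ℝ × ℝ → ℝ} (h : IsTest φ) {z : ℝ × ℝ} (hz : z ∉ Om) :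
    φ z = 0 := image_eq_zero_of_notMem_tsupport fun hh => hz (h.2.2 hh)

/-- the indicator function of the square of side `δ` around `c` -/
noncomputable def chi (c : ℝ × ℝ) (δ : ℝ) (z : ℝ × ℝ) : ℝ :=
  (Sq δ).indicator (fun _ => (1 : ℝ)) (z - c)

theorem measurable_chi (c : ℝ × ℝ) (δ : ℝ) : Measurable (chi c δ) :=
  (measurable_const.indicator (measurableSet_Sq δ)).comp (measurable_id.sub_const c)

theorem abs_chi_le (c : ℝ × ℝ) (δ : ℝ) (z : ℝ × ℝ) : |chi c δ z| ≤ 1 := by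
  unfold chi
  by_cases h : z - c ∈ Sq δ
  · rw [indicator_of_mem h]; simp
  · rw [indicator_of_notMem h]; simp

theorem integral_chi_mul {φ : ℝ × ℝ → ℝ} (h : IsTest φ) (c : ℝ × ℝ) (δ : ℝ) :
    ∫ z, chi c δ z * φ z ∂muOm = ∫ y in Sq δ, φ (c + y) := by
  have h1 : ∫ z, chi c δ z * φ z ∂muOm = ∫ z, chi c δ z * φ z := by
    rw [muOm]
    refine setIntegral_eq_integral_of_forall_compl_eq_zero fun z hz => ?_
    rw [h.eq_zero_of_notMem hz, mul_zero]
  rw [h1, ← integral_add_left_eq_self (fun z => chi c δ z * φ z) c,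
    ← integral_indicator (measurableSet_Sq δ)]
  refine integral_congr_ae (Eventually.of_forall fun y => ?_)
  simp only [chi, add_sub_cancel_left]
  by_cases hy : y ∈ Sq δ
  · rw [indicator_of_mem hy, indicator_of_mem hy, one_mul]
  · rw [indicator_of_notMem hy, indicator_of_notMem hy, zero_mul]

theorem IsTest.integral_gr {φ : ℝ × ℝ → ℝ} (h : IsTest φ) {q : ℝ} (hq : 0 < q) :
    ∫ z, gr φ z ^ q = ∫ z, (dX φ z ^ 2 + dY φ z ^ 2) ^ (q / 2) ∂muOm := by
  rw [muOm, ← setIntegral_eq_integral_of_forall_compl_eq_zero (s := Om) (fun z hz => ?_)]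
  · exact integral_congr_ae (Eventually.of_forall fun z => gr_rpow φ z q)
  · rw [gr_eq_zero_of_notMem fun hh => hz (h.2.2 hh), Real.zero_rpow hq.ne']

theorem sqrt_sq_add_sq_le {a b A B : ℝ} (ha : |a| ≤ A) (hb : |b| ≤ B) :
    Real.sqrt (a ^ 2 + b ^ 2) ≤ A + B := by
  have hA : 0 ≤ A := (abs_nonneg _).trans ha
  have hB : 0 ≤ B := (abs_nonneg _).trans hb
  rw [Real.sqrt_le_left (by positivity)]
  have h1 : a ^ 2 ≤ A ^ 2 := by rw [← sq_abs]; gcongr
  have h2 : b ^ 2 ≤ B ^ 2 := by rw [← sq_abs]; gcongr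
  nlinarith [mul_nonneg hA hB]

theorem sqrt_add_le (a b c d : ℝ) :
    Real.sqrt ((a + c) ^ 2 + (b + d) ^ 2) ≤ Real.sqrt (a ^ 2 + b ^ 2) + (|c| + |d|) := by
  have h := norm_add_le ((a : ℂ) + b * Complex.I) ((c : ℂ) + d * Complex.I)
  have e1 : (a : ℂ) + b * Complex.I + ((c : ℂ) + d * Complex.I) =
      ((a + c : ℝ) : ℂ) + ((b + d : ℝ) : ℂ) * Complex.I := by push_cast; ring
  rw [e1, Complex.norm_add_mul_I, Complex.norm_add_mul_I, Complex.norm_add_mul_I] at h
  refine h.trans (add_le_add le_rfl ?_)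
  exact sqrt_sq_add_sq_le le_rfl le_rfl

/-- the sup bound for test functions, with two averages -/
theorem IsTest.sup_bound {φ : ℝ × ℝ → ℝ} (h : IsTest φ) {q : ℝ} (hq : 2 < q) {δ : ℝ}
    (hδ : 0 < δ) {x : ℝ × ℝ} (hx : x ∈ Om) :
    |φ x| ≤ (17 / 64 + 2 * δ) * δ ^ (-(2 / q)) / (1 - 2 / q) * (∫ y, gr φ y ^ q) ^ (1 / q) +
      (δ ^ 2)⁻¹ * (|∫ y in Sq δ, φ ((3 / 8, 1 / 2) + y)| +
        |∫ y in Sq δ, φ ((5 / 8, 1 / 2) + y)|) := by
  have hδ2 : (0 : ℝ) < δ ^ 2 := by positivity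
  have hy : ∀ y ∈ Sq δ, |y.1| ≤ δ / 2 ∧ |y.2| ≤ δ / 2 := by
    intro y hy
    rw [Sq, mem_prod, mem_Icc, mem_Icc] at hy
    exact ⟨abs_le.2 hy.1, abs_le.2 hy.2⟩
  -- the common conclusion
  have main : ∀ z : ℝ × ℝ, (∀ y ∈ Sq δ,
      Real.sqrt ((z.1 + y.1 - x.1) ^ 2 + (z.2 + y.2 - x.2) ^ 2) ≤ 17 / 64 + 2 * δ) →
      |∫ y in Sq δ, φ (z + y)| ≤ |∫ y in Sq δ, φ ((3 / 8, 1 / 2) + y)| +
        |∫ y in Sq δ, φ ((5 / 8, 1 / 2) + y)| →
      |φ x| ≤ (17 / 64 + 2 * δ) * δ ^ (-(2 / q)) / (1 - 2 / q) * (∫ y, gr φ y ^ q) ^ (1 / q) +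
      (δ ^ 2)⁻¹ * (|∫ y in Sq δ, φ ((3 / 8, 1 / 2) + y)| +
        |∫ y in Sq δ, φ ((5 / 8, 1 / 2) + y)|) := by
    intro z hz hz'
    have h1 := h.sub_average_le hq hδ x z hz
    have h2 : |(δ ^ 2)⁻¹ * ∫ y in Sq δ, φ (z + y)| ≤ (δ ^ 2)⁻¹ *
        (|∫ y in Sq δ, φ ((3 / 8, 1 / 2) + y)| + |∫ y in Sq δ, φ ((5 / 8, 1 / 2) + y)|) := by
      rw [abs_mul, abs_of_nonneg (inv_nonneg.2 hδ2.le)]
      exact mul_le_mul_of_nonneg_left hz' (inv_nonneg.2 hδ2.le)
    calc |φ x| = |(φ x - (δ ^ 2)⁻¹ * ∫ y in Sq δ, φ (z + y)) +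
          (δ ^ 2)⁻¹ * ∫ y in Sq δ, φ (z + y)| := by ring_nf
      _ ≤ _ := (abs_add_le _ _).trans (add_le_add h1 h2)
  have hvan : ∀ z : ℝ × ℝ, (∀ y ∈ Sq δ, z + y ∉ Om) → ∫ y in Sq δ, φ (z + y) = 0 := by
    intro z hz
    rw [setIntegral_congr_fun (measurableSet_Sq δ) (g := fun _ => 0)
      fun y hy => h.eq_zero_of_notMem (hz y hy)]
    simp
  have hnn : 0 ≤ |∫ y in Sq δ, φ ((3 / 8, 1 / 2) + y)| +
      |∫ y in Sq δ, φ ((5 / 8, 1 / 2) + y)| := by positivity
  rw [Om, mem_prod, mem_Ioo, mem_Ioo] at hx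
  obtain ⟨⟨hx1, hx1'⟩, hx2, hx2'⟩ := hx
  by_cases c1 : x.1 ≤ 17 / 64
  · refine main (-(δ / 2), x.2) ?_ ?_
    · intro y hy'
      obtain ⟨h1, h2⟩ := hy y hy'
      rw [abs_le] at h1
      have := sqrt_sq_add_sq_le (a := -(δ / 2) + y.1 - x.1) (b := x.2 + y.2 - x.2)
        (A := 17 / 64 + δ) (B := δ / 2) (by rw [abs_le]; constructor <;> linarith [h1.1, h1.2])
        (by rw [add_sub_cancel_left]; exact h2)
      refine this.trans ?_
      linarith
    · rw [hvan _ fun y hy' hmem => ?_]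
      · simpa using hnn
      · obtain ⟨h1, -⟩ := hy y hy'
        rw [abs_le] at h1
        rw [Om, mem_prod, mem_Ioo] at hmem
        have := hmem.1.1
        simp only [Prod.fst_add] at this
        linarith [h1.2]
  by_cases c2 : 47 / 64 ≤ x.1
  · refine main (1 + δ / 2, x.2) ?_ ?_
    · intro y hy'
      obtain ⟨h1, h2⟩ := hy y hy'
      rw [abs_le] at h1
      have := sqrt_sq_add_sq_le (a := 1 + δ / 2 + y.1 - x.1) (b := x.2 + y.2 - x.2)
        (A := 17 / 64 + δ) (B := δ / 2) (by rw [abs_le]; constructor <;> linarith [h1.1, h1.2])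
        (by rw [add_sub_cancel_left]; exact h2)
      refine this.trans ?_
      linarith
    · rw [hvan _ fun y hy' hmem => ?_]
      · simpa using hnn
      · obtain ⟨h1, -⟩ := hy y hy'
        rw [abs_le] at h1
        rw [Om, mem_prod, mem_Ioo] at hmem
        have := hmem.1.2
        simp only [Prod.fst_add] at this
        linarith [h1.1]
  by_cases c3 : x.2 ≤ 17 / 64
  · refine main (x.1, -(δ / 2)) ?_ ?_
    · intro y hy'
      obtain ⟨h1, h2⟩ := hy y hy'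
      rw [abs_le] at h2
      have := sqrt_sq_add_sq_le (a := x.1 + y.1 - x.1) (b := -(δ / 2) + y.2 - x.2)
        (A := δ / 2) (B := 17 / 64 + δ) (by rw [add_sub_cancel_left]; exact h1)
        (by rw [abs_le]; constructor <;> linarith [h2.1, h2.2])
      refine this.trans ?_
      linarith
    · rw [hvan _ fun y hy' hmem => ?_]
      · simpa using hnn
      · obtain ⟨-, h2⟩ := hy y hy'
        rw [abs_le] at h2
        rw [Om, mem_prod, mem_Ioo, mem_Ioo] at hmem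
        have := hmem.2.1
        simp only [Prod.snd_add] at this
        linarith [h2.2]
  by_cases c4 : 47 / 64 ≤ x.2
  · refine main (x.1, 1 + δ / 2) ?_ ?_
    · intro y hy'
      obtain ⟨h1, h2⟩ := hy y hy'
      rw [abs_le] at h2
      have := sqrt_sq_add_sq_le (a := x.1 + y.1 - x.1) (b := 1 + δ / 2 + y.2 - x.2)
        (A := δ / 2) (B := 17 / 64 + δ) (by rw [add_sub_cancel_left]; exact h1)
        (by rw [abs_le]; constructor <;> linarith [h2.1, h2.2])
      refine this.trans ?_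
      linarith
    · rw [hvan _ fun y hy' hmem => ?_]
      · simpa using hnn
      · obtain ⟨-, h2⟩ := hy y hy'
        rw [abs_le] at h2
        rw [Om, mem_prod, mem_Ioo, mem_Ioo] at hmem
        have := hmem.2.2
        simp only [Prod.snd_add] at this
        linarith [h2.1]
  push Not at c1 c2 c3 c4
  have hcore : ∀ c : ℝ, (c - x.1) ^ 2 ≤ (1 / 8) ^ 2 → ∀ y ∈ Sq δ,
      Real.sqrt ((c + y.1 - x.1) ^ 2 + (1 / 2 + y.2 - x.2) ^ 2) ≤ 17 / 64 + 2 * δ := by
    intro c hc y hy'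
    obtain ⟨h1, h2⟩ := hy y hy'
    have h3 := sqrt_add_le (c - x.1) (1 / 2 - x.2) y.1 y.2
    rw [show c - x.1 + y.1 = c + y.1 - x.1 by ring,
      show 1 / 2 - x.2 + y.2 = 1 / 2 + y.2 - x.2 by ring] at h3
    have h4 : Real.sqrt ((c - x.1) ^ 2 + (1 / 2 - x.2) ^ 2) ≤ 17 / 64 := by
      rw [Real.sqrt_le_left (by norm_num)]
      have h5 : (1 / 2 - x.2) ^ 2 ≤ (15 / 64) ^ 2 := by
        apply sq_le_sq'
        · linarith
        · linarith
      norm_num at hc h5 ⊢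
      linarith
    linarith
  by_cases c5 : x.1 ≤ 1 / 2
  · refine main (3 / 8, 1 / 2) (hcore _ ?_) ?_
    · apply sq_le_sq'
      · linarith
      · linarith
    · linarith [abs_nonneg (∫ y in Sq δ, φ ((5 / 8, 1 / 2) + y))]
  · push Not at c5
    refine main (5 / 8, 1 / 2) (hcore _ ?_) ?_
    · apply sq_le_sq'
      · linarith
      · linarith
    · linarith [abs_nonneg (∫ y in Sq δ, φ ((3 / 8, 1 / 2) + y))]

/-- the two functionals -/
noncomputable def Fpt (p : ℝ≥0∞) (δ : ℝ) (w : Amb p) : Fin 2 → ℝ :=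
  ![∫ z, chi (3 / 8, 1 / 2) δ z * w.1 z ∂muOm, ∫ z, chi (5 / 8, 1 / 2) δ z * w.1 z ∂muOm]

theorem continuous_Fpt (δ : ℝ) : Continuous (Fpt p δ) := by
  refine continuous_pi fun i => ?_
  fin_cases i
  · exact continuous_pairing (measurable_chi _ _) (abs_chi_le _ _)
  · exact continuous_pairing (measurable_chi _ _) (abs_chi_le _ _)

theorem pairing_neg (h : ℝ × ℝ → ℝ) (w : Amb p) :
    ∫ z, h z * (-w).1 z ∂muOm = -∫ z, h z * w.1 z ∂muOm := by
  rw [← integral_neg]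
  refine integral_congr_ae ?_
  filter_upwards [Lp.coeFn_neg w.1] with z hz
  rw [Prod.fst_neg, hz, Pi.neg_apply, mul_neg]

theorem Fpt_neg (δ : ℝ) (w : Amb p) : Fpt p δ (-w) = -Fpt p δ w := by
  funext i
  fin_cases i
  · exact pairing_neg _ w
  · exact pairing_neg _ w

/-- The inequality on `W₀`. -/
theorem W0_sup_bound (hp : p ≠ ∞) (hq : 2 < p.toReal) {δ : ℝ} (hδ : 0 < δ) {w : Amb p}
    (hw : w ∈ W0 p) :
    mass p w ^ (1 / p.toReal) ≤
      (17 / 64 + 2 * δ) * δ ^ (-(2 / p.toReal)) / (1 - 2 / p.toReal) *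
        energy p w ^ (1 / p.toReal) +
      (δ ^ 2)⁻¹ * (|Fpt p δ w 0| + |Fpt p δ w 1|) := by
  have hq0 : 0 < p.toReal := by linarith
  have hcl : IsClosed {w : Amb p | mass p w ^ (1 / p.toReal) ≤
      (17 / 64 + 2 * δ) * δ ^ (-(2 / p.toReal)) / (1 - 2 / p.toReal) *
        energy p w ^ (1 / p.toReal) +
      (δ ^ 2)⁻¹ * (|Fpt p δ w 0| + |Fpt p δ w 1|)} := by
    refine isClosed_le ?_ ?_
    · exact (continuous_mass hp).rpow_const fun _ => Or.inr (by positivity)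
    · refine (continuous_const.mul ((continuous_energy hp).rpow_const
        fun _ => Or.inr (by positivity))).add (continuous_const.mul ?_)
      exact (((continuous_apply 0).comp (continuous_Fpt δ)).abs).add
        (((continuous_apply 1).comp (continuous_Fpt δ)).abs)
  refine closure_minimal ?_ hcl hw
  intro w hw
  obtain ⟨φ, hφ, rfl⟩ := eq_toTriple hw
  simp only [mem_ofPred_eq]
  have hF0 : Fpt p δ (toTriple p hφ) 0 = ∫ y in Sq δ, φ ((3 / 8, 1 / 2) + y) := by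
    rw [← integral_chi_mul hφ]
    refine integral_congr_ae ?_
    filter_upwards [MemLp.coeFn_toLp (hφ.memLp (p := p))] with z hz
    simp only [toTriple]
    rw [hz]
  have hF1 : Fpt p δ (toTriple p hφ) 1 = ∫ y in Sq δ, φ ((5 / 8, 1 / 2) + y) := by
    rw [← integral_chi_mul hφ]
    refine integral_congr_ae ?_
    filter_upwards [MemLp.coeFn_toLp (hφ.memLp (p := p))] with z hz
    simp only [toTriple]
    rw [hz]
  rw [hF0, hF1, mass_toTriple, energy_toTriple, ← hφ.integral_gr hq0]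
  set B := (17 / 64 + 2 * δ) * δ ^ (-(2 / p.toReal)) / (1 - 2 / p.toReal) *
        (∫ z, gr φ z ^ p.toReal) ^ (1 / p.toReal) +
      (δ ^ 2)⁻¹ * (|∫ y in Sq δ, φ ((3 / 8, 1 / 2) + y)| +
        |∫ y in Sq δ, φ ((5 / 8, 1 / 2) + y)|) with hB
  have hb : ∀ x ∈ Om, |φ x| ≤ B := fun x hx => hφ.sup_bound hq hδ hx
  have hB0 : 0 ≤ B := (abs_nonneg _).trans (hb (1 / 2, 1 / 2) (by
    rw [Om, mem_prod]; norm_num))
  have h1 : ∫ z, |φ z| ^ p.toReal ∂muOm ≤ B ^ p.toReal := by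
    calc ∫ z, |φ z| ^ p.toReal ∂muOm ≤ ∫ z, B ^ p.toReal ∂muOm := by
          refine integral_mono_ae (hφ.integrable_rpow hq0) (integrable_const _) ?_
          filter_upwards [ae_muOm_mem] with z hz
          exact Real.rpow_le_rpow (abs_nonneg _) (hb z hz) hq0.le
      _ = B ^ p.toReal := by simp
  calc (∫ z, |φ z| ^ p.toReal ∂muOm) ^ (1 / p.toReal) ≤ (B ^ p.toReal) ^ (1 / p.toReal) :=
        Real.rpow_le_rpow (integral_nonneg fun z => Real.rpow_nonneg (abs_nonneg _) _) h1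
          (by positivity)
    _ = B := by
        rw [← Real.rpow_mul hB0, mul_one_div_cancel hq0.ne', Real.rpow_one]

/-- Lower bound for `λ₃`. -/
theorem lam_three_ge (hp : p ≠ ∞) (hq : 2 < p.toReal) {δ : ℝ} (hδ : 0 < δ) :
    ((17 / 64 + 2 * δ) * δ ^ (-(2 / p.toReal)) / (1 - 2 / p.toReal)) ^ (-p.toReal) ≤ lam p 3 := by
  have hq0 : 0 < p.toReal := by linarith
  have h12 : 0 < 1 - 2 / p.toReal := by
    have : 2 / p.toReal < 1 := (div_lt_one hq0).2 hq
    linarith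
  set K := (17 / 64 + 2 * δ) * δ ^ (-(2 / p.toReal)) / (1 - 2 / p.toReal) with hK
  have hK0 : 0 < K := by positivity
  refine le_lam_three hp (continuous_Fpt δ).continuousOn (Fpt_neg δ) ?_ (Fam_three_nonempty hp)
  rintro w ⟨hw, hm⟩ hF
  have h1 := W0_sup_bound hp hq hδ hw
  rw [hm, hF] at h1
  simp only [Real.one_rpow, Pi.zero_apply, abs_zero, add_zero, mul_zero] at h1
  rw [← hK] at h1
  have h2 := Real.rpow_le_rpow zero_le_one h1 hq0.le
  rw [Real.one_rpow, Real.mul_rpow hK0.le (Real.rpow_nonneg (energy_nonneg w) _),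
    ← Real.rpow_mul (energy_nonneg w), one_div_mul_cancel hq0.ne', Real.rpow_one] at h2
  rw [Real.rpow_neg hK0.le, inv_le_iff_one_le_mul₀ (Real.rpow_pos_of_pos hK0 _)]
  linarith

end Pool.Agent.Helper270_PL
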