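import Pool.Agent.Helper270_PL.Psi

/-!
# The map `t ↦ |t|^(s-1) t` and Young's inequality
-/

open MeasureTheory Set Filter Topology
open scoped ENNReal

namespace Pool.Agent.Helper270_PL

/-- signed power -/
noncomputable def sgp (s t : ℝ) : ℝ := |t| ^ (s - 1) * t

theorem abs_sgp {s : ℝ} (hs : s ≠ 0) (t : ℝ) : |sgp s t| = |t| ^ s := by
  rw [sgp, abs_mul, abs_of_nonneg (Real.rpow_nonneg (abs_nonneg _) _)]
  rcases eq_or_ne t 0 with h | h
  · subst h; simp [Real.zero_rpow hs]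
  · rw [Real.rpow_sub_one (abs_pos.2 h).ne', div_mul_cancel₀ _ (abs_pos.2 h).ne']

theorem hasDerivAt_sgp {s : ℝ} (hs : 1 < s) (t : ℝ) :
    HasDerivAt (sgp s) (s * |t| ^ (s - 1)) t := by
  rcases eq_or_ne t 0 with h | h
  · subst h
    rw [abs_zero, Real.zero_rpow (by linarith), mul_zero, hasDerivAt_iff_isLittleO]
    simp only [sgp, mul_zero, sub_zero, smul_eq_mul]
    have h1 : Tendsto (fun x : ℝ => |x| ^ (s - 1)) (𝓝 0) (𝓝 0) := by
      have : Continuous fun x : ℝ => |x| ^ (s - 1) :=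
        continuous_abs.rpow_const fun _ => Or.inr (by linarith)
      have h2 := this.tendsto 0
      rwa [abs_zero, Real.zero_rpow (by linarith)] at h2
    have h3 := (Asymptotics.isLittleO_one_iff ℝ).2 h1
    have h4 := h3.mul_isBigO (Asymptotics.isBigO_refl (fun x : ℝ => x) (𝓝 0))
    simpa using h4
  · have h0 : |t| ≠ 0 := (abs_pos.2 h).ne'
    have h1 : HasDerivAt (fun x : ℝ => |x|) (SignType.sign t : ℝ) t := hasDerivAt_abs h
    have h2 : HasDerivAt (fun x : ℝ => |x| ^ (s - 1)) _ t := h1.rpow_const (p := s - 1) (Or.inl h0)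
    have h3 := h2.mul (hasDerivAt_id t)
    refine HasDerivAt.congr_deriv (f := sgp s) h3 ?_
    simp only [id, mul_one]
    have h4 : (SignType.sign t : ℝ) * t = |t| := by
      rw [mul_comm]; exact self_mul_sign t
    have h5 : |t| ^ (s - 1 - 1) * |t| = |t| ^ (s - 1) := by
      rw [Real.rpow_sub_one h0, div_mul_cancel₀ _ h0]
    calc (SignType.sign t : ℝ) * (s - 1) * |t| ^ (s - 1 - 1) * t + |t| ^ (s - 1)
        = (s - 1) * (|t| ^ (s - 1 - 1) * ((SignType.sign t : ℝ) * t)) + |t| ^ (s - 1) := by ring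
      _ = s * |t| ^ (s - 1) := by rw [h4, h5]; ring

theorem contDiff_sgp {s : ℝ} (hs : 1 < s) : ContDiff ℝ 1 (sgp s) := by
  rw [contDiff_one_iff_deriv]
  refine ⟨fun t => (hasDerivAt_sgp hs t).differentiableAt, ?_⟩
  have : deriv (sgp s) = fun t => s * |t| ^ (s - 1) := funext fun t => (hasDerivAt_sgp hs t).deriv
  rw [this]
  exact continuous_const.mul (continuous_abs.rpow_const fun _ => Or.inr (by linarith))

theorem sgp_zero {s : ℝ} : sgp s 0 = 0 := by simp [sgp]

theorem C1c.sgp_comp {u : ℝ × ℝ → ℝ} (h : C1c u) {s : ℝ} (hs : 1 < s) :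
    C1c fun z => sgp s (u z) := by
  refine ⟨(contDiff_sgp hs).comp h.1, ?_, ?_⟩
  · exact h.2.1.comp_left (g := sgp s) sgp_zero
  · exact (tsupport_comp_subset (g := sgp s) sgp_zero u).trans h.2.2

theorem dX_sgp_comp {u : ℝ × ℝ → ℝ} (h : Differentiable ℝ u) {s : ℝ} (hs : 1 < s) (z : ℝ × ℝ) :
    dX (fun z => sgp s (u z)) z = s * |u z| ^ (s - 1) * dX u z := by
  have := (hasDerivAt_sgp hs (u z)).comp_hasFDerivAt z (h z).hasFDerivAt
  have e : (fun z => sgp s (u z)) = sgp s ∘ u := rfl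
  rw [dX, e, this.fderiv]
  simp [dX]

theorem dY_sgp_comp {u : ℝ × ℝ → ℝ} (h : Differentiable ℝ u) {s : ℝ} (hs : 1 < s) (z : ℝ × ℝ) :
    dY (fun z => sgp s (u z)) z = s * |u z| ^ (s - 1) * dY u z := by
  have := (hasDerivAt_sgp hs (u z)).comp_hasFDerivAt z (h z).hasFDerivAt
  have e : (fun z => sgp s (u z)) = sgp s ∘ u := rfl
  rw [dY, e, this.fderiv]
  simp [dY]

/-- Young's inequality in the form used here -/
theorem young_pt {p b Y G : ℝ} (hp : 2 < p) (hb : 0 < b) (hY : 0 ≤ Y) (hG : 0 ≤ G) :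
    p / 2 * b ^ (p - 2) * Y ^ (p - 2) * G - (p - 2) / 2 * b ^ p * Y ^ p ≤ G ^ (p / 2) := by
  have hp0 : 0 < p := by linarith
  have hbY : 0 ≤ b * Y := by positivity
  have h := Real.geom_mean_le_arith_mean2_weighted (w₁ := 2 / p) (w₂ := (p - 2) / p)
    (p₁ := G ^ (p / 2)) (p₂ := (b * Y) ^ p) (by positivity)
    (div_nonneg (by linarith) hp0.le) (by positivity) (by positivity) (by field_simp; ring)
  rw [← Real.rpow_mul hG, ← Real.rpow_mul hbY, show p / 2 * (2 / p) = 1 by field_simp,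
    show p * ((p - 2) / p) = p - 2 by field_simp, Real.rpow_one, Real.mul_rpow hb.le hY,
    Real.mul_rpow hb.le hY] at h
  have h2 := mul_le_mul_of_nonneg_left h (by positivity : 0 ≤ p / 2)
  have e : p / 2 * (2 / p * G ^ (p / 2) + (p - 2) / p * (b ^ p * Y ^ p)) =
      G ^ (p / 2) + (p - 2) / 2 * b ^ p * Y ^ p := by
    field_simp
  rw [e] at h2
  linarith

/-- the signed power is close to the identity -/
theorem abs_sgp_sub_le {s : ℝ} (hs : 1 < s) (t : ℝ) :
    |sgp s t - t| ≤ (s - 1) * (1 + |t| ^ (2 * s)) := by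
  have hs1 : 0 < s - 1 := by linarith
  rcases eq_or_ne t 0 with h | h
  · subst h
    rw [sgp_zero, sub_zero, abs_zero]
    positivity
  have ht : 0 < |t| := abs_pos.2 h
  have e : sgp s t - t = (|t| ^ (s - 1) - 1) * t := by rw [sgp]; ring
  rw [e, abs_mul]
  rcases le_total 1 |t| with h1 | h1
  · have g1 : 1 ≤ |t| ^ (s - 1) := Real.one_le_rpow h1 hs1.le
    rw [abs_of_nonneg (by linarith)]
    have g2 : |t| ^ (s - 1) - 1 ≤ (s - 1) * Real.log |t| * |t| ^ (s - 1) := by
      have := Real.add_one_le_exp (-(Real.log |t| * (s - 1)))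
      rw [Real.exp_neg, ← Real.rpow_def_of_pos ht] at this
      have g3 : 0 < |t| ^ (s - 1) := by positivity
      have g4 := mul_le_mul_of_nonneg_right this g3.le
      rw [inv_mul_cancel₀ g3.ne'] at g4
      linarith
    have g3 : Real.log |t| ≤ |t| ^ s := by
      calc Real.log |t| ≤ |t| := Real.log_le_self ht.le
        _ = |t| ^ (1 : ℝ) := (Real.rpow_one _).symm
        _ ≤ |t| ^ s := Real.rpow_le_rpow_of_exponent_le h1 hs.le
    have g4 : |t| ^ (s - 1) * |t| = |t| ^ s := by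
      rw [Real.rpow_sub_one ht.ne', div_mul_cancel₀ _ ht.ne']
    calc (|t| ^ (s - 1) - 1) * |t| ≤ (s - 1) * Real.log |t| * |t| ^ (s - 1) * |t| :=
          mul_le_mul_of_nonneg_right g2 ht.le
      _ = (s - 1) * Real.log |t| * |t| ^ s := by rw [mul_assoc, g4]
      _ ≤ (s - 1) * |t| ^ s * |t| ^ s := by gcongr
      _ = (s - 1) * |t| ^ (2 * s) := by
          rw [mul_assoc, ← Real.rpow_add ht]; ring_nf
      _ ≤ _ := by nlinarith
  · have g1 : |t| ^ (s - 1) ≤ 1 := Real.rpow_le_one ht.le h1 hs1.le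
    rw [abs_of_nonpos (by linarith)]
    have g2 : 1 - |t| ^ (s - 1) ≤ (s - 1) * (-Real.log |t|) := by
      have := Real.add_one_le_exp (Real.log |t| * (s - 1))
      rw [← Real.rpow_def_of_pos ht] at this
      linarith
    have g3 : -Real.log |t| * |t| ≤ 1 := by
      have := Real.one_sub_inv_le_log_of_pos ht
      have g5 := mul_le_mul_of_nonneg_right this ht.le
      rw [sub_mul, inv_mul_cancel₀ ht.ne'] at g5
      linarith
    calc -(|t| ^ (s - 1) - 1) * |t| = (1 - |t| ^ (s - 1)) * |t| := by ring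
      _ ≤ (s - 1) * (-Real.log |t|) * |t| := mul_le_mul_of_nonneg_right g2 ht.le
      _ = (s - 1) * (-Real.log |t| * |t|) := by ring
      _ ≤ (s - 1) * 1 := by gcongr
      _ ≤ _ := by
        have : 0 ≤ |t| ^ (2 * s) := by positivity
        nlinarith

end Pool.Agent.Helper270_PL
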