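import Pool.Agent.Helper270_PL.AboveQuad
import Pool.Agent.Helper270_PL.Power
import Pool.Agent.Helper270_PL.LargeLower

/-!
# Lower bound for `λ₃` for exponents above `2`
-/

open MeasureTheory Set Filter Topology
open scoped ENNReal

namespace Pool.Agent.Helper270_PL

variable {α β : ℝ}

theorem IsTest.above_energy {u : ℝ × ℝ → ℝ} (hu : IsTest u) (h : α ^ 2 + β ^ 2 = 1) {q : ℝ}
    (hq : 2 < q) {b : ℝ × ℝ → ℝ} (hb : Continuous b) (hb0 : ∀ z, 0 < b z) {k1 c1 X : ℝ}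
    (hk1 : ∀ z, |2 / q * b z ^ (q - 2) - 1| ≤ k1) (hc1 : ∀ z, |(q - 2) / 2 * b z ^ q| ≤ c1)
    (hk : k1 ≤ 1 / 16) (hcc : c1 ≤ 1)
    (hX : X = ∫ z, ((2 / q * b z ^ (q - 2) - 1) * (psiX α β z ^ 2 + psiY α β z ^ 2) -
      (q - 2) / 2 * b z ^ q * psi α β z ^ 2) ∂muOm -
      16 * k1 ^ 2 * (5 * Real.pi ^ 2) - 16 * c1 ^ 2) (hX1 : X ≤ 1) :
    (5 * Real.pi ^ 2 + X) * ∫ z, |u z| ^ q ∂muOm -
      (6 * Real.pi ^ 2 * cf (fun z => sgp (q / 2) (u z)) 0 0 ^ 2 +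
        3 * Real.pi ^ 2 * (∫ z, sgp (q / 2) (u z) * psi (-β) α z ∂muOm) ^ 2) ≤
    ∫ z, (dX u z ^ 2 + dY u z ^ 2) ^ (q / 2) ∂muOm := by
  have hs : 1 < q / 2 := by linarith
  have hv := hu.c1c.sgp_comp hs
  have hK : Continuous fun z => 2 / q * b z ^ (q - 2) :=
    continuous_const.mul (hb.rpow_const fun z => Or.inl (hb0 z).ne')
  have hc : Continuous fun z => (q - 2) / 2 * b z ^ q :=
    continuous_const.mul (hb.rpow_const fun z => Or.inl (hb0 z).ne')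
  have h1 := hv.quad_bound h hK hc hk1 hc1 hk hcc hX hX1
  have h2 : ∀ z, sgp (q / 2) (u z) ^ 2 = |u z| ^ q := by
    intro z
    rw [← sq_abs, abs_sgp (by linarith), ← Real.rpow_natCast, ← Real.rpow_mul (abs_nonneg _)]
    congr 1
    push_cast
    ring
  simp only [h2] at h1
  refine h1.trans ?_
  have hcu := hu.continuous
  have hcX := hu.continuous_dX
  have hcY := hu.continuous_dY
  refine int_mono ?_ ?_ ?_
  · have c1 := continuous_dX_of hv.1
    have c2 := continuous_dY_of hv.1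
    have c3 : Continuous fun z => |u z| ^ q := hcu.abs.rpow_const fun _ => Or.inr (by linarith)
    exact (hK.mul ((c1.pow 2).add (c2.pow 2))).sub (hc.mul c3)
  · exact ((hcX.pow 2).add (hcY.pow 2)).rpow_const fun _ => Or.inr (by linarith)
  · intro z
    rw [dX_sgp_comp hu.differentiable hs, dY_sgp_comp hu.differentiable hs]
    have h3 := young_pt (p := q) (b := b z) (Y := |u z|) (G := dX u z ^ 2 + dY u z ^ 2) hq (hb0 z)
      (abs_nonneg _) (by positivity)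
    have h4 : (|u z| ^ (q / 2 - 1)) ^ 2 = |u z| ^ (q - 2) := by
      rw [← Real.rpow_natCast, ← Real.rpow_mul (abs_nonneg _)]
      congr 1
      push_cast
      ring
    refine le_trans (le_of_eq ?_) h3
    have hq0 : q ≠ 0 := by linarith
    have e : (q / 2 * |u z| ^ (q / 2 - 1) * dX u z) ^ 2 + (q / 2 * |u z| ^ (q / 2 - 1) * dY u z) ^ 2 =
        (q / 2) ^ 2 * (|u z| ^ (q / 2 - 1)) ^ 2 * (dX u z ^ 2 + dY u z ^ 2) := by ring
    rw [e, h4]
    field_simp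

theorem integral_sgp_sub_le {u : ℝ × ℝ → ℝ} (hu : Continuous u) {s : ℝ} (hs : 1 < s)
    {h : ℝ × ℝ → ℝ} (hh : Continuous h) {C : ℝ} (hC : ∀ z, |h z| ≤ C) :
    |∫ z, sgp s (u z) * h z ∂muOm| ≤ |∫ z, h z * u z ∂muOm| +
      C * ((s - 1) * (1 + ∫ z, |u z| ^ (2 * s) ∂muOm)) := by
  have hC0 : 0 ≤ C := (abs_nonneg _).trans (hC 0)
  have c1 : Continuous fun z => sgp s (u z) := (contDiff_sgp hs).continuous.comp hu
  have c2 : Continuous fun z => |u z| ^ (2 * s) := hu.abs.rpow_const fun _ => Or.inr (by linarith)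
  have e : ∫ z, sgp s (u z) * h z ∂muOm = ∫ z, h z * u z ∂muOm +
      ∫ z, (sgp s (u z) - u z) * h z ∂muOm := by
    rw [← int_add (by fun_prop) (by fun_prop)]
    refine integral_congr_ae (Eventually.of_forall fun z => ?_)
    simp only
    ring
  rw [e]
  refine (abs_add_le _ _).trans (add_le_add le_rfl ?_)
  have h1 : |∫ z, (sgp s (u z) - u z) * h z ∂muOm| ≤ ∫ z, C * ((s - 1) * (1 + |u z| ^ (2 * s))) ∂muOm := by
    refine abs_integral_le_integral_abs.trans ?_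
    refine int_mono (by fun_prop) (by fun_prop) fun z => ?_
    rw [abs_mul, mul_comm]
    exact mul_le_mul (hC z) (abs_sgp_sub_le hs _) (abs_nonneg _) hC0
  refine h1.trans (le_of_eq ?_)
  rw [integral_const_mul, integral_const_mul, int_add (by fun_prop) (by fun_prop)]
  simp

variable {p : ℝ≥0∞} [Fact (1 ≤ p)]

/-- the two linear functionals -/
noncomputable def Flin (p : ℝ≥0∞) (α β : ℝ) (w : Amb p) : Fin 2 → ℝ :=
  ![∫ z, ee 0 0 z * w.1 z ∂muOm, ∫ z, psi (-β) α z * w.1 z ∂muOm]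

theorem continuous_Flin (h : α ^ 2 + β ^ 2 = 1) : Continuous (Flin p α β) := by
  refine continuous_pi fun i => ?_
  fin_cases i
  · exact continuous_pairing (continuous_ee 0 0).measurable (abs_ee_le 0 0)
  · exact continuous_pairing (continuous_psi (-β) α).measurable
      (abs_psi_le (by rw [neg_sq]; linarith))

theorem Flin_neg (w : Amb p) : Flin p α β (-w) = -Flin p α β w := by
  funext i
  fin_cases i
  · exact pairing_neg _ w
  · exact pairing_neg _ w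

omit [Fact (1 ≤ p)] in
theorem Flin_toTriple_zero {φ : ℝ × ℝ → ℝ} (hφ : IsTest φ) :
    Flin p α β (toTriple p hφ) 0 = ∫ z, ee 0 0 z * φ z ∂muOm := by
  refine integral_congr_ae ?_
  filter_upwards [MemLp.coeFn_toLp (hφ.memLp (p := p))] with z hz
  simp only [toTriple]
  rw [hz]

omit [Fact (1 ≤ p)] in
theorem Flin_toTriple_one {φ : ℝ × ℝ → ℝ} (hφ : IsTest φ) :
    Flin p α β (toTriple p hφ) 1 = ∫ z, psi (-β) α z * φ z ∂muOm := by
  refine integral_congr_ae ?_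
  filter_upwards [MemLp.coeFn_toLp (hφ.memLp (p := p))] with z hz
  simp only [toTriple]
  rw [hz]

/-- Lower bound of `λ₃` from a bound on test functions almost annihilated by the functionals. -/
theorem lam_three_ge_of_test (hp : p ≠ ∞) (h : α ^ 2 + β ^ 2 = 1) {c η : ℝ} (hη : 0 < η)
    (hT : ∀ φ, IsTest φ → |∫ z, ee 0 0 z * φ z ∂muOm| < η → |∫ z, psi (-β) α z * φ z ∂muOm| < η →
      1 / 2 < ∫ z, |φ z| ^ p.toReal ∂muOm → ∫ z, |φ z| ^ p.toReal ∂muOm < 2 →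
      c * ∫ z, |φ z| ^ p.toReal ∂muOm ≤
        ∫ z, (dX φ z ^ 2 + dY φ z ^ 2) ^ (p.toReal / 2) ∂muOm) : c ≤ lam p 3 := by
  refine le_lam_three hp (continuous_Flin h).continuousOn Flin_neg ?_ (Fam_three_nonempty hp)
  rintro w ⟨hw, hm⟩ hF
  have cF := continuous_Flin (p := p) h
  set U : Set (Amb p) := {w | |Flin p α β w 0| < η} ∩ {w | |Flin p α β w 1| < η} ∩
    ({w | 1 / 2 < mass p w} ∩ {w | mass p w < 2}) with hU
  have hUo : IsOpen U := by
    refine ((isOpen_lt (((continuous_apply 0).comp cF).abs) continuous_const).inter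
      (isOpen_lt (((continuous_apply 1).comp cF).abs) continuous_const)).inter
      ((isOpen_lt continuous_const (continuous_mass hp)).inter
      (isOpen_lt (continuous_mass hp) continuous_const))
  have hwU : w ∈ U := by
    refine ⟨⟨?_, ?_⟩, ⟨?_, ?_⟩⟩
    · simp only [mem_ofPred_eq, hF]; simpa using hη
    · simp only [mem_ofPred_eq, hF]; simpa using hη
    · simp only [mem_ofPred_eq, hm]; norm_num
    · simp only [mem_ofPred_eq, hm]; norm_num
  have := W0_principle hp hUo (c := c) ?_ hw hwU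
  · rwa [hm, mul_one] at this
  · intro φ hφ hφU
    obtain ⟨⟨h1, h2⟩, ⟨h3, h4⟩⟩ := hφU
    simp only [mem_ofPred_eq] at h1 h2 h3 h4
    rw [Flin_toTriple_zero] at h1
    rw [Flin_toTriple_one] at h2
    rw [mass_toTriple] at h3 h4 ⊢
    rw [energy_toTriple]
    exact hT φ hφ h1 h2 h3 h4

theorem lam_three_ge_above (hp : p ≠ ∞) (h : α ^ 2 + β ^ 2 = 1) {ε : ℝ} (hε : 0 < ε)
    (hpe : p.toReal = 2 + ε) {b : ℝ × ℝ → ℝ} (hb : Continuous b) (hb0 : ∀ z, 0 < b z) {k1 c1 X : ℝ}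
    (hk1 : ∀ z, |2 / (2 + ε) * b z ^ ε - 1| ≤ k1) (hc1 : ∀ z, |ε / 2 * b z ^ (2 + ε)| ≤ c1)
    (hk : k1 ≤ 1 / 16) (hcc : c1 ≤ 1)
    (hX : X = ∫ z, ((2 / (2 + ε) * b z ^ ε - 1) * (psiX α β z ^ 2 + psiY α β z ^ 2) -
      ε / 2 * b z ^ (2 + ε) * psi α β z ^ 2) ∂muOm -
      16 * k1 ^ 2 * (5 * Real.pi ^ 2) - 16 * c1 ^ 2) (hX1 : X ≤ 1) :
    5 * Real.pi ^ 2 + X - 3042 * Real.pi ^ 2 * ε ^ 2 ≤ lam p 3 := by
  refine lam_three_ge_of_test hp h hε fun φ hφ h1 h2 h3 h4 => ?_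
  rw [hpe] at h3 h4 ⊢
  have e2 : (2 + ε) - 2 = ε := by ring
  have key := hφ.above_energy (q := 2 + ε) h (by linarith) hb hb0 (k1 := k1) (c1 := c1) (X := X)
    (by rw [e2]; exact hk1) (by rw [e2]; exact hc1) hk hcc (by rw [e2]; exact hX) hX1
  set M := ∫ z, |φ z| ^ (2 + ε) ∂muOm with hM
  have hs : 1 < (2 + ε) / 2 := by linarith
  have g1 := integral_sgp_sub_le hφ.continuous hs (continuous_ee 0 0) (abs_ee_le 0 0)
  have g2 := integral_sgp_sub_le hφ.continuous hs (continuous_psi (-β) α)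
    (abs_psi_le (by rw [neg_sq]; linarith))
  rw [show 2 * ((2 + ε) / 2) = 2 + ε by ring, ← hM] at g1 g2
  have g3 : |cf (fun z => sgp ((2 + ε) / 2) (φ z)) 0 0| ≤ 13 * ε := by
    rw [cf]
    refine g1.trans ?_
    nlinarith
  have g4 : |∫ z, sgp ((2 + ε) / 2) (φ z) * psi (-β) α z ∂muOm| ≤ 13 * ε := by
    refine g2.trans ?_
    nlinarith
  have g5 : cf (fun z => sgp ((2 + ε) / 2) (φ z)) 0 0 ^ 2 ≤ (13 * ε) ^ 2 :=
    sq_le_sq' (by linarith [(abs_le.1 g3).1]) (abs_le.1 g3).2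
  have g6 : (∫ z, sgp ((2 + ε) / 2) (φ z) * psi (-β) α z ∂muOm) ^ 2 ≤ (13 * ε) ^ 2 :=
    sq_le_sq' (by linarith [(abs_le.1 g4).1]) (abs_le.1 g4).2
  have hpi : 0 < Real.pi ^ 2 := by positivity
  have g7 : 6 * Real.pi ^ 2 * cf (fun z => sgp ((2 + ε) / 2) (φ z)) 0 0 ^ 2 +
        3 * Real.pi ^ 2 * (∫ z, sgp ((2 + ε) / 2) (φ z) * psi (-β) α z ∂muOm) ^ 2 ≤
      1521 * Real.pi ^ 2 * ε ^ 2 := by
    nlinarith [mul_le_mul_of_nonneg_left g5 hpi.le, mul_le_mul_of_nonneg_left g6 hpi.le]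
  have g8 : 1521 * Real.pi ^ 2 * ε ^ 2 ≤ 3042 * Real.pi ^ 2 * ε ^ 2 * M := by
    have : 0 ≤ Real.pi ^ 2 * ε ^ 2 := by positivity
    nlinarith
  linarith

end Pool.Agent.Helper270_PL
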