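import Pool.Agent.Helper270_PL.Psi

/-!
# The entropies
-/

open MeasureTheory Set Filter Topology
open scoped ENNReal

namespace Pool.Agent.Helper270_PL

/-- the squared length of the gradient of `psi` -/
noncomputable def gg (α β : ℝ) (z : ℝ × ℝ) : ℝ := psiX α β z ^ 2 + psiY α β z ^ 2

/-- `½ ∫ |∇ψ|² ln |∇ψ|² - ½ · 5π² ∫ ψ² ln ψ²` -/
noncomputable def GG (α β : ℝ) : ℝ :=
  1 / 2 * ∫ z, gg α β z * Real.log (gg α β z) ∂muOm -
    5 * Real.pi ^ 2 * (1 / 2 * ∫ z, psi α β z ^ 2 * Real.log (psi α β z ^ 2) ∂muOm)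

variable {α β : ℝ}

theorem continuous_gg (α β : ℝ) : Continuous (gg α β) := by
  have h1 := continuous_psiX α β
  have h2 := continuous_psiY α β
  unfold gg; fun_prop

theorem gg_nonneg (α β : ℝ) (z : ℝ × ℝ) : 0 ≤ gg α β z := by unfold gg; positivity

theorem continuous_mul_log_comp {f : ℝ × ℝ → ℝ} (hf : Continuous f) :
    Continuous fun z => f z * Real.log (f z) := Real.continuous_mul_log.comp hf

theorem abs_cs_le (j k : ℕ) (z : ℝ × ℝ) : |cs j k z| ≤ 4 := by
  rw [cs, abs_mul]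
  nlinarith [abs_Cn_le j z.1, abs_Sn_le k z.2, abs_nonneg (Cn j z.1), abs_nonneg (Sn k z.2)]

theorem abs_sc_le (j k : ℕ) (z : ℝ × ℝ) : |sc j k z| ≤ 4 := by
  rw [sc, abs_mul]
  nlinarith [abs_Sn_le j z.1, abs_Cn_le k z.2, abs_nonneg (Sn j z.1), abs_nonneg (Cn k z.2)]

theorem abs_le_one_of_unit (h : α ^ 2 + β ^ 2 = 1) : |α| ≤ 1 ∧ |β| ≤ 1 := by
  constructor
  · rw [← sq_le_one_iff_abs_le_one]; nlinarith [sq_nonneg β]
  · rw [← sq_le_one_iff_abs_le_one]; nlinarith [sq_nonneg α]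

theorem gg_le (h : α ^ 2 + β ^ 2 = 1) (z : ℝ × ℝ) : gg α β z ≤ 4608 := by
  obtain ⟨ha, hb⟩ := abs_le_one_of_unit h
  have hpi : Real.pi ≤ 4 := Real.pi_le_four
  have hpi0 := Real.pi_pos
  have h1 : |psiX α β z| ≤ 48 := by
    rw [psiX]
    calc |α * (Real.pi * cs 0 1 z) + β * (2 * Real.pi * cs 1 0 z)|
        ≤ |α * (Real.pi * cs 0 1 z)| + |β * (2 * Real.pi * cs 1 0 z)| := abs_add_le _ _
      _ = |α| * (Real.pi * |cs 0 1 z|) + |β| * (2 * Real.pi * |cs 1 0 z|) := by
          simp only [abs_mul, abs_of_pos hpi0, abs_two]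
      _ ≤ 1 * (4 * 4) + 1 * (2 * 4 * 4) := by
          gcongr
          · exact abs_cs_le _ _ _
          · exact abs_cs_le _ _ _
      _ = 48 := by norm_num
  have h2 : |psiY α β z| ≤ 48 := by
    rw [psiY]
    calc |α * (2 * Real.pi * sc 0 1 z) + β * (Real.pi * sc 1 0 z)|
        ≤ |α * (2 * Real.pi * sc 0 1 z)| + |β * (Real.pi * sc 1 0 z)| := abs_add_le _ _
      _ = |α| * (2 * Real.pi * |sc 0 1 z|) + |β| * (Real.pi * |sc 1 0 z|) := by
          simp only [abs_mul, abs_of_pos hpi0, abs_two]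
      _ ≤ 1 * (2 * 4 * 4) + 1 * (4 * 4) := by
          gcongr
          · exact abs_sc_le _ _ _
          · exact abs_sc_le _ _ _
      _ = 48 := by norm_num
  have h3 : psiX α β z ^ 2 ≤ 48 ^ 2 := by
    rw [← sq_abs]; exact pow_le_pow_left₀ (abs_nonneg _) h1 2
  have h4 : psiY α β z ^ 2 ≤ 48 ^ 2 := by
    rw [← sq_abs]; exact pow_le_pow_left₀ (abs_nonneg _) h2 2
  rw [gg]
  linarith

theorem integral_gg (h : α ^ 2 + β ^ 2 = 1) : ∫ z, gg α β z ∂muOm = 5 * Real.pi ^ 2 :=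
  integral_grad_psi_sq h

/-! ### Integration by parts for functions vanishing on the boundary -/

theorem Om_boundary {f : ℝ × ℝ → ℝ} (hf : ContDiff ℝ 1 f)
    (h0 : ∀ y, f (0, y) = 0) (h1 : ∀ y, f (1, y) = 0) : ∫ z, dX f z ∂muOm = 0 := by
  have hc := continuous_dX_of hf
  have hi := integrable_of_cont hc
  rw [muOm_eq_prod] at hi ⊢
  rw [integral_prod_symm _ hi]
  have : ∀ y, ∫ x, dX f (x, y) ∂m1 = 0 := by
    intro y
    rw [integral_m1]
    have hd : ∀ x ∈ uIcc (0 : ℝ) 1, HasDerivAt (fun x => f (x, y)) (dX f (x, y)) x := by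
      intro x _
      have h1 : HasFDerivAt f (fderiv ℝ f (x, y)) (x, y) :=
        ((hf.differentiable (by simp)) (x, y)).hasFDerivAt
      have h2 : HasDerivAt (fun x : ℝ => (x, y)) ((1 : ℝ), (0 : ℝ)) x :=
        (hasDerivAt_id x).prodMk (hasDerivAt_const x y)
      exact h1.comp_hasDerivAt x h2
    rw [intervalIntegral.integral_eq_sub_of_hasDerivAt hd
      (Continuous.intervalIntegrable (by fun_prop) _ _), h0, h1, sub_zero]
  simp only [this, integral_zero]

theorem Om_boundary' {f : ℝ × ℝ → ℝ} (hf : ContDiff ℝ 1 f)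
    (h0 : ∀ x, f (x, 0) = 0) (h1 : ∀ x, f (x, 1) = 0) : ∫ z, dY f z ∂muOm = 0 := by
  have hc := continuous_dY_of hf
  have hi := integrable_of_cont hc
  rw [muOm_eq_prod] at hi ⊢
  rw [integral_prod _ hi]
  have : ∀ x, ∫ y, dY f (x, y) ∂m1 = 0 := by
    intro x
    rw [integral_m1]
    have hd : ∀ y ∈ uIcc (0 : ℝ) 1, HasDerivAt (fun y => f (x, y)) (dY f (x, y)) y := by
      intro y _
      have h1 : HasFDerivAt f (fderiv ℝ f (x, y)) (x, y) :=
        ((hf.differentiable (by simp)) (x, y)).hasFDerivAt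
      have h2 : HasDerivAt (fun y : ℝ => (x, y)) ((0 : ℝ), (1 : ℝ)) y :=
        (hasDerivAt_const y x).prodMk (hasDerivAt_id y)
      exact h1.comp_hasDerivAt y h2
    rw [intervalIntegral.integral_eq_sub_of_hasDerivAt hd
      (Continuous.intervalIntegrable (by fun_prop) _ _), h0, h1, sub_zero]
  simp only [this, integral_zero]

theorem Sn_zero (n : ℕ) : Sn n 0 = 0 := by simp [Sn]

theorem Sn_one (n : ℕ) : Sn n 1 = 0 := by
  have : Real.sin (((n : ℝ) + 1) * Real.pi) = 0 := by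
    have := Real.sin_nat_mul_pi (n + 1)
    push_cast at this
    exact this
  simp [Sn, this]

theorem psi_zero_left (α β y : ℝ) : psi α β (0, y) = 0 := by simp [psi, ee, Sn_zero]

theorem psi_one_left (α β y : ℝ) : psi α β (1, y) = 0 := by simp [psi, ee, Sn_one]

theorem psi_zero_right (α β x : ℝ) : psi α β (x, 0) = 0 := by simp [psi, ee, Sn_zero]

theorem psi_one_right (α β x : ℝ) : psi α β (x, 1) = 0 := by simp [psi, ee, Sn_one]

theorem dX_mul' {f g : ℝ × ℝ → ℝ} {z : ℝ × ℝ} (hf : DifferentiableAt ℝ f z)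
    (hg : DifferentiableAt ℝ g z) : dX (fun z => f z * g z) z = dX f z * g z + f z * dX g z := by
  have : HasFDerivAt (fun z => f z * g z) _ z := hf.hasFDerivAt.mul hg.hasFDerivAt
  rw [dX, this.fderiv]
  simp [dX]
  ring

theorem dY_mul' {f g : ℝ × ℝ → ℝ} {z : ℝ × ℝ} (hf : DifferentiableAt ℝ f z)
    (hg : DifferentiableAt ℝ g z) : dY (fun z => f z * g z) z = dY f z * g z + f z * dY g z := by
  have : HasFDerivAt (fun z => f z * g z) _ z := hf.hasFDerivAt.mul hg.hasFDerivAt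
  rw [dY, this.fderiv]
  simp [dY]
  ring

theorem contDiff_psiX (α β : ℝ) {m : WithTop ℕ∞} : ContDiff ℝ m (psiX α β) := by
  unfold psiX
  exact (contDiff_const.mul (contDiff_const.mul (contDiff_cs 0 1))).add
    (contDiff_const.mul (contDiff_const.mul (contDiff_cs 1 0)))

theorem contDiff_psiY (α β : ℝ) {m : WithTop ℕ∞} : ContDiff ℝ m (psiY α β) := by
  unfold psiY
  exact (contDiff_const.mul (contDiff_const.mul (contDiff_sc 0 1))).add
    (contDiff_const.mul (contDiff_const.mul (contDiff_sc 1 0)))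

theorem dX_psiX (α β : ℝ) (z : ℝ × ℝ) :
    dX (psiX α β) z = -(α * Real.pi ^ 2 * ee 0 1 z + β * 4 * Real.pi ^ 2 * ee 1 0 z) := by
  have e : psiX α β = (α * Real.pi) • cs 0 1 + (β * (2 * Real.pi)) • cs 1 0 := by
    funext z; simp [psiX]; ring
  have d1 : Differentiable ℝ (cs 0 1) := (contDiff_cs 0 1 (m := 1)).differentiable (by simp)
  have d2 : Differentiable ℝ (cs 1 0) := (contDiff_cs 1 0 (m := 1)).differentiable (by simp)
  rw [e, dX_add (d1.const_smul _) (d2.const_smul _), dX_smul d1, dX_smul d2]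
  simp only [Pi.add_apply, Pi.smul_apply, smul_eq_mul, dX_cs]
  push_cast
  ring

theorem dY_psiY (α β : ℝ) (z : ℝ × ℝ) :
    dY (psiY α β) z = -(α * 4 * Real.pi ^ 2 * ee 0 1 z + β * Real.pi ^ 2 * ee 1 0 z) := by
  have e : psiY α β = (α * (2 * Real.pi)) • sc 0 1 + (β * Real.pi) • sc 1 0 := by
    funext z; simp [psiY]; ring
  have d1 : Differentiable ℝ (sc 0 1) := (contDiff_sc 0 1 (m := 1)).differentiable (by simp)
  have d2 : Differentiable ℝ (sc 1 0) := (contDiff_sc 1 0 (m := 1)).differentiable (by simp)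
  rw [e, dY_add (d1.const_smul _) (d2.const_smul _), dY_smul d1, dY_smul d2]
  simp only [Pi.add_apply, Pi.smul_apply, smul_eq_mul, dY_sc]
  push_cast
  ring

/-- `∫ Φ'(ψ) |∇ψ|² = 5π² ∫ Φ(ψ) ψ` -/
theorem integral_deriv_mul_gg (α β : ℝ) {Φ Φ' : ℝ → ℝ} (hΦ : ∀ t, HasDerivAt Φ (Φ' t) t)
    (hc : Continuous Φ') (h0 : Φ 0 = 0) :
    ∫ z, Φ' (psi α β z) * gg α β z ∂muOm = 5 * Real.pi ^ 2 * ∫ z, Φ (psi α β z) * psi α β z ∂muOm := by
  have hΦc : ContDiff ℝ 1 Φ := by
    rw [contDiff_one_iff_deriv]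
    refine ⟨fun t => (hΦ t).differentiableAt, ?_⟩
    rwa [funext fun t => (hΦ t).deriv]
  have hcomp : ContDiff ℝ 1 fun z => Φ (psi α β z) := hΦc.comp (contDiff_psi α β)
  have hdX : ∀ z, dX (fun z => Φ (psi α β z)) z = Φ' (psi α β z) * psiX α β z := by
    intro z
    have := (hΦ (psi α β z)).comp_hasFDerivAt z
      ((contDiff_psi α β (m := 1)).differentiable (by simp) z).hasFDerivAt
    have e : (fun z => Φ (psi α β z)) = Φ ∘ psi α β := rfl
    rw [← dX_psi, dX, e, this.fderiv]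
    simp [dX]
  have hdY : ∀ z, dY (fun z => Φ (psi α β z)) z = Φ' (psi α β z) * psiY α β z := by
    intro z
    have := (hΦ (psi α β z)).comp_hasFDerivAt z
      ((contDiff_psi α β (m := 1)).differentiable (by simp) z).hasFDerivAt
    have e : (fun z => Φ (psi α β z)) = Φ ∘ psi α β := rfl
    rw [← dY_psi, dY, e, this.fderiv]
    simp [dY]
  have hX := Om_boundary (hcomp.mul (contDiff_psiX α β))
    (fun y => by simp [psi_zero_left, h0]) (fun y => by simp [psi_one_left, h0])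
  have hY := Om_boundary' (hcomp.mul (contDiff_psiY α β))
    (fun y => by simp [psi_zero_right, h0]) (fun y => by simp [psi_one_right, h0])
  have c0 := continuous_psi α β
  have c1 := continuous_psiX α β
  have c2 := continuous_psiY α β
  have c3 := continuous_ee 0 1
  have c4 := continuous_ee 1 0
  have c5 := hΦc.continuous
  have eX : ∀ z, dX (fun z => Φ (psi α β z) * psiX α β z) z = Φ' (psi α β z) * psiX α β z ^ 2 +
      Φ (psi α β z) * -(α * Real.pi ^ 2 * ee 0 1 z + β * 4 * Real.pi ^ 2 * ee 1 0 z) := by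
    intro z
    rw [dX_mul' (hcomp.differentiable (by simp) z)
      ((contDiff_psiX α β (m := 1)).differentiable (by simp) z), hdX, dX_psiX]
    ring
  have eY : ∀ z, dY (fun z => Φ (psi α β z) * psiY α β z) z = Φ' (psi α β z) * psiY α β z ^ 2 +
      Φ (psi α β z) * -(α * 4 * Real.pi ^ 2 * ee 0 1 z + β * Real.pi ^ 2 * ee 1 0 z) := by
    intro z
    rw [dY_mul' (hcomp.differentiable (by simp) z)
      ((contDiff_psiY α β (m := 1)).differentiable (by simp) z), hdY, dY_psiY]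
    ring
  simp only [eX, eY] at hX hY
  have hsum := congrArg₂ (· + ·) hX hY
  simp only [add_zero] at hsum
  rw [← int_add (by fun_prop) (by fun_prop)] at hsum
  have e : ∀ z, Φ' (psi α β z) * psiX α β z ^ 2 +
      Φ (psi α β z) * -(α * Real.pi ^ 2 * ee 0 1 z + β * 4 * Real.pi ^ 2 * ee 1 0 z) +
      (Φ' (psi α β z) * psiY α β z ^ 2 +
      Φ (psi α β z) * -(α * 4 * Real.pi ^ 2 * ee 0 1 z + β * Real.pi ^ 2 * ee 1 0 z)) =
      Φ' (psi α β z) * gg α β z - (5 * Real.pi ^ 2) * (Φ (psi α β z) * psi α β z) := by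
    intro z; rw [gg, psi]; ring
  simp only [e] at hsum
  have c6 := continuous_gg α β
  rw [int_sub (by fun_prop) (by fun_prop), integral_const_mul] at hsum
  linarith

end Pool.Agent.Helper270_PL
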