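import Pool.Agent.Helper270_PL.Above
import Pool.Agent.Helper270_PL.Entropy

/-!
# First order lower bound for `λ₃` for exponents above `2`
-/

open MeasureTheory Set Filter Topology
open scoped ENNReal

namespace Pool.Agent.Helper270_PL

variable {α β : ℝ}

theorem exp_bounds {y : ℝ} (h : |y| ≤ 1) : 1 + y ≤ Real.exp y ∧ Real.exp y ≤ 1 + 2 * |y| ∧
    |Real.exp y - 1| ≤ 2 * |y| := by
  have h1 := Real.add_one_le_exp y
  have h2 := Real.abs_exp_sub_one_sub_id_le h
  have h3 := (abs_le.1 h2)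
  have h4 : y ^ 2 ≤ |y| := by
    rw [← sq_abs]
    nlinarith [abs_nonneg y]
  have h5 := le_abs_self y
  have h6 := neg_abs_le y
  refine ⟨by linarith, by linarith [h3.2], ?_⟩
  rw [abs_le]
  constructor <;> linarith [h3.1, h3.2]

/-- The integrand of the first order term -/
noncomputable def qform (α β : ℝ) (b : ℝ × ℝ → ℝ) : ℝ :=
  ∫ z, ((Real.log (b z) - 1 / 2) * gg α β z - 1 / 2 * b z ^ 2 * psi α β z ^ 2) ∂muOm

theorem weight_bounds {b ε L : ℝ} (hb : 0 < b) (hL : |Real.log b| ≤ L) (hL1 : 1 ≤ L) (hε : 0 < ε)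
    (hεL : ε * L ≤ 1) :
    ε * (Real.log b - 1 / 2) - ε ^ 2 * L ≤ 2 / (2 + ε) * b ^ ε - 1 ∧
    |2 / (2 + ε) * b ^ ε - 1| ≤ 4 * ε * L ∧
    ε / 2 * b ^ (2 + ε) ≤ ε * (1 / 2 * b ^ 2) + ε ^ 2 * L * b ^ 2 ∧
    |ε / 2 * b ^ (2 + ε)| ≤ 3 / 2 * ε * Real.exp (2 * L) := by
  have hy : |Real.log b * ε| ≤ ε * L := by
    rw [abs_mul, abs_of_pos hε, mul_comm]
    exact mul_le_mul_of_nonneg_left hL hε.le
  obtain ⟨h1, h2, h3⟩ := exp_bounds (hy.trans hεL)
  rw [← Real.rpow_def_of_pos hb] at h1 h2 h3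
  have hbe : 0 < b ^ ε := Real.rpow_pos_of_pos hb _
  have hfrac : 2 / (2 + ε) = 1 - ε / (2 + ε) := by field_simp; ring
  have hfr1 : ε / (2 + ε) ≤ ε / 2 := div_le_div_of_nonneg_left hε.le (by norm_num) (by linarith)
  have hfr0 : 0 ≤ ε / (2 + ε) := by positivity
  have e1 : 2 / (2 + ε) * b ^ ε - 1 = (b ^ ε - 1) - ε / (2 + ε) * b ^ ε := by rw [hfrac]; ring
  have hbe2 : b ^ ε ≤ 1 + 2 * (ε * L) := by linarith
  have h4 : ε / (2 + ε) * b ^ ε ≤ ε / 2 * b ^ ε := mul_le_mul_of_nonneg_right hfr1 hbe.le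
  have h5 : 0 ≤ ε / (2 + ε) * b ^ ε := by positivity
  have hb2 : b ^ (2 + ε) = b ^ 2 * b ^ ε := by
    rw [Real.rpow_add hb]; norm_num
  have hbL : b ^ 2 ≤ Real.exp (2 * L) := by
    have : b ≤ Real.exp L := by
      rw [← Real.log_le_iff_le_exp hb]
      exact (le_abs_self _).trans hL
    calc b ^ 2 ≤ Real.exp L ^ 2 := pow_le_pow_left₀ hb.le this 2
      _ = Real.exp (2 * L) := by rw [← Real.exp_nat_mul]; norm_num
  refine ⟨?_, ?_, ?_, ?_⟩
  · rw [e1]
    have h6 : ε / 2 * b ^ ε ≤ ε / 2 * (1 + 2 * (ε * L)) := mul_le_mul_of_nonneg_left hbe2 (by positivity)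
    nlinarith
  · rw [e1, abs_le]
    have h6 : ε / 2 * b ^ ε ≤ ε / 2 * 3 := mul_le_mul_of_nonneg_left (by linarith) (by positivity)
    have h7 := abs_le.1 h3
    constructor
    · nlinarith
    · nlinarith
  · rw [hb2]
    have h6 : ε / 2 * (b ^ 2 * b ^ ε) ≤ ε / 2 * (b ^ 2 * (1 + 2 * (ε * L))) := by gcongr
    nlinarith
  · rw [hb2, abs_of_pos (by positivity)]
    calc ε / 2 * (b ^ 2 * b ^ ε) ≤ ε / 2 * (Real.exp (2 * L) * 3) := by
          gcongr
          linarith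
      _ = 3 / 2 * ε * Real.exp (2 * L) := by ring

theorem lam_three_first_order (h : α ^ 2 + β ^ 2 = 1) {b : ℝ × ℝ → ℝ} (hb : Continuous b)
    (hb0 : ∀ z, 0 < b z) {L : ℝ} (hL1 : 1 ≤ L) (hL : ∀ z, |Real.log (b z)| ≤ L) :
    ∃ C, ∃ δ, 0 < δ ∧ ∀ ε, 0 < ε → ε < δ → ∀ (p : ℝ≥0∞) [Fact (1 ≤ p)], p ≠ ∞ →
      p.toReal = 2 + ε → 5 * Real.pi ^ 2 + ε * qform α β b - C * ε ^ 2 ≤ lam p 3 := by
  set B := Real.exp (2 * L) with hB
  have hB0 : 0 < B := Real.exp_pos _
  have hpi : 0 < Real.pi ^ 2 := by positivity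
  set D := 64 * L + 20 * Real.pi ^ 2 * L + 2 * B with hD
  have hD0 : 0 < D := by positivity
  refine ⟨5 * Real.pi ^ 2 * L + L * B + 1280 * Real.pi ^ 2 * L ^ 2 + 36 * B ^ 2 + 3042 * Real.pi ^ 2,
    1 / D, by positivity, fun ε hε hεD p _ hp hpe => ?_⟩
  have hεD' : ε * D < 1 := by rwa [lt_div_iff₀ hD0] at hεD
  have hL0 : 0 < L := by linarith
  have t1 : 0 < ε * L := by positivity
  have t2 : 0 < ε * (Real.pi ^ 2 * L) := by positivity
  have t3 : 0 < ε * B := by positivity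
  have e4 : ε * D = 64 * (ε * L) + 20 * (ε * (Real.pi ^ 2 * L)) + 2 * (ε * B) := by rw [hD]; ring
  rw [e4] at hεD'
  have hεL : ε * L ≤ 1 := by linarith
  have hw := fun z => weight_bounds (hb0 z) (hL z) hL1 hε hεL
  set X := ∫ z, ((2 / (2 + ε) * b z ^ ε - 1) * (psiX α β z ^ 2 + psiY α β z ^ 2) -
      ε / 2 * b z ^ (2 + ε) * psi α β z ^ 2) ∂muOm -
      16 * (4 * ε * L) ^ 2 * (5 * Real.pi ^ 2) - 16 * (3 / 2 * ε * B) ^ 2 with hX
  have c1 : Continuous fun z => b z ^ ε := hb.rpow_const fun z => Or.inl (hb0 z).ne'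
  have c2 : Continuous fun z => b z ^ (2 + ε) := hb.rpow_const fun z => Or.inl (hb0 z).ne'
  have c3 : Continuous fun z => Real.log (b z) := hb.log fun z => (hb0 z).ne'
  have c4 := continuous_gg α β
  have c5 := continuous_psi α β
  have hgg : ∀ z, psiX α β z ^ 2 + psiY α β z ^ 2 = gg α β z := fun z => rfl
  simp only [hgg] at hX
  -- upper bound of X
  have hX1 : X ≤ 1 := by
    have h1 : ∫ z, ((2 / (2 + ε) * b z ^ ε - 1) * gg α β z - ε / 2 * b z ^ (2 + ε) * psi α β z ^ 2) ∂muOm ≤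
        ∫ z, (4 * ε * L) * gg α β z ∂muOm := by
      refine int_mono (by fun_prop) (by fun_prop) fun z => ?_
      have h2 := (abs_le.1 (hw z).2.1).2
      have h3 : 0 ≤ ε / 2 * b z ^ (2 + ε) * psi α β z ^ 2 := by
        have := (Real.rpow_pos_of_pos (hb0 z) (2 + ε)).le
        positivity
      have h4 := mul_le_mul_of_nonneg_right h2 (gg_nonneg α β z)
      linarith
    rw [integral_const_mul, integral_gg h] at h1
    have h5 : 0 ≤ 16 * (4 * ε * L) ^ 2 * (5 * Real.pi ^ 2) := by positivity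
    have h6 : 0 ≤ 16 * (3 / 2 * ε * B) ^ 2 := by positivity
    have h7 : 4 * ε * L * (5 * Real.pi ^ 2) = 20 * (ε * (Real.pi ^ 2 * L)) := by ring
    rw [h7] at h1
    linarith
  have hlow := lam_three_ge_above (p := p) hp h hε hpe hb hb0 (k1 := 4 * ε * L)
    (c1 := 3 / 2 * ε * B) (X := X) (fun z => (hw z).2.1) (fun z => (hw z).2.2.2) (by linarith)
    (by linarith) hX hX1
  -- lower bound of X
  have hXl : ε * qform α β b - ε ^ 2 * L * (5 * Real.pi ^ 2) - ε ^ 2 * L * B ≤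
      ∫ z, ((2 / (2 + ε) * b z ^ ε - 1) * gg α β z - ε / 2 * b z ^ (2 + ε) * psi α β z ^ 2) ∂muOm := by
    have h1 : ∀ z, (ε * ((Real.log (b z) - 1 / 2) * gg α β z - 1 / 2 * b z ^ 2 * psi α β z ^ 2) -
        (ε ^ 2 * L) * gg α β z) - (ε ^ 2 * L * B) * psi α β z ^ 2 ≤
        (2 / (2 + ε) * b z ^ ε - 1) * gg α β z - ε / 2 * b z ^ (2 + ε) * psi α β z ^ 2 := by
      intro z
      have h2 := mul_le_mul_of_nonneg_right (hw z).1 (gg_nonneg α β z)
      have h3 := mul_le_mul_of_nonneg_right (hw z).2.2.1 (sq_nonneg (psi α β z))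
      have h4 : b z ^ 2 ≤ B := by
        have : b z ≤ Real.exp L := by
          rw [← Real.log_le_iff_le_exp (hb0 z)]
          exact (le_abs_self _).trans (hL z)
        calc b z ^ 2 ≤ Real.exp L ^ 2 := pow_le_pow_left₀ (hb0 z).le this 2
          _ = B := by rw [hB, ← Real.exp_nat_mul]; norm_num
      have h5 : ε ^ 2 * L * b z ^ 2 * psi α β z ^ 2 ≤ ε ^ 2 * L * B * psi α β z ^ 2 := by gcongr
      linarith
    have h2 := int_mono (by fun_prop) (by fun_prop) h1
    rw [int_sub (by fun_prop) (by fun_prop), int_sub (by fun_prop) (by fun_prop),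
      integral_const_mul, integral_const_mul, integral_const_mul, integral_gg h,
      integral_psi_sq h, mul_one] at h2
    exact h2
  rw [hX] at hlow
  refine le_trans ?_ hlow
  have e5 : ε * qform α β b - (5 * Real.pi ^ 2 * L + L * B + 1280 * Real.pi ^ 2 * L ^ 2 +
      36 * B ^ 2 + 3042 * Real.pi ^ 2) * ε ^ 2 =
      (ε * qform α β b - ε ^ 2 * L * (5 * Real.pi ^ 2) - ε ^ 2 * L * B) -
      16 * (4 * ε * L) ^ 2 * (5 * Real.pi ^ 2) - 16 * (3 / 2 * ε * B) ^ 2 -
      3042 * Real.pi ^ 2 * ε ^ 2 := by ring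
  linarith

/-- the function `Φ` used to integrate by parts -/
theorem hasDerivAt_Phi {σ : ℝ} (hσ : 0 < σ) (t : ℝ) :
    HasDerivAt (fun t : ℝ => 1 / 2 * (t * Real.log (t ^ 2 + σ ^ 2)) - t + σ * Real.arctan (t / σ))
      (1 / 2 * Real.log (t ^ 2 + σ ^ 2)) t := by
  have hpos : 0 < t ^ 2 + σ ^ 2 := by positivity
  have h1 : HasDerivAt (fun t : ℝ => t ^ 2 + σ ^ 2) (2 * t) t := by
    simpa using (hasDerivAt_pow 2 t).add_const (σ ^ 2)
  have h2 := h1.log hpos.ne'
  have h3 := ((hasDerivAt_id t).mul h2).const_mul (1 / 2)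
  have h4 : HasDerivAt (fun t : ℝ => t / σ) (1 / σ) t := (hasDerivAt_id t).div_const σ
  have h5 := (h4.arctan).const_mul σ
  have h6 := (h3.sub (hasDerivAt_id t)).add h5
  refine HasDerivAt.congr_deriv h6 ?_
  simp only [id]
  have : 1 + (t / σ) ^ 2 ≠ 0 := by positivity
  field_simp
  ring

theorem Phi_mul_le {σ : ℝ} (hσ : 0 < σ) (t : ℝ) :
    (1 / 2 * (t * Real.log (t ^ 2 + σ ^ 2)) - t + σ * Real.arctan (t / σ)) * t ≤
      1 / 2 * (t ^ 2 * Real.log (t ^ 2)) + σ ^ 2 / 2 - t ^ 2 + 2 * σ * |t| := by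
  have h1 : t ^ 2 * Real.log (t ^ 2 + σ ^ 2) ≤ t ^ 2 * Real.log (t ^ 2) + σ ^ 2 := by
    rcases eq_or_ne t 0 with h | h
    · subst h; simp; positivity
    · have ht : 0 < t ^ 2 := by positivity
      have e : t ^ 2 + σ ^ 2 = t ^ 2 * (1 + σ ^ 2 / t ^ 2) := by field_simp
      rw [e, Real.log_mul ht.ne' (by positivity), mul_add]
      have h2 : Real.log (1 + σ ^ 2 / t ^ 2) ≤ σ ^ 2 / t ^ 2 := by
        have := Real.log_le_sub_one_of_pos (show 0 < 1 + σ ^ 2 / t ^ 2 by positivity)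
        linarith
      have h3 := mul_le_mul_of_nonneg_left h2 ht.le
      have h4 : t ^ 2 * (σ ^ 2 / t ^ 2) = σ ^ 2 := by field_simp
      linarith
  have h2 : Real.arctan (t / σ) * t ≤ 2 * |t| := by
    have h3 : |Real.arctan (t / σ)| ≤ 2 := by
      have h4 := Real.arctan_lt_pi_div_two (t / σ)
      have h5 := Real.neg_pi_div_two_lt_arctan (t / σ)
      have h6 := Real.pi_le_four
      rw [abs_le]; constructor <;> linarith
    calc Real.arctan (t / σ) * t ≤ |Real.arctan (t / σ) * t| := le_abs_self _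
      _ = |Real.arctan (t / σ)| * |t| := abs_mul _ _
      _ ≤ 2 * |t| := mul_le_mul_of_nonneg_right h3 (abs_nonneg _)
  nlinarith [mul_le_mul_of_nonneg_left h2 hσ.le]

/-- the weight -/
noncomputable def wt (α β σ : ℝ) (z : ℝ × ℝ) : ℝ :=
  Real.sqrt ((gg α β z + σ ^ 2) / (psi α β z ^ 2 + σ ^ 2))

theorem log_wt {σ : ℝ} (hσ : 0 < σ) (z : ℝ × ℝ) : Real.log (wt α β σ z) =
    1 / 2 * Real.log (gg α β z + σ ^ 2) - 1 / 2 * Real.log (psi α β z ^ 2 + σ ^ 2) := by
  have h1 := gg_nonneg α β z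
  have h2 : 0 < gg α β z + σ ^ 2 := by positivity
  have h3 : 0 < psi α β z ^ 2 + σ ^ 2 := by positivity
  rw [wt, Real.log_sqrt (by positivity), Real.log_div h2.ne' h3.ne']
  ring

theorem qform_wt (h : α ^ 2 + β ^ 2 = 1) {σ : ℝ} (hσ : 0 < σ) (hσ1 : σ ≤ 1) :
    GG α β - (85 * Real.pi ^ 2 + 1) * σ ≤ qform α β (wt α β σ) := by
  have c4 := continuous_gg α β
  have c5 := continuous_psi α β
  have c6 : Continuous fun z => Real.log (gg α β z + σ ^ 2) :=
    (c4.add continuous_const).log fun z => (add_pos_of_nonneg_of_pos (gg_nonneg α β z) (by positivity)).ne'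
  have c7 : Continuous fun z => Real.log (psi α β z ^ 2 + σ ^ 2) :=
    ((c5.pow 2).add continuous_const).log fun z =>
      (by positivity : (0 : ℝ) < psi α β z ^ 2 + σ ^ 2).ne'
  have c8 := continuous_mul_log_comp c4
  have c9 := continuous_mul_log_comp (c5.pow 2)
  -- pointwise
  have hpt : ∀ z, 1 / 2 * (gg α β z * Real.log (gg α β z)) -
      (1 / 2 * Real.log (psi α β z ^ 2 + σ ^ 2)) * gg α β z - 1 / 2 * gg α β z -
      (1 / 2 * gg α β z + σ ^ 2 / 2) ≤
      (Real.log (wt α β σ z) - 1 / 2) * gg α β z - 1 / 2 * wt α β σ z ^ 2 * psi α β z ^ 2 := by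
    intro z
    have g0 := gg_nonneg α β z
    have h3 : 0 < psi α β z ^ 2 + σ ^ 2 := by positivity
    rw [log_wt hσ, wt, Real.sq_sqrt (by positivity)]
    have h4 : gg α β z * Real.log (gg α β z) ≤ gg α β z * Real.log (gg α β z + σ ^ 2) := by
      rcases g0.eq_or_lt with h5 | h5
      · rw [← h5]; simp
      · refine mul_le_mul_of_nonneg_left (Real.log_le_log h5 (by nlinarith)) g0
    have h6 : (gg α β z + σ ^ 2) / (psi α β z ^ 2 + σ ^ 2) * psi α β z ^ 2 ≤ gg α β z + σ ^ 2 := by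
      rw [div_mul_eq_mul_div, div_le_iff₀ h3]
      have : 0 ≤ gg α β z + σ ^ 2 := by positivity
      nlinarith [sq_nonneg σ]
    nlinarith
  have h1 : Continuous fun z => (Real.log (wt α β σ z) - 1 / 2) * gg α β z -
      1 / 2 * wt α β σ z ^ 2 * psi α β z ^ 2 := by
    have : Continuous fun z => Real.log (wt α β σ z) := by
      simp only [log_wt hσ]
      fun_prop
    have h' : Continuous (wt α β σ) := by
      unfold wt
      exact ((c4.add continuous_const).div ((c5.pow 2).add continuous_const) fun z =>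
        (by positivity : (0 : ℝ) < psi α β z ^ 2 + σ ^ 2).ne').sqrt
    fun_prop
  have h2 := int_mono (by fun_prop) h1 hpt
  rw [int_sub (by fun_prop) (by fun_prop), int_sub (by fun_prop) (by fun_prop),
    int_sub (by fun_prop) (by fun_prop), int_add (by fun_prop) (by fun_prop)] at h2
  have h3 := integral_deriv_mul_gg α β (hasDerivAt_Phi hσ) (by
    refine continuous_const.mul (Continuous.log (by fun_prop) fun t => by positivity)) (by simp)
  rw [h3] at h2
  simp only [integral_const_mul, integral_gg h, integral_const, probReal_univ, one_smul] at h2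
  have h4 : ∫ z, (1 / 2 * (psi α β z * Real.log (psi α β z ^ 2 + σ ^ 2)) - psi α β z +
      σ * Real.arctan (psi α β z / σ)) * psi α β z ∂muOm ≤
      ∫ z, (1 / 2 * (psi α β z ^ 2 * Real.log (psi α β z ^ 2)) + σ ^ 2 / 2 - psi α β z ^ 2 +
        2 * σ * 8) ∂muOm := by
    refine int_mono ?_ ?_ fun z => ?_
    · have : Continuous fun z => Real.arctan (psi α β z / σ) :=
        Real.continuous_arctan.comp (c5.div_const σ)
      fun_prop
    · fun_prop
    · have h5 := Phi_mul_le hσ (psi α β z)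
      have h6 := mul_le_mul_of_nonneg_left (abs_psi_le h z) (by positivity : 0 ≤ 2 * σ)
      linarith
  rw [int_add (by fun_prop) (by fun_prop), int_sub (by fun_prop) (by fun_prop),
    int_add (by fun_prop) (by fun_prop)] at h4
  simp only [integral_const_mul, integral_psi_sq h, integral_const, probReal_univ, one_smul] at h4
  rw [qform]
  refine le_trans ?_ h2
  rw [GG]
  have hpi : 0 < Real.pi ^ 2 := by positivity
  have h7 := mul_le_mul_of_nonneg_left h4 (by positivity : 0 ≤ 5 * Real.pi ^ 2)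
  have h8 : σ ^ 2 ≤ σ := by nlinarith
  have h9 : Real.pi ^ 2 * σ ^ 2 ≤ Real.pi ^ 2 * σ := by gcongr
  nlinarith

end Pool.Agent.Helper270_PL
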