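import Pool.Agent.Helper270_PL.Psi

/-!
# A lower bound for the linear comparison form
-/

open MeasureTheory Set Filter Topology
open scoped ENNReal

namespace Pool.Agent.Helper270_PL

theorem cross_bound {κ k1 A r : ℝ} (h : |κ| ≤ k1) :
    -(16 * k1 ^ 2 * A ^ 2 + r ^ 2 / 16) ≤ 2 * κ * A * r := by
  have h1 : κ ^ 2 ≤ k1 ^ 2 := by
    rw [← sq_abs κ]
    exact pow_le_pow_left₀ (abs_nonneg _) h 2
  nlinarith [sq_nonneg (4 * κ * A + r / 4), mul_nonneg (sub_nonneg.2 h1) (sq_nonneg A)]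

theorem pointwise_quad {K c k1 c1 a p q s r t w : ℝ} (hK : |K - 1| ≤ k1) (hc : |c| ≤ c1) :
    ((a * p + r) ^ 2 + (a * q + t) ^ 2) + a ^ 2 * ((K - 1) * (p ^ 2 + q ^ 2) - c * s ^ 2)
      - 16 * k1 ^ 2 * a ^ 2 * (p ^ 2 + q ^ 2) - 16 * c1 ^ 2 * a ^ 2 * s ^ 2
      - (1 / 16 + k1) * (r ^ 2 + t ^ 2) - (1 / 16 + c1) * w ^ 2 ≤
    K * ((a * p + r) ^ 2 + (a * q + t) ^ 2) - c * (a * s + w) ^ 2 := by
  have h1 := cross_bound (A := a * p) (r := r) hK
  have h2 := cross_bound (A := a * q) (r := t) hK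
  have hc' : |-c| ≤ c1 := by rwa [abs_neg]
  have h3 := cross_bound (κ := -c) (k1 := c1) (A := a * s) (r := w) hc'
  have h4 := (abs_le.1 hK).1
  have h5 := (abs_le.1 hc).2
  nlinarith [mul_nonneg (by linarith : 0 ≤ K - 1 + k1) (sq_nonneg r),
    mul_nonneg (by linarith : 0 ≤ K - 1 + k1) (sq_nonneg t),
    mul_nonneg (by linarith : 0 ≤ c1 - c) (sq_nonneg w)]

variable {α β : ℝ}

theorem integral_rest_sq {v : ℝ × ℝ → ℝ} (hv : Continuous v) (h : α ^ 2 + β ^ 2 = 1) {a : ℝ}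
    (ha : a = ∫ z, v z * psi α β z ∂muOm) :
    ∫ z, (v z - a * psi α β z) ^ 2 ∂muOm = ∫ z, v z ^ 2 ∂muOm - a ^ 2 := by
  have e : ∀ z, (v z - a * psi α β z) ^ 2 = v z ^ 2 - (2 * a) * (v z * psi α β z) +
      a ^ 2 * psi α β z ^ 2 := fun z => by ring
  simp only [e]
  have c1 := continuous_psi α β
  rw [int_add (by fun_prop) (by fun_prop), int_sub (by fun_prop) (by fun_prop), integral_const_mul,
    integral_const_mul, integral_psi_sq h, ← ha]
  ring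

theorem C1c.integral_rest_grad {v : ℝ × ℝ → ℝ} (hv : C1c v) (h : α ^ 2 + β ^ 2 = 1) {a : ℝ}
    (ha : a = ∫ z, v z * psi α β z ∂muOm) :
    ∫ z, ((dX v z - a * psiX α β z) ^ 2 + (dY v z - a * psiY α β z) ^ 2) ∂muOm =
      DD v - 5 * Real.pi ^ 2 * a ^ 2 := by
  have e : ∀ z, (dX v z - a * psiX α β z) ^ 2 + (dY v z - a * psiY α β z) ^ 2 =
      (dX v z ^ 2 + dY v z ^ 2) - (2 * a) * (dX v z * psiX α β z + dY v z * psiY α β z) +
      a ^ 2 * (psiX α β z ^ 2 + psiY α β z ^ 2) := fun z => by ring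
  simp only [e]
  have c1 := continuous_psiX α β
  have c2 := continuous_psiY α β
  have c3 := continuous_dX_of hv.1
  have c4 := continuous_dY_of hv.1
  rw [int_add (by fun_prop) (by fun_prop), int_sub (by fun_prop) (by fun_prop), integral_const_mul,
    integral_const_mul, integral_grad_psi_sq h, hv.integral_grad_mul_psi, ← ha, DD]
  ring

/-- The lower bound for the linear comparison form. -/
theorem C1c.quad_bound {v : ℝ × ℝ → ℝ} (hv : C1c v) (h : α ^ 2 + β ^ 2 = 1)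
    {K c : ℝ × ℝ → ℝ} (hK : Continuous K) (hc : Continuous c) {k1 c1 X : ℝ}
    (hk1 : ∀ z, |K z - 1| ≤ k1) (hc1 : ∀ z, |c z| ≤ c1) (hk : k1 ≤ 1 / 16) (hcc : c1 ≤ 1)
    (hX : X = ∫ z, ((K z - 1) * (psiX α β z ^ 2 + psiY α β z ^ 2) - c z * psi α β z ^ 2) ∂muOm -
      16 * k1 ^ 2 * (5 * Real.pi ^ 2) - 16 * c1 ^ 2) (hX1 : X ≤ 1) :
    (5 * Real.pi ^ 2 + X) * ∫ z, v z ^ 2 ∂muOm -
      (6 * Real.pi ^ 2 * cf v 0 0 ^ 2 + 3 * Real.pi ^ 2 * (∫ z, v z * psi (-β) α z ∂muOm) ^ 2) ≤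
    ∫ z, (K z * (dX v z ^ 2 + dY v z ^ 2) - c z * v z ^ 2) ∂muOm := by
  set a : ℝ := ∫ z, v z * psi α β z ∂muOm with ha
  have cX := continuous_psiX α β
  have cY := continuous_psiY α β
  have cP := continuous_psi α β
  have cvX := continuous_dX_of hv.1
  have cvY := continuous_dY_of hv.1
  have cv := hv.continuous
  have hk0 : 0 ≤ k1 := (abs_nonneg _).trans (hk1 0)
  have hc0 : 0 ≤ c1 := (abs_nonneg _).trans (hc1 0)
  have hR := hv.integral_rest_grad h ha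
  have hW := integral_rest_sq cv h ha
  -- pointwise bound
  have hpt : ∀ z, (dX v z ^ 2 + dY v z ^ 2) +
      a ^ 2 * ((K z - 1) * (psiX α β z ^ 2 + psiY α β z ^ 2) - c z * psi α β z ^ 2) -
      16 * k1 ^ 2 * a ^ 2 * (psiX α β z ^ 2 + psiY α β z ^ 2) -
      16 * c1 ^ 2 * a ^ 2 * psi α β z ^ 2 -
      (1 / 16 + k1) * ((dX v z - a * psiX α β z) ^ 2 + (dY v z - a * psiY α β z) ^ 2) -
      (1 / 16 + c1) * (v z - a * psi α β z) ^ 2 ≤
      K z * (dX v z ^ 2 + dY v z ^ 2) - c z * v z ^ 2 := by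
    intro z
    have := pointwise_quad (a := a) (p := psiX α β z) (q := psiY α β z) (s := psi α β z)
      (r := dX v z - a * psiX α β z) (t := dY v z - a * psiY α β z) (w := v z - a * psi α β z)
      (hk1 z) (hc1 z)
    simpa only [add_sub_cancel] using this
  have hint := int_mono (by fun_prop) (by fun_prop) hpt
  clear hpt
  rw [int_sub (by fun_prop) (by fun_prop), int_sub (by fun_prop) (by fun_prop),
    int_sub (by fun_prop) (by fun_prop), int_sub (by fun_prop) (by fun_prop),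
    int_add (by fun_prop) (by fun_prop)] at hint
  simp only [integral_const_mul] at hint
  rw [hR, hW, integral_psi_sq h, integral_grad_psi_sq h] at hint
  have hDD : ∫ z, (dX v z ^ 2 + dY v z ^ 2) ∂muOm = DD v := rfl
  rw [hDD] at hint
  -- the spectral inequality
  have hsp := hv.spectral
  have hrot : cf v 0 1 ^ 2 + cf v 1 0 ^ 2 = a ^ 2 + (∫ z, v z * psi (-β) α z ∂muOm) ^ 2 := by
    rw [ha, integral_mul_psi cv, integral_mul_psi cv]
    linear_combination (-(cf v 0 1 ^ 2 + cf v 1 0 ^ 2)) * h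
  rw [hrot] at hsp
  set b := ∫ z, v z * psi (-β) α z ∂muOm with hb
  set M := ∫ z, v z ^ 2 ∂muOm with hM
  set J := ∫ z, ((K z - 1) * (psiX α β z ^ 2 + psiY α β z ^ 2) - c z * psi α β z ^ 2) ∂muOm with hJ
  have hW0 : 0 ≤ M - a ^ 2 := by
    rw [← hW]; exact integral_nonneg fun _ => sq_nonneg _
  have hR0 : 0 ≤ DD v - 5 * Real.pi ^ 2 * a ^ 2 := by
    rw [← hR]; exact integral_nonneg fun _ => by positivity
  have hpi : 9 < Real.pi ^ 2 := by nlinarith [Real.pi_gt_three]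
  -- R ≥ 8π² W - N
  have hRW : 8 * Real.pi ^ 2 * (M - a ^ 2) ≤ (DD v - 5 * Real.pi ^ 2 * a ^ 2) +
      (6 * Real.pi ^ 2 * cf v 0 0 ^ 2 + 3 * Real.pi ^ 2 * b ^ 2) := by
    linarith
  set N := 6 * Real.pi ^ 2 * cf v 0 0 ^ 2 + 3 * Real.pi ^ 2 * b ^ 2 with hN
  have hN0 : 0 ≤ N := by positivity
  set W := M - a ^ 2 with hWd
  set R := DD v - 5 * Real.pi ^ 2 * a ^ 2 with hRd
  -- final computation
  have e1 : a ^ 2 = M - W := by rw [hWd]; ring
  have e2 : DD v = R + 5 * Real.pi ^ 2 * (M - W) := by rw [hRd, hWd]; ring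
  rw [e1, e2] at hint
  have f1 : (1 / 16 + k1) * R ≤ (1 / 8) * R := mul_le_mul_of_nonneg_right (by linarith) hR0
  have f2 : (1 / 16 + c1) * W ≤ 2 * W := mul_le_mul_of_nonneg_right (by linarith) hW0
  have f3 : (7 / 8) * (8 * Real.pi ^ 2 * W - N) ≤ (7 / 8) * R := by linarith
  have f4 : X * W ≤ W := by nlinarith
  have f5 : 9 * W ≤ Real.pi ^ 2 * W := by nlinarith
  have e3 : J = X + 16 * k1 ^ 2 * (5 * Real.pi ^ 2) + 16 * c1 ^ 2 := by rw [hX]; ring
  rw [e3] at hint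
  have g : (5 * Real.pi ^ 2 + X) * M - 5 * Real.pi ^ 2 * W - X * W + R - (1 / 16 + k1) * R -
      (1 / 16 + c1) * W ≤
      ∫ z, (K z * (dX v z ^ 2 + dY v z ^ 2) - c z * v z ^ 2) ∂muOm := by
    refine le_trans (le_of_eq ?_) hint
    ring
  linarith

end Pool.Agent.Helper270_PL
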