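import Pool.Agent.Helper270_PL.Defs

/-!
# Basic facts on the energy and the mass
-/

open MeasureTheory Set Filter Topology
open scoped ENNReal

namespace Pool.Agent.Helper270_PL

variable {p : ℝ≥0∞}

instance : IsFiniteMeasure muOm := by
  refine ⟨?_⟩
  rw [muOm, Measure.restrict_apply_univ, Om, Measure.volume_eq_prod, Measure.prod_prod]
  simp

theorem muOm_univ : muOm univ = 1 := by
  rw [muOm, Measure.restrict_apply_univ, Om, Measure.volume_eq_prod, Measure.prod_prod]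
  simp

instance : IsProbabilityMeasure muOm := ⟨muOm_univ⟩

theorem measurableSet_Om : MeasurableSet Om := measurableSet_Ioo.prod measurableSet_Ioo

theorem isOpen_Om : IsOpen Om := isOpen_Ioo.prod isOpen_Ioo

theorem toReal_pos' [Fact (1 ≤ p)] (hp : p ≠ ∞) : 0 < p.toReal :=
  ENNReal.toReal_pos (by
    intro h
    have := (Fact.out : (1 : ℝ≥0∞) ≤ p)
    simp [h] at this) hp

theorem ne_zero_of_fact [Fact (1 ≤ p)] : p ≠ 0 := by
  intro h
  have := (Fact.out : (1 : ℝ≥0∞) ≤ p)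
  simp [h] at this

/-- norm of an element of `L^p` as an integral -/
theorem norm_rpow {E : Type*} [NormedAddCommGroup E] [Fact (1 ≤ p)] (hp : p ≠ ∞)
    (f : Lp E p muOm) : ‖f‖ ^ p.toReal = ∫ z, ‖f z‖ ^ p.toReal ∂muOm := by
  have h0 := toReal_pos' hp
  rw [Lp.norm_def, (Lp.memLp f).eLpNorm_eq_integral_rpow_norm ne_zero_of_fact hp,
    ENNReal.toReal_ofReal (by positivity), ← Real.rpow_mul (by positivity),
    inv_mul_cancel₀ h0.ne', Real.rpow_one]

theorem mass_eq [Fact (1 ≤ p)] (hp : p ≠ ∞) (w : Amb p) : mass p w = ‖w.1‖ ^ p.toReal := by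
  rw [norm_rpow hp]; rfl

/-- the gradient as a complex valued function -/
noncomputable def gradC [Fact (1 ≤ p)] : Amb p →L[ℝ] Lp ℂ p muOm :=
  ((Complex.ofRealCLM.compLpL p muOm).comp (ContinuousLinearMap.fst ℝ _ _) +
    ((Complex.I • Complex.ofRealCLM : ℝ →L[ℝ] ℂ).compLpL p muOm).comp
      (ContinuousLinearMap.snd ℝ _ _)).comp (ContinuousLinearMap.snd ℝ _ _)

theorem gradC_coe [Fact (1 ≤ p)] (w : Amb p) :
    gradC w =ᵐ[muOm] fun z => (w.2.1 z : ℂ) + Complex.I * (w.2.2 z : ℂ) := by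
  have h1 := Complex.ofRealCLM.coeFn_compLpL (p := p) (μ := muOm) w.2.1
  have h2 := (Complex.I • Complex.ofRealCLM : ℝ →L[ℝ] ℂ).coeFn_compLpL (p := p) (μ := muOm) w.2.2
  have h3 := Lp.coeFn_add (Complex.ofRealCLM.compLpL p muOm w.2.1)
    ((Complex.I • Complex.ofRealCLM : ℝ →L[ℝ] ℂ).compLpL p muOm w.2.2)
  filter_upwards [h1, h2, h3] with z a b c
  have : (gradC w : Lp ℂ p muOm) = Complex.ofRealCLM.compLpL p muOm w.2.1 +
    (Complex.I • Complex.ofRealCLM : ℝ →L[ℝ] ℂ).compLpL p muOm w.2.2 := rfl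
  rw [this, c, Pi.add_apply, a, b]
  simp

theorem norm_add_I_mul (a b : ℝ) : ‖(a : ℂ) + Complex.I * (b : ℂ)‖ = Real.sqrt (a ^ 2 + b ^ 2) := by
  rw [mul_comm, Complex.norm_add_mul_I]

theorem energy_eq [Fact (1 ≤ p)] (hp : p ≠ ∞) (w : Amb p) :
    energy p w = ‖gradC w‖ ^ p.toReal := by
  rw [norm_rpow hp, energy]
  refine integral_congr_ae ?_
  filter_upwards [gradC_coe w] with z hz
  rw [hz, norm_add_I_mul, Real.sqrt_eq_rpow, ← Real.rpow_mul (by positivity)]
  congr 1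
  ring

theorem continuous_mass [Fact (1 ≤ p)] (hp : p ≠ ∞) : Continuous (mass p) := by
  have : mass p = fun w : Amb p => ‖w.1‖ ^ p.toReal := funext fun w => mass_eq hp w
  rw [this]
  exact (continuous_fst.norm).rpow_const fun _ => Or.inr (toReal_pos' hp).le

theorem continuous_energy [Fact (1 ≤ p)] (hp : p ≠ ∞) : Continuous (energy p) := by
  have : energy p = fun w : Amb p => ‖gradC w‖ ^ p.toReal := funext fun w => energy_eq hp w
  rw [this]
  exact (gradC.continuous.norm).rpow_const fun _ => Or.inr (toReal_pos' hp).le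

theorem energy_nonneg (w : Amb p) : 0 ≤ energy p w :=
  integral_nonneg fun _ => Real.rpow_nonneg (by positivity) _

theorem mass_nonneg (w : Amb p) : 0 ≤ mass p w :=
  integral_nonneg fun _ => Real.rpow_nonneg (abs_nonneg _) _

theorem mass_smul [Fact (1 ≤ p)] (hp : p ≠ ∞) (t : ℝ) (w : Amb p) :
    mass p (t • w) = |t| ^ p.toReal * mass p w := by
  rw [mass_eq hp, mass_eq hp, Prod.smul_fst, norm_smul, Real.norm_eq_abs,
    Real.mul_rpow (abs_nonneg _) (norm_nonneg _)]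

theorem energy_smul [Fact (1 ≤ p)] (hp : p ≠ ∞) (t : ℝ) (w : Amb p) :
    energy p (t • w) = |t| ^ p.toReal * energy p w := by
  rw [energy_eq hp, energy_eq hp, map_smul, norm_smul, Real.norm_eq_abs,
    Real.mul_rpow (abs_nonneg _) (norm_nonneg _)]

theorem energy_neg [Fact (1 ≤ p)] (hp : p ≠ ∞) (w : Amb p) : energy p (-w) = energy p w := by
  rw [energy_eq hp, energy_eq hp, map_neg, norm_neg]

theorem mass_neg [Fact (1 ≤ p)] (hp : p ≠ ∞) (w : Amb p) : mass p (-w) = mass p w := by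
  rw [mass_eq hp, mass_eq hp, Prod.fst_neg, norm_neg]

/-! ### Test functions -/

theorem IsTest.continuous {φ : ℝ × ℝ → ℝ} (h : IsTest φ) : Continuous φ := h.1.continuous

theorem IsTest.differentiable {φ : ℝ × ℝ → ℝ} (h : IsTest φ) : Differentiable ℝ φ :=
  h.1.differentiable (by simp)

theorem IsTest.contDiff_one {φ : ℝ × ℝ → ℝ} (h : IsTest φ) : ContDiff ℝ 1 φ :=
  h.1.of_le (by exact_mod_cast le_top)

theorem IsTest.continuous_fderiv {φ : ℝ × ℝ → ℝ} (h : IsTest φ) : Continuous (fderiv ℝ φ) :=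
  h.contDiff_one.continuous_fderiv (by simp)

theorem IsTest.continuous_dX {φ : ℝ × ℝ → ℝ} (h : IsTest φ) : Continuous (dX φ) :=
  h.continuous_fderiv.clm_apply continuous_const

theorem IsTest.continuous_dY {φ : ℝ × ℝ → ℝ} (h : IsTest φ) : Continuous (dY φ) :=
  h.continuous_fderiv.clm_apply continuous_const

theorem hasCompactSupport_dX {φ : ℝ × ℝ → ℝ} (h : HasCompactSupport φ) :
    HasCompactSupport (dX φ) := by
  have := h.fderiv_apply (𝕜 := ℝ) (1, 0)
  exact this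

theorem hasCompactSupport_dY {φ : ℝ × ℝ → ℝ} (h : HasCompactSupport φ) :
    HasCompactSupport (dY φ) := by
  have := h.fderiv_apply (𝕜 := ℝ) (0, 1)
  exact this

theorem memLp_of_cont {f : ℝ × ℝ → ℝ} (hf : Continuous f) (hc : HasCompactSupport f) :
    MemLp f p muOm := hf.memLp_of_hasCompactSupport hc

theorem IsTest.memLp {φ : ℝ × ℝ → ℝ} (h : IsTest φ) : MemLp φ p muOm :=
  memLp_of_cont h.continuous h.2.1

theorem IsTest.memLp_dX {φ : ℝ × ℝ → ℝ} (h : IsTest φ) : MemLp (dX φ) p muOm :=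
  memLp_of_cont h.continuous_dX (hasCompactSupport_dX h.2.1)

theorem IsTest.memLp_dY {φ : ℝ × ℝ → ℝ} (h : IsTest φ) : MemLp (dY φ) p muOm :=
  memLp_of_cont h.continuous_dY (hasCompactSupport_dY h.2.1)

/-- the triple of a test function -/
noncomputable def toTriple (p : ℝ≥0∞) {φ : ℝ × ℝ → ℝ} (h : IsTest φ) : Amb p :=
  (h.memLp.toLp φ, h.memLp_dX.toLp (dX φ), h.memLp_dY.toLp (dY φ))

theorem toTriple_mem {φ : ℝ × ℝ → ℝ} (h : IsTest φ) : toTriple p h ∈ TestTriples p :=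
  ⟨φ, h, MemLp.coeFn_toLp h.memLp, MemLp.coeFn_toLp h.memLp_dX, MemLp.coeFn_toLp h.memLp_dY⟩

theorem eq_toTriple {w : Amb p} (hw : w ∈ TestTriples p) :
    ∃ φ, ∃ h : IsTest φ, w = toTriple p h := by
  obtain ⟨φ, h, h1, h2, h3⟩ := hw
  refine ⟨φ, h, ?_⟩
  refine Prod.ext ?_ (Prod.ext ?_ ?_)
  · exact Lp.ext (h1.trans (MemLp.coeFn_toLp h.memLp).symm)
  · exact Lp.ext (h2.trans (MemLp.coeFn_toLp h.memLp_dX).symm)
  · exact Lp.ext (h3.trans (MemLp.coeFn_toLp h.memLp_dY).symm)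

theorem mass_toTriple {φ : ℝ × ℝ → ℝ} (h : IsTest φ) :
    mass p (toTriple p h) = ∫ z, |φ z| ^ p.toReal ∂muOm := by
  refine integral_congr_ae ?_
  filter_upwards [MemLp.coeFn_toLp (h.memLp (p := p))] with z hz
  simp only [toTriple]
  rw [hz]

theorem energy_toTriple {φ : ℝ × ℝ → ℝ} (h : IsTest φ) :
    energy p (toTriple p h) = ∫ z, (dX φ z ^ 2 + dY φ z ^ 2) ^ (p.toReal / 2) ∂muOm := by
  refine integral_congr_ae ?_
  filter_upwards [MemLp.coeFn_toLp (h.memLp_dX (p := p)), MemLp.coeFn_toLp (h.memLp_dY (p := p))]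
    with z hz hz'
  simp only [toTriple]
  rw [hz, hz']

theorem toTriple_mem_W0 [Fact (1 ≤ p)] {φ : ℝ × ℝ → ℝ} (h : IsTest φ) : toTriple p h ∈ W0 p :=
  subset_closure (toTriple_mem h)

/-! ### Test functions form a vector space -/

theorem IsTest.add {φ ψ : ℝ × ℝ → ℝ} (h : IsTest φ) (h' : IsTest ψ) : IsTest (φ + ψ) :=
  ⟨h.1.add h'.1, h.2.1.add h'.2.1, (tsupport_add φ ψ).trans (union_subset h.2.2 h'.2.2)⟩

theorem IsTest.smul {φ : ℝ × ℝ → ℝ} (h : IsTest φ) (t : ℝ) : IsTest (t • φ) :=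
  ⟨h.1.const_smul t, h.2.1.smul_left (f := fun _ => t), (tsupport_smul_subset_right (fun _ => t) φ).trans h.2.2⟩

theorem isTest_zero : IsTest (0 : ℝ × ℝ → ℝ) :=
  ⟨contDiff_const, HasCompactSupport.zero, by simp [tsupport_zero]⟩

theorem dX_add {φ ψ : ℝ × ℝ → ℝ} (h : Differentiable ℝ φ) (h' : Differentiable ℝ ψ) :
    dX (φ + ψ) = dX φ + dX ψ := by
  funext z
  simp [dX, fderiv_add (h z) (h' z)]

theorem dY_add {φ ψ : ℝ × ℝ → ℝ} (h : Differentiable ℝ φ) (h' : Differentiable ℝ ψ) :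
    dY (φ + ψ) = dY φ + dY ψ := by
  funext z
  simp [dY, fderiv_add (h z) (h' z)]

theorem dX_smul {φ : ℝ × ℝ → ℝ} (h : Differentiable ℝ φ) (t : ℝ) : dX (t • φ) = t • dX φ := by
  funext z
  simp [dX, fderiv_const_smul (h z)]

theorem dY_smul {φ : ℝ × ℝ → ℝ} (h : Differentiable ℝ φ) (t : ℝ) : dY (t • φ) = t • dY φ := by
  funext z
  simp [dY, fderiv_const_smul (h z)]

/-- the test triples as a subspace -/
noncomputable def testSub (p : ℝ≥0∞) [Fact (1 ≤ p)] : Submodule ℝ (Amb p) where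
  carrier := TestTriples p
  add_mem' := by
    rintro a b ⟨φ, h, h1, h2, h3⟩ ⟨ψ, h', h1', h2', h3'⟩
    refine ⟨φ + ψ, h.add h', ?_, ?_, ?_⟩
    · exact (Lp.coeFn_add _ _).trans (h1.add h1')
    · rw [dX_add h.differentiable h'.differentiable]
      exact (Lp.coeFn_add _ _).trans (h2.add h2')
    · rw [dY_add h.differentiable h'.differentiable]
      exact (Lp.coeFn_add _ _).trans (h3.add h3')
  zero_mem' := by
    refine ⟨0, isTest_zero, Lp.coeFn_zero _ _ _, ?_, ?_⟩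
    · refine (Lp.coeFn_zero _ _ _).trans ?_
      refine Filter.Eventually.of_forall fun z => ?_
      simp [dX, Pi.zero_def]
    · refine (Lp.coeFn_zero _ _ _).trans ?_
      refine Filter.Eventually.of_forall fun z => ?_
      simp [dY, Pi.zero_def]
  smul_mem' := by
    rintro t a ⟨φ, h, h1, h2, h3⟩
    refine ⟨t • φ, h.smul t, ?_, ?_, ?_⟩
    · exact (Lp.coeFn_smul _ _).trans (h1.const_smul t)
    · rw [dX_smul h.differentiable]
      exact (Lp.coeFn_smul _ _).trans (h2.const_smul t)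
    · rw [dY_smul h.differentiable]
      exact (Lp.coeFn_smul _ _).trans (h3.const_smul t)

theorem W0_eq (p : ℝ≥0∞) [Fact (1 ≤ p)] :
    W0 p = ((testSub p).topologicalClosure : Set (Amb p)) := by
  rw [Submodule.topologicalClosure_coe]; rfl

/-- A closed inequality which holds for test functions near the constraint holds on `W₀`. -/
theorem W0_principle [Fact (1 ≤ p)] (hp : p ≠ ∞) {U : Set (Amb p)} (hU : IsOpen U) {c : ℝ}
    (h : ∀ φ, ∀ hφ : IsTest φ, toTriple p hφ ∈ U →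
      c * mass p (toTriple p hφ) ≤ energy p (toTriple p hφ)) {w : Amb p} (hw : w ∈ W0 p)
    (hwU : w ∈ U) : c * mass p w ≤ energy p w := by
  by_contra hcon
  push Not at hcon
  have hV : IsOpen {w : Amb p | energy p w < c * mass p w} :=
    isOpen_lt (continuous_energy hp) (continuous_const.mul (continuous_mass hp))
  obtain ⟨w', hw'1, hw'2⟩ := mem_closure_iff.1 hw _ (hU.inter hV) ⟨hwU, hcon⟩
  obtain ⟨φ, hφ, rfl⟩ := eq_toTriple hw'2
  exact absurd (h φ hφ hw'1.1) (not_le.2 hw'1.2)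

end Pool.Agent.Helper270_PL
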