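import Pool.Agent.Helper270_PL.BelowPt

/-!
# The one-shot bound for the dual fields
-/

open MeasureTheory Set Filter Topology
open scoped ENNReal

namespace Pool.Agent.Helper270_PL

variable {α β : ℝ}

/-- the double eigenvalue of the Laplacian -/
noncomputable def LL : ℝ := 5 * Real.pi ^ 2

theorem LL_ge : 45 ≤ LL := by
  rw [LL]; nlinarith [Real.pi_gt_three]

theorem LL_pos : 0 < LL := by linarith [LL_ge]

theorem int_const (c : ℝ) : ∫ _, c ∂muOm = c := by simp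

theorem base_field (h : α ^ 2 + β ^ 2 = 1) {r : ℝ} (hr : 0 ≤ r) (hr1 : r ≤ 1 / 4) :
    ∫ z, ((gg α β z / LL ^ 2) ^ (1 + r) - gg α β z / LL ^ 2) ∂muOm ≤
      2 * r / LL * (F2 α β / LL - Real.log LL) + 97 * r ^ 2 := by
  have hL := LL_pos
  have hL45 := LL_ge
  have c0 := continuous_gg α β
  have c1 : Continuous fun z => (gg α β z / LL ^ 2) ^ (1 + r) :=
    (c0.div_const _).rpow_const fun _ => Or.inr (by linarith)
  have c2 := continuous_mul_log_comp c0
  have h1 : ∫ z, ((gg α β z / LL ^ 2) ^ (1 + r) - gg α β z / LL ^ 2) ∂muOm ≤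
      ∫ z, ((r / LL ^ 2 * (gg α β z * Real.log (gg α β z)) -
        2 * r * Real.log LL / LL ^ 2 * gg α β z) + 97 * r ^ 2) ∂muOm := by
    refine int_mono (by fun_prop) (by fun_prop) fun z => ?_
    have g0 := gg_nonneg α β z
    have g1 := gg_le h z
    have g2 : gg α β z / LL ^ 2 ≤ 3 := by
      rw [div_le_iff₀ (by positivity)]; nlinarith
    have g3 := (abs_le.1 (rpow_expand (x := gg α β z / LL ^ 2) (r := r) (K := 3) (by positivity)
      (by norm_num) g2 (by rw [abs_of_nonneg hr]; linarith))).2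
    have g4 : gg α β z / LL ^ 2 * Real.log (gg α β z / LL ^ 2) =
        1 / LL ^ 2 * (gg α β z * Real.log (gg α β z)) - 2 * Real.log LL / LL ^ 2 * gg α β z := by
      rcases g0.eq_or_lt with k | k
      · rw [← k]; simp
      · rw [Real.log_div k.ne' (by positivity), Real.log_pow]
        push_cast
        ring
    rw [g4] at g3
    have g5 : r * (1 / LL ^ 2 * (gg α β z * Real.log (gg α β z)) -
        2 * Real.log LL / LL ^ 2 * gg α β z) = r / LL ^ 2 * (gg α β z * Real.log (gg α β z)) -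
        2 * r * Real.log LL / LL ^ 2 * gg α β z := by ring
    rw [g5] at g3
    linarith
  refine h1.trans (le_of_eq ?_)
  rw [int_add (by fun_prop) (by fun_prop), int_sub (by fun_prop) (by fun_prop), int_const,
    integral_const_mul, integral_const_mul, integral_gg h]
  have e : ∫ z, gg α β z * Real.log (gg α β z) ∂muOm = 2 * F2 α β := by rw [F2]; ring
  rw [e, show 5 * Real.pi ^ 2 = LL from rfl]
  field_simp

variable {s : Finset (ℕ × ℕ)} {a : ℕ × ℕ → ℝ}

theorem dist_field (h : α ^ 2 + β ^ 2 = 1) (h1 : ((0, 1) : ℕ × ℕ) ∈ s) (h2 : ((1, 0) : ℕ × ℕ) ∈ s)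
    {c : ℝ} : ∫ z, ((ZX s a z - c * psiX α β z) ^ 2 + (ZY s a z - c * psiY α β z) ^ 2) ∂muOm =
      (∑ i ∈ s, a i ^ 2 / lm i.1 i.2) + c ^ 2 * LL - 2 * c * (α * a (0, 1) + β * a (1, 0)) := by
  have c1 := continuous_ZX s a
  have c2 := continuous_ZY s a
  have c3 := continuous_psiX α β
  have c4 := continuous_psiY α β
  have e : ∀ z, (ZX s a z - c * psiX α β z) ^ 2 + (ZY s a z - c * psiY α β z) ^ 2 =
      (ZX s a z ^ 2 + ZY s a z ^ 2) + c ^ 2 * (psiX α β z ^ 2 + psiY α β z ^ 2) -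
      2 * c * (ZX s a z * psiX α β z + ZY s a z * psiY α β z) := fun z => by ring
  simp only [e]
  rw [int_sub (by fun_prop) (by fun_prop), int_add (by fun_prop) (by fun_prop),
    integral_const_mul, integral_const_mul, integral_Z_sq, integral_Z_psi h1 h2,
    integral_grad_psi_sq h, LL]

theorem field_int (h : α ^ 2 + β ^ 2 = 1) (hs : ∑ i ∈ s, a i ^ 2 ≤ 1)
    (h1 : ((0, 1) : ℕ × ℕ) ∈ s) (h2 : ((1, 0) : ℕ × ℕ) ∈ s) {r ω : ℝ} (hr : 0 ≤ r)
    (hr1 : r ≤ 1 / 4) (hω : 0 < ω) :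
    ∫ z, (ZX s a z ^ 2 + ZY s a z ^ 2) ^ (1 + r) ∂muOm ≤ (∑ i ∈ s, a i ^ 2 / lm i.1 i.2) +
      (2 * r / LL * (F2 α β / LL - Real.log LL) + 97 * r ^ 2) +
      ω * ((∑ i ∈ s, a i ^ 2 / lm i.1 i.2) + 1 / LL -
        2 * |α * a (0, 1) + β * a (1, 0)| / LL) + 1632 * r ^ 2 / ω := by
  have hL := LL_pos
  have hL45 := LL_ge
  obtain ⟨σ, hσ, hσA⟩ : ∃ σ : ℝ, σ ^ 2 = 1 ∧
      σ * (α * a (0, 1) + β * a (1, 0)) = |α * a (0, 1) + β * a (1, 0)| := by
    rcases le_total 0 (α * a (0, 1) + β * a (1, 0)) with k | k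
    · exact ⟨1, by norm_num, by rw [abs_of_nonneg k, one_mul]⟩
    · exact ⟨-1, by norm_num, by rw [abs_of_nonpos k]; ring⟩
  set c := σ / LL with hc
  have hc2 : c ^ 2 = 1 / LL ^ 2 := by rw [hc, div_pow, hσ]
  have c1 := continuous_ZX s a
  have c2 := continuous_ZY s a
  have c3 := continuous_psiX α β
  have c4 := continuous_psiY α β
  have c5 := continuous_gg α β
  have c6 : Continuous fun z => (gg α β z / LL ^ 2) ^ (1 + r) :=
    (c5.div_const _).rpow_const fun _ => Or.inr (by linarith)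
  have c7 : Continuous fun z => (ZX s a z ^ 2 + ZY s a z ^ 2) ^ (1 + r) :=
    ((c1.pow 2).add (c2.pow 2)).rpow_const fun _ => Or.inr (by linarith)
  have e0 : ∀ z, (c * psiX α β z) ^ 2 + (c * psiY α β z) ^ 2 = gg α β z / LL ^ 2 := by
    intro z
    rw [gg, mul_pow, mul_pow, hc2]; ring
  have hpt : ∀ z, (ZX s a z ^ 2 + ZY s a z ^ 2) ^ (1 + r) ≤ (ZX s a z ^ 2 + ZY s a z ^ 2) +
      ((gg α β z / LL ^ 2) ^ (1 + r) - gg α β z / LL ^ 2) +
      ω * ((ZX s a z - c * psiX α β z) ^ 2 + (ZY s a z - c * psiY α β z) ^ 2) +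
      16 * r ^ 2 / ω * (3 * (ZX s a z ^ 2 + ZY s a z ^ 2) ^ 2 + 30) := by
    intro z
    have k := field_pt (x := ZX s a z) (y := ZY s a z) (x0 := c * psiX α β z)
      (y0 := c * psiY α β z) hr hr1 hω
    rw [e0] at k
    refine k.trans (add_le_add le_rfl ?_)
    refine mul_le_mul_of_nonneg_left ?_ (by positivity)
    have g0 := gg_nonneg α β z
    have g1 := gg_le h z
    have g2 : gg α β z / LL ^ 2 ≤ 3 := by
      rw [div_le_iff₀ (by positivity)]; nlinarith
    have g3 : 0 ≤ gg α β z / LL ^ 2 := by positivity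
    set W := ZX s a z ^ 2 + ZY s a z ^ 2
    set W0 := gg α β z / LL ^ 2
    nlinarith [sq_nonneg (W - W0), sq_nonneg (W - 1), sq_nonneg (W0 - 1)]
  have hint := int_mono c7 (by fun_prop) hpt
  have k0 : ∫ z, (ZX s a z ^ 2 + ZY s a z ^ 2) ∂muOm = ∑ i ∈ s, a i ^ 2 / lm i.1 i.2 :=
    integral_Z_sq
  have k00 := dist_field (a := a) h h1 h2 (c := c)
  have c8 : Continuous fun z => ZX s a z ^ 2 + ZY s a z ^ 2 := by fun_prop
  have c9 : Continuous fun z => (ZX s a z - c * psiX α β z) ^ 2 + (ZY s a z - c * psiY α β z) ^ 2 := by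
    fun_prop
  have c10 : Continuous fun z => (gg α β z / LL ^ 2) ^ (1 + r) - gg α β z / LL ^ 2 := by
    fun_prop
  generalize hW : (fun z => ZX s a z ^ 2 + ZY s a z ^ 2) = W at *
  generalize hV : (fun z => (ZX s a z - c * psiX α β z) ^ 2 + (ZY s a z - c * psiY α β z) ^ 2) = V at *
  generalize hU : (fun z => (gg α β z / LL ^ 2) ^ (1 + r) - gg α β z / LL ^ 2) = U at *
  have eW : ∀ z, ZX s a z ^ 2 + ZY s a z ^ 2 = W z := fun z => by rw [← hW]
  have eV : ∀ z, (ZX s a z - c * psiX α β z) ^ 2 + (ZY s a z - c * psiY α β z) ^ 2 = V z :=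
    fun z => by rw [← hV]
  have eU : ∀ z, (gg α β z / LL ^ 2) ^ (1 + r) - gg α β z / LL ^ 2 = U z := fun z => by rw [← hU]
  have k1 := base_field h hr hr1
  have k2 := Z_L4 hs
  simp only [eW, eV, eU] at hint k1 k2 ⊢
  rw [int_add (by fun_prop) (by fun_prop), int_add (by fun_prop) (by fun_prop),
    int_add (by fun_prop) (by fun_prop), integral_const_mul, integral_const_mul,
    int_add (by fun_prop) (by fun_prop), integral_const_mul, int_const, k00, k0] at hint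
  have k3 : 16 * r ^ 2 / ω * (3 * ∫ z, W z ^ 2 ∂muOm + 30) ≤
      1632 * r ^ 2 / ω := by
    have : 1632 * r ^ 2 / ω = 16 * r ^ 2 / ω * (3 * 24 + 30) := by ring
    rw [this]
    refine mul_le_mul_of_nonneg_left ?_ (by positivity)
    linarith
  have k4 : c ^ 2 * LL = 1 / LL := by rw [hc2]; field_simp
  have k5 : 2 * c * (α * a (0, 1) + β * a (1, 0)) =
      2 * |α * a (0, 1) + β * a (1, 0)| / LL := by
    rw [← hσA, hc]; ring
  rw [k4, k5] at hint
  linarith

/-- `∫ g² ≤ 1` -/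
theorem sq_int_le_one {g : ℝ × ℝ → ℝ} (hg : Continuous g) {r : ℝ} (hr : 0 ≤ r)
    (hm : ∫ z, (g z ^ 2) ^ (1 + r) ∂muOm ≤ 1) : ∫ z, g z ^ 2 ∂muOm ≤ 1 := by
  have c1 : Continuous fun z => (g z ^ 2) ^ (1 + r) :=
    (hg.pow 2).rpow_const fun _ => Or.inr (by linarith)
  have h1 : ∫ z, (1 + (1 + r) * (g z ^ 2 - 1)) ∂muOm ≤ ∫ z, (g z ^ 2) ^ (1 + r) ∂muOm := by
    refine int_mono (by fun_prop) c1 fun z => ?_
    have := one_add_mul_self_le_rpow_one_add (s := g z ^ 2 - 1) (p := 1 + r)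
      (by nlinarith [sq_nonneg (g z)]) (by linarith)
    rw [show 1 + (g z ^ 2 - 1) = g z ^ 2 by ring] at this
    exact this
  rw [int_add (by fun_prop) (by fun_prop), integral_const_mul, int_sub (by fun_prop) (by fun_prop),
    int_const] at h1
  nlinarith

/-- the entropy lower bound -/
theorem entropy_lower (h : α ^ 2 + β ^ 2 = 1) {g : ℝ × ℝ → ℝ} (hg : Continuous g) {r ω τ L : ℝ}
    (hr : 0 ≤ r) (hω : 0 < ω) (hτ : 0 < τ)
    (hlog : ∀ z, |Real.log (psi α β z ^ 2 + τ)| ≤ L) (hrL : r * L ≤ ω)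
    (hm : ∫ z, (g z ^ 2) ^ (1 + r) ∂muOm ≤ 1) :
    r * (2 * F1 α β - τ) - r ^ 2 * L ^ 2 / ω ≤ (1 + r) * (1 - ∫ z, g z ^ 2 ∂muOm) +
      2 * ω * (∫ z, g z ^ 2 ∂muOm + 1 - 2 * |∫ z, g z * psi α β z ∂muOm|) := by
  obtain ⟨σ, hσ, hσA⟩ : ∃ σ : ℝ, σ ^ 2 = 1 ∧
      σ * (∫ z, g z * psi α β z ∂muOm) = |∫ z, g z * psi α β z ∂muOm| := by
    rcases le_total 0 (∫ z, g z * psi α β z ∂muOm) with k | k
    · exact ⟨1, by norm_num, by rw [abs_of_nonneg k, one_mul]⟩
    · exact ⟨-1, by norm_num, by rw [abs_of_nonpos k]; ring⟩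
  have c0 := continuous_psi α β
  have c1 : Continuous fun z => (g z ^ 2) ^ (1 + r) :=
    (hg.pow 2).rpow_const fun _ => Or.inr (by linarith)
  have c2 := continuous_mul_log_comp (c0.pow 2)
  have hpt : ∀ z, (g z ^ 2 + r * (g z ^ 2 - (psi α β z ^ 2 + τ))) +
      (r * (psi α β z ^ 2 * Real.log (psi α β z ^ 2)) -
        2 * ω * (g z ^ 2 + psi α β z ^ 2 - 2 * σ * (g z * psi α β z)) -
        r ^ 2 * L ^ 2 / ω * psi α β z ^ 2) ≤ (g z ^ 2) ^ (1 + r) := by
    intro z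
    set G := g z with hG
    set P := psi α β z with hP
    set l := Real.log (P ^ 2 + τ) with hl
    have k1 := rpow_ge_first (x := G ^ 2) (sq_nonneg _) hr
    have k2 := mul_log_ge (x := G ^ 2) (y := P ^ 2 + τ) (sq_nonneg _) (by positivity)
    rw [← hl] at k2
    have k3 := mul_le_mul_of_nonneg_left k2 hr
    have k4 : P ^ 2 * Real.log (P ^ 2) ≤ P ^ 2 * l := by
      rcases (sq_nonneg P).eq_or_lt with k | k
      · rw [← k]; simp
      · exact mul_le_mul_of_nonneg_left (Real.log_le_log k (by linarith)) k.le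
    have k5 := mul_le_mul_of_nonneg_left k4 hr
    have hlL : |l| ≤ L := hlog z
    obtain ⟨hl1, hl2⟩ := abs_le.1 hlL
    -- `r l (G² - P²)` from below
    set d := G - σ * P with hd
    have e1 : G ^ 2 - P ^ 2 = d ^ 2 + 2 * σ * P * d := by
      rw [hd]; linear_combination (P ^ 2) * hσ
    have e2 : G ^ 2 + P ^ 2 - 2 * σ * (G * P) = d ^ 2 := by
      rw [hd]; linear_combination (-P ^ 2) * hσ
    have k6 : -(ω * d ^ 2) ≤ r * l * d ^ 2 := by
      have : -ω ≤ r * l := by nlinarith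
      nlinarith [sq_nonneg d]
    have k7 : -(ω * d ^ 2) - r ^ 2 * L ^ 2 / ω * P ^ 2 ≤ r * l * (2 * σ * P * d) := by
      have e3 : ω * d ^ 2 + r ^ 2 * l ^ 2 / ω * P ^ 2 + r * l * (2 * σ * P * d) =
          (ω * d + r * l * σ * P) ^ 2 / ω := by
        have : (ω * d + r * l * σ * P) ^ 2 / ω = (ω ^ 2 * d ^ 2 + r ^ 2 * l ^ 2 * P ^ 2 * σ ^ 2 +
          2 * ω * d * (r * l * σ * P)) / ω := by ring
        rw [this, hσ]
        field_simp
      have e4 : 0 ≤ (ω * d + r * l * σ * P) ^ 2 / ω := by positivity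
      have e5 : r ^ 2 * l ^ 2 / ω * P ^ 2 ≤ r ^ 2 * L ^ 2 / ω * P ^ 2 := by
        have : l ^ 2 ≤ L ^ 2 := sq_le_sq' hl1 hl2
        gcongr
      linarith
    rw [e2]
    have k8 : r * (G ^ 2 * l) = r * (P ^ 2 * l) + (r * l * d ^ 2 + r * l * (2 * σ * P * d)) := by
      have : r * (G ^ 2 * l) - r * (P ^ 2 * l) = r * l * (G ^ 2 - P ^ 2) := by ring
      rw [e1] at this
      linarith
    nlinarith
  have hint := (int_mono (by fun_prop) c1 hpt).trans hm
  rw [int_add (by fun_prop) (by fun_prop), int_add (by fun_prop) (by fun_prop),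
    integral_const_mul, int_sub (by fun_prop) (by fun_prop), int_add (by fun_prop) (by fun_prop),
    int_const, int_sub (by fun_prop) (by fun_prop), int_sub (by fun_prop) (by fun_prop),
    integral_const_mul, integral_const_mul, integral_const_mul,
    int_sub (by fun_prop) (by fun_prop), int_add (by fun_prop) (by fun_prop),
    integral_const_mul, integral_psi_sq h] at hint
  have e : ∫ z, psi α β z ^ 2 * Real.log (psi α β z ^ 2) ∂muOm = 2 * F1 α β := by rw [F1]; ring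
  rw [e, mul_assoc 2 σ, hσA] at hint
  nlinarith

end Pool.Agent.Helper270_PL
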