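import Pool.Agent.Helper270_PL.BelowField

/-!
# The one-shot bound, combined
-/

open MeasureTheory Set Filter Topology
open scoped ENNReal

namespace Pool.Agent.Helper270_PL

variable {α β : ℝ}

/-- the arithmetic of the one-shot bound -/
theorem oneshot_arith {I D LLv ω r K a0 A Bq G2 F1v F2L lnL τ κ L : ℝ} (hLL : 0 < LLv) (hω : 0 < ω)
    (hω1 : ω ≤ 1 / 16) (hr : 0 < r) (hrω : r ≤ ω) (hκ : 0 < κ) (hτ : τ = κ)
    (hωκ : 4 * ω * (2 * |F1v| + κ) ≤ κ) (hG : G2 ≤ 1) (hA : A ^ 2 ≤ G2)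
    (ha0 : a0 ^ 2 ≤ K ^ 2 * r ^ 2) (hBq : Bq ^ 2 ≤ K ^ 2 * r ^ 2)
    (hD : D * LLv ≤ 5 / 2 * a0 ^ 2 + (A ^ 2 + Bq ^ 2) +
      5 / 8 * (G2 - a0 ^ 2 - (A ^ 2 + Bq ^ 2)))
    (hI : I ≤ D + (2 * r / LLv * (F2L - lnL) + 97 * r ^ 2) +
      ω * (D + 1 / LLv - 2 * |A| / LLv) + 1632 * r ^ 2 / ω)
    (hE : r * (2 * F1v - τ) - r ^ 2 * L ^ 2 / ω ≤ (1 + r) * (1 - G2) +
      2 * ω * (G2 + 1 - 2 * |A|)) :
    I ≤ (1 + 2 * r * (F2L - F1v - lnL + κ) +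
      (L ^ 2 * (1 / ω + 4) + 97 * LLv + 1632 * LLv / ω + 3 * K ^ 2) * r ^ 2) / LLv := by
  rw [le_div_iff₀ hLL]
  have hI2 := mul_le_mul_of_nonneg_right hI hLL.le
  have e1 : (D + (2 * r / LLv * (F2L - lnL) + 97 * r ^ 2) +
      ω * (D + 1 / LLv - 2 * |A| / LLv) + 1632 * r ^ 2 / ω) * LLv =
      (1 + ω) * (D * LLv) + 2 * r * (F2L - lnL) + 97 * LLv * r ^ 2 + ω * (1 - 2 * |A|) +
      1632 * LLv / ω * r ^ 2 := by
    field_simp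
    ring
  rw [e1] at hI2
  obtain ⟨T1, hT1⟩ : ∃ T1, T1 = 1 - G2 := ⟨_, rfl⟩
  obtain ⟨T2, hT2⟩ : ∃ T2, T2 = G2 - A ^ 2 := ⟨_, rfl⟩
  have t1 : 0 ≤ T1 := by linarith
  have t2 : 0 ≤ T2 := by linarith
  have hAA : |A| ^ 2 = A ^ 2 := sq_abs A
  have hA1 : |A| ≤ 1 := by
    have : |A| ^ 2 ≤ 1 := by rw [hAA]; linarith
    nlinarith [abs_nonneg A]
  have hA2 : (1 - |A|) ^ 2 ≤ T1 + T2 := by
    have : T1 + T2 = 1 - |A| ^ 2 := by rw [hAA]; linarith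
    rw [this]
    nlinarith [abs_nonneg A]
  have hD2 : D * LLv ≤ 1 - T1 - 3 / 8 * T2 + 9 / 4 * K ^ 2 * r ^ 2 := by
    nlinarith
  have hD3 : (1 + ω) * (D * LLv) ≤ (1 + ω) * (1 - T1 - 3 / 8 * T2 + 9 / 4 * K ^ 2 * r ^ 2) :=
    mul_le_mul_of_nonneg_left hD2 (by linarith)
  have e2 : 1 - T1 = |A| ^ 2 + T2 := by rw [hAA]; linarith
  have h3 : ω * (1 - T1 - 3 / 8 * T2) + ω * (1 - 2 * |A|) ≤ ω * (T1 + 2 * T2) := by
    rw [← mul_add]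
    refine mul_le_mul_of_nonneg_left ?_ hω.le
    nlinarith
  have h4 : G2 + 1 - 2 * |A| ≤ T1 + 2 * T2 := by nlinarith
  have h5 : r * (2 * F1v - τ) - r ^ 2 * L ^ 2 / ω ≤ (1 + 3 * ω) * T1 + 4 * ω * T2 := by
    have a1 : 2 * ω * (G2 + 1 - 2 * |A|) ≤ 2 * ω * (T1 + 2 * T2) :=
      mul_le_mul_of_nonneg_left h4 (by linarith)
    have a2 : r * T1 ≤ ω * T1 := mul_le_mul_of_nonneg_right hrω t1
    rw [← hT1] at hE
    nlinarith
  set X := r * (2 * F1v - τ) - r ^ 2 * L ^ 2 / ω with hX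
  have hXabs : |X| ≤ r * (2 * |F1v| + κ) + r ^ 2 * L ^ 2 / ω := by
    have a1 : 0 ≤ r ^ 2 * L ^ 2 / ω := by positivity
    have a2 := neg_abs_le F1v
    have a3 := le_abs_self F1v
    rw [abs_le]
    constructor
    · rw [hX, hτ]; nlinarith
    · rw [hX, hτ]; nlinarith
  set m := (1 - ω) / (1 + 3 * ω) with hm
  have hω3 : 0 < 1 + 3 * ω := by linarith
  have hm1 : m * (1 + 3 * ω) = 1 - ω := by rw [hm]; field_simp
  have hm2 : 0 ≤ m := by rw [hm]; exact div_nonneg (by linarith) hω3.le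
  have hm3 : m ≤ 1 := by rw [hm, div_le_one hω3]; linarith
  have hm4 : 1 - m ≤ 4 * ω := by nlinarith
  have h6 : m * X ≤ (1 - ω) * T1 + (3 / 8 - 2 * ω) * T2 := by
    have a1 := mul_le_mul_of_nonneg_left h5 hm2
    have a2 : m * ((1 + 3 * ω) * T1 + 4 * ω * T2) = (1 - ω) * T1 + 4 * ω * m * T2 := by
      rw [← hm1]; ring
    have a3 : 4 * ω * m * T2 ≤ (3 / 8 - 2 * ω) * T2 := by
      refine mul_le_mul_of_nonneg_right ?_ t2
      nlinarith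
    linarith
  have h7 : X - 4 * ω * |X| ≤ m * X := by
    have a1 : (1 - m) * X ≤ (1 - m) * |X| :=
      mul_le_mul_of_nonneg_left (le_abs_self X) (by linarith)
    have a2 : (1 - m) * |X| ≤ 4 * ω * |X| := mul_le_mul_of_nonneg_right hm4 (abs_nonneg _)
    linarith
  have h8 : 4 * ω * |X| ≤ r * κ + 4 * L ^ 2 * r ^ 2 := by
    have a1 := mul_le_mul_of_nonneg_left hXabs (by positivity : 0 ≤ 4 * ω)
    have a2 : 4 * ω * (r * (2 * |F1v| + κ) + r ^ 2 * L ^ 2 / ω) =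
        r * (4 * ω * (2 * |F1v| + κ)) + 4 * L ^ 2 * r ^ 2 := by
      field_simp
    have a3 : r * (4 * ω * (2 * |F1v| + κ)) ≤ r * κ := mul_le_mul_of_nonneg_left hωκ hr.le
    linarith
  have h9 : ω * (9 / 4 * K ^ 2 * r ^ 2) ≤ 3 / 4 * K ^ 2 * r ^ 2 := by
    have b0 : 0 ≤ K ^ 2 * r ^ 2 := by positivity
    have b1 := mul_le_mul_of_nonneg_right hω1 b0
    have b2 : ω * (9 / 4 * K ^ 2 * r ^ 2) = 9 / 4 * (ω * (K ^ 2 * r ^ 2)) := by ring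
    rw [b2]
    linarith
  have e3 : r ^ 2 * L ^ 2 / ω = L ^ 2 * (1 / ω) * r ^ 2 := by ring
  have e4 : X = 2 * r * F1v - r * κ - L ^ 2 * (1 / ω) * r ^ 2 := by rw [hX, hτ, e3]; ring
  have e5 : (1 + 2 * r * (F2L - F1v - lnL + κ) +
      (L ^ 2 * (1 / ω + 4) + 97 * LLv + 1632 * LLv / ω + 3 * K ^ 2) * r ^ 2) =
      1 + 2 * r * (F2L - lnL) - 2 * r * F1v + 2 * r * κ + L ^ 2 * (1 / ω) * r ^ 2 +
      4 * L ^ 2 * r ^ 2 + 97 * LLv * r ^ 2 + 1632 * LLv / ω * r ^ 2 + 3 * K ^ 2 * r ^ 2 := by ring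
  rw [e5]
  have e6 : (1 + ω) * (1 - T1 - 3 / 8 * T2 + 9 / 4 * K ^ 2 * r ^ 2) =
      1 - T1 - 3 / 8 * T2 + ω * (1 - T1 - 3 / 8 * T2) + 9 / 4 * K ^ 2 * r ^ 2 +
      ω * (9 / 4 * K ^ 2 * r ^ 2) := by ring
  rw [e6] at hD3
  have h10 : X ≤ (1 - ω) * T1 + (3 / 8 - 2 * ω) * T2 + (r * κ + 4 * L ^ 2 * r ^ 2) := by
    linarith
  rw [e4] at h10
  linarith

/-- the one-shot bound -/
theorem Z_power_bound (h : α ^ 2 + β ^ 2 = 1) {κ : ℝ} (hκ : 0 < κ) {K : ℝ} (hK : 0 ≤ K) :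
    ∃ C, 0 ≤ C ∧ ∃ δ, 0 < δ ∧ ∀ r, 0 < r → r < δ → ∀ g : ℝ × ℝ → ℝ, Continuous g →
      ∀ B, (∀ z, |g z| ≤ B) → ∫ z, (g z ^ 2) ^ (1 + r) ∂muOm ≤ 1 → |cf g 0 0| ≤ K * r →
      |∫ z, g z * psi (-β) α z ∂muOm| ≤ K * r → ∀ s : Finset (ℕ × ℕ), (0, 1) ∈ s → (1, 0) ∈ s →
      ∫ z, (ZX s (fun i => cf g i.1 i.2) z ^ 2 + ZY s (fun i => cf g i.1 i.2) z ^ 2) ^ (1 + r) ∂muOm ≤
        (1 + 2 * r * (GG α β / LL - Real.log LL + κ) + C * r ^ 2) / LL := by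
  have hL := LL_pos
  set ω := min (1 / 16) (κ / (4 * (2 * |F1 α β| + κ))) with hωd
  have hden : 0 < 4 * (2 * |F1 α β| + κ) := by positivity
  have hω : 0 < ω := by positivity
  have hω1 : ω ≤ 1 / 16 := min_le_left _ _
  have hω2 : 4 * ω * (2 * |F1 α β| + κ) ≤ κ := by
    have := min_le_right (1 / 16) (κ / (4 * (2 * |F1 α β| + κ)))
    rw [← hωd, le_div_iff₀ hden] at this
    linarith
  set L := 64 + κ + 1 / κ with hLd
  have hL0 : 0 < L := by positivity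
  have hlog : ∀ z, |Real.log (psi α β z ^ 2 + κ)| ≤ L := by
    intro z
    have h3 : psi α β z ^ 2 ≤ 64 := by
      rw [← sq_abs]
      calc |psi α β z| ^ 2 ≤ 8 ^ 2 := pow_le_pow_left₀ (abs_nonneg _) (abs_psi_le h z) 2
        _ = 64 := by norm_num
    have := abs_log_le (x := psi α β z ^ 2 + κ) (M := 64 + κ) hκ
      (by linarith [sq_nonneg (psi α β z)]) (by linarith)
    linarith
  refine ⟨L ^ 2 * (1 / ω + 4) + 97 * LL + 1632 * LL / ω + 3 * K ^ 2, by positivity,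
    min (1 / 4) (min ω (ω / L)), by positivity,
    fun r hr hrδ g hg B hB hm h00 hperp s hs1 hs2 => ?_⟩
  have hr4 : r ≤ 1 / 4 := (hrδ.trans_le (min_le_left _ _)).le
  have hrω : r ≤ ω := (hrδ.trans_le ((min_le_right _ _).trans (min_le_left _ _))).le
  have hrL : r * L ≤ ω := by
    have := (hrδ.trans_le ((min_le_right _ _).trans (min_le_right _ _))).le
    rwa [le_div_iff₀ hL0] at this
  have hsum := hasSum_cf hg hB
  have hle : ∀ t : Finset (ℕ × ℕ), ∑ i ∈ t, cf g i.1 i.2 ^ 2 ≤ ∫ z, g z ^ 2 ∂muOm := fun t =>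
    sum_le_hasSum t (fun i _ => sq_nonneg _) hsum
  have hG2 := sq_int_le_one hg hr.le hm
  have hspec := dual_spectral (s := s) (a := fun i => cf g i.1 i.2) (hle _)
  have hfield := field_int (s := s) (a := fun i => cf g i.1 i.2) h ((hle s).trans hG2) hs1 hs2
    hr.le hr4 hω
  have hent := entropy_lower h hg hr.le hω hκ hlog hrL hm
  rw [integral_mul_psi hg] at hent hperp
  have hpair := hle {(0, 1), (1, 0)}
  rw [Finset.sum_pair (by simp)] at hpair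
  simp only at hspec hfield hpair
  have hAB : (α * cf g 0 1 + β * cf g 1 0) ^ 2 + (-β * cf g 0 1 + α * cf g 1 0) ^ 2 =
      cf g 0 1 ^ 2 + cf g 1 0 ^ 2 := by
    linear_combination (cf g 0 1 ^ 2 + cf g 1 0 ^ 2) * h
  have ha0 : cf g 0 0 ^ 2 ≤ K ^ 2 * r ^ 2 := by
    rw [← mul_pow, ← sq_abs]; exact pow_le_pow_left₀ (abs_nonneg _) h00 2
  have hb0 : (-β * cf g 0 1 + α * cf g 1 0) ^ 2 ≤ K ^ 2 * r ^ 2 := by
    rw [← mul_pow, ← sq_abs]; exact pow_le_pow_left₀ (abs_nonneg _) hperp 2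
  have e : GG α β / LL - Real.log LL + κ = F2 α β / LL - F1 α β - Real.log LL + κ := by
    rw [GG_eq, show 5 * Real.pi ^ 2 = LL from rfl]
    field_simp
  rw [e]
  refine oneshot_arith (D := ∑ i ∈ s, cf g i.1 i.2 ^ 2 / lm i.1 i.2) (a0 := cf g 0 0)
    (A := α * cf g 0 1 + β * cf g 1 0) (Bq := -β * cf g 0 1 + α * cf g 1 0)
    (G2 := ∫ z, g z ^ 2 ∂muOm) hL hω hω1 hr hrω hκ rfl hω2 hG2 ?_ ha0 hb0 ?_ hfield hent
  · nlinarith [sq_nonneg (-β * cf g 0 1 + α * cf g 1 0)]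
  · rw [hAB]
    have hm2 := mul_le_mul_of_nonneg_right hspec hL.le
    refine hm2.trans (le_of_eq ?_)
    rw [LL]
    have := Real.pi_ne_zero
    field_simp
    ring

end Pool.Agent.Helper270_PL
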