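import Pool.Agent.Helper270_PL.PolyInt

/-!
# `GG 1 0 > GG (√2/2) (√2/2)`
-/

open MeasureTheory Set Filter Topology
open scoped ENNReal

namespace Pool.Agent.Helper270_PL

theorem sqrt_two_sq : Real.sqrt 2 * Real.sqrt 2 = 2 := Real.mul_self_sqrt (by norm_num)

theorem cs01 (z : ℝ × ℝ) : cs 0 1 z =
    4 * Real.cos (Real.pi * z.1) * Real.sin (Real.pi * z.2) * Real.cos (Real.pi * z.2) := by
  have h := sqrt_two_sq
  simp only [cs, Sn, Cn]
  rw [show (((0 : ℕ) : ℝ) + 1) * Real.pi * z.1 = Real.pi * z.1 by push_cast; ring,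
    show (((1 : ℕ) : ℝ) + 1) * Real.pi * z.2 = 2 * (Real.pi * z.2) by push_cast; ring,
    Real.sin_two_mul]
  linear_combination (2 * Real.cos (Real.pi * z.1) * Real.sin (Real.pi * z.2) *
    Real.cos (Real.pi * z.2)) * h

theorem cs10 (z : ℝ × ℝ) : cs 1 0 z =
    2 * (2 * Real.cos (Real.pi * z.1) ^ 2 - 1) * Real.sin (Real.pi * z.2) := by
  have h := sqrt_two_sq
  simp only [cs, Sn, Cn]
  rw [show (((0 : ℕ) : ℝ) + 1) * Real.pi * z.2 = Real.pi * z.2 by push_cast; ring,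
    show (((1 : ℕ) : ℝ) + 1) * Real.pi * z.1 = 2 * (Real.pi * z.1) by push_cast; ring,
    Real.cos_two_mul]
  linear_combination ((2 * Real.cos (Real.pi * z.1) ^ 2 - 1) * Real.sin (Real.pi * z.2)) * h

theorem sc01 (z : ℝ × ℝ) : sc 0 1 z =
    2 * Real.sin (Real.pi * z.1) * (2 * Real.cos (Real.pi * z.2) ^ 2 - 1) := by
  have h := sqrt_two_sq
  simp only [sc, Sn, Cn]
  rw [show (((0 : ℕ) : ℝ) + 1) * Real.pi * z.1 = Real.pi * z.1 by push_cast; ring,
    show (((1 : ℕ) : ℝ) + 1) * Real.pi * z.2 = 2 * (Real.pi * z.2) by push_cast; ring,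
    Real.cos_two_mul]
  linear_combination (Real.sin (Real.pi * z.1) * (2 * Real.cos (Real.pi * z.2) ^ 2 - 1)) * h

theorem sc10 (z : ℝ × ℝ) : sc 1 0 z =
    4 * Real.sin (Real.pi * z.1) * Real.cos (Real.pi * z.1) * Real.cos (Real.pi * z.2) := by
  have h := sqrt_two_sq
  simp only [sc, Sn, Cn]
  rw [show (((0 : ℕ) : ℝ) + 1) * Real.pi * z.2 = Real.pi * z.2 by push_cast; ring,
    show (((1 : ℕ) : ℝ) + 1) * Real.pi * z.1 = 2 * (Real.pi * z.1) by push_cast; ring,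
    Real.sin_two_mul]
  linear_combination (2 * Real.sin (Real.pi * z.1) * Real.cos (Real.pi * z.1) *
    Real.cos (Real.pi * z.2)) * h

/-- half the sum of the squared gradients -/
noncomputable def AA (z : ℝ × ℝ) : ℝ := (gg 1 0 z + gg 0 1 z) / 2

/-- half the difference of the squared gradients -/
noncomputable def BB (z : ℝ × ℝ) : ℝ := (gg 1 0 z - gg 0 1 z) / 2

/-- the scalar product of the gradients -/
noncomputable def CC (z : ℝ × ℝ) : ℝ := psiX 1 0 z * psiX 0 1 z + psiY 1 0 z * psiY 0 1 z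

/-- the cross product of the gradients -/
noncomputable def DDx (z : ℝ × ℝ) : ℝ := psiX 1 0 z * psiY 0 1 z - psiY 1 0 z * psiX 0 1 z

theorem sq_rel (z : ℝ × ℝ) : BB z ^ 2 + CC z ^ 2 + DDx z ^ 2 = AA z ^ 2 := by
  simp only [AA, BB, CC, DDx, gg]; ring

theorem gg_diag (z : ℝ × ℝ) : gg rt rt z = AA z + CC z := by
  simp only [AA, CC, gg, psiX, psiY]
  linear_combination ((Real.pi * cs 0 1 z + 2 * Real.pi * cs 1 0 z) ^ 2 +
    (2 * Real.pi * sc 0 1 z + Real.pi * sc 1 0 z) ^ 2) * rt_sq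

theorem gg_diag' (z : ℝ × ℝ) : gg rt (-rt) z = AA z - CC z := by
  simp only [AA, CC, gg, psiX, psiY]
  linear_combination ((Real.pi * cs 0 1 z - 2 * Real.pi * cs 1 0 z) ^ 2 +
    (2 * Real.pi * sc 0 1 z - Real.pi * sc 1 0 z) ^ 2) * rt_sq

theorem gg_reflX (α β : ℝ) (z : ℝ × ℝ) : gg α β (1 - z.1, z.2) = gg α (-β) z := by
  simp only [gg, psiX, psiY, cs, sc, Sn0_refl, Sn1_refl, Cn0_refl, Cn1_refl]
  ring

theorem gg_swap (z : ℝ × ℝ) : gg 1 0 (z.2, z.1) = gg 0 1 z := by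
  simp only [gg, psiX, psiY, cs, sc]
  ring

theorem continuous_AA : Continuous AA := by
  have h1 := continuous_gg 1 0
  have h2 := continuous_gg 0 1
  unfold AA; fun_prop

theorem continuous_BB : Continuous BB := by
  have h1 := continuous_gg 1 0
  have h2 := continuous_gg 0 1
  unfold BB; fun_prop

theorem continuous_CC : Continuous CC := by
  have h1 := continuous_psiX 1 0
  have h2 := continuous_psiX 0 1
  have h3 := continuous_psiY 1 0
  have h4 := continuous_psiY 0 1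
  unfold CC; fun_prop

theorem continuous_eta : Continuous eta := Real.continuous_mul_log

theorem F2_diag : F2 rt rt = 1 / 4 * ∫ z, (eta (AA z + CC z) + eta (AA z - CC z)) ∂muOm := by
  have c1 := continuous_AA
  have c2 := continuous_CC
  have c3 := continuous_eta
  have h1 : ∫ z, gg rt rt z * Real.log (gg rt rt z) ∂muOm = ∫ z, eta (AA z + CC z) ∂muOm := by
    simp only [gg_diag, eta]
  have h2 : ∫ z, gg rt rt z * Real.log (gg rt rt z) ∂muOm = ∫ z, eta (AA z - CC z) ∂muOm := by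
    rw [← int_reflX]
    simp only [gg_reflX, gg_diag', eta]
  rw [F2, int_add (by fun_prop) (by fun_prop), ← h1, ← h2]
  ring

theorem F2_one : F2 1 0 = 1 / 4 * ∫ z, (eta (AA z + BB z) + eta (AA z - BB z)) ∂muOm := by
  have c1 := continuous_AA
  have c2 := continuous_BB
  have c3 := continuous_eta
  have e1 : ∀ z, AA z + BB z = gg 1 0 z := fun z => by simp only [AA, BB]; ring
  have e2 : ∀ z, AA z - BB z = gg 0 1 z := fun z => by simp only [AA, BB]; ring
  have h1 : ∫ z, gg 1 0 z * Real.log (gg 1 0 z) ∂muOm = ∫ z, eta (AA z + BB z) ∂muOm := by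
    simp only [e1, eta]
  have h2 : ∫ z, gg 1 0 z * Real.log (gg 1 0 z) ∂muOm = ∫ z, eta (AA z - BB z) ∂muOm := by
    rw [← int_swap]
    simp only [gg_swap, e2, eta]
  rw [F2, int_add (by fun_prop) (by fun_prop), ← h1, ← h2]
  ring

theorem AA_eq (z : ℝ × ℝ) : AA z = 8 * Real.pi ^ 2 *
    PP0 (Real.cos (Real.pi * z.1) ^ 2) (Real.cos (Real.pi * z.2) ^ 2) := by
  simp only [AA, gg, psiX, psiY, cs01, cs10, sc01, sc10, PP0]
  have h1 := Real.sin_sq (Real.pi * z.1)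
  have h2 := Real.sin_sq (Real.pi * z.2)
  set s := Real.sin (Real.pi * z.1)
  set t := Real.sin (Real.pi * z.2)
  set c := Real.cos (Real.pi * z.1)
  set d := Real.cos (Real.pi * z.2)
  have e : ((1 * (Real.pi * (4 * c * t * d)) + 0 * (2 * Real.pi * (2 * (2 * c ^ 2 - 1) * t))) ^ 2 +
      (1 * (2 * Real.pi * (2 * s * (2 * d ^ 2 - 1))) + 0 * (Real.pi * (4 * s * c * d))) ^ 2 +
      ((0 * (Real.pi * (4 * c * t * d)) + 1 * (2 * Real.pi * (2 * (2 * c ^ 2 - 1) * t))) ^ 2 +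
      (0 * (2 * Real.pi * (2 * s * (2 * d ^ 2 - 1))) + 1 * (Real.pi * (4 * s * c * d))) ^ 2)) / 2 =
      8 * Real.pi ^ 2 * (c ^ 2 * t ^ 2 * d ^ 2 + s ^ 2 * (2 * d ^ 2 - 1) ^ 2 +
        (2 * c ^ 2 - 1) ^ 2 * t ^ 2 + s ^ 2 * c ^ 2 * d ^ 2) := by ring
  rw [e, h1, h2]
  ring

theorem BB_eq (z : ℝ × ℝ) : BB z = 8 * Real.pi ^ 2 *
    ((Real.cos (Real.pi * z.1) ^ 2 - Real.cos (Real.pi * z.2) ^ 2) *
      (5 * Real.cos (Real.pi * z.1) ^ 2 * Real.cos (Real.pi * z.2) ^ 2 -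
        4 * Real.cos (Real.pi * z.1) ^ 2 - 4 * Real.cos (Real.pi * z.2) ^ 2 + 3)) := by
  simp only [BB, gg, psiX, psiY, cs01, cs10, sc01, sc10]
  have h1 := Real.sin_sq (Real.pi * z.1)
  have h2 := Real.sin_sq (Real.pi * z.2)
  set s := Real.sin (Real.pi * z.1)
  set t := Real.sin (Real.pi * z.2)
  set c := Real.cos (Real.pi * z.1)
  set d := Real.cos (Real.pi * z.2)
  have e : ((1 * (Real.pi * (4 * c * t * d)) + 0 * (2 * Real.pi * (2 * (2 * c ^ 2 - 1) * t))) ^ 2 +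
      (1 * (2 * Real.pi * (2 * s * (2 * d ^ 2 - 1))) + 0 * (Real.pi * (4 * s * c * d))) ^ 2 -
      ((0 * (Real.pi * (4 * c * t * d)) + 1 * (2 * Real.pi * (2 * (2 * c ^ 2 - 1) * t))) ^ 2 +
      (0 * (2 * Real.pi * (2 * s * (2 * d ^ 2 - 1))) + 1 * (Real.pi * (4 * s * c * d))) ^ 2)) / 2 =
      8 * Real.pi ^ 2 * (c ^ 2 * t ^ 2 * d ^ 2 + s ^ 2 * (2 * d ^ 2 - 1) ^ 2 -
        (2 * c ^ 2 - 1) ^ 2 * t ^ 2 - s ^ 2 * c ^ 2 * d ^ 2) := by ring
  rw [e, h1, h2]
  ring

theorem DDx_eq (z : ℝ × ℝ) : DDx z = 16 * Real.pi ^ 2 *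
    (Real.sin (Real.pi * z.1) * Real.sin (Real.pi * z.2) *
      (2 * Real.cos (Real.pi * z.1) ^ 2 + 2 * Real.cos (Real.pi * z.2) ^ 2 -
        3 * (Real.cos (Real.pi * z.1) ^ 2 * Real.cos (Real.pi * z.2) ^ 2) - 1)) := by
  simp only [DDx, psiX, psiY, cs01, cs10, sc01, sc10]
  ring

theorem integral_AA : ∫ z, AA z ∂muOm = 5 * Real.pi ^ 2 := by
  have c1 := continuous_gg 1 0
  have c2 := continuous_gg 0 1
  have e : ∀ z, AA z = 1 / 2 * gg 1 0 z + 1 / 2 * gg 0 1 z := fun z => by simp only [AA]; ring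
  simp only [e]
  rw [int_add (by fun_prop) (by fun_prop), integral_const_mul, integral_const_mul,
    integral_gg one_unit, integral_gg (by norm_num : (0 : ℝ) ^ 2 + 1 ^ 2 = 1)]
  ring

theorem F2_diff_le : F2 rt rt - F2 1 0 ≤ 2 * Real.pi ^ 2 * (5 / 4 * Real.log 2 -
    (2 * Real.log 2 + 1) * (170743 / 1179648) - 2 * Real.log 2 * (408059 / 1572864)) := by
  have cA := continuous_AA
  have cB := continuous_BB
  have cC := continuous_CC
  have cE := continuous_eta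
  have p1 := continuous_pev l1
  have p2 := continuous_pev l2
  have hpt : ∀ z, eta (AA z + CC z) + eta (AA z - CC z) - (eta (AA z + BB z) + eta (AA z - BB z)) ≤
      2 * Real.log 2 * AA z -
      (8 * Real.pi ^ 2 * (2 * Real.log 2 + 1)) *
        pev l1 (Real.cos (Real.pi * z.1) ^ 2) (Real.cos (Real.pi * z.2) ^ 2) -
      (8 * Real.pi ^ 2 * (2 * Real.log 2)) *
        pev l2 (Real.cos (Real.pi * z.1) ^ 2) (Real.cos (Real.pi * z.2) ^ 2) := by
    intro z
    have hA0 : 0 ≤ AA z := by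
      simp only [AA]
      have h1 := gg_nonneg 1 0 z
      have h2 := gg_nonneg 0 1 z
      linarith
    set X := Real.cos (Real.pi * z.1) ^ 2 with hX
    set Y := Real.cos (Real.pi * z.2) ^ 2 with hY
    have key := eta_compare (h := (X - Y) * hh0 X Y)
      (k := Real.sin (Real.pi * z.1) * Real.sin (Real.pi * z.2) * kk0 X Y) hA0 (sq_rel z)
    have h1 := Real.sin_sq (Real.pi * z.1)
    have h2 := Real.sin_sq (Real.pi * z.2)
    have e1 : 2 * ((X - Y) * hh0 X Y) * BB z - ((X - Y) * hh0 X Y) ^ 2 * AA z =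
        8 * Real.pi ^ 2 * pev l1 X Y := by
      rw [pev_l1, AA_eq, BB_eq, ← hX, ← hY]
      ring
    have e2 : 2 * (Real.sin (Real.pi * z.1) * Real.sin (Real.pi * z.2) * kk0 X Y) * DDx z -
        (Real.sin (Real.pi * z.1) * Real.sin (Real.pi * z.2) * kk0 X Y) ^ 2 * AA z =
        8 * Real.pi ^ 2 * pev l2 X Y := by
      rw [pev_l2, AA_eq, DDx_eq, ← hX, ← hY]
      have e3 : 2 * (Real.sin (Real.pi * z.1) * Real.sin (Real.pi * z.2) * kk0 X Y) *
          (16 * Real.pi ^ 2 * (Real.sin (Real.pi * z.1) * Real.sin (Real.pi * z.2) *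
            (2 * X + 2 * Y - 3 * (X * Y) - 1))) -
          (Real.sin (Real.pi * z.1) * Real.sin (Real.pi * z.2) * kk0 X Y) ^ 2 *
            (8 * Real.pi ^ 2 * PP0 X Y) =
          8 * Real.pi ^ 2 * (Real.sin (Real.pi * z.1) ^ 2 * Real.sin (Real.pi * z.2) ^ 2 *
            (4 * kk0 X Y * (2 * X + 2 * Y - 3 * (X * Y) - 1) - kk0 X Y ^ 2 * PP0 X Y)) := by ring
      rw [e3, h1, h2, ← hX, ← hY]
    rw [e1, e2] at key
    linarith
  have hint := int_mono (by fun_prop) (by fun_prop) hpt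
  rw [int_sub (by fun_prop) (by fun_prop), int_sub (by fun_prop) (by fun_prop),
    int_sub (by fun_prop) (by fun_prop), integral_const_mul, integral_const_mul,
    integral_const_mul, integral_AA, integral_pev, integral_pev, pex_l1, pex_l2] at hint
  rw [F2_diag, F2_one]
  linarith

/-- The first order coefficient is not constant. -/
theorem GG_lt : GG rt rt < GG 1 0 := by
  rw [GG_eq, GG_eq]
  have h1 := F1_diff
  have h2 := F2_diff_le
  have hpi : 0 < Real.pi ^ 2 := by positivity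
  have h3 : 2 * (5 / 4 * Real.log 2 -
    (2 * Real.log 2 + 1) * (170743 / 1179648) - 2 * Real.log 2 * (408059 / 1572864)) <
      5 * (5 / 12 - Real.log 2 / 2) := by
    have := Real.log_two_lt_d9
    linarith
  have h4 := mul_lt_mul_of_pos_left h3 hpi
  have h5 : 5 * Real.pi ^ 2 * (F1 rt rt - F1 1 0) = Real.pi ^ 2 * (5 * (5 / 12 - Real.log 2 / 2)) := by
    rw [h1]; ring
  linarith

end Pool.Agent.Helper270_PL
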