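import Pool.Agent.Helper270_PL.AboveExp
import Pool.Agent.Helper270_PL.F2diff

/-!
# `λ₂ < λ₃` for exponents slightly above `2`
-/

open MeasureTheory Set Filter Topology
open scoped ENNReal

namespace Pool.Agent.Helper270_PL

variable {α β : ℝ}

theorem wt_pos {σ : ℝ} (hσ : 0 < σ) (z : ℝ × ℝ) : 0 < wt α β σ z := by
  have h1 := gg_nonneg α β z
  rw [wt, Real.sqrt_pos]
  positivity

theorem continuous_wt {σ : ℝ} (hσ : 0 < σ) : Continuous (wt α β σ) := by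
  have c4 := continuous_gg α β
  have c5 := continuous_psi α β
  unfold wt
  exact ((c4.add continuous_const).div ((c5.pow 2).add continuous_const) fun z =>
        (by positivity : (0 : ℝ) < psi α β z ^ 2 + σ ^ 2).ne').sqrt

theorem abs_log_le {x m M : ℝ} (hm : 0 < m) (h1 : m ≤ x) (h2 : x ≤ M) :
    |Real.log x| ≤ M + 1 / m := by
  have hx : 0 < x := lt_of_lt_of_le hm h1
  have h3 := Real.log_le_sub_one_of_pos hx
  have h4 := Real.one_sub_inv_le_log_of_pos hx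
  have h5 : x⁻¹ ≤ 1 / m := by rw [one_div]; exact inv_anti₀ hm h1
  have h6 : 0 < 1 / m := by positivity
  rw [abs_le]
  constructor <;> linarith

theorem abs_log_wt_le (h : α ^ 2 + β ^ 2 = 1) {σ : ℝ} (hσ : 0 < σ) (hσ1 : σ ≤ 1) (z : ℝ × ℝ) :
    |Real.log (wt α β σ z)| ≤ 4609 + 1 / σ ^ 2 := by
  rw [log_wt hσ]
  have hσ2 : σ ^ 2 ≤ 1 := by nlinarith
  have g0 := gg_nonneg α β z
  have h1 := abs_log_le (M := 4609) (by positivity : 0 < σ ^ 2) (by linarith : σ ^ 2 ≤ gg α β z + σ ^ 2)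
    (by linarith [gg_le h z])
  have h3 : psi α β z ^ 2 ≤ 64 := by
    rw [← sq_abs]
    calc |psi α β z| ^ 2 ≤ 8 ^ 2 := pow_le_pow_left₀ (abs_nonneg _) (abs_psi_le h z) 2
      _ = 64 := by norm_num
  have h2 := abs_log_le (M := 4609) (by positivity : 0 < σ ^ 2)
    (by nlinarith [sq_nonneg (psi α β z)] : σ ^ 2 ≤ psi α β z ^ 2 + σ ^ 2) (by linarith)
  rw [abs_le] at h1 h2 ⊢
  constructor <;> linarith [h1.1, h1.2, h2.1, h2.2]

/-- First order lower bound for `λ₃` above `2`. -/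
theorem lam_three_above (h : α ^ 2 + β ^ 2 = 1) {κ : ℝ} (hκ : 0 < κ) :
    ∃ C, ∃ δ, 0 < δ ∧ ∀ ε, 0 < ε → ε < δ → ∀ (p : ℝ≥0∞) [Fact (1 ≤ p)], p ≠ ∞ →
      p.toReal = 2 + ε → 5 * Real.pi ^ 2 + ε * (GG α β - κ) - C * ε ^ 2 ≤ lam p 3 := by
  set D := 85 * Real.pi ^ 2 + 1 with hD
  have hD0 : 0 < D := by positivity
  set σ := min 1 (κ / D) with hσd
  have hσ : 0 < σ := by positivity
  have hσ1 : σ ≤ 1 := min_le_left _ _
  have hσ2 : D * σ ≤ κ := by
    have := min_le_right 1 (κ / D)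
    rw [← hσd, le_div_iff₀ hD0] at this
    linarith
  have hq := qform_wt h hσ hσ1
  obtain ⟨C, δ, hδ, hmain⟩ := lam_three_first_order h (continuous_wt (α := α) (β := β) hσ)
    (fun z => wt_pos hσ z) (L := 4609 + 1 / σ ^ 2) (by
      have : 0 < 1 / σ ^ 2 := by positivity
      linarith) (fun z => abs_log_wt_le h hσ hσ1 z)
  refine ⟨C, δ, hδ, fun ε hε hεδ p _ hp hpe => ?_⟩
  have h1 := hmain ε hε hεδ p hp hpe
  have h2 : ε * (GG α β - κ) ≤ ε * qform α β (wt α β σ) :=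
    mul_le_mul_of_nonneg_left (by linarith) hε.le
  linarith

theorem near_above : ∃ δ : ℝ, 0 < δ ∧ ∀ (p : ℝ≥0∞) [Fact (1 ≤ p)], p ≠ ∞ →
    2 < p.toReal → p.toReal < 2 + δ → lam p 2 < lam p 3 := by
  have hlt := GG_lt
  set κ := (GG 1 0 - GG rt rt) / 2 with hκ
  have hκ0 : 0 < κ := by rw [hκ]; linarith
  obtain ⟨C1, δ1, hδ1, h1⟩ := lam_three_above one_unit hκ0
  obtain ⟨C2, δ2, hδ2, h2⟩ := lam_two_first_order rt_unit
  refine ⟨min δ1 (min δ2 (κ / (|C1| + |C2| + 1))), by positivity, fun p _ hp hp2 hpδ => ?_⟩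
  obtain ⟨ε, hε⟩ : ∃ ε, ε = p.toReal - 2 := ⟨_, rfl⟩
  have hε0 : 0 < ε := by linarith
  have hpe : p.toReal = 2 + ε := by linarith
  have hεδ : ε < min δ1 (min δ2 (κ / (|C1| + |C2| + 1))) := by linarith
  have e1 : ε < δ1 := hεδ.trans_le (min_le_left _ _)
  have e2 : ε < δ2 := hεδ.trans_le ((min_le_right _ _).trans (min_le_left _ _))
  have e3 : ε < κ / (|C1| + |C2| + 1) := hεδ.trans_le ((min_le_right _ _).trans (min_le_right _ _))
  rw [lt_div_iff₀ (by positivity)] at e3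
  have a1 := h1 ε hε0 e1 p hp hpe
  have a2 := h2 ε (by rw [abs_of_pos hε0]; exact e2) p hp hpe
  have b1 := le_abs_self C1
  have b2 := le_abs_self C2
  have b3 : C1 * ε ^ 2 + C2 * ε ^ 2 < ε * κ := by
    have : C1 * ε + C2 * ε < κ := by nlinarith [abs_nonneg C1, abs_nonneg C2]
    nlinarith
  have b4 : ε * (GG 1 0 - κ) - ε * GG rt rt = ε * κ := by rw [hκ]; ring
  linarith

end Pool.Agent.Helper270_PL
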