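import Pool.Agent.Helper270_PL.Dual
import Pool.Agent.Helper270_PL.NearAbove

/-!
# Pointwise inequalities for the side `p < 2`
-/

open MeasureTheory Set Filter Topology
open scoped ENNReal

namespace Pool.Agent.Helper270_PL

theorem rpow_sub_one_abs_le {t ρ : ℝ} (ht : 0 < t) (hρ : 0 ≤ ρ) (hρ1 : ρ ≤ 1 / 2) :
    t * |t ^ ρ - 1| ≤ ρ * (1 + 2 * t ^ 2) := by
  rcases le_total t 1 with h1 | h1
  · have g1 : t ^ ρ ≤ 1 := Real.rpow_le_one ht.le h1 hρ
    rw [abs_of_nonpos (by linarith)]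
    have g2 : 1 - t ^ ρ ≤ ρ * (-Real.log t) := by
      have := Real.add_one_le_exp (Real.log t * ρ)
      rw [← Real.rpow_def_of_pos ht] at this
      linarith
    have g3 : -Real.log t * t ≤ 1 := by
      have := Real.one_sub_inv_le_log_of_pos ht
      have g5 := mul_le_mul_of_nonneg_right this ht.le
      rw [sub_mul, inv_mul_cancel₀ ht.ne'] at g5
      linarith
    calc t * -(t ^ ρ - 1) = t * (1 - t ^ ρ) := by ring
      _ ≤ t * (ρ * (-Real.log t)) := by gcongr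
      _ = ρ * (-Real.log t * t) := by ring
      _ ≤ ρ * 1 := by gcongr
      _ ≤ _ := by gcongr; nlinarith [sq_nonneg t]
  · have g1 : 1 ≤ t ^ ρ := Real.one_le_rpow h1 hρ
    rw [abs_of_nonneg (by linarith)]
    have g2 : t ^ ρ - 1 ≤ ρ * Real.log t * t ^ ρ := by
      have := Real.add_one_le_exp (-(Real.log t * ρ))
      rw [Real.exp_neg, ← Real.rpow_def_of_pos ht] at this
      have g3 : 0 < t ^ ρ := by positivity
      have g4 := mul_le_mul_of_nonneg_right this g3.le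
      rw [inv_mul_cancel₀ g3.ne'] at g4
      linarith
    have hs0 : 0 < Real.sqrt t := Real.sqrt_pos.2 ht
    have hss : Real.sqrt t * Real.sqrt t = t := Real.mul_self_sqrt ht.le
    have g3 : Real.log t ≤ 2 * Real.sqrt t := by
      have k := Real.log_le_self hs0.le
      rw [Real.log_sqrt ht.le] at k
      linarith
    have g4 : t ^ ρ ≤ Real.sqrt t := by
      rw [Real.sqrt_eq_rpow]
      exact Real.rpow_le_rpow_of_exponent_le h1 hρ1
    have hl : 0 ≤ Real.log t := Real.log_nonneg h1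
    calc t * (t ^ ρ - 1) ≤ t * (ρ * Real.log t * t ^ ρ) := by gcongr
      _ ≤ t * (ρ * (2 * Real.sqrt t) * Real.sqrt t) := by gcongr
      _ = ρ * (2 * (t * (Real.sqrt t * Real.sqrt t))) := by ring
      _ = ρ * (2 * t ^ 2) := by rw [hss]; ring
      _ ≤ _ := by gcongr; linarith

theorem rpow_le_one_add {s ρ : ℝ} (hs : 0 ≤ s) (hρ : 0 ≤ ρ) (hρ1 : ρ ≤ 1) : s ^ ρ ≤ 1 + s := by
  rcases le_total s 1 with h | h
  · linarith [Real.rpow_le_one hs h hρ]
  · have := Real.rpow_le_rpow_of_exponent_le h hρ1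
    rw [Real.rpow_one] at this
    linarith

/-- `H(t) = t^{2+ρ} - t²` is Lipschitz with a small weight. -/
theorem H_lip_aux {s t ρ : ℝ} (hs : 0 ≤ s) (hst : s ≤ t) (hρ : 0 ≤ ρ) (hρ1 : ρ ≤ 1 / 2) :
    |t ^ 2 * (t ^ ρ - 1) - s ^ 2 * (s ^ ρ - 1)| ≤ 4 * ρ * (1 + t ^ 2 + s ^ 2) * (t - s) := by
  rcases hst.eq_or_lt with h | h
  · subst h; simp
  have ht : 0 < t := hs.trans_lt h
  have hts : 0 < t - s := by linarith
  have e : t ^ 2 * (t ^ ρ - 1) - s ^ 2 * (s ^ ρ - 1) =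
      (t ^ 2 - s ^ 2) * (t ^ ρ - 1) + s ^ 2 * (t ^ ρ - s ^ ρ) := by ring
  rw [e]
  refine (abs_add_le _ _).trans ?_
  have h1 : |(t ^ 2 - s ^ 2) * (t ^ ρ - 1)| ≤ (t - s) * (2 * (ρ * (1 + 2 * t ^ 2))) := by
    rw [show (t ^ 2 - s ^ 2) = (t - s) * (t + s) by ring, abs_mul,
      abs_of_nonneg (by positivity : 0 ≤ (t - s) * (t + s))]
    have g := rpow_sub_one_abs_le ht hρ hρ1
    have g2 : (t + s) * |t ^ ρ - 1| ≤ 2 * (ρ * (1 + 2 * t ^ 2)) := by
      calc (t + s) * |t ^ ρ - 1| ≤ (2 * t) * |t ^ ρ - 1| := by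
            gcongr; linarith
        _ = 2 * (t * |t ^ ρ - 1|) := by ring
        _ ≤ _ := by gcongr
    rw [mul_assoc]
    exact mul_le_mul_of_nonneg_left g2 hts.le
  have h2 : |s ^ 2 * (t ^ ρ - s ^ ρ)| ≤ (t - s) * (ρ * (1 + 2 * s ^ 2)) := by
    rcases hs.eq_or_lt with h0 | h0
    · rw [← h0]; simp; positivity
    · have g0 : s ^ ρ ≤ t ^ ρ := Real.rpow_le_rpow hs hst hρ
      rw [abs_of_nonneg (mul_nonneg (sq_nonneg _) (by linarith))]
      have g1 := rpow_one_add_le_one_add_mul_self (s := t / s - 1) (p := ρ)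
        (by have : 0 ≤ t / s := by positivity
            linarith) hρ (by linarith)
      rw [show 1 + (t / s - 1) = t / s by ring, Real.div_rpow ht.le hs] at g1
      have g2 : 0 < s ^ ρ := by positivity
      rw [div_le_iff₀ g2] at g1
      have g3 : s * (t ^ ρ - s ^ ρ) ≤ ρ * (t - s) * s ^ ρ := by
        have e3 : (1 + ρ * (t / s - 1)) * s ^ ρ * s = s ^ ρ * s + ρ * (t - s) * s ^ ρ := by
          field_simp
        have := mul_le_mul_of_nonneg_right g1 hs
        rw [e3] at this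
        linarith
      have g4 := rpow_le_one_add hs hρ (by linarith : ρ ≤ 1)
      calc s ^ 2 * (t ^ ρ - s ^ ρ) = s * (s * (t ^ ρ - s ^ ρ)) := by ring
        _ ≤ s * (ρ * (t - s) * s ^ ρ) := by gcongr
        _ ≤ s * (ρ * (t - s) * (1 + s)) := by
            have : 0 ≤ ρ * (t - s) := by positivity
            gcongr
        _ = (t - s) * (ρ * (s + s ^ 2)) := by ring
        _ ≤ _ := mul_le_mul_of_nonneg_left
            (mul_le_mul_of_nonneg_left (by nlinarith [sq_nonneg (s - 1)]) hρ) hts.le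
  refine (add_le_add h1 h2).trans ?_
  have : 0 ≤ ρ * (t - s) := by positivity
  nlinarith [mul_nonneg this (sq_nonneg s)]

theorem H_lip {s t ρ : ℝ} (hs : 0 ≤ s) (ht : 0 ≤ t) (hρ : 0 ≤ ρ) (hρ1 : ρ ≤ 1 / 2) :
    |t ^ 2 * (t ^ ρ - 1) - s ^ 2 * (s ^ ρ - 1)| ≤ 4 * ρ * (1 + t ^ 2 + s ^ 2) * |t - s| := by
  rcases le_total s t with h | h
  · rw [abs_of_nonneg (by linarith : 0 ≤ t - s)]
    exact H_lip_aux hs h hρ hρ1
  · rw [abs_sub_comm, abs_of_nonpos (by linarith : t - s ≤ 0)]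
    have := H_lip_aux ht h hρ hρ1
    rw [show -(t - s) = s - t by ring, show 1 + t ^ 2 + s ^ 2 = 1 + s ^ 2 + t ^ 2 by ring]
    exact this

theorem pow_eq_sqrt {W r : ℝ} (hW : 0 ≤ W) (hr : 0 ≤ r) :
    W ^ (1 + r) - W = Real.sqrt W ^ 2 * (Real.sqrt W ^ (2 * r) - 1) := by
  rw [Real.sq_sqrt hW, Real.rpow_mul (Real.sqrt_nonneg _)]
  rw [show Real.sqrt W ^ (2 : ℝ) = W by
    rw [show (2 : ℝ) = ((2 : ℕ) : ℝ) by norm_num, Real.rpow_natCast, Real.sq_sqrt hW]]
  rw [Real.rpow_add_of_nonneg hW zero_le_one hr, Real.rpow_one]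
  ring

/-- the basic pointwise bound -/
theorem field_pt {x y x0 y0 r ω : ℝ} (hr : 0 ≤ r) (hr1 : r ≤ 1 / 4) (hω : 0 < ω) :
    (x ^ 2 + y ^ 2) ^ (1 + r) ≤ (x ^ 2 + y ^ 2) +
      ((x0 ^ 2 + y0 ^ 2) ^ (1 + r) - (x0 ^ 2 + y0 ^ 2)) +
      ω * ((x - x0) ^ 2 + (y - y0) ^ 2) +
      16 * r ^ 2 / ω * (1 + (x ^ 2 + y ^ 2) + (x0 ^ 2 + y0 ^ 2)) ^ 2 := by
  set W := x ^ 2 + y ^ 2 with hW
  set W0 := x0 ^ 2 + y0 ^ 2 with hW0
  have w0 : 0 ≤ W := by positivity
  have w1 : 0 ≤ W0 := by positivity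
  have k1 := pow_eq_sqrt w0 hr
  have k2 := pow_eq_sqrt w1 hr
  have k3 := H_lip (Real.sqrt_nonneg W0) (Real.sqrt_nonneg W) (ρ := 2 * r) (by linarith)
    (by linarith)
  rw [← k1, ← k2, Real.sq_sqrt w0, Real.sq_sqrt w1] at k3
  have k4 := (abs_le.1 k3).2
  have k5 : (Real.sqrt W - Real.sqrt W0) ^ 2 ≤ (x - x0) ^ 2 + (y - y0) ^ 2 := by
    have e1 : (Real.sqrt W - Real.sqrt W0) ^ 2 = W + W0 - 2 * (Real.sqrt W * Real.sqrt W0) := by
      have a1 := Real.sq_sqrt w0
      have a2 := Real.sq_sqrt w1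
      nlinarith
    have e2 : x * x0 + y * y0 ≤ Real.sqrt W * Real.sqrt W0 := by
      rw [← Real.sqrt_mul w0]
      refine Real.le_sqrt_of_sq_le ?_
      rw [hW, hW0]
      nlinarith [sq_nonneg (x * y0 - y * x0)]
    rw [e1, hW, hW0] at *
    nlinarith
  set A := 1 + W + W0 with hA
  set B := |Real.sqrt W - Real.sqrt W0| with hB
  have hB2 : B ^ 2 = (Real.sqrt W - Real.sqrt W0) ^ 2 := by rw [hB, sq_abs]
  have k6 : 4 * (2 * r) * A * B ≤ ω * B ^ 2 + 16 * r ^ 2 / ω * A ^ 2 := by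
    have e : ω * B ^ 2 + 16 * r ^ 2 / ω * A ^ 2 - 4 * (2 * r) * A * B =
        (ω * B - 4 * r * A) ^ 2 / ω := by
      field_simp
      ring
    have : 0 ≤ (ω * B - 4 * r * A) ^ 2 / ω := by positivity
    linarith
  have k7 : ω * B ^ 2 ≤ ω * ((x - x0) ^ 2 + (y - y0) ^ 2) := by
    rw [hB2]; exact mul_le_mul_of_nonneg_left k5 hω.le
  linarith

theorem rpow_ge_first {x r : ℝ} (hx : 0 ≤ x) (hr : 0 ≤ r) :
    x + r * (x * Real.log x) ≤ x ^ (1 + r) := by
  rcases hx.eq_or_lt with h | h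
  · rw [← h, Real.zero_rpow (by linarith)]; simp
  · rw [Real.rpow_add h, Real.rpow_one, Real.rpow_def_of_pos h]
    have := Real.add_one_le_exp (Real.log x * r)
    nlinarith

theorem mul_log_ge {x y : ℝ} (hx : 0 ≤ x) (hy : 0 < y) :
    x * Real.log y + x - y ≤ x * Real.log x := by
  rcases hx.eq_or_lt with h | h
  · rw [← h]; simp; exact hy.le
  · have h1 := Real.one_sub_inv_le_log_of_pos (div_pos h hy)
    rw [Real.log_div h.ne' hy.ne', inv_div] at h1
    have h2 := mul_le_mul_of_nonneg_left h1 hx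
    have h3 : x * (1 - y / x) = x - y := by field_simp
    rw [h3] at h2
    linarith

theorem continuous_sgp {s : ℝ} (hs : 0 < s) : Continuous (sgp s) := by
  have e : sgp s = fun t => (max t 0) ^ s - (max (-t) 0) ^ s := by
    funext t
    rw [sgp]
    rcases lt_trichotomy t 0 with h | h | h
    · rw [max_eq_right h.le, max_eq_left (by linarith), Real.zero_rpow hs.ne', abs_of_neg h,
        Real.rpow_sub_one (by linarith)]
      have h0 : t ≠ 0 := h.ne
      field_simp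
      ring
    · subst h; simp
    · rw [max_eq_left h.le, max_eq_right (by linarith), Real.zero_rpow hs.ne', abs_of_pos h,
        Real.rpow_sub_one h.ne']
      field_simp
      ring
  rw [e]
  refine Continuous.sub ?_ ?_
  · exact (continuous_id.max continuous_const).rpow_const fun _ => Or.inr hs.le
  · exact (continuous_neg.max continuous_const).rpow_const fun _ => Or.inr hs.le

/-- the signed power below the identity is close to the identity -/
theorem abs_sgp_sub_le' {ε : ℝ} (h0 : 0 < ε) (h1 : ε ≤ 1 / 2) (t : ℝ) :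
    |sgp (1 - ε) t - t| ≤ 2 * ε * (1 + |t| ^ (2 - ε)) := by
  rcases eq_or_ne t 0 with h | h
  · subst h
    rw [sgp_zero, sub_zero, abs_zero]
    positivity
  have ht : 0 < |t| := abs_pos.2 h
  have e : sgp (1 - ε) t - t = (|t| ^ (-ε) - 1) * t := by
    rw [sgp, show 1 - ε - 1 = -ε by ring]; ring
  rw [e, abs_mul]
  have hs0 : 0 < Real.sqrt |t| := Real.sqrt_pos.2 ht
  have hss : Real.sqrt |t| * Real.sqrt |t| = |t| := Real.mul_self_sqrt ht.le
  have hp : 0 ≤ |t| ^ (2 - ε) := by positivity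
  have hsr : Real.sqrt |t| = |t| ^ (1 / 2 : ℝ) := Real.sqrt_eq_rpow _
  rcases le_total 1 |t| with k | k
  · have g1 : |t| ^ (-ε) ≤ 1 := Real.rpow_le_one_of_one_le_of_nonpos k (by linarith)
    rw [abs_of_nonpos (by linarith)]
    have g2 : 1 - |t| ^ (-ε) ≤ ε * Real.log |t| := by
      have := Real.add_one_le_exp (Real.log |t| * (-ε))
      rw [← Real.rpow_def_of_pos ht] at this
      linarith
    have g3 : Real.log |t| ≤ 2 * Real.sqrt |t| := by
      have k := Real.log_le_self hs0.le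
      rw [Real.log_sqrt ht.le] at k
      linarith
    have g4 : Real.sqrt |t| * |t| ≤ |t| ^ (2 - ε) := by
      rw [hsr, ← Real.rpow_add_one ht.ne']
      exact Real.rpow_le_rpow_of_exponent_le k (by linarith)
    calc -(|t| ^ (-ε) - 1) * |t| = (1 - |t| ^ (-ε)) * |t| := by ring
      _ ≤ (ε * (2 * Real.sqrt |t|)) * |t| := by
          gcongr
          exact g2.trans (by gcongr)
      _ = 2 * ε * (Real.sqrt |t| * |t|) := by ring
      _ ≤ 2 * ε * |t| ^ (2 - ε) := by gcongr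
      _ ≤ _ := by nlinarith
  · have g1 : 1 ≤ |t| ^ (-ε) := Real.one_le_rpow_of_pos_of_le_one_of_nonpos ht k (by linarith)
    rw [abs_of_nonneg (by linarith)]
    have g2 : |t| ^ (-ε) - 1 ≤ ε * (-Real.log |t|) * |t| ^ (-ε) := by
      have := Real.add_one_le_exp (-(Real.log |t| * (-ε)))
      rw [Real.exp_neg, ← Real.rpow_def_of_pos ht] at this
      have g3 : 0 < |t| ^ (-ε) := by positivity
      have g4 := mul_le_mul_of_nonneg_right this g3.le
      rw [inv_mul_cancel₀ g3.ne'] at g4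
      linarith
    have g3 : -Real.log |t| * Real.sqrt |t| ≤ 2 := by
      have k1 := Real.one_sub_inv_le_log_of_pos hs0
      rw [Real.log_sqrt ht.le] at k1
      have g5 := mul_le_mul_of_nonneg_right k1 hs0.le
      rw [sub_mul, inv_mul_cancel₀ hs0.ne'] at g5
      linarith
    have g4 : |t| ^ (-ε) * |t| ≤ Real.sqrt |t| := by
      rw [hsr, ← Real.rpow_add_one ht.ne']
      exact Real.rpow_le_rpow_of_exponent_ge ht k (by linarith)
    have hl : 0 ≤ -Real.log |t| := by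
      have := Real.log_nonpos ht.le k
      linarith
    calc (|t| ^ (-ε) - 1) * |t| ≤ (ε * (-Real.log |t|) * |t| ^ (-ε)) * |t| := by gcongr
      _ = ε * (-Real.log |t|) * (|t| ^ (-ε) * |t|) := by ring
      _ ≤ ε * (-Real.log |t|) * Real.sqrt |t| := by gcongr
      _ = ε * (-Real.log |t| * Real.sqrt |t|) := by ring
      _ ≤ ε * 2 := by gcongr
      _ ≤ _ := by nlinarith

end Pool.Agent.Helper270_PL
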