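import Pool.Agent.Helper270_PL.Disjoint

/-!
# Smooth positive parts
-/

open MeasureTheory Set Filter Topology
open scoped ENNReal

namespace Pool.Agent.Helper270_PL

/-- A smooth approximation of the positive part, vanishing on `(-∞, a]`. -/
noncomputable def PP (a t : ℝ) : ℝ := ∫ s in (0 : ℝ)..t, Real.smoothTransition (s / a - 1)

theorem continuous_st (a : ℝ) : Continuous fun s : ℝ => Real.smoothTransition (s / a - 1) :=
  Real.smoothTransition.continuous.comp (by fun_prop)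

theorem hasDerivAt_PP (a t : ℝ) : HasDerivAt (PP a) (Real.smoothTransition (t / a - 1)) t :=
  intervalIntegral.integral_hasDerivAt_right ((continuous_st a).intervalIntegrable _ _)
    ((continuous_st a).stronglyMeasurableAtFilter _ _) (continuous_st a).continuousAt

theorem contDiff_PP (a : ℝ) : ContDiff ℝ ((⊤ : ℕ∞) : WithTop ℕ∞) (PP a) := by
  rw [contDiff_infty_iff_deriv]
  refine ⟨fun t => (hasDerivAt_PP a t).differentiableAt, ?_⟩
  have : deriv (PP a) = fun t => Real.smoothTransition (t / a - 1) :=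
    funext fun t => (hasDerivAt_PP a t).deriv
  rw [this]
  exact Real.smoothTransition.contDiff.comp (by fun_prop)

theorem PP_eq_zero {a t : ℝ} (ha : 0 < a) (h : t ≤ a) : PP a t = 0 := by
  unfold PP
  have : ∀ s ∈ uIcc 0 t, Real.smoothTransition (s / a - 1) = 0 := by
    intro s hs
    apply Real.smoothTransition.zero_of_nonpos
    have : s ≤ a := by
      rcases mem_uIcc.1 hs with h1 | h1 <;> linarith [h1.1, h1.2]
    have : s / a ≤ 1 := (div_le_one ha).2 this
    linarith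
  rw [intervalIntegral.integral_congr this]
  simp

theorem PP_nonneg {a : ℝ} (ha : 0 < a) (t : ℝ) : 0 ≤ PP a t := by
  rcases le_total t 0 with h | h
  · rw [PP_eq_zero ha (by linarith)]
  · exact intervalIntegral.integral_nonneg h fun s _ => Real.smoothTransition.nonneg _

theorem PP_le {a t : ℝ} (h : 0 ≤ t) : PP a t ≤ t := by
  unfold PP
  calc ∫ s in (0 : ℝ)..t, Real.smoothTransition (s / a - 1) ≤ ∫ s in (0 : ℝ)..t, (1 : ℝ) :=
        intervalIntegral.integral_mono_on h ((continuous_st a).intervalIntegrable _ _)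
          (by simp) fun s _ => Real.smoothTransition.le_one _
    _ = t := by simp

theorem le_PP {a : ℝ} (ha : 0 < a) (t : ℝ) : t - 2 * a ≤ PP a t := by
  rcases le_total t (2 * a) with h | h
  · linarith [PP_nonneg ha t]
  · have h1 : PP a t = PP a (2 * a) + ∫ s in (2 * a)..t, Real.smoothTransition (s / a - 1) := by
      unfold PP
      rw [intervalIntegral.integral_add_adjacent_intervals
        ((continuous_st a).intervalIntegrable _ _) ((continuous_st a).intervalIntegrable _ _)]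
    have h2 : ∫ s in (2 * a)..t, Real.smoothTransition (s / a - 1) = t - 2 * a := by
      have : ∀ s ∈ uIcc (2 * a) t, Real.smoothTransition (s / a - 1) = 1 := by
        intro s hs
        rw [uIcc_of_le h] at hs
        apply Real.smoothTransition.one_of_one_le
        have : 2 ≤ s / a := (le_div_iff₀ ha).2 hs.1
        linarith
      rw [intervalIntegral.integral_congr this]
      simp
    linarith [PP_nonneg ha (2 * a)]

/-- `P_a ∘ ψ` on the square, zero outside. -/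
noncomputable def cut (a : ℝ) (ψ : ℝ × ℝ → ℝ) (z : ℝ × ℝ) : ℝ := Om.indicator (fun z => PP a (ψ z)) z

theorem closure_Om : closure Om = Icc (0 : ℝ) 1 ×ˢ Icc (0 : ℝ) 1 := by
  rw [Om, closure_prod_eq, closure_Ioo (by norm_num)]

theorem cut_eventuallyEq_of_mem {a : ℝ} {ψ : ℝ × ℝ → ℝ} {z : ℝ × ℝ} (hz : z ∈ Om) :
    cut a ψ =ᶠ[𝓝 z] fun z => PP a (ψ z) := by
  filter_upwards [isOpen_Om.mem_nhds hz] with y hy
  exact indicator_of_mem hy _

theorem cut_eventuallyEq_zero {a : ℝ} (ha : 0 < a) {ψ : ℝ × ℝ → ℝ} (hψ : Continuous ψ)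
    {z : ℝ × ℝ} (hz : ψ z < a ∨ z ∉ closure Om) : cut a ψ =ᶠ[𝓝 z] fun _ => 0 := by
  rcases hz with hz | hz
  · filter_upwards [(isOpen_lt hψ continuous_const).mem_nhds hz] with y hy
    unfold cut
    by_cases hy' : y ∈ Om
    · rw [indicator_of_mem hy', PP_eq_zero ha (le_of_lt hy)]
    · rw [indicator_of_notMem hy']
  · filter_upwards [isClosed_closure.isOpen_compl.mem_nhds hz] with y hy
    exact indicator_of_notMem (fun h => hy (subset_closure h)) _

theorem tsupport_cut {a : ℝ} (ha : 0 < a) {ψ : ℝ × ℝ → ℝ} (hψ : Continuous ψ) :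
    tsupport (cut a ψ) ⊆ closure Om ∩ {z | a ≤ ψ z} := by
  intro z hz
  by_contra hcon
  have h1 : ψ z < a ∨ z ∉ closure Om := by
    by_contra h2
    push Not at h2
    exact hcon ⟨h2.2, h2.1⟩
  have h2 := cut_eventuallyEq_zero ha hψ h1
  exact (notMem_tsupport_iff_eventuallyEq.2 h2) hz

theorem isTest_cut {a : ℝ} (ha : 0 < a) {ψ : ℝ × ℝ → ℝ}
    (hψ : ContDiff ℝ ((⊤ : ℕ∞) : WithTop ℕ∞) ψ) (hb : ∀ z ∈ closure Om, z ∉ Om → ψ z < a) :
    IsTest (cut a ψ) := by
  have hts := tsupport_cut ha hψ.continuous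
  have hcomp : IsCompact (closure Om) := by
    rw [closure_Om]
    exact isCompact_Icc.prod isCompact_Icc
  refine ⟨?_, ?_, ?_⟩
  · rw [contDiff_iff_contDiffAt]
    intro z
    by_cases hz : z ∈ Om
    · refine ContDiffAt.congr_of_eventuallyEq ?_ (cut_eventuallyEq_of_mem hz)
      exact ((contDiff_PP a).comp hψ).contDiffAt
    · have : ψ z < a ∨ z ∉ closure Om := by
        by_cases h : z ∈ closure Om
        · exact Or.inl (hb z h hz)
        · exact Or.inr h
      exact ContDiffAt.congr_of_eventuallyEq contDiffAt_const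
        (cut_eventuallyEq_zero ha hψ.continuous this)
  · exact HasCompactSupport.of_support_subset_isCompact hcomp
      ((subset_tsupport _).trans (hts.trans inter_subset_left))
  · intro z hz
    by_contra hz'
    have h1 := hts hz
    exact absurd (hb z h1.1 hz') (not_lt.2 h1.2)

theorem cut_of_mem {a : ℝ} {ψ : ℝ × ℝ → ℝ} {z : ℝ × ℝ} (hz : z ∈ Om) :
    cut a ψ z = PP a (ψ z) := indicator_of_mem hz _

theorem dX_cut_of_mem {a : ℝ} {ψ : ℝ × ℝ → ℝ} (hψ : Differentiable ℝ ψ) {z : ℝ × ℝ}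
    (hz : z ∈ Om) : dX (cut a ψ) z = Real.smoothTransition (ψ z / a - 1) * dX ψ z := by
  have h1 : fderiv ℝ (cut a ψ) z = fderiv ℝ (fun z => PP a (ψ z)) z :=
    (cut_eventuallyEq_of_mem hz).fderiv_eq
  have h2 : HasFDerivAt (fun z => PP a (ψ z))
      (Real.smoothTransition (ψ z / a - 1) • fderiv ℝ ψ z) z :=
    (hasDerivAt_PP a (ψ z)).comp_hasFDerivAt z (hψ z).hasFDerivAt
  simp [dX, h1, h2.fderiv]

theorem dY_cut_of_mem {a : ℝ} {ψ : ℝ × ℝ → ℝ} (hψ : Differentiable ℝ ψ) {z : ℝ × ℝ}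
    (hz : z ∈ Om) : dY (cut a ψ) z = Real.smoothTransition (ψ z / a - 1) * dY ψ z := by
  have h1 : fderiv ℝ (cut a ψ) z = fderiv ℝ (fun z => PP a (ψ z)) z :=
    (cut_eventuallyEq_of_mem hz).fderiv_eq
  have h2 : HasFDerivAt (fun z => PP a (ψ z))
      (Real.smoothTransition (ψ z / a - 1) • fderiv ℝ ψ z) z :=
    (hasDerivAt_PP a (ψ z)).comp_hasFDerivAt z (hψ z).hasFDerivAt
  simp [dY, h1, h2.fderiv]

theorem integral_muOm_eq (f : ℝ × ℝ → ℝ) : ∫ z, f z ∂muOm = ∫ z in Om, f z := rfl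

theorem integral_muOm_congr {f g : ℝ × ℝ → ℝ} (h : ∀ z ∈ Om, f z = g z) :
    ∫ z, f z ∂muOm = ∫ z, g z ∂muOm :=
  setIntegral_congr_fun measurableSet_Om h

theorem ae_muOm_mem : ∀ᵐ z ∂muOm, z ∈ Om := ae_restrict_mem measurableSet_Om

/-- positivity of the mass of a test function -/
theorem IsTest.mass_pos {φ : ℝ × ℝ → ℝ} (h : IsTest φ) {s : ℝ} (hs : 0 < s) {z₀ : ℝ × ℝ}
    (h0 : φ z₀ ≠ 0) : 0 < ∫ z, |φ z| ^ s ∂muOm := by
  have hc : Continuous fun z => |φ z| ^ s := (h.continuous.abs).rpow_const fun _ => Or.inr hs.le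
  have hz₀ : z₀ ∈ Om := h.2.2 (subset_tsupport _ h0)
  rw [integral_pos_iff_support_of_nonneg (fun z => Real.rpow_nonneg (abs_nonneg _) _)
    (h.integrable_rpow hs)]
  have hopen : IsOpen (Function.support fun z => |φ z| ^ s) := hc.isOpen_support
  rw [muOm, Measure.restrict_apply hopen.measurableSet]
  refine (hopen.inter isOpen_Om).measure_pos volume ⟨z₀, ?_, hz₀⟩
  simp only [Function.mem_support]
  exact (Real.rpow_pos_of_pos (abs_pos.2 h0) _).ne'

/-- the bump around `(c, 1/2)` -/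
noncomputable def bmp (c : ℝ) (z : ℝ × ℝ) : ℝ := 1 / 100 - ((z.1 - c) ^ 2 + (z.2 - 1 / 2) ^ 2)

theorem contDiff_bmp (c : ℝ) : ContDiff ℝ ((⊤ : ℕ∞) : WithTop ℕ∞) (bmp c) := by
  unfold bmp
  fun_prop

theorem bmp_neg {c : ℝ} (hc : 1 / 4 ≤ c) (hc' : c ≤ 3 / 4) {z : ℝ × ℝ} (hz : z ∉ Om) :
    bmp c z < 1 / 400 := by
  unfold bmp
  by_contra hcon
  push Not at hcon
  apply hz
  rw [Om, mem_prod]
  have h1 : (z.1 - c) ^ 2 ≤ (1 / 10) ^ 2 := by nlinarith [sq_nonneg (z.2 - 1 / 2)]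
  have h2 : (z.2 - 1 / 2) ^ 2 ≤ (1 / 10) ^ 2 := by nlinarith [sq_nonneg (z.1 - c)]
  have h3 := abs_le_of_sq_le_sq' h1 (by norm_num)
  have h4 := abs_le_of_sq_le_sq' h2 (by norm_num)
  exact ⟨⟨by linarith [h3.1], by linarith [h3.2]⟩, ⟨by linarith [h4.1], by linarith [h4.2]⟩⟩

theorem isTest_bmp {c : ℝ} (hc : 1 / 4 ≤ c) (hc' : c ≤ 3 / 4) : IsTest (cut (1 / 400) (bmp c)) :=
  isTest_cut (by norm_num) (contDiff_bmp c) fun _ _ h => bmp_neg hc hc' h

theorem Fam_three_nonempty {p : ℝ≥0∞} [Fact (1 ≤ p)] (hp : p ≠ ∞) : (Fam p 3).Nonempty := by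
  have hp0 := toReal_pos' hp
  set c : Fin 3 → ℝ := fun i => (1 + (i : ℝ)) / 4 with hc
  have hci : ∀ i, 1 / 4 ≤ c i ∧ c i ≤ 3 / 4 := by
    intro i
    fin_cases i <;> simp [hc] <;> norm_num
  set φ : Fin 3 → testFun := fun i => ⟨_, isTest_bmp (hci i).1 (hci i).2⟩ with hφ
  have hdisj : ∀ i j, i ≠ j →
      Disjoint (tsupport (φ i : ℝ × ℝ → ℝ)) (tsupport (φ j : ℝ × ℝ → ℝ)) := by
    intro i j hij
    rw [Set.disjoint_left]
    intro z hz1 hz2
    have h1 := (tsupport_cut (by norm_num) (contDiff_bmp (c i)).continuous hz1).2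
    have h2 := (tsupport_cut (by norm_num) (contDiff_bmp (c j)).continuous hz2).2
    simp only [mem_ofPred_eq, bmp] at h1 h2
    have h3 : (z.1 - c i) ^ 2 ≤ (1 / 10) ^ 2 := by nlinarith [sq_nonneg (z.2 - 1 / 2)]
    have h4 : (z.1 - c j) ^ 2 ≤ (1 / 10) ^ 2 := by nlinarith [sq_nonneg (z.2 - 1 / 2)]
    have h5 := abs_le_of_sq_le_sq' h3 (by norm_num)
    have h6 := abs_le_of_sq_le_sq' h4 (by norm_num)
    have h7 : 1 / 4 ≤ |c i - c j| := by
      fin_cases i <;> fin_cases j <;> simp [hc] at hij ⊢ <;> norm_num [abs_of_nonneg, abs_of_neg, abs_sub_comm]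
    have h8 : |c i - c j| ≤ 1 / 5 := by
      rw [abs_le]
      constructor <;> linarith [h5.1, h5.2, h6.1, h6.2]
    linarith
  have hpos : ∀ i, 0 < ∫ z, |(φ i : ℝ × ℝ → ℝ) z| ^ p.toReal ∂muOm := by
    intro i
    have hmem : ((c i, 1 / 2) : ℝ × ℝ) ∈ Om := by
      have := hci i
      rw [Om, mem_prod]
      exact ⟨⟨by simp only; linarith, by simp only; linarith⟩, ⟨by norm_num, by norm_num⟩⟩
    refine (φ i).2.mass_pos hp0 (z₀ := (c i, 1 / 2)) ?_
    have h1 : (φ i : ℝ × ℝ → ℝ) (c i, 1 / 2) = PP (1 / 400) (bmp (c i) (c i, 1 / 2)) :=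
      cut_of_mem hmem
    have h2 : bmp (c i) (c i, 1 / 2) = 1 / 100 := by simp [bmp]
    rw [h1, h2]
    -- strictly positive
    have h3 : 0 < PP (1 / 400) (1 / 100) := by
      have := le_PP (a := 1 / 400) (by norm_num) (1 / 100)
      norm_num at this
      linarith
    exact h3.ne'
  set E : Fin 3 → ℝ := fun i => ∫ z, (dX (φ i) z ^ 2 + dY (φ i) z ^ 2) ^ (p.toReal / 2) ∂muOm
  set M : Fin 3 → ℝ := fun i => ∫ z, |(φ i : ℝ × ℝ → ℝ) z| ^ p.toReal ∂muOm
  have hE : ∀ i, 0 ≤ E i := fun i => integral_nonneg fun _ => Real.rpow_nonneg (by positivity) _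
  refine (lam_le_of_disjoint hp (n := 2) φ (e := ∑ i, E i / M i) hdisj hpos ?_).2
  intro i
  have h1 : E i / M i ≤ ∑ j, E j / M j :=
    Finset.single_le_sum (f := fun j => E j / M j) (fun j _ => div_nonneg (hE j) (hpos j).le) (Finset.mem_univ i)
  have h2 : E i = E i / M i * M i := (div_mul_cancel₀ _ (hpos i).ne').symm
  calc E i = E i / M i * M i := h2
    _ ≤ _ := mul_le_mul_of_nonneg_right h1 (hpos i).le

end Pool.Agent.Helper270_PL
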