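import Mathlib

/-!
# The Dirichlet `p`-Laplacian on the unit square: Sobolev space, genus, variational eigenvalues
-/

open MeasureTheory Set
open scoped ENNReal

namespace Pool.Agent.Helper270_PL

/-- The open unit square `Ω = (0,1)²`. -/
def Om : Set (ℝ × ℝ) := Ioo (0 : ℝ) 1 ×ˢ Ioo (0 : ℝ) 1

/-- Lebesgue measure on the unit square. -/
noncomputable def muOm : Measure (ℝ × ℝ) := volume.restrict Om

/-- Smooth real functions on the plane with compact support contained in `Ω`. -/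
def IsTest (φ : ℝ × ℝ → ℝ) : Prop :=
  ContDiff ℝ ((⊤ : ℕ∞) : WithTop ℕ∞) φ ∧ HasCompactSupport φ ∧ tsupport φ ⊆ Om

/-- The partial derivative in the first variable. -/
noncomputable def dX (φ : ℝ × ℝ → ℝ) (z : ℝ × ℝ) : ℝ := fderiv ℝ φ z (1, 0)

/-- The partial derivative in the second variable. -/
noncomputable def dY (φ : ℝ × ℝ → ℝ) (z : ℝ × ℝ) : ℝ := fderiv ℝ φ z (0, 1)

/-- `L^p(Ω) × L^p(Ω) × L^p(Ω)`: its elements are triples, to be used as `(u, ∂₁u, ∂₂u)`. -/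
abbrev Amb (p : ℝ≥0∞) : Type := Lp ℝ p muOm × Lp ℝ p muOm × Lp ℝ p muOm

/-- The triples `(φ, ∂₁φ, ∂₂φ)` of test functions `φ ∈ C_c^∞(Ω)`. -/
def TestTriples (p : ℝ≥0∞) : Set (Amb p) :=
  {w | ∃ φ : ℝ × ℝ → ℝ, IsTest φ ∧ w.1 =ᵐ[muOm] φ ∧ w.2.1 =ᵐ[muOm] dX φ ∧
    w.2.2 =ᵐ[muOm] dY φ}

/-- The Sobolev space `W₀^{1,p}(Ω)`, as the set of the triples `(u, ∂₁u, ∂₂u)`: the closure of
the test functions in the norm of `W^{1,p}`. -/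
def W0 (p : ℝ≥0∞) [Fact (1 ≤ p)] : Set (Amb p) := closure (TestTriples p)

/-- `∫_Ω |∇u|^p` for a triple `(u, ∂₁u, ∂₂u)`. -/
noncomputable def energy (p : ℝ≥0∞) (w : Amb p) : ℝ :=
  ∫ z, (w.2.1 z ^ 2 + w.2.2 z ^ 2) ^ (p.toReal / 2) ∂muOm

/-- `∫_Ω |u|^p` for a triple `(u, ∂₁u, ∂₂u)`. -/
noncomputable def mass (p : ℝ≥0∞) (w : Amb p) : ℝ :=
  ∫ z, |w.1 z| ^ p.toReal ∂muOm

/-- The set `𝒮 = {u ∈ W₀^{1,p}(Ω) : ∫_Ω |u|^p = 1}`. -/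
def sphere (p : ℝ≥0∞) [Fact (1 ≤ p)] : Set (Amb p) := {w | w ∈ W0 p ∧ mass p w = 1}

/-- There is a continuous odd map from `A` to `ℝ^m ∖ {0}`. -/
def HasOddMap {p : ℝ≥0∞} [Fact (1 ≤ p)] (A : Set (Amb p)) (m : ℕ) : Prop :=
  ∃ f : Amb p → (Fin m → ℝ), ContinuousOn f A ∧ (∀ w ∈ A, f (-w) = -f w) ∧ ∀ w ∈ A, f w ≠ 0

/-- The Krasnosel'skii genus of `A`: the least `m ≥ 1` such that there is a continuous odd map from
`A` to `ℝ^m ∖ {0}` (and `⊤` if there is none). -/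
noncomputable def genus {p : ℝ≥0∞} [Fact (1 ≤ p)] (A : Set (Amb p)) : ℕ∞ :=
  sInf {k : ℕ∞ | ∃ m : ℕ, 1 ≤ m ∧ HasOddMap A m ∧ k = m}

/-- The variational eigenvalue `λ_k(p;Ω)`: the infimum, over the nonempty compact symmetric subsets
`A` of `𝒮` of genus at least `k`, of the maximum over `A` of `∫_Ω |∇u|^p`. -/
noncomputable def lam (p : ℝ≥0∞) [Fact (1 ≤ p)] (k : ℕ) : ℝ :=
  sInf {r : ℝ | ∃ A : Set (Amb p), A.Nonempty ∧ IsCompact A ∧ (∀ w ∈ A, -w ∈ A) ∧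
    A ⊆ sphere p ∧ (k : ℕ∞) ≤ genus A ∧ r = sSup (energy p '' A)}

end Pool.Agent.Helper270_PL
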