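import Pool.Agent.Helper270_PL.Genus

/-!
# Variational eigenvalues and disjointly supported test functions
-/

open MeasureTheory Set Filter Topology
open scoped ENNReal

namespace Pool.Agent.Helper270_PL

variable {p : ℝ≥0∞} [Fact (1 ≤ p)]

/-- `∂₁` as a linear map -/
noncomputable def dXL : testFun →ₗ[ℝ] (ℝ × ℝ → ℝ) where
  toFun φ := dX φ
  map_add' φ ψ := dX_add φ.2.differentiable ψ.2.differentiable
  map_smul' t φ := dX_smul φ.2.differentiable t

/-- `∂₂` as a linear map -/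
noncomputable def dYL : testFun →ₗ[ℝ] (ℝ × ℝ → ℝ) where
  toFun φ := dY φ
  map_add' φ ψ := dY_add φ.2.differentiable ψ.2.differentiable
  map_smul' t φ := dY_smul φ.2.differentiable t

theorem dX_sum {n : ℕ} (t : Fin n → ℝ) (φ : Fin n → testFun) (z : ℝ × ℝ) :
    dX ((∑ i, t i • φ i : testFun) : ℝ × ℝ → ℝ) z = ∑ i, t i * dX (φ i) z := by
  have h : dXL (∑ i, t i • φ i) = ∑ i, t i • dXL (φ i) := by simp [map_sum]
  have h2 := congrFun h z
  simp only [Finset.sum_apply, Pi.smul_apply, smul_eq_mul] at h2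
  exact h2

theorem dY_sum {n : ℕ} (t : Fin n → ℝ) (φ : Fin n → testFun) (z : ℝ × ℝ) :
    dY ((∑ i, t i • φ i : testFun) : ℝ × ℝ → ℝ) z = ∑ i, t i * dY (φ i) z := by
  have h : dYL (∑ i, t i • φ i) = ∑ i, t i • dYL (φ i) := by simp [map_sum]
  have h2 := congrFun h z
  simp only [Finset.sum_apply, Pi.smul_apply, smul_eq_mul] at h2
  exact h2

theorem coe_sum {n : ℕ} (t : Fin n → ℝ) (φ : Fin n → testFun) (z : ℝ × ℝ) :
    ((∑ i, t i • φ i : testFun) : ℝ × ℝ → ℝ) z = ∑ i, t i * (φ i : ℝ × ℝ → ℝ) z := by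
  have h : testFun.subtype (∑ i, t i • φ i) = ∑ i, t i • testFun.subtype (φ i) := by
    simp [map_sum]
  have h2 := congrFun h z
  simp only [Finset.sum_apply, Pi.smul_apply, smul_eq_mul] at h2
  exact h2

theorem sum_sq_rpow {n : ℕ} {s : ℝ} (hs : 0 < s) (a b : Fin n → ℝ)
    (h : ∀ i j, i ≠ j → (a i = 0 ∧ b i = 0) ∨ (a j = 0 ∧ b j = 0)) :
    ((∑ i, a i) ^ 2 + (∑ i, b i) ^ 2) ^ s = ∑ i, (a i ^ 2 + b i ^ 2) ^ s := by
  by_cases hall : ∀ i, a i = 0 ∧ b i = 0
  · have h1 : ∀ i, a i = 0 := fun i => (hall i).1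
    have h2 : ∀ i, b i = 0 := fun i => (hall i).2
    simp [h1, h2, Real.zero_rpow hs.ne']
  · push Not at hall
    obtain ⟨i, hi⟩ := hall
    have hother : ∀ j, j ≠ i → a j = 0 ∧ b j = 0 := by
      intro j hj
      rcases h j i hj with h1 | h1
      · exact h1
      · exact absurd h1.2 (hi h1.1)
    rw [Finset.sum_eq_single i (fun j _ hj => (hother j hj).1) (by simp),
      Finset.sum_eq_single i (fun j _ hj => (hother j hj).2) (by simp),
      Finset.sum_eq_single i (fun j _ hj => by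
        rw [(hother j hj).1, (hother j hj).2]; simp [Real.zero_rpow hs.ne']) (by simp)]

theorem sum_abs_rpow {n : ℕ} {s : ℝ} (hs : 0 < s) (a : Fin n → ℝ)
    (h : ∀ i j, i ≠ j → a i = 0 ∨ a j = 0) :
    |∑ i, a i| ^ s = ∑ i, |a i| ^ s := by
  by_cases hall : ∀ i, a i = 0
  · simp [hall, Real.zero_rpow hs.ne']
  · push Not at hall
    obtain ⟨i, hi⟩ := hall
    have hother : ∀ j, j ≠ i → a j = 0 := by
      intro j hj
      rcases h j i hj with h1 | h1
      · exact h1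
      · exact absurd h1 hi
    rw [Finset.sum_eq_single i (fun j _ hj => hother j hj) (by simp),
      Finset.sum_eq_single i (fun j _ hj => by
        rw [hother j hj]; simp [Real.zero_rpow hs.ne']) (by simp)]

theorem dX_eq_zero_of_notMem {φ : ℝ × ℝ → ℝ} {z : ℝ × ℝ} (h : z ∉ tsupport φ) : dX φ z = 0 := by
  have : fderiv ℝ φ z = 0 := by
    by_contra hne
    exact h (support_fderiv_subset ℝ hne)
  simp [dX, this]

theorem dY_eq_zero_of_notMem {φ : ℝ × ℝ → ℝ} {z : ℝ × ℝ} (h : z ∉ tsupport φ) : dY φ z = 0 := by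
  have : fderiv ℝ φ z = 0 := by
    by_contra hne
    exact h (support_fderiv_subset ℝ hne)
  simp [dY, this]

theorem IsTest.integrable_rpow {φ : ℝ × ℝ → ℝ} (h : IsTest φ) {s : ℝ} (hs : 0 < s) :
    Integrable (fun z => |φ z| ^ s) muOm := by
  refine Continuous.integrable_of_hasCompactSupport ?_ ?_
  · exact (h.continuous.abs).rpow_const fun _ => Or.inr hs.le
  · have : (fun z => |φ z| ^ s) = (fun x : ℝ => |x| ^ s) ∘ φ := rfl
    rw [this]
    exact h.2.1.comp_left (by simp [Real.zero_rpow hs.ne'])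

theorem IsTest.integrable_grad_rpow {φ : ℝ × ℝ → ℝ} (h : IsTest φ) {s : ℝ} (hs : 0 < s) :
    Integrable (fun z => (dX φ z ^ 2 + dY φ z ^ 2) ^ s) muOm := by
  refine Continuous.integrable_of_hasCompactSupport ?_ ?_
  · exact ((h.continuous_dX.pow 2).add (h.continuous_dY.pow 2)).rpow_const fun _ => Or.inr hs.le
  · refine HasCompactSupport.intro h.2.1 fun z hz => ?_
    rw [dX_eq_zero_of_notMem hz, dY_eq_zero_of_notMem hz]
    simp [Real.zero_rpow hs.ne']

/-- Upper bound of `λ_{n+1}` by `n+1` disjointly supported test functions. -/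
theorem lam_le_of_disjoint (hp : p ≠ ∞) {n : ℕ} (φ : Fin (n + 1) → testFun) {e : ℝ}
    (hdisj : ∀ i j, i ≠ j → Disjoint (tsupport (φ i : ℝ × ℝ → ℝ)) (tsupport (φ j : ℝ × ℝ → ℝ)))
    (hpos : ∀ i, 0 < ∫ z, |(φ i : ℝ × ℝ → ℝ) z| ^ p.toReal ∂muOm)
    (hen : ∀ i, ∫ z, (dX (φ i) z ^ 2 + dY (φ i) z ^ 2) ^ (p.toReal / 2) ∂muOm ≤
      e * ∫ z, |(φ i : ℝ × ℝ → ℝ) z| ^ p.toReal ∂muOm) :
    lam p (n + 1) ≤ e ∧ (Fam p (n + 1)).Nonempty := by
  have hp0 := toReal_pos' hp
  have hmass : ∀ t : Fin (n + 1) → ℝ, mass p (tripleL p (∑ i, t i • φ i)) =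
      ∑ i, |t i| ^ p.toReal * ∫ z, |(φ i : ℝ × ℝ → ℝ) z| ^ p.toReal ∂muOm := by
    intro t
    have h1 : mass p (tripleL p (∑ i, t i • φ i)) =
        ∫ z, |((∑ i, t i • φ i : testFun) : ℝ × ℝ → ℝ) z| ^ p.toReal ∂muOm :=
      mass_toTriple (∑ i, t i • φ i : testFun).2
    rw [h1]
    have h2 : ∀ z, |((∑ i, t i • φ i : testFun) : ℝ × ℝ → ℝ) z| ^ p.toReal =
        ∑ i, |t i| ^ p.toReal * |(φ i : ℝ × ℝ → ℝ) z| ^ p.toReal := by
      intro z
      rw [coe_sum, sum_abs_rpow hp0]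
      · refine Finset.sum_congr rfl fun i _ => ?_
        rw [abs_mul, Real.mul_rpow (abs_nonneg _) (abs_nonneg _)]
      · intro i j hij
        by_cases hz : z ∈ tsupport (φ i : ℝ × ℝ → ℝ)
        · right
          have : z ∉ tsupport (φ j : ℝ × ℝ → ℝ) := fun h => (hdisj i j hij).le_bot ⟨hz, h⟩
          rw [image_eq_zero_of_notMem_tsupport this, mul_zero]
        · left
          rw [image_eq_zero_of_notMem_tsupport hz, mul_zero]
    simp_rw [h2]
    rw [integral_finset_sum _ fun i _ => ((φ i).2.integrable_rpow hp0).const_mul _]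
    refine Finset.sum_congr rfl fun i _ => ?_
    rw [integral_const_mul]
  have henergy : ∀ t : Fin (n + 1) → ℝ, energy p (tripleL p (∑ i, t i • φ i)) =
      ∑ i, |t i| ^ p.toReal *
        ∫ z, (dX (φ i) z ^ 2 + dY (φ i) z ^ 2) ^ (p.toReal / 2) ∂muOm := by
    intro t
    have h1 : energy p (tripleL p (∑ i, t i • φ i)) =
        ∫ z, (dX ((∑ i, t i • φ i : testFun) : ℝ × ℝ → ℝ) z ^ 2 +
          dY ((∑ i, t i • φ i : testFun) : ℝ × ℝ → ℝ) z ^ 2) ^ (p.toReal / 2) ∂muOm :=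
      energy_toTriple (∑ i, t i • φ i : testFun).2
    rw [h1]
    have h2 : ∀ z, (dX ((∑ i, t i • φ i : testFun) : ℝ × ℝ → ℝ) z ^ 2 +
          dY ((∑ i, t i • φ i : testFun) : ℝ × ℝ → ℝ) z ^ 2) ^ (p.toReal / 2) =
        ∑ i, |t i| ^ p.toReal * (dX (φ i) z ^ 2 + dY (φ i) z ^ 2) ^ (p.toReal / 2) := by
      intro z
      rw [dX_sum, dY_sum, sum_sq_rpow (by positivity)]
      · refine Finset.sum_congr rfl fun i _ => ?_
        rw [show (t i * dX (φ i) z) ^ 2 + (t i * dY (φ i) z) ^ 2 =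
          |t i| ^ 2 * (dX (φ i) z ^ 2 + dY (φ i) z ^ 2) by rw [sq_abs]; ring,
          Real.mul_rpow (by positivity) (by positivity), ← Real.rpow_natCast,
          ← Real.rpow_mul (abs_nonneg _)]
        congr 2
        push_cast
        ring
      · intro i j hij
        by_cases hz : z ∈ tsupport (φ i : ℝ × ℝ → ℝ)
        · right
          have : z ∉ tsupport (φ j : ℝ × ℝ → ℝ) := fun h => (hdisj i j hij).le_bot ⟨hz, h⟩
          rw [dX_eq_zero_of_notMem this, dY_eq_zero_of_notMem this]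
          simp
        · left
          rw [dX_eq_zero_of_notMem hz, dY_eq_zero_of_notMem hz]
          simp
    simp_rw [h2]
    rw [integral_finset_sum _ fun i _ =>
      ((φ i).2.integrable_grad_rpow (by positivity)).const_mul _]
    refine Finset.sum_congr rfl fun i _ => ?_
    rw [integral_const_mul]
  refine lam_le_of_family hp φ ?_ ?_
  · intro t ht
    rw [hmass]
    obtain ⟨i, hi⟩ : ∃ i, t i ≠ 0 := by
      by_contra h
      push Not at h
      exact ht (funext h)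
    refine Finset.sum_pos' (fun j _ => ?_) ⟨i, Finset.mem_univ _, ?_⟩
    · exact mul_nonneg (Real.rpow_nonneg (abs_nonneg _) _) (hpos j).le
    · exact mul_pos (Real.rpow_pos_of_pos (abs_pos.2 hi) _) (hpos i)
  · intro t
    rw [hmass, henergy, Finset.mul_sum]
    refine Finset.sum_le_sum fun i _ => ?_
    have := mul_le_mul_of_nonneg_left (hen i) (Real.rpow_nonneg (abs_nonneg (t i)) p.toReal)
    linarith

end Pool.Agent.Helper270_PL
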