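import Pool.Agent.Helper270_PL.L4

/-!
# The dual fields
-/

open MeasureTheory Set Filter Topology
open scoped ENNReal

namespace Pool.Agent.Helper270_PL

/-- coefficient -/
noncomputable def kx (a : ℕ × ℕ → ℝ) (i : ℕ × ℕ) : ℝ := a i / lm i.1 i.2 * ((i.1 + 1 : ℝ) * Real.pi)

/-- coefficient -/
noncomputable def ky (a : ℕ × ℕ → ℝ) (i : ℕ × ℕ) : ℝ := a i / lm i.1 i.2 * ((i.2 + 1 : ℝ) * Real.pi)

/-- first component of the field -/
noncomputable def ZX (s : Finset (ℕ × ℕ)) (a : ℕ × ℕ → ℝ) (z : ℝ × ℝ) : ℝ :=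
  ∑ i ∈ s, kx a i * cs i.1 i.2 z

/-- second component of the field -/
noncomputable def ZY (s : Finset (ℕ × ℕ)) (a : ℕ × ℕ → ℝ) (z : ℝ × ℝ) : ℝ :=
  ∑ i ∈ s, ky a i * sc i.1 i.2 z

variable {s : Finset (ℕ × ℕ)} {a : ℕ × ℕ → ℝ}

theorem continuous_ZX (s : Finset (ℕ × ℕ)) (a : ℕ × ℕ → ℝ) : Continuous (ZX s a) :=
  continuous_finsetSum _ fun i _ => continuous_const.mul (continuous_cs i.1 i.2)

theorem continuous_ZY (s : Finset (ℕ × ℕ)) (a : ℕ × ℕ → ℝ) : Continuous (ZY s a) :=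
  continuous_finsetSum _ fun i _ => continuous_const.mul (continuous_sc i.1 i.2)

theorem integral_ZX_sq : ∫ z, ZX s a z ^ 2 ∂muOm = ∑ i ∈ s, kx a i ^ 2 :=
  integral_sq_sum (f := fun i : ℕ × ℕ => cs i.1 i.2) (fun i => continuous_cs i.1 i.2) orth_cs s _

theorem integral_ZY_sq : ∫ z, ZY s a z ^ 2 ∂muOm = ∑ i ∈ s, ky a i ^ 2 :=
  integral_sq_sum (f := fun i : ℕ × ℕ => sc i.1 i.2) (fun i => continuous_sc i.1 i.2) orth_sc s _

theorem kx_ky (i : ℕ × ℕ) : kx a i ^ 2 + ky a i ^ 2 = a i ^ 2 / lm i.1 i.2 := by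
  have h := (lm_pos i.1 i.2).ne'
  have e : ((i.1 + 1 : ℝ) * Real.pi) ^ 2 + ((i.2 + 1 : ℝ) * Real.pi) ^ 2 = lm i.1 i.2 := by
    rw [lm]; ring
  have e2 : kx a i ^ 2 + ky a i ^ 2 = (a i / lm i.1 i.2) ^ 2 *
      (((i.1 + 1 : ℝ) * Real.pi) ^ 2 + ((i.2 + 1 : ℝ) * Real.pi) ^ 2) := by
    rw [kx, ky]; ring
  rw [e2, e]
  field_simp

theorem integral_Z_sq : ∫ z, (ZX s a z ^ 2 + ZY s a z ^ 2) ∂muOm = ∑ i ∈ s, a i ^ 2 / lm i.1 i.2 := by
  have c1 := continuous_ZX s a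
  have c2 := continuous_ZY s a
  rw [int_add (by fun_prop) (by fun_prop), integral_ZX_sq, integral_ZY_sq, ← Finset.sum_add_distrib]
  exact Finset.sum_congr rfl fun i _ => kx_ky i

theorem one_le_lm (i : ℕ × ℕ) : 1 ≤ lm i.1 i.2 := by
  rw [lm]
  have h1 : 9 < Real.pi ^ 2 := by nlinarith [Real.pi_gt_three]
  have h2 : (1 : ℝ) ≤ (i.1 + 1 : ℝ) ^ 2 + (i.2 + 1 : ℝ) ^ 2 := by
    have : (0 : ℝ) ≤ i.1 := Nat.cast_nonneg _
    nlinarith [sq_nonneg ((i.2 : ℝ) + 1)]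
  nlinarith

theorem sum_le_one_aux {c : ℕ × ℕ → ℝ} (hs : ∑ i ∈ s, a i ^ 2 ≤ 1) (hc : ∀ i, |c i| ≤ 1) :
    ∑ i ∈ s, (a i * c i) ^ 2 ≤ 1 := by
  refine le_trans (Finset.sum_le_sum fun i _ => ?_) hs
  rw [mul_pow]
  have : c i ^ 2 ≤ 1 := by
    rw [← sq_abs]; exact pow_le_one₀ (abs_nonneg _) (hc i)
  nlinarith [sq_nonneg (a i)]

theorem coef_bound {x y L : ℝ} (hx : 0 ≤ x) (hy : 0 ≤ y) (hL : L = x ^ 2 + y ^ 2) (hL1 : 1 ≤ L) :
    |x / L| ≤ 1 ∧ |x ^ 2 / L| ≤ 1 ∧ |x * y / L| ≤ 1 := by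
  have hL0 : 0 < L := by linarith
  refine ⟨?_, ?_, ?_⟩
  · rw [abs_of_nonneg (by positivity), div_le_one hL0]
    nlinarith [sq_nonneg (x - 1), sq_nonneg y]
  · rw [abs_of_nonneg (by positivity), div_le_one hL0]
    nlinarith [sq_nonneg y]
  · rw [abs_of_nonneg (by positivity), div_le_one hL0]
    nlinarith [sq_nonneg (x - y)]

theorem ZX_L4 (hs : ∑ i ∈ s, a i ^ 2 ≤ 1) : ∫ z, ZX s a z ^ 4 ∂muOm ≤ 6 := by
  have hcoef : ∀ i : ℕ × ℕ, |((i.1 + 1 : ℝ) * Real.pi) / lm i.1 i.2| ≤ 1 ∧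
      |((i.1 + 1 : ℝ) * Real.pi) ^ 2 / lm i.1 i.2| ≤ 1 ∧
      |((i.1 + 1 : ℝ) * Real.pi) * ((i.2 + 1 : ℝ) * Real.pi) / lm i.1 i.2| ≤ 1 := fun i =>
    coef_bound (by positivity) (by positivity) (by rw [lm]; ring) (one_le_lm i)
  refine L4_bound (F := ZX s a)
    (FX := fun z => ∑ i ∈ s, (a i * (-(((i.1 + 1 : ℝ) * Real.pi) ^ 2 / lm i.1 i.2))) * ee i.1 i.2 z)
    (FY := fun z => ∑ i ∈ s, (a i * (((i.1 + 1 : ℝ) * Real.pi) * ((i.2 + 1 : ℝ) * Real.pi) /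
      lm i.1 i.2)) * cc i.1 i.2 z) (continuous_ZX s a) ?_ ?_ ?_ ?_ ?_ ?_ ?_ ?_
  · exact continuous_finsetSum _ fun i _ => continuous_const.mul (continuous_ee i.1 i.2)
  · exact continuous_finsetSum _ fun i _ => continuous_const.mul (continuous_cc i.1 i.2)
  · intro x y
    refine HasDerivAt.congr_deriv (f := fun x => ∑ i ∈ s, kx a i * (Cn i.1 x * Sn i.2 y))
      (HasDerivAt.fun_sum fun i _ => ((hasDerivAt_Cn i.1 x).mul_const (Sn i.2 y)).const_mul (kx a i)) ?_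
    refine Finset.sum_congr rfl fun i _ => ?_
    simp only [kx, ee]
    ring
  · intro x y
    refine HasDerivAt.congr_deriv (f := fun y => ∑ i ∈ s, kx a i * (Cn i.1 x * Sn i.2 y))
      (HasDerivAt.fun_sum fun i _ => ((hasDerivAt_Sn i.2 y).const_mul (Cn i.1 x)).const_mul (kx a i)) ?_
    refine Finset.sum_congr rfl fun i _ => ?_
    simp only [kx, cc]
    ring
  · intro x
    exact Finset.sum_eq_zero fun i _ => by simp [cs, Sn_zero]
  · rw [integral_ZX_sq]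
    have e : ∀ i, kx a i = a i * (((i.1 + 1 : ℝ) * Real.pi) / lm i.1 i.2) := fun i => by
      rw [kx]; ring
    simp only [e]
    exact sum_le_one_aux hs fun i => (hcoef i).1
  · rw [integral_sq_sum (f := fun i : ℕ × ℕ => ee i.1 i.2) (fun i => continuous_ee i.1 i.2) orth_ee]
    exact sum_le_one_aux hs fun i => by rw [abs_neg]; exact (hcoef i).2.1
  · rw [integral_sq_sum (f := fun i : ℕ × ℕ => cc i.1 i.2) (fun i => continuous_cc i.1 i.2) orth_cc]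
    exact sum_le_one_aux hs fun i => (hcoef i).2.2

theorem ZY_L4 (hs : ∑ i ∈ s, a i ^ 2 ≤ 1) : ∫ z, ZY s a z ^ 4 ∂muOm ≤ 6 := by
  have hcoef : ∀ i : ℕ × ℕ, |((i.2 + 1 : ℝ) * Real.pi) / lm i.1 i.2| ≤ 1 ∧
      |((i.2 + 1 : ℝ) * Real.pi) ^ 2 / lm i.1 i.2| ≤ 1 ∧
      |((i.2 + 1 : ℝ) * Real.pi) * ((i.1 + 1 : ℝ) * Real.pi) / lm i.1 i.2| ≤ 1 := fun i =>
    coef_bound (by positivity) (by positivity) (by rw [lm]; ring) (one_le_lm i)
  refine L4_bound' (F := ZY s a)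
    (FX := fun z => ∑ i ∈ s, (a i * (((i.2 + 1 : ℝ) * Real.pi) * ((i.1 + 1 : ℝ) * Real.pi) /
      lm i.1 i.2)) * cc i.1 i.2 z)
    (FY := fun z => ∑ i ∈ s, (a i * (-(((i.2 + 1 : ℝ) * Real.pi) ^ 2 / lm i.1 i.2))) * ee i.1 i.2 z)
    (continuous_ZY s a) ?_ ?_ ?_ ?_ ?_ ?_ ?_ ?_
  · exact continuous_finsetSum _ fun i _ => continuous_const.mul (continuous_cc i.1 i.2)
  · exact continuous_finsetSum _ fun i _ => continuous_const.mul (continuous_ee i.1 i.2)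
  · intro x y
    refine HasDerivAt.congr_deriv (f := fun x => ∑ i ∈ s, ky a i * (Sn i.1 x * Cn i.2 y))
      (HasDerivAt.fun_sum fun i _ => ((hasDerivAt_Sn i.1 x).mul_const (Cn i.2 y)).const_mul (ky a i)) ?_
    refine Finset.sum_congr rfl fun i _ => ?_
    simp only [ky, cc]
    ring
  · intro x y
    refine HasDerivAt.congr_deriv (f := fun y => ∑ i ∈ s, ky a i * (Sn i.1 x * Cn i.2 y))
      (HasDerivAt.fun_sum fun i _ => ((hasDerivAt_Cn i.2 y).const_mul (Sn i.1 x)).const_mul (ky a i)) ?_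
    refine Finset.sum_congr rfl fun i _ => ?_
    simp only [ky, ee]
    ring
  · intro y
    exact Finset.sum_eq_zero fun i _ => by simp [sc, Sn_zero]
  · rw [integral_ZY_sq]
    have e : ∀ i, ky a i = a i * (((i.2 + 1 : ℝ) * Real.pi) / lm i.1 i.2) := fun i => by
      rw [ky]; ring
    simp only [e]
    exact sum_le_one_aux hs fun i => (hcoef i).1
  · rw [integral_sq_sum (f := fun i : ℕ × ℕ => cc i.1 i.2) (fun i => continuous_cc i.1 i.2) orth_cc]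
    exact sum_le_one_aux hs fun i => (hcoef i).2.2
  · rw [integral_sq_sum (f := fun i : ℕ × ℕ => ee i.1 i.2) (fun i => continuous_ee i.1 i.2) orth_ee]
    exact sum_le_one_aux hs fun i => by rw [abs_neg]; exact (hcoef i).2.1

theorem Z_L4 (hs : ∑ i ∈ s, a i ^ 2 ≤ 1) : ∫ z, (ZX s a z ^ 2 + ZY s a z ^ 2) ^ 2 ∂muOm ≤ 24 := by
  have c1 := continuous_ZX s a
  have c2 := continuous_ZY s a
  have h : ∫ z, (ZX s a z ^ 2 + ZY s a z ^ 2) ^ 2 ∂muOm ≤
      ∫ z, (2 * ZX s a z ^ 4 + 2 * ZY s a z ^ 4) ∂muOm := by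
    refine int_mono (by fun_prop) (by fun_prop) fun z => ?_
    nlinarith [sq_nonneg (ZX s a z ^ 2 - ZY s a z ^ 2)]
  rw [int_add (by fun_prop) (by fun_prop), integral_const_mul, integral_const_mul] at h
  linarith [ZX_L4 hs, ZY_L4 hs]

/-- pairing of a finite sum with one member of an orthonormal family -/
theorem integral_sum_mul {ι : Type*} [DecidableEq ι] {f : ι → ℝ × ℝ → ℝ}
    (hf : ∀ i, Continuous (f i))
    (ho : ∀ i j, ∫ z, f i z * f j z ∂muOm = if i = j then 1 else 0) (s : Finset ι) (c : ι → ℝ)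
    {j : ι} (hj : j ∈ s) : ∫ z, (∑ i ∈ s, c i * f i z) * f j z ∂muOm = c j := by
  have e : ∀ z, (∑ i ∈ s, c i * f i z) * f j z = ∑ i ∈ s, c i * (f i z * f j z) := by
    intro z
    rw [Finset.sum_mul]
    exact Finset.sum_congr rfl fun i _ => by ring
  simp only [e]
  have hint : ∀ i ∈ s, Integrable (fun z => c i * (f i z * f j z)) muOm := fun i _ =>
    (integrable_of_cont (f := fun z => f i z * f j z) ((hf i).mul (hf j))).const_mul _
  rw [integral_finsetSum s hint]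
  simp only [integral_const_mul, ho]
  simp [hj]

theorem integral_Z_psi (h1 : ((0, 1) : ℕ × ℕ) ∈ s) (h2 : ((1, 0) : ℕ × ℕ) ∈ s) (α β : ℝ) :
    ∫ z, (ZX s a z * psiX α β z + ZY s a z * psiY α β z) ∂muOm = α * a (0, 1) + β * a (1, 0) := by
  have c1 := continuous_ZX s a
  have c2 := continuous_ZY s a
  have c3 := continuous_cs 0 1
  have c4 := continuous_cs 1 0
  have c5 := continuous_sc 0 1
  have c6 := continuous_sc 1 0
  have e : ∀ z, ZX s a z * psiX α β z + ZY s a z * psiY α β z =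
      (α * Real.pi) * (ZX s a z * cs 0 1 z) + (2 * β * Real.pi) * (ZX s a z * cs 1 0 z) +
      ((2 * α * Real.pi) * (ZY s a z * sc 0 1 z) + (β * Real.pi) * (ZY s a z * sc 1 0 z)) :=
    fun z => by rw [psiX, psiY]; ring
  simp only [e]
  rw [int_add (by fun_prop) (by fun_prop), int_add (by fun_prop) (by fun_prop),
    int_add (by fun_prop) (by fun_prop)]
  simp only [integral_const_mul]
  have k1 := integral_sum_mul (f := fun i : ℕ × ℕ => cs i.1 i.2) (fun i => continuous_cs i.1 i.2)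
    orth_cs s (kx a) h1
  have k2 := integral_sum_mul (f := fun i : ℕ × ℕ => cs i.1 i.2) (fun i => continuous_cs i.1 i.2)
    orth_cs s (kx a) h2
  have k3 := integral_sum_mul (f := fun i : ℕ × ℕ => sc i.1 i.2) (fun i => continuous_sc i.1 i.2)
    orth_sc s (ky a) h1
  have k4 := integral_sum_mul (f := fun i : ℕ × ℕ => sc i.1 i.2) (fun i => continuous_sc i.1 i.2)
    orth_sc s (ky a) h2
  simp only at k1 k2 k3 k4
  have r1 : ∫ z, ZX s a z * cs 0 1 z ∂muOm = kx a (0, 1) := k1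
  have r2 : ∫ z, ZX s a z * cs 1 0 z ∂muOm = kx a (1, 0) := k2
  have r3 : ∫ z, ZY s a z * sc 0 1 z ∂muOm = ky a (0, 1) := k3
  have r4 : ∫ z, ZY s a z * sc 1 0 z ∂muOm = ky a (1, 0) := k4
  rw [r1, r2, r3, r4]
  simp only [kx, ky, lm]
  have hpi := Real.pi_ne_zero
  push_cast
  field_simp
  ring

theorem C1c.integral_Z {u : ℝ × ℝ → ℝ} (hu : C1c u) :
    ∫ z, (dX u z * ZX s a z + dY u z * ZY s a z) ∂muOm = ∑ i ∈ s, a i * cf u i.1 i.2 := by
  have c1 := continuous_ZX s a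
  have c2 := continuous_ZY s a
  have c3 := continuous_dX_of hu.1
  have c4 := continuous_dY_of hu.1
  have e1 : ∫ z, dX u z * ZX s a z ∂muOm =
      ∑ i ∈ s, kx a i * (((i.1 + 1 : ℝ) * Real.pi) * cf u i.1 i.2) := by
    have e : ∀ z, dX u z * ZX s a z = ∑ i ∈ s, kx a i * (dX u z * cs i.1 i.2 z) := by
      intro z
      rw [ZX, Finset.mul_sum]
      exact Finset.sum_congr rfl fun i _ => by ring
    simp only [e]
    have hint : ∀ i ∈ s, Integrable (fun z => kx a i * (dX u z * cs i.1 i.2 z)) muOm := fun i _ =>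
      (integrable_of_cont (f := fun z => dX u z * cs i.1 i.2 z)
        (c3.mul (continuous_cs i.1 i.2))).const_mul _
    rw [integral_finsetSum s hint]
    simp only [integral_const_mul, hu.cf_ibp_X]
  have e2 : ∫ z, dY u z * ZY s a z ∂muOm =
      ∑ i ∈ s, ky a i * (((i.2 + 1 : ℝ) * Real.pi) * cf u i.1 i.2) := by
    have e : ∀ z, dY u z * ZY s a z = ∑ i ∈ s, ky a i * (dY u z * sc i.1 i.2 z) := by
      intro z
      rw [ZY, Finset.mul_sum]
      exact Finset.sum_congr rfl fun i _ => by ring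
    simp only [e]
    have hint : ∀ i ∈ s, Integrable (fun z => ky a i * (dY u z * sc i.1 i.2 z)) muOm := fun i _ =>
      (integrable_of_cont (f := fun z => dY u z * sc i.1 i.2 z)
        (c4.mul (continuous_sc i.1 i.2))).const_mul _
    rw [integral_finsetSum s hint]
    simp only [integral_const_mul, hu.cf_ibp_Y]
  rw [int_add (by fun_prop) (by fun_prop), e1, e2, ← Finset.sum_add_distrib]
  refine Finset.sum_congr rfl fun i _ => ?_
  have h := (lm_pos i.1 i.2).ne'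
  have e3 : kx a i * (((i.1 + 1 : ℝ) * Real.pi) * cf u i.1 i.2) +
      ky a i * (((i.2 + 1 : ℝ) * Real.pi) * cf u i.1 i.2) =
      (a i * cf u i.1 i.2) * ((((i.1 + 1 : ℝ) * Real.pi) ^ 2 + ((i.2 + 1 : ℝ) * Real.pi) ^ 2) /
        lm i.1 i.2) := by
    rw [kx, ky]; ring
  have e4 : ((i.1 + 1 : ℝ) * Real.pi) ^ 2 + ((i.2 + 1 : ℝ) * Real.pi) ^ 2 = lm i.1 i.2 := by
    rw [lm]; ring
  rw [e3, e4, div_self h, mul_one]

/-- the dual spectral inequality -/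
theorem dual_spectral {G : ℝ} (hG : ∑ i ∈ s ∪ {(0, 0), (0, 1), (1, 0)}, a i ^ 2 ≤ G) :
    ∑ i ∈ s, a i ^ 2 / lm i.1 i.2 ≤ a (0, 0) ^ 2 / (2 * Real.pi ^ 2) +
      (a (0, 1) ^ 2 + a (1, 0) ^ 2) / (5 * Real.pi ^ 2) +
      (G - a (0, 0) ^ 2 - a (0, 1) ^ 2 - a (1, 0) ^ 2) / (8 * Real.pi ^ 2) := by
  set T : Finset (ℕ × ℕ) := {(0, 0), (0, 1), (1, 0)} with hT
  have hpi : 0 < Real.pi ^ 2 := by positivity
  have h1 : ∑ i ∈ s, a i ^ 2 / lm i.1 i.2 ≤ ∑ i ∈ s ∪ T, a i ^ 2 / lm i.1 i.2 :=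
    Finset.sum_le_sum_of_subset_of_nonneg Finset.subset_union_left fun i _ _ =>
      div_nonneg (sq_nonneg _) (lm_pos _ _).le
  have h2 : ∑ i ∈ T, a i ^ 2 / lm i.1 i.2 = a (0, 0) ^ 2 / (2 * Real.pi ^ 2) +
      (a (0, 1) ^ 2 + a (1, 0) ^ 2) / (5 * Real.pi ^ 2) := by
    rw [hT, Finset.sum_insert (by simp), Finset.sum_insert (by simp), Finset.sum_singleton]
    simp only [lm]
    push_cast
    norm_num
    ring
  have h2' : ∑ i ∈ T, a i ^ 2 = a (0, 0) ^ 2 + a (0, 1) ^ 2 + a (1, 0) ^ 2 := by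
    rw [hT, Finset.sum_insert (by simp), Finset.sum_insert (by simp), Finset.sum_singleton]
    ring
  have h3 : ∑ i ∈ (s ∪ T) \ T, a i ^ 2 / lm i.1 i.2 ≤
      ∑ i ∈ (s ∪ T) \ T, a i ^ 2 / (8 * Real.pi ^ 2) := by
    refine Finset.sum_le_sum fun i hi => ?_
    have hi' : i ∉ T := (Finset.mem_sdiff.1 hi).2
    have : 8 * Real.pi ^ 2 ≤ lm i.1 i.2 := by
      refine lm_ge ?_ ?_ ?_ <;> rintro rfl <;> exact hi' (by simp [hT])
    exact div_le_div_of_nonneg_left (sq_nonneg _) (by positivity) this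
  have h4 := Finset.sum_sdiff (f := fun i : ℕ × ℕ => a i ^ 2 / lm i.1 i.2)
    (Finset.subset_union_right : T ⊆ s ∪ T)
  have h5 := Finset.sum_sdiff (f := fun i : ℕ × ℕ => a i ^ 2)
    (Finset.subset_union_right : T ⊆ s ∪ T)
  rw [← Finset.sum_div] at h3
  have h6 : (∑ i ∈ (s ∪ T) \ T, a i ^ 2) / (8 * Real.pi ^ 2) ≤
      (G - a (0, 0) ^ 2 - a (0, 1) ^ 2 - a (1, 0) ^ 2) / (8 * Real.pi ^ 2) := by
    refine div_le_div_of_nonneg_right ?_ (by positivity)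
    rw [h2'] at h5
    linarith
  linarith

end Pool.Agent.Helper270_PL
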