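import Pool.Agent.Helper270_PL.UpperPsi

/-!
# First order expansion of the Rayleigh quotient of `psi`
-/

open MeasureTheory Set Filter Topology
open scoped ENNReal

namespace Pool.Agent.Helper270_PL

variable {α β : ℝ}

theorem exp_second (y : ℝ) : |Real.exp y - 1 - y| ≤ y ^ 2 * Real.exp |y| := by
  rcases le_total |y| 1 with h | h
  · refine (Real.abs_exp_sub_one_sub_id_le h).trans ?_
    have := Real.one_le_exp (abs_nonneg y)
    nlinarith [sq_nonneg y]
  · have h0 : 0 ≤ Real.exp y - 1 - y := by linarith [Real.add_one_le_exp y]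
    rw [abs_of_nonneg h0]
    have h1 : 1 ≤ y ^ 2 := by
      rw [← sq_abs]; nlinarith
    have h2 : Real.exp y - 1 - y ≤ Real.exp |y| := by
      rcases le_total 0 y with k | k
      · rw [abs_of_nonneg k]; linarith
      · have k1 := Real.exp_le_one_iff.2 k
        have k2 := Real.add_one_le_exp |y|
        rw [abs_of_nonpos k] at k2 ⊢
        linarith
    have h3 : 0 < Real.exp |y| := Real.exp_pos _
    nlinarith

theorem mul_log_sq_le {x : ℝ} (hx : 0 < x) {K : ℝ} (hK : 1 ≤ K) (hxK : x ≤ K) :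
    x * Real.log x ^ 2 * Real.exp (|Real.log x| / 2) ≤ 16 + K ^ 4 := by
  rcases le_total x 1 with h | h
  · have hl : Real.log x ≤ 0 := Real.log_nonpos hx.le h
    rw [abs_of_nonpos hl]
    set w := Real.exp (Real.log x / 4) with hw
    have hw0 : 0 < w := Real.exp_pos _
    have hx4 : x = w ^ 4 := by
      rw [hw, ← Real.exp_nat_mul]
      conv_lhs => rw [← Real.exp_log hx]
      congr 1
      push_cast
      ring
    have he : Real.exp (-Real.log x / 2) = (w ^ 2)⁻¹ := by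
      rw [hw, ← Real.exp_nat_mul, ← Real.exp_neg]
      congr 1
      push_cast
      ring
    have hlw : -Real.log x ≤ 4 / w := by
      have h1 := Real.one_sub_inv_le_log_of_pos hw0
      have h2 : Real.log w = Real.log x / 4 := by rw [hw, Real.log_exp]
      rw [h2] at h1
      have h3 : 4 / w = 4 * w⁻¹ := by ring
      rw [h3]; linarith
    have hl2 : Real.log x ^ 2 ≤ (4 / w) ^ 2 := by
      rw [← neg_sq]
      exact pow_le_pow_left₀ (by linarith) hlw 2
    calc x * Real.log x ^ 2 * Real.exp (-Real.log x / 2)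
        = w ^ 4 * Real.log x ^ 2 * (w ^ 2)⁻¹ := by rw [he, ← hx4]
      _ ≤ w ^ 4 * (4 / w) ^ 2 * (w ^ 2)⁻¹ := by gcongr
      _ = 16 := by field_simp; norm_num
      _ ≤ 16 + K ^ 4 := by nlinarith [sq_nonneg (K ^ 2)]
  · have hl : 0 ≤ Real.log x := Real.log_nonneg h
    rw [abs_of_nonneg hl]
    have h1 : Real.log x ≤ K := (Real.log_le_self hx.le).trans hxK
    have h2 : Real.exp (Real.log x / 2) ≤ K := by
      calc Real.exp (Real.log x / 2) ≤ Real.exp (Real.log x) := Real.exp_le_exp.2 (by linarith)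
        _ = x := Real.exp_log hx
        _ ≤ K := hxK
    calc x * Real.log x ^ 2 * Real.exp (Real.log x / 2) ≤ K * K ^ 2 * K := by gcongr
      _ = K ^ 4 := by ring
      _ ≤ 16 + K ^ 4 := by linarith

theorem rpow_expand {x r K : ℝ} (hx : 0 ≤ x) (hK : 1 ≤ K) (hxK : x ≤ K) (hr : |r| ≤ 1 / 2) :
    |x ^ (1 + r) - x - r * (x * Real.log x)| ≤ r ^ 2 * (16 + K ^ 4) := by
  rcases hx.eq_or_lt with h | h
  · rw [← h, Real.zero_rpow (by linarith [(abs_le.1 hr).1])]
    simp only [Real.log_zero, mul_zero, sub_zero, abs_zero]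
    positivity
  · have e : x ^ (1 + r) = x * Real.exp (Real.log x * r) := by
      rw [Real.rpow_add h, Real.rpow_one, Real.rpow_def_of_pos h]
    rw [e, show x * Real.exp (Real.log x * r) - x - r * (x * Real.log x) =
      x * (Real.exp (Real.log x * r) - 1 - Real.log x * r) by ring, abs_mul, abs_of_pos h]
    have h1 := exp_second (Real.log x * r)
    have h2 : Real.exp |Real.log x * r| ≤ Real.exp (|Real.log x| / 2) := by
      rw [Real.exp_le_exp, abs_mul]
      nlinarith [abs_nonneg (Real.log x)]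
    calc x * |Real.exp (Real.log x * r) - 1 - Real.log x * r|
        ≤ x * ((Real.log x * r) ^ 2 * Real.exp |Real.log x * r|) := by gcongr
      _ ≤ x * ((Real.log x * r) ^ 2 * Real.exp (|Real.log x| / 2)) := by gcongr
      _ = r ^ 2 * (x * Real.log x ^ 2 * Real.exp (|Real.log x| / 2)) := by ring
      _ ≤ r ^ 2 * (16 + K ^ 4) := by
          exact mul_le_mul_of_nonneg_left (mul_log_sq_le h hK hxK) (sq_nonneg _)

theorem quot_bound {A F G C D : ℝ} (hA : 0 < A) (hC : 0 ≤ C) (hD : 0 ≤ D) :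
    ∃ C', ∃ δ, 0 < δ ∧ ∀ s, |s| < δ → ∀ E M, E ≤ A + s * (G + A * F) + C * s ^ 2 →
      1 + s * F - D * s ^ 2 ≤ M → 0 < M ∧ E / M ≤ A + s * G + C' * s ^ 2 := by
  set N := |F| + D + 1 with hN
  have hN0 : 0 < N := by positivity
  set C' := 2 * (|G| * |F| + A * D + C + |G| * D) with hC'
  have hC'0 : 0 ≤ C' := by positivity
  refine ⟨C', min (1 / (4 * N)) (min 1 (A / (|G| + 1))), by positivity,
    fun s hs E M hE hM => ?_⟩
  have hs1 : |s| < 1 / (4 * N) := hs.trans_le (min_le_left _ _)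
  have hs2 : |s| < 1 := hs.trans_le ((min_le_right _ _).trans (min_le_left _ _))
  have hs3 : |s| < A / (|G| + 1) := hs.trans_le ((min_le_right _ _).trans (min_le_right _ _))
  have hsN : |s| * N < 1 / 4 := by
    rw [lt_div_iff₀ (by positivity)] at hs1
    linarith
  have hsA : |s| * |G| < A := by
    rw [lt_div_iff₀ (by positivity)] at hs3
    nlinarith [abs_nonneg s]
  have hs0 := abs_nonneg s
  have hss : s ^ 2 ≤ |s| := by
    rw [← sq_abs]; nlinarith
  have a1 : -(|s| * |F|) ≤ s * F := by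
    rw [← abs_mul]; exact neg_abs_le _
  have a2 : D * s ^ 2 ≤ D * |s| := mul_le_mul_of_nonneg_left hss hD
  have a3 : |s| * N = |s| * |F| + |s| * D + |s| := by rw [hN]; ring
  have hM' : 3 / 4 ≤ 1 + s * F - D * s ^ 2 := by
    rw [a3] at hsN
    linarith
  have hM0 : 0 < M := by linarith
  refine ⟨hM0, ?_⟩
  rw [div_le_iff₀ hM0]
  have a4 : -(|s| * |G|) ≤ s * G := by
    rw [← abs_mul]; exact neg_abs_le _
  have hP : 0 ≤ A + s * G + C' * s ^ 2 := by
    have : 0 ≤ C' * s ^ 2 := by positivity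
    linarith
  refine le_trans ?_ (mul_le_mul_of_nonneg_left hM hP)
  refine hE.trans ?_
  have key : 0 ≤ s ^ 2 * (C' * (1 + s * F - D * s ^ 2) + G * F - A * D - C - s * (G * D)) := by
    refine mul_nonneg (sq_nonneg _) ?_
    have b1 : C' * (3 / 4) ≤ C' * (1 + s * F - D * s ^ 2) := mul_le_mul_of_nonneg_left hM' hC'0
    have b2 : -(|G| * |F|) ≤ G * F := by rw [← abs_mul]; exact neg_abs_le _
    have b3 : s * (G * D) ≤ |G| * D := by
      calc s * (G * D) ≤ |s * (G * D)| := le_abs_self _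
        _ = |s| * (|G| * D) := by rw [abs_mul, abs_mul, abs_of_nonneg hD]
        _ ≤ 1 * (|G| * D) := by gcongr
        _ = |G| * D := one_mul _
    have b4 : 0 ≤ |G| * |F| := by positivity
    have b5 : 0 ≤ A * D := by positivity
    have b6 : 0 ≤ |G| * D := by positivity
    linarith
  nlinarith

variable (α β) in
/-- `½ ∫ |∇ψ|² ln |∇ψ|²` -/
noncomputable def F2 : ℝ := 1 / 2 * ∫ z, gg α β z * Real.log (gg α β z) ∂muOm

variable (α β) in
/-- `½ ∫ ψ² ln ψ²` -/
noncomputable def F1 : ℝ := 1 / 2 * ∫ z, psi α β z ^ 2 * Real.log (psi α β z ^ 2) ∂muOm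

theorem GG_eq (α β : ℝ) : GG α β = F2 α β - 5 * Real.pi ^ 2 * F1 α β := rfl

theorem energy_expand (h : α ^ 2 + β ^ 2 = 1) {s : ℝ} (hs : |s| ≤ 1) :
    |∫ z, gg α β z ^ ((2 + s) / 2) ∂muOm - 5 * Real.pi ^ 2 - s * F2 α β| ≤
      (16 + 4608 ^ 4) * s ^ 2 := by
  have hr : |s / 2| ≤ 1 / 2 := by rw [abs_div, abs_two]; linarith
  have e : (2 + s) / 2 = 1 + s / 2 := by ring
  rw [e]
  have c0 := continuous_gg α β
  have c1 : Continuous fun z => gg α β z ^ (1 + s / 2) :=
    c0.rpow_const fun _ => Or.inr (by linarith [(abs_le.1 hr).1])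
  have c2 := continuous_mul_log_comp c0
  have e2 : ∫ z, gg α β z ^ (1 + s / 2) ∂muOm - 5 * Real.pi ^ 2 - s * F2 α β =
      ∫ z, (gg α β z ^ (1 + s / 2) - gg α β z - s / 2 * (gg α β z * Real.log (gg α β z))) ∂muOm := by
    rw [int_sub (by fun_prop) (by fun_prop), int_sub (by fun_prop) (by fun_prop),
      integral_const_mul, integral_gg h, F2]
    ring
  rw [e2]
  refine abs_integral_le_integral_abs.trans ?_
  have h3 : ∫ z, |gg α β z ^ (1 + s / 2) - gg α β z - s / 2 * (gg α β z * Real.log (gg α β z))| ∂muOm ≤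
      ∫ z, (s / 2) ^ 2 * (16 + 4608 ^ 4) ∂muOm := by
    refine int_mono (by fun_prop) (by fun_prop) fun z => ?_
    exact rpow_expand (gg_nonneg α β z) (by norm_num) (gg_le h z) hr
  refine h3.trans ?_
  rw [integral_const, probReal_univ, one_smul]
  nlinarith [sq_nonneg s]

theorem mass_expand (h : α ^ 2 + β ^ 2 = 1) {s : ℝ} (hs : |s| ≤ 1) :
    |∫ z, |psi α β z| ^ (2 + s) ∂muOm - 1 - s * F1 α β| ≤ (16 + 64 ^ 4) * s ^ 2 := by
  have hr : |s / 2| ≤ 1 / 2 := by rw [abs_div, abs_two]; linarith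
  have e : ∀ z, |psi α β z| ^ (2 + s) = (psi α β z ^ 2) ^ (1 + s / 2) := by
    intro z
    rw [← sq_abs, ← Real.rpow_natCast, ← Real.rpow_mul (abs_nonneg _)]
    congr 1
    push_cast
    ring
  simp only [e]
  have c0 : Continuous fun z => psi α β z ^ 2 := (continuous_psi α β).pow 2
  have c1 : Continuous fun z => (psi α β z ^ 2) ^ (1 + s / 2) :=
    c0.rpow_const fun _ => Or.inr (by linarith [(abs_le.1 hr).1])
  have c2 := continuous_mul_log_comp c0
  have e2 : ∫ z, (psi α β z ^ 2) ^ (1 + s / 2) ∂muOm - 1 - s * F1 α β =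
      ∫ z, ((psi α β z ^ 2) ^ (1 + s / 2) - psi α β z ^ 2 -
        s / 2 * (psi α β z ^ 2 * Real.log (psi α β z ^ 2))) ∂muOm := by
    rw [int_sub (by fun_prop) (by fun_prop), int_sub (by fun_prop) (by fun_prop),
      integral_const_mul, integral_psi_sq h, F1]
    ring
  rw [e2]
  refine abs_integral_le_integral_abs.trans ?_
  have h3 : ∫ z, |(psi α β z ^ 2) ^ (1 + s / 2) - psi α β z ^ 2 -
        s / 2 * (psi α β z ^ 2 * Real.log (psi α β z ^ 2))| ∂muOm ≤
      ∫ z, (s / 2) ^ 2 * (16 + 64 ^ 4) ∂muOm := by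
    refine int_mono (by fun_prop) (by fun_prop) fun z => ?_
    refine rpow_expand (sq_nonneg _) (by norm_num) ?_ hr
    rw [← sq_abs]
    calc |psi α β z| ^ 2 ≤ 8 ^ 2 := pow_le_pow_left₀ (abs_nonneg _) (abs_psi_le h z) 2
      _ = 64 := by norm_num
  refine h3.trans ?_
  rw [integral_const, probReal_univ, one_smul]
  nlinarith [sq_nonneg s]

/-- First order upper bound for `λ₂`. -/
theorem lam_two_first_order (h : α ^ 2 + β ^ 2 = 1) :
    ∃ C, ∃ δ, 0 < δ ∧ ∀ s, |s| < δ → ∀ (p : ℝ≥0∞) [Fact (1 ≤ p)], p ≠ ∞ →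
      p.toReal = 2 + s → lam p 2 ≤ 5 * Real.pi ^ 2 + s * GG α β + C * s ^ 2 := by
  obtain ⟨C', δ, hδ, hq⟩ := quot_bound (A := 5 * Real.pi ^ 2) (F := F1 α β) (G := GG α β)
    (C := 16 + 4608 ^ 4) (D := 16 + 64 ^ 4) (by positivity) (by norm_num) (by norm_num)
  refine ⟨C', min δ 1, by positivity, fun s hs p _ hp hps => ?_⟩
  have hs1 : |s| < δ := hs.trans_le (min_le_left _ _)
  have hs2 : |s| ≤ 1 := (hs.trans_le (min_le_right _ _)).le
  have h1 := (abs_le.1 (energy_expand h hs2)).2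
  have h2 := (abs_le.1 (mass_expand h hs2)).1
  obtain ⟨h3, h4⟩ := hq s hs1 (∫ z, gg α β z ^ ((2 + s) / 2) ∂muOm)
    (∫ z, |psi α β z| ^ (2 + s) ∂muOm) (by rw [GG_eq]; linarith) (by linarith)
  rw [← hps] at h3 h4
  exact (lam_two_le_psi hp h h3).trans h4

end Pool.Agent.Helper270_PL
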