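import Pool.Agent.Helper270_PL.LogTrig
import Pool.Agent.Helper270_PL.Expand

/-!
# The difference of the two entropies of the eigenfunctions
-/

open MeasureTheory Set Filter Topology
open scoped ENNReal

namespace Pool.Agent.Helper270_PL

/-- moments of `cos² πx` -/
noncomputable def mm : ℕ → ℝ
  | 0 => 1
  | n + 1 => (2 * n + 1) / (2 * n + 2) * mm n

theorem integral_mm (n : ℕ) : ∫ x in (0 : ℝ)..1, Real.cos (Real.pi * x) ^ (2 * n) = mm n := by
  induction n with
  | zero => simp [mm]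
  | succ n ih =>
    have e : ∀ k : ℕ, ∫ x in (0 : ℝ)..1, Real.cos (Real.pi * x) ^ k =
        Real.pi⁻¹ * ∫ x in (0 : ℝ)..Real.pi, Real.cos x ^ k := by
      intro k
      have := intervalIntegral.integral_comp_mul_left (a := 0) (b := 1)
        (fun x => Real.cos x ^ k) Real.pi_ne_zero
      simpa using this
    rw [e] at ih
    rw [e, show 2 * (n + 1) = 2 * n + 2 by ring, integral_cos_pow, Real.sin_pi, Real.sin_zero]
    have : mm (n + 1) = (2 * n + 1) / (2 * n + 2) * mm n := rfl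
    rw [this, ← ih]
    push_cast
    ring

theorem integral_mm' (n : ℕ) : ∫ x, (Real.cos (Real.pi * x) ^ 2) ^ n ∂m1 = mm n := by
  rw [integral_m1, ← integral_mm]
  refine intervalIntegral.integral_congr fun x _ => ?_
  simp only [pow_mul]

theorem ee01 (z : ℝ × ℝ) : ee 0 1 z =
    4 * Real.sin (Real.pi * z.1) * Real.sin (Real.pi * z.2) * Real.cos (Real.pi * z.2) := by
  have h : Real.sqrt 2 * Real.sqrt 2 = 2 := Real.mul_self_sqrt (by norm_num)
  simp only [ee, Sn]
  rw [show (((0 : ℕ) : ℝ) + 1) * Real.pi * z.1 = Real.pi * z.1 by push_cast; ring,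
    show (((1 : ℕ) : ℝ) + 1) * Real.pi * z.2 = 2 * (Real.pi * z.2) by push_cast; ring,
    Real.sin_two_mul]
  linear_combination (2 * Real.sin (Real.pi * z.1) * Real.sin (Real.pi * z.2) *
    Real.cos (Real.pi * z.2)) * h

theorem ee10 (z : ℝ × ℝ) : ee 1 0 z =
    4 * Real.sin (Real.pi * z.1) * Real.cos (Real.pi * z.1) * Real.sin (Real.pi * z.2) := by
  have h : Real.sqrt 2 * Real.sqrt 2 = 2 := Real.mul_self_sqrt (by norm_num)
  simp only [ee, Sn]
  rw [show (((0 : ℕ) : ℝ) + 1) * Real.pi * z.2 = Real.pi * z.2 by push_cast; ring,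
    show (((1 : ℕ) : ℝ) + 1) * Real.pi * z.1 = 2 * (Real.pi * z.1) by push_cast; ring,
    Real.sin_two_mul]
  linear_combination (2 * Real.sin (Real.pi * z.1) * Real.cos (Real.pi * z.1) *
    Real.sin (Real.pi * z.2)) * h

/-- `√2 / 2` -/
noncomputable def rt : ℝ := Real.sqrt 2 / 2

theorem rt_sq : rt ^ 2 = 1 / 2 := by
  rw [rt, div_pow, Real.sq_sqrt (by norm_num)]; norm_num

theorem rt_unit : rt ^ 2 + rt ^ 2 = 1 := by rw [rt_sq]; norm_num

theorem one_unit : (1 : ℝ) ^ 2 + (0 : ℝ) ^ 2 = 1 := by norm_num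

theorem psi_diag_sq (z : ℝ × ℝ) : psi rt rt z ^ 2 =
    8 * Real.sin (Real.pi * z.1) ^ 2 * Real.sin (Real.pi * z.2) ^ 2 *
      (Real.cos (Real.pi * z.1) + Real.cos (Real.pi * z.2)) ^ 2 := by
  rw [psi, ee01, ee10]
  linear_combination (16 * Real.sin (Real.pi * z.1) ^ 2 * Real.sin (Real.pi * z.2) ^ 2 *
      (Real.cos (Real.pi * z.1) + Real.cos (Real.pi * z.2)) ^ 2) * rt_sq

theorem psi_one_sq (z : ℝ × ℝ) : psi 1 0 z ^ 2 =
    16 * Real.sin (Real.pi * z.1) ^ 2 * Real.sin (Real.pi * z.2) ^ 2 *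
      Real.cos (Real.pi * z.2) ^ 2 := by
  rw [psi, ee01]
  ring

theorem int_zero_of_swap {f : ℝ × ℝ → ℝ} (h : ∀ z, f (z.2, z.1) = -f z) :
    ∫ z, f z ∂muOm = 0 := by
  have h1 := int_swap f
  simp only [h, integral_neg] at h1
  linarith

theorem int_zero_of_refl {f : ℝ × ℝ → ℝ} (h : ∀ z, f (1 - z.1, z.2) = -f z) :
    ∫ z, f z ∂muOm = 0 := by
  have h1 := int_reflX f
  simp only [h, integral_neg] at h1
  linarith

theorem sin_pi_refl (x : ℝ) : Real.sin (Real.pi * (1 - x)) = Real.sin (Real.pi * x) := by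
  rw [mul_sub, mul_one, Real.sin_pi_sub]

theorem cos_pi_refl (x : ℝ) : Real.cos (Real.pi * (1 - x)) = -Real.cos (Real.pi * x) := by
  rw [mul_sub, mul_one, Real.cos_pi_sub]

theorem cont_s2log1 : Continuous fun z : ℝ × ℝ =>
    Real.sin (Real.pi * z.1) ^ 2 * Real.log (Real.sin (Real.pi * z.1) ^ 2) :=
  continuous_mul_log_comp (f := fun z : ℝ × ℝ => Real.sin (Real.pi * z.1) ^ 2) (by fun_prop)

theorem cont_s2log2 : Continuous fun z : ℝ × ℝ =>
    Real.sin (Real.pi * z.2) ^ 2 * Real.log (Real.sin (Real.pi * z.2) ^ 2) :=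
  continuous_mul_log_comp (f := fun z : ℝ × ℝ => Real.sin (Real.pi * z.2) ^ 2) (by fun_prop)

theorem cont_c2log2 : Continuous fun z : ℝ × ℝ =>
    Real.cos (Real.pi * z.2) ^ 2 * Real.log (Real.cos (Real.pi * z.2) ^ 2) :=
  continuous_mul_log_comp (f := fun z : ℝ × ℝ => Real.cos (Real.pi * z.2) ^ 2) (by fun_prop)

theorem cont_slog : Continuous fun z : ℝ × ℝ =>
    (Real.cos (Real.pi * z.1) + Real.cos (Real.pi * z.2)) ^ 2 *
      Real.log ((Real.cos (Real.pi * z.1) + Real.cos (Real.pi * z.2)) ^ 2) :=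
  continuous_mul_log_comp (f := fun z : ℝ × ℝ =>
    (Real.cos (Real.pi * z.1) + Real.cos (Real.pi * z.2)) ^ 2) (by fun_prop)

/-- the part common to both -/
noncomputable def Phi2 (z : ℝ × ℝ) : ℝ :=
  (Real.sin (Real.pi * z.1) ^ 2 * Real.log (Real.sin (Real.pi * z.1) ^ 2)) *
    Real.sin (Real.pi * z.2) ^ 2 +
  Real.sin (Real.pi * z.1) ^ 2 *
    (Real.sin (Real.pi * z.2) ^ 2 * Real.log (Real.sin (Real.pi * z.2) ^ 2))

theorem cont_Phi2 : Continuous Phi2 := by
  have h1 := cont_s2log1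
  have h2 := cont_s2log2
  unfold Phi2
  fun_prop

theorem diag_pt (z : ℝ × ℝ) : psi rt rt z ^ 2 * Real.log (psi rt rt z ^ 2) =
    Real.log 8 * psi rt rt z ^ 2 +
      8 * (Phi2 z * (Real.cos (Real.pi * z.1) + Real.cos (Real.pi * z.2)) ^ 2) +
      8 * (Real.sin (Real.pi * z.1) ^ 2 * Real.sin (Real.pi * z.2) ^ 2 *
        ((Real.cos (Real.pi * z.1) + Real.cos (Real.pi * z.2)) ^ 2 *
        Real.log ((Real.cos (Real.pi * z.1) + Real.cos (Real.pi * z.2)) ^ 2))) := by
  rw [psi_diag_sq, Phi2]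
  set s := Real.sin (Real.pi * z.1)
  set t := Real.sin (Real.pi * z.2)
  set w := Real.cos (Real.pi * z.1) + Real.cos (Real.pi * z.2)
  rcases eq_or_ne s 0 with h1 | h1
  · rw [h1]; simp
  rcases eq_or_ne t 0 with h2 | h2
  · rw [h2]; simp
  rcases eq_or_ne w 0 with h3 | h3
  · rw [h3]; simp
  rw [Real.log_mul (by positivity) (by positivity), Real.log_mul (by positivity) (by positivity),
    Real.log_mul (by norm_num) (by positivity)]
  ring

theorem one_pt (z : ℝ × ℝ) : psi 1 0 z ^ 2 * Real.log (psi 1 0 z ^ 2) =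
    Real.log 16 * psi 1 0 z ^ 2 +
      16 * (Phi2 z * Real.cos (Real.pi * z.2) ^ 2) +
      16 * (Real.sin (Real.pi * z.1) ^ 2 * Real.sin (Real.pi * z.2) ^ 2 *
        (Real.cos (Real.pi * z.2) ^ 2 * Real.log (Real.cos (Real.pi * z.2) ^ 2))) := by
  rw [psi_one_sq, Phi2]
  set s := Real.sin (Real.pi * z.1)
  set t := Real.sin (Real.pi * z.2)
  set w := Real.cos (Real.pi * z.2)
  rcases eq_or_ne s 0 with h1 | h1
  · rw [h1]; simp
  rcases eq_or_ne t 0 with h2 | h2
  · rw [h2]; simp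
  rcases eq_or_ne w 0 with h3 | h3
  · rw [h3]; simp
  rw [Real.log_mul (by positivity) (by positivity), Real.log_mul (by positivity) (by positivity),
    Real.log_mul (by norm_num) (by positivity)]
  ring

theorem Phi2_swap (z : ℝ × ℝ) : Phi2 (z.2, z.1) = Phi2 z := by
  simp only [Phi2]; ring

theorem Phi2_refl (z : ℝ × ℝ) : Phi2 (1 - z.1, z.2) = Phi2 z := by
  simp only [Phi2, sin_pi_refl]

theorem common_part :
    ∫ z, 8 * (Phi2 z * (Real.cos (Real.pi * z.1) + Real.cos (Real.pi * z.2)) ^ 2) ∂muOm =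
    ∫ z, 16 * (Phi2 z * Real.cos (Real.pi * z.2) ^ 2) ∂muOm := by
  have h0 := cont_Phi2
  have h1 : ∫ z, (8 * (Phi2 z * (Real.cos (Real.pi * z.1) ^ 2 - Real.cos (Real.pi * z.2) ^ 2))) ∂muOm
      = 0 := int_zero_of_swap fun z => by rw [Phi2_swap]; ring
  have h2 : ∫ z, (16 * (Phi2 z * (Real.cos (Real.pi * z.1) * Real.cos (Real.pi * z.2)))) ∂muOm
      = 0 := int_zero_of_refl fun z => by rw [Phi2_refl, cos_pi_refl]; ring
  have e : ∀ z : ℝ × ℝ, 8 * (Phi2 z * (Real.cos (Real.pi * z.1) + Real.cos (Real.pi * z.2)) ^ 2) =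
      16 * (Phi2 z * Real.cos (Real.pi * z.2) ^ 2) +
      8 * (Phi2 z * (Real.cos (Real.pi * z.1) ^ 2 - Real.cos (Real.pi * z.2) ^ 2)) +
      16 * (Phi2 z * (Real.cos (Real.pi * z.1) * Real.cos (Real.pi * z.2))) := fun z => by ring
  simp only [e]
  rw [int_add (by fun_prop) (by fun_prop), int_add (by fun_prop) (by fun_prop), h1, h2]
  ring

theorem one_part :
    ∫ z : ℝ × ℝ, 16 * (Real.sin (Real.pi * z.1) ^ 2 * Real.sin (Real.pi * z.2) ^ 2 *
        (Real.cos (Real.pi * z.2) ^ 2 * Real.log (Real.cos (Real.pi * z.2) ^ 2))) ∂muOm =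
      1 / 2 - 2 * Real.log 2 := by
  have h2 : ∫ x, 2 * Real.sin (Real.pi * x) ^ 2 ∂m1 = 1 := by
    have e : ∀ x : ℝ, 2 * Real.sin (Real.pi * x) ^ 2 = 2 - 2 * (Real.cos (Real.pi * x) ^ 2) ^ 1 := by
      intro x
      rw [Real.sin_sq]; ring
    simp only [e]
    rw [integral_sub (integrable_const _) ?_, integral_const_mul, integral_mm']
    · simp [mm]; norm_num
    · exact (integrable_of_bdd1 (by fun_prop) (C := 1) fun x => by
        rw [pow_one, abs_of_nonneg (sq_nonneg _)]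
        exact Real.cos_sq_le_one _).const_mul _
  have h3 : ∫ y, 8 * (Real.sin (Real.pi * y) ^ 2 *
        (Real.cos (Real.pi * y) ^ 2 * Real.log (Real.cos (Real.pi * y) ^ 2))) ∂m1 =
      1 / 2 - 2 * Real.log 2 := by
    rw [integral_m1]
    have e : ∀ y : ℝ, 8 * (Real.sin (Real.pi * y) ^ 2 *
        (Real.cos (Real.pi * y) ^ 2 * Real.log (Real.cos (Real.pi * y) ^ 2))) =
        2 * (Real.cos (2 * (0 : ℕ) * (Real.pi * y)) * lc y) -
        2 * (Real.cos (2 * (2 : ℕ) * (Real.pi * y)) * lc y) := by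
      intro y
      have h4 : Real.cos (2 * (2 : ℕ) * (Real.pi * y)) = 8 * Real.cos (Real.pi * y) ^ 4 -
          8 * Real.cos (Real.pi * y) ^ 2 + 1 := by
        rw [show 2 * ((2 : ℕ) : ℝ) * (Real.pi * y) = 2 * (2 * (Real.pi * y)) by push_cast; ring,
          Real.cos_two_mul, Real.cos_two_mul]
        ring
      rw [h4, Real.log_pow, Real.sin_sq, lc]
      simp only [Nat.cast_zero, mul_zero, zero_mul, Real.cos_zero]
      push_cast
      ring
    simp only [e]
    rw [intervalIntegral.integral_sub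
      ((ii_mul_lc (f := fun y => Real.cos (2 * (0 : ℕ) * (Real.pi * y))) (by fun_prop) _ _).const_mul _)
      ((ii_mul_lc (f := fun y => Real.cos (2 * (2 : ℕ) * (Real.pi * y))) (by fun_prop) _ _).const_mul _),
      intervalIntegral.integral_const_mul, intervalIntegral.integral_const_mul, integral_Km,
      integral_Km]
    simp only [Km]
    push_cast
    ring
  have e : ∀ z : ℝ × ℝ, 16 * (Real.sin (Real.pi * z.1) ^ 2 * Real.sin (Real.pi * z.2) ^ 2 *
        (Real.cos (Real.pi * z.2) ^ 2 * Real.log (Real.cos (Real.pi * z.2) ^ 2))) =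
      (2 * Real.sin (Real.pi * z.1) ^ 2) * (8 * (Real.sin (Real.pi * z.2) ^ 2 *
        (Real.cos (Real.pi * z.2) ^ 2 * Real.log (Real.cos (Real.pi * z.2) ^ 2)))) := fun z => by ring
  simp only [e]
  rw [muOm_eq_prod, integral_prod_mul (fun x => 2 * Real.sin (Real.pi * x) ^ 2)
    (fun y => 8 * (Real.sin (Real.pi * y) ^ 2 *
        (Real.cos (Real.pi * y) ^ 2 * Real.log (Real.cos (Real.pi * y) ^ 2)))), h2, h3, one_mul]

theorem inner_part (y : ℝ) :
    ∫ x, 8 * (Real.sin (Real.pi * x) ^ 2 * Real.sin (Real.pi * y) ^ 2 *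
        ((Real.cos (Real.pi * x) + Real.cos (Real.pi * y)) ^ 2 *
        Real.log ((Real.cos (Real.pi * x) + Real.cos (Real.pi * y)) ^ 2))) ∂m1 =
      16 * (1 - Real.cos (Real.pi * y) ^ 2) * (-Real.log 2 / 8 -
        Real.log 2 / 2 * Real.cos (Real.pi * y) ^ 2 + 1 / 32 + Real.cos (Real.pi * y) ^ 4 / 12 +
        Real.cos (Real.pi * y) ^ 2 / 2) := by
  rw [integral_m1]
  set c := Real.cos (Real.pi * y) with hc
  have e : ∀ x : ℝ, 8 * (Real.sin (Real.pi * x) ^ 2 * Real.sin (Real.pi * y) ^ 2 *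
        ((Real.cos (Real.pi * x) + c) ^ 2 * Real.log ((Real.cos (Real.pi * x) + c) ^ 2))) =
      16 * (1 - c ^ 2) * (
        (1 / 8 + c ^ 2 / 2) * (Real.cos ((0 : ℕ) * (Real.pi * x)) * Real.log (Real.cos (Real.pi * x) + c)) +
        c / 2 * (Real.cos ((1 : ℕ) * (Real.pi * x)) * Real.log (Real.cos (Real.pi * x) + c)) +
        -(c ^ 2 / 2) * (Real.cos ((2 : ℕ) * (Real.pi * x)) * Real.log (Real.cos (Real.pi * x) + c)) +
        -(c / 2) * (Real.cos ((3 : ℕ) * (Real.pi * x)) * Real.log (Real.cos (Real.pi * x) + c)) +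
        -(1 / 8) * (Real.cos ((4 : ℕ) * (Real.pi * x)) * Real.log (Real.cos (Real.pi * x) + c))) := by
    intro x
    have h2 : Real.cos ((2 : ℕ) * (Real.pi * x)) = 2 * Real.cos (Real.pi * x) ^ 2 - 1 := by
      rw [← Real.cos_two_mul]; push_cast; ring_nf
    have h3 : Real.cos ((3 : ℕ) * (Real.pi * x)) =
        4 * Real.cos (Real.pi * x) ^ 3 - 3 * Real.cos (Real.pi * x) := by
      rw [← Real.cos_three_mul]; push_cast; ring_nf
    have h4 : Real.cos ((4 : ℕ) * (Real.pi * x)) =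
        8 * Real.cos (Real.pi * x) ^ 4 - 8 * Real.cos (Real.pi * x) ^ 2 + 1 := by
      rw [show ((4 : ℕ) : ℝ) * (Real.pi * x) = 2 * (2 * (Real.pi * x)) by push_cast; ring,
          Real.cos_two_mul, Real.cos_two_mul]
      ring
    rw [h2, h3, h4, Real.log_pow, Real.sin_sq, Real.sin_sq, ← hc]
    simp only [Nat.cast_zero, zero_mul, Real.cos_zero, Nat.cast_one, one_mul]
    push_cast
    ring
  simp only [e]
  have i : ∀ m : ℕ, IntervalIntegrable (fun x => Real.cos (m * (Real.pi * x)) *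
      Real.log (Real.cos (Real.pi * x) + c)) volume 0 1 := fun m =>
    ii_gm (f := fun x => Real.cos (m * (Real.pi * x))) (by fun_prop) y 0 1
  rw [intervalIntegral.integral_const_mul,
    intervalIntegral.integral_add (((((i 0).const_mul _).add ((i 1).const_mul _)).add
      ((i 2).const_mul _)).add ((i 3).const_mul _)) ((i 4).const_mul _),
    intervalIntegral.integral_add ((((i 0).const_mul _).add ((i 1).const_mul _)).add
      ((i 2).const_mul _)) ((i 3).const_mul _),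
    intervalIntegral.integral_add (((i 0).const_mul _).add ((i 1).const_mul _)) ((i 2).const_mul _),
    intervalIntegral.integral_add ((i 0).const_mul _) ((i 1).const_mul _)]
  simp only [intervalIntegral.integral_const_mul]
  rw [hc, integral_gm, integral_gm, integral_gm, integral_gm, integral_gm, ← hc]
  have h2 : Real.cos ((2 : ℕ) * (Real.pi * y)) = 2 * c ^ 2 - 1 := by
    rw [hc, ← Real.cos_two_mul]; push_cast; ring_nf
  have h3 : Real.cos ((3 : ℕ) * (Real.pi * y)) = 4 * c ^ 3 - 3 * c := by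
    rw [hc, ← Real.cos_three_mul]; push_cast; ring_nf
  have h4 : Real.cos ((4 : ℕ) * (Real.pi * y)) = 8 * c ^ 4 - 8 * c ^ 2 + 1 := by
    rw [hc, show ((4 : ℕ) : ℝ) * (Real.pi * y) = 2 * (2 * (Real.pi * y)) by push_cast; ring,
        Real.cos_two_mul, Real.cos_two_mul]
    ring
  rw [h2, h3, h4]
  simp only [Nat.cast_zero, zero_mul, Real.cos_zero, Nat.cast_one, one_mul, Km, ← hc]
  norm_num
  left
  ring

theorem diag_part :
    ∫ z : ℝ × ℝ, 8 * (Real.sin (Real.pi * z.1) ^ 2 * Real.sin (Real.pi * z.2) ^ 2 *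
        ((Real.cos (Real.pi * z.1) + Real.cos (Real.pi * z.2)) ^ 2 *
        Real.log ((Real.cos (Real.pi * z.1) + Real.cos (Real.pi * z.2)) ^ 2))) ∂muOm =
      4 / 3 - 2 * Real.log 2 := by
  have h0 := cont_slog
  have hi := integrable_of_cont (f := fun z : ℝ × ℝ => 8 * (Real.sin (Real.pi * z.1) ^ 2 *
        Real.sin (Real.pi * z.2) ^ 2 *
        ((Real.cos (Real.pi * z.1) + Real.cos (Real.pi * z.2)) ^ 2 *
        Real.log ((Real.cos (Real.pi * z.1) + Real.cos (Real.pi * z.2)) ^ 2)))) (by fun_prop)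
  rw [muOm_eq_prod] at hi ⊢
  rw [integral_prod_symm _ hi]
  simp only [inner_part]
  have e : ∀ y : ℝ, 16 * (1 - Real.cos (Real.pi * y) ^ 2) * (-Real.log 2 / 8 -
        Real.log 2 / 2 * Real.cos (Real.pi * y) ^ 2 + 1 / 32 + Real.cos (Real.pi * y) ^ 4 / 12 +
        Real.cos (Real.pi * y) ^ 2 / 2) =
      (1 / 2 - 2 * Real.log 2) * (Real.cos (Real.pi * y) ^ 2) ^ 0 +
      (15 / 2 - 6 * Real.log 2) * (Real.cos (Real.pi * y) ^ 2) ^ 1 +
      (8 * Real.log 2 - 20 / 3) * (Real.cos (Real.pi * y) ^ 2) ^ 2 +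
      (-4 / 3) * (Real.cos (Real.pi * y) ^ 2) ^ 3 := fun y => by ring
  simp only [e]
  have i : ∀ n : ℕ, Integrable (fun y => (Real.cos (Real.pi * y) ^ 2) ^ n) m1 := fun n =>
    integrable_of_bdd1 (by fun_prop) (C := 1) fun x => by
      rw [abs_of_nonneg (by positivity)]
      exact pow_le_one₀ (sq_nonneg _) (Real.cos_sq_le_one _)
  have j : ∀ (n : ℕ) (c : ℝ), Integrable (fun y => c * (Real.cos (Real.pi * y) ^ 2) ^ n) m1 :=
    fun n c => (i n).const_mul c
  have j1 : Integrable (fun y => (1 / 2 - 2 * Real.log 2) * (Real.cos (Real.pi * y) ^ 2) ^ 0 +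
      (15 / 2 - 6 * Real.log 2) * (Real.cos (Real.pi * y) ^ 2) ^ 1) m1 := (j _ _).add (j _ _)
  have j2 : Integrable (fun y => (1 / 2 - 2 * Real.log 2) * (Real.cos (Real.pi * y) ^ 2) ^ 0 +
      (15 / 2 - 6 * Real.log 2) * (Real.cos (Real.pi * y) ^ 2) ^ 1 +
      (8 * Real.log 2 - 20 / 3) * (Real.cos (Real.pi * y) ^ 2) ^ 2) m1 := j1.add (j _ _)
  rw [integral_add j2 (j _ _), integral_add j1 (j _ _), integral_add (j _ _) (j _ _)]
  simp only [integral_const_mul, integral_mm', mm]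
  push_cast
  ring

/-- the difference of the entropies of the two eigenfunctions -/
theorem F1_diff : F1 rt rt - F1 1 0 = 5 / 12 - Real.log 2 / 2 := by
  have h0 := cont_slog
  have h1 := cont_c2log2
  have h2 := cont_Phi2
  have c1 := continuous_psi rt rt
  have c2 := continuous_psi 1 0
  have e1 : ∫ z, psi rt rt z ^ 2 * Real.log (psi rt rt z ^ 2) ∂muOm = Real.log 8 +
      ∫ z, 8 * (Phi2 z * (Real.cos (Real.pi * z.1) + Real.cos (Real.pi * z.2)) ^ 2) ∂muOm +
      (4 / 3 - 2 * Real.log 2) := by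
    simp only [diag_pt]
    rw [int_add (by fun_prop) (by fun_prop), int_add (by fun_prop) (by fun_prop), diag_part,
      integral_const_mul, integral_psi_sq rt_unit, mul_one]
  have e2 : ∫ z, psi 1 0 z ^ 2 * Real.log (psi 1 0 z ^ 2) ∂muOm = Real.log 16 +
      ∫ z, 16 * (Phi2 z * Real.cos (Real.pi * z.2) ^ 2) ∂muOm +
      (1 / 2 - 2 * Real.log 2) := by
    simp only [one_pt]
    rw [int_add (by fun_prop) (by fun_prop), int_add (by fun_prop) (by fun_prop), one_part,
      integral_const_mul, integral_psi_sq one_unit, mul_one]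
  rw [F1, F1, e1, e2, common_part]
  have l8 : Real.log 8 = 3 * Real.log 2 := by
    rw [show (8 : ℝ) = 2 ^ 3 by norm_num, Real.log_pow]; norm_num
  have l16 : Real.log 16 = 4 * Real.log 2 := by
    rw [show (16 : ℝ) = 2 ^ 4 by norm_num, Real.log_pow]; norm_num
  rw [l8, l16]
  ring

end Pool.Agent.Helper270_PL
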