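import Pool.Agent.Helper270_PL.Basic
import Pool.Agent.H370R3.SphereTools

/-!
# Bounds for the variational eigenvalues
-/

open MeasureTheory Set Filter Topology
open scoped ENNReal

namespace Pool.Agent.Helper270_PL

variable {p : ℝ≥0∞} [Fact (1 ≤ p)]

/-- the set whose infimum is `lam p k` -/
def Fam (p : ℝ≥0∞) [Fact (1 ≤ p)] (k : ℕ) : Set ℝ :=
  {r : ℝ | ∃ A : Set (Amb p), A.Nonempty ∧ IsCompact A ∧ (∀ w ∈ A, -w ∈ A) ∧
    A ⊆ sphere p ∧ (k : ℕ∞) ≤ genus A ∧ r = sSup (energy p '' A)}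

theorem lam_eq (k : ℕ) : lam p k = sInf (Fam p k) := rfl

theorem genus_le {A : Set (Amb p)} {m : ℕ} (hm : 1 ≤ m) (h : HasOddMap A m) : genus A ≤ m :=
  sInf_le ⟨m, hm, h, rfl⟩

theorem le_genus {A : Set (Amb p)} {k : ℕ} (h : ∀ m, 1 ≤ m → HasOddMap A m → k ≤ m) :
    (k : ℕ∞) ≤ genus A := by
  refine le_sInf ?_
  rintro b ⟨m, hm, hA, rfl⟩
  exact_mod_cast h m hm hA

theorem bddBelow_Fam (k : ℕ) : BddBelow (Fam p k) := by
  refine ⟨0, ?_⟩
  rintro r ⟨A, -, -, -, -, -, rfl⟩
  refine Real.sSup_nonneg ?_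
  rintro _ ⟨w, -, rfl⟩
  exact energy_nonneg w

/-- Lower bound for the third variational eigenvalue by two odd functionals. -/
theorem le_lam_three (hp : p ≠ ∞) {F : Amb p → Fin 2 → ℝ} (hF : ContinuousOn F (sphere p))
    (hodd : ∀ w, F (-w) = -F w) {c : ℝ} (h : ∀ w ∈ sphere p, F w = 0 → c ≤ energy p w)
    (hne : (Fam p 3).Nonempty) : c ≤ lam p 3 := by
  refine le_csInf hne ?_
  rintro r ⟨A, -, hAc, -, hAS, hg, rfl⟩
  by_contra hcon
  have h2 : HasOddMap A 2 := by
    refine ⟨F, hF.mono hAS, fun w _ => hodd w, fun w hw h0 => hcon ?_⟩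
    refine (h w (hAS hw) h0).trans ?_
    exact le_csSup (hAc.image (continuous_energy hp)).bddAbove ⟨w, hw, rfl⟩
  have h3 := hg.trans (genus_le (by norm_num) h2)
  have : (3 : ℕ) ≤ 2 := by exact_mod_cast h3
  omega

/-- the space of test functions -/
def testFun : Submodule ℝ (ℝ × ℝ → ℝ) where
  carrier := {φ | IsTest φ}
  add_mem' := fun h h' => h.add h'
  zero_mem' := isTest_zero
  smul_mem' := fun t _ h => h.smul t

/-- the linear map `φ ↦ (φ, ∂₁φ, ∂₂φ)` -/
noncomputable def tripleL (p : ℝ≥0∞) [Fact (1 ≤ p)] : testFun →ₗ[ℝ] Amb p where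
  toFun φ := toTriple p φ.2
  map_add' := by
    rintro ⟨φ, hφ⟩ ⟨ψ, hψ⟩
    have h1 : IsTest φ := hφ
    have h2 : IsTest ψ := hψ
    refine Prod.ext ?_ (Prod.ext ?_ ?_)
    · exact (h1.memLp.toLp_add h2.memLp)
    · refine Lp.ext ?_
      simp only [toTriple]
      refine (MemLp.coeFn_toLp _).trans ?_
      refine EventuallyEq.trans ?_ (Lp.coeFn_add _ _).symm
      refine EventuallyEq.trans ?_
        ((MemLp.coeFn_toLp h1.memLp_dX).add (MemLp.coeFn_toLp h2.memLp_dX)).symm
      have : dX (φ + ψ) = dX φ + dX ψ := dX_add h1.differentiable h2.differentiable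
      exact Filter.Eventually.of_forall fun z => congrFun this z
    · refine Lp.ext ?_
      simp only [toTriple]
      refine (MemLp.coeFn_toLp _).trans ?_
      refine EventuallyEq.trans ?_ (Lp.coeFn_add _ _).symm
      refine EventuallyEq.trans ?_
        ((MemLp.coeFn_toLp h1.memLp_dY).add (MemLp.coeFn_toLp h2.memLp_dY)).symm
      have : dY (φ + ψ) = dY φ + dY ψ := dY_add h1.differentiable h2.differentiable
      exact Filter.Eventually.of_forall fun z => congrFun this z
  map_smul' := by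
    rintro t ⟨φ, hφ⟩
    have h1 : IsTest φ := hφ
    refine Prod.ext ?_ (Prod.ext ?_ ?_)
    · exact (h1.memLp.toLp_const_smul t)
    · refine Lp.ext ?_
      simp only [toTriple]
      refine (MemLp.coeFn_toLp _).trans ?_
      refine EventuallyEq.trans ?_ (Lp.coeFn_smul _ _).symm
      refine EventuallyEq.trans ?_ ((MemLp.coeFn_toLp h1.memLp_dX).const_smul t).symm
      have : dX (t • φ) = t • dX φ := dX_smul h1.differentiable t
      exact Filter.Eventually.of_forall fun z => congrFun this z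
    · refine Lp.ext ?_
      simp only [toTriple]
      refine (MemLp.coeFn_toLp _).trans ?_
      refine EventuallyEq.trans ?_ (Lp.coeFn_smul _ _).symm
      refine EventuallyEq.trans ?_ ((MemLp.coeFn_toLp h1.memLp_dY).const_smul t).symm
      have : dY (t • φ) = t • dY φ := dY_smul h1.differentiable t
      exact Filter.Eventually.of_forall fun z => congrFun this z

theorem tripleL_apply {φ : ℝ × ℝ → ℝ} (h : IsTest φ) : tripleL p ⟨φ, h⟩ = toTriple p h := rfl

theorem tripleL_mem_W0 (φ : testFun) : tripleL p φ ∈ W0 p := toTriple_mem_W0 φ.2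

theorem W0_smul {w : Amb p} (hw : w ∈ W0 p) (t : ℝ) : t • w ∈ W0 p := by
  rw [W0_eq] at *
  exact Submodule.smul_mem _ t hw

/-- Upper bound for variational eigenvalues by linear families of test functions. -/
theorem lam_le_of_family (hp : p ≠ ∞) {n : ℕ} (φ : Fin (n + 1) → testFun) {e : ℝ}
    (hpos : ∀ t : Fin (n + 1) → ℝ, t ≠ 0 → 0 < mass p (tripleL p (∑ i, t i • φ i)))
    (hen : ∀ t : Fin (n + 1) → ℝ,
      energy p (tripleL p (∑ i, t i • φ i)) ≤ e * mass p (tripleL p (∑ i, t i • φ i))) :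
    lam p (n + 1) ≤ e ∧ (Fam p (n + 1)).Nonempty := by
  classical
  have hp0 := toReal_pos' hp
  set T : (Fin (n + 1) → ℝ) → Amb p := fun t => tripleL p (∑ i, t i • φ i) with hT
  have hTlin : ∀ t, T t = ∑ i, t i • tripleL p (φ i) := by
    intro t
    simp only [hT, map_sum, map_smul]
  have hTc : Continuous T := by
    have : T = fun t => ∑ i, t i • tripleL p (φ i) := funext hTlin
    rw [this]
    fun_prop
  have hTneg : ∀ t, T (-t) = -T t := by
    intro t
    rw [hTlin, hTlin]
    simp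
  -- the normalised map on the sphere
  set N : H370R3.SphereTools.Sph n → Amb p := fun x =>
    (mass p (T (x.1 : EuclideanSpace ℝ (Fin (n + 1)))) ^ (-(1 / p.toReal))) •
      T (x.1 : EuclideanSpace ℝ (Fin (n + 1))) with hN
  have hx0 : ∀ x : H370R3.SphereTools.Sph n,
      ((x.1 : EuclideanSpace ℝ (Fin (n + 1))) : Fin (n + 1) → ℝ) ≠ 0 := by
    intro x h
    have h1 : ‖x.1‖ = 1 := by
      have := x.2
      rwa [mem_sphere_zero_iff_norm] at this
    have h2 : x.1 = 0 := by
      ext i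
      exact congrFun h i
    rw [h2, norm_zero] at h1
    exact zero_ne_one h1
  have hmpos : ∀ x : H370R3.SphereTools.Sph n,
      0 < mass p (T (x.1 : EuclideanSpace ℝ (Fin (n + 1)))) := fun x => hpos _ (hx0 x)
  have hcoe : Continuous fun x : H370R3.SphereTools.Sph n =>
      T (x.1 : EuclideanSpace ℝ (Fin (n + 1))) := by
    refine hTc.comp ?_
    fun_prop
  have hNc : Continuous N := by
    have h1 : Continuous fun x : H370R3.SphereTools.Sph n =>
        mass p (T (x.1 : EuclideanSpace ℝ (Fin (n + 1)))) ^ (-(1 / p.toReal)) := by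
      refine Continuous.rpow_const ((continuous_mass hp).comp hcoe) ?_
      intro x
      exact Or.inl (hmpos x).ne'
    exact h1.smul hcoe
  have hNneg : ∀ x, N (-x) = -N x := by
    intro x
    simp only [hN]
    have h1 : ((-x : H370R3.SphereTools.Sph n).1 : EuclideanSpace ℝ (Fin (n + 1))) = -x.1 := rfl
    have h2 : T ((-x : H370R3.SphereTools.Sph n).1 : EuclideanSpace ℝ (Fin (n + 1))) =
        -T (x.1 : EuclideanSpace ℝ (Fin (n + 1))) := by
      rw [h1, ← hTneg]
      rfl
    rw [h2, mass_neg hp, smul_neg]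
  have hmassN : ∀ x, mass p (N x) = 1 := by
    intro x
    simp only [hN]
    rw [mass_smul hp, abs_of_nonneg (Real.rpow_nonneg (hmpos x).le _), ← Real.rpow_mul (hmpos x).le,
      show -(1 / p.toReal) * p.toReal = -1 by field_simp, Real.rpow_neg_one,
      inv_mul_cancel₀ (hmpos x).ne']
  have henN : ∀ x, energy p (N x) ≤ e := by
    intro x
    simp only [hN]
    rw [energy_smul hp, abs_of_nonneg (Real.rpow_nonneg (hmpos x).le _),
      ← Real.rpow_mul (hmpos x).le,
      show -(1 / p.toReal) * p.toReal = -1 by field_simp, Real.rpow_neg_one]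
    rw [inv_mul_le_iff₀ (hmpos x)]
    have := hen (x.1 : EuclideanSpace ℝ (Fin (n + 1)))
    linarith
  have hmem : sSup (energy p '' (range N)) ∈ Fam p (n + 1) := by
    have hcomp : CompactSpace (H370R3.SphereTools.Sph n) := by
      exact isCompact_iff_compactSpace.1 (isCompact_sphere _ _)
    have hne : Nonempty (H370R3.SphereTools.Sph n) := by
      obtain ⟨x, -⟩ := H370R3.SphereTools.borsuk_ulam (n := n) (m := 0) (Nat.zero_le _)
        (fun _ => 0) continuous_const (fun _ => by simp)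
      exact ⟨x⟩
    refine ⟨range N, range_nonempty _, isCompact_range hNc, ?_, ?_, ?_, rfl⟩
    · rintro _ ⟨x, rfl⟩
      exact ⟨-x, hNneg x⟩
    · rintro _ ⟨x, rfl⟩
      exact ⟨W0_smul (tripleL_mem_W0 _) _, hmassN x⟩
    · refine le_genus fun m hm ⟨f, hfc, hfodd, hf0⟩ => ?_
      by_contra hlt
      push Not at hlt
      obtain ⟨x, hx⟩ := H370R3.SphereTools.borsuk_ulam (n := n) (m := m) (by omega)
        (fun x => f (N x)) (hfc.comp_continuous hNc fun x => ⟨x, rfl⟩)
        (fun x => by rw [hNneg]; exact hfodd _ ⟨x, rfl⟩)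
      exact hf0 _ ⟨x, rfl⟩ hx
  refine ⟨(csInf_le (bddBelow_Fam _) hmem).trans ?_, ⟨_, hmem⟩⟩
  have hne : Nonempty (H370R3.SphereTools.Sph n) := by
    obtain ⟨x, -⟩ := H370R3.SphereTools.borsuk_ulam (n := n) (m := 0) (Nat.zero_le _)
      (fun _ => 0) continuous_const (fun _ => by simp)
    exact ⟨x⟩
  refine csSup_le ((range_nonempty N).image _) ?_
  rintro _ ⟨_, ⟨x, rfl⟩, rfl⟩
  exact henN x

end Pool.Agent.Helper270_PL
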