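import Mathlib

/-!
# Two inequalities for `(1+t) log (1+t) + (1-t) log (1-t)`
-/

open Filter Topology

namespace Pool.Agent.Helper270_PL

/-- `(1+t) log (1+t) + (1-t) log (1-t)` -/
noncomputable def kap (t : ℝ) : ℝ := (1 + t) * Real.log (1 + t) + (1 - t) * Real.log (1 - t)

theorem continuous_kap : Continuous kap := by
  have h1 : Continuous fun t : ℝ => (1 + t) * Real.log (1 + t) :=
    Real.continuous_mul_log.comp (by fun_prop : Continuous fun t : ℝ => 1 + t)
  have h2 : Continuous fun t : ℝ => (1 - t) * Real.log (1 - t) :=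
    Real.continuous_mul_log.comp (by fun_prop : Continuous fun t : ℝ => 1 - t)
  exact h1.add h2

theorem kap_one : kap 1 = 2 * Real.log 2 := by
  rw [kap]; norm_num

theorem kap_neg (t : ℝ) : kap (-t) = kap t := by
  rw [kap, kap, sub_neg_eq_add, ← sub_eq_add_neg]; ring

theorem hasSum_kap {t : ℝ} (h : |t| < 1) :
    HasSum (fun k : ℕ => (t ^ 2) ^ (k + 1) / ((k + 1) * (2 * k + 1))) (kap t) := by
  have ht := abs_lt.1 h
  have h1 : 0 < 1 + t := by linarith [ht.1]
  have h2 : 0 < 1 - t := by linarith [ht.2]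
  have hw : |t ^ 2| < 1 := by
    rw [abs_of_nonneg (sq_nonneg t), ← sq_abs]
    nlinarith [abs_nonneg t]
  have s1 := (Real.hasSum_pow_div_log_of_abs_lt_one hw).neg
  have s2 := (Real.hasSum_log_sub_log_of_abs_lt_one h).mul_left t
  have s3 := s1.add s2
  have e : -(-Real.log (1 - t ^ 2)) + t * (Real.log (1 + t) - Real.log (1 - t)) = kap t := by
    rw [kap, show 1 - t ^ 2 = (1 + t) * (1 - t) by ring, Real.log_mul h1.ne' h2.ne']
    ring
  rw [e] at s3
  refine s3.congr_fun fun k => ?_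
  have e1 : (t ^ 2) ^ (k + 1) = t * t ^ (2 * k + 1) := by
    rw [← pow_mul, ← pow_succ']
    congr 1
  have k1 : ((k : ℝ) + 1) ≠ 0 := by positivity
  have k2 : (2 * (k : ℝ) + 1) ≠ 0 := by positivity
  have e2 : t * (2 * (1 / (2 * (k : ℝ) + 1)) * t ^ (2 * k + 1)) =
      (2 / (2 * (k : ℝ) + 1)) * (t ^ 2) ^ (k + 1) := by rw [e1]; ring
  rw [e2]
  field_simp
  ring

theorem kap_ge {t : ℝ} (h : |t| ≤ 1) : t ^ 2 ≤ kap t := by
  have key : ∀ t : ℝ, |t| < 1 → t ^ 2 ≤ kap t := by
    intro t ht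
    have := le_hasSum (hasSum_kap ht) 0 fun k _ => by positivity
    simpa using this
  rcases h.lt_or_eq with h | h
  · exact key t h
  · have h2 : t ^ 2 = 1 := by rw [← sq_abs, h, one_pow]
    have h3 : kap t = 2 * Real.log 2 := by
      rcases (abs_eq zero_le_one).1 h with h4 | h4
      · rw [h4, kap_one]
      · rw [h4, kap_neg, kap_one]
    rw [h2, h3]
    linarith [Real.log_two_gt_d9]

theorem sum_kap_le (K : ℕ) :
    ∑ k ∈ Finset.range K, (1 : ℝ) / ((k + 1) * (2 * k + 1)) ≤ 2 * Real.log 2 := by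
  have h1 : Tendsto (fun t : ℝ => ∑ k ∈ Finset.range K, (t ^ 2) ^ (k + 1) / (((k : ℝ) + 1) * (2 * k + 1)))
      (𝓝[<] 1) (𝓝 (∑ k ∈ Finset.range K, ((1 : ℝ) ^ 2) ^ (k + 1) / (((k : ℝ) + 1) * (2 * k + 1)))) := by
    have hc : Continuous fun t : ℝ => ∑ k ∈ Finset.range K, (t ^ 2) ^ (k + 1) / (((k : ℝ) + 1) * (2 * k + 1)) := by
      refine continuous_finsetSum _ fun k _ => ?_
      exact Continuous.div_const (by fun_prop) _
    exact (hc.tendsto 1).mono_left nhdsWithin_le_nhds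
  have h2 : Tendsto kap (𝓝[<] 1) (𝓝 (kap 1)) := (continuous_kap.tendsto 1).mono_left nhdsWithin_le_nhds
  have h3 := le_of_tendsto_of_tendsto h1 h2 (by
    have : ∀ᶠ t : ℝ in 𝓝[<] 1, 0 < t := by
      refine Filter.Eventually.filter_mono nhdsWithin_le_nhds ?_
      exact lt_mem_nhds (by norm_num)
    filter_upwards [this, self_mem_nhdsWithin] with t ht0 ht1
    have ht1' : t < 1 := ht1
    exact sum_le_hasSum _ (fun k _ => by positivity) (hasSum_kap (by rw [abs_of_pos ht0]; exact ht1')))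
  rw [kap_one] at h3
  simpa using h3

theorem kap_le {t : ℝ} (h : |t| ≤ 1) : kap t ≤ 2 * Real.log 2 * t ^ 2 := by
  rcases h.lt_or_eq with h | h
  · refine le_of_tendsto' (hasSum_kap h).tendsto_sum_nat fun K => ?_
    have hw : t ^ 2 ≤ 1 := by
      rw [← sq_abs]; nlinarith [abs_nonneg t]
    calc ∑ k ∈ Finset.range K, (t ^ 2) ^ (k + 1) / (((k : ℝ) + 1) * (2 * k + 1))
        ≤ ∑ k ∈ Finset.range K, t ^ 2 * (1 / (((k : ℝ) + 1) * (2 * k + 1))) := by
          refine Finset.sum_le_sum fun k _ => ?_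
          rw [pow_succ', mul_one_div]
          have : (t ^ 2) ^ k ≤ 1 := pow_le_one₀ (sq_nonneg _) hw
          have h5 : 0 ≤ t ^ 2 := sq_nonneg _
          gcongr
          nlinarith
      _ = t ^ 2 * ∑ k ∈ Finset.range K, 1 / (((k : ℝ) + 1) * (2 * k + 1)) := by
          rw [Finset.mul_sum]
      _ ≤ t ^ 2 * (2 * Real.log 2) := mul_le_mul_of_nonneg_left (sum_kap_le K) (sq_nonneg _)
      _ = 2 * Real.log 2 * t ^ 2 := by ring
  · have h2 : t ^ 2 = 1 := by rw [← sq_abs, h, one_pow]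
    have h3 : kap t = 2 * Real.log 2 := by
      rcases (abs_eq zero_le_one).1 h with h4 | h4
      · rw [h4, kap_one]
      · rw [h4, kap_neg, kap_one]
    rw [h2, h3, mul_one]

/-- `x log x` -/
noncomputable def eta (x : ℝ) : ℝ := x * Real.log x

theorem eta_pair {A C : ℝ} (hA : 0 < A) (hC : |C| ≤ A) :
    eta (A + C) + eta (A - C) = 2 * A * Real.log A + A * kap (C / A) := by
  have hC' := abs_le.1 hC
  have e1 : ∀ x : ℝ, eta (A * x) = A * x * Real.log A + A * (x * Real.log x) := by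
    intro x
    rcases eq_or_ne x 0 with h | h
    · simp [eta, h]
    · rw [eta, Real.log_mul hA.ne' h]; ring
  have e2 : A + C = A * (1 + C / A) := by field_simp
  have e3 : A - C = A * (1 - C / A) := by field_simp
  rw [e2, e3, e1, e1, kap]
  ring

/-- The key pointwise comparison. -/
theorem eta_compare {A B C D h k : ℝ} (hA : 0 ≤ A) (hsq : B ^ 2 + C ^ 2 + D ^ 2 = A ^ 2) :
    eta (A + C) + eta (A - C) - eta (A + B) - eta (A - B) ≤
      2 * Real.log 2 * A - (2 * Real.log 2 + 1) * (2 * h * B - h ^ 2 * A) -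
        2 * Real.log 2 * (2 * k * D - k ^ 2 * A) := by
  have hL : 0 < Real.log 2 := Real.log_pos (by norm_num)
  rcases hA.eq_or_lt with h0 | h0
  · have hB : B = 0 := by nlinarith [sq_nonneg B, sq_nonneg C, sq_nonneg D]
    have hC : C = 0 := by nlinarith [sq_nonneg B, sq_nonneg C, sq_nonneg D]
    have hD : D = 0 := by nlinarith [sq_nonneg B, sq_nonneg C, sq_nonneg D]
    rw [← h0, hB, hC, hD]
    simp
  · have hB : |B| ≤ A := abs_le_of_sq_le_sq (by nlinarith [sq_nonneg C, sq_nonneg D]) hA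
    have hC : |C| ≤ A := abs_le_of_sq_le_sq (by nlinarith [sq_nonneg B, sq_nonneg D]) hA
    have e1 := eta_pair h0 hC
    have e2 := eta_pair h0 hB
    have hCA : |C / A| ≤ 1 := by rw [abs_div, abs_of_pos h0, div_le_one h0]; exact hC
    have hBA : |B / A| ≤ 1 := by rw [abs_div, abs_of_pos h0, div_le_one h0]; exact hB
    have k1 := mul_le_mul_of_nonneg_left (kap_le hCA) hA
    have k2 := mul_le_mul_of_nonneg_left (kap_ge hBA) hA
    have k3 : A * (2 * Real.log 2 * (C / A) ^ 2) =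
        2 * Real.log 2 * (A - B ^ 2 / A - D ^ 2 / A) := by
      have : C ^ 2 = A ^ 2 - B ^ 2 - D ^ 2 := by linarith
      rw [div_pow, this]
      field_simp
    have k4 : A * (B / A) ^ 2 = B ^ 2 / A := by field_simp
    have k5 : 2 * h * B - h ^ 2 * A ≤ B ^ 2 / A := by
      rw [le_div_iff₀ h0]; nlinarith [sq_nonneg (h * A - B)]
    have k6 : 2 * k * D - k ^ 2 * A ≤ D ^ 2 / A := by
      rw [le_div_iff₀ h0]; nlinarith [sq_nonneg (k * A - D)]
    rw [k3] at k1
    rw [k4] at k2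
    have k7 := mul_le_mul_of_nonneg_left k5 (by positivity : 0 ≤ 2 * Real.log 2 + 1)
    have k8 := mul_le_mul_of_nonneg_left k6 (by positivity : 0 ≤ 2 * Real.log 2)
    linarith

end Pool.Agent.Helper270_PL
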