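import Pool.Agent.Helper270_PL.Entropy

/-!
# A Ladyzhenskaya type inequality on the square
-/

open MeasureTheory Set Filter Topology
open scoped ENNReal

namespace Pool.Agent.Helper270_PL

/-- `f(x)² - f(y)² ≤ ∫₀¹ 2|f f'|` -/
theorem sq_sub_sq_le {f f' : ℝ → ℝ} (hf : ∀ x, HasDerivAt f (f' x) x) (hc : Continuous f')
    {x y : ℝ} (hx : x ∈ Icc (0 : ℝ) 1) (hy : y ∈ Icc (0 : ℝ) 1) :
    f x ^ 2 - f y ^ 2 ≤ ∫ t in (0 : ℝ)..1, 2 * |f t * f' t| := by
  have cf : Continuous f := continuous_iff_continuousAt.2 fun x => (hf x).continuousAt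
  have h1 : ∫ t in y..x, 2 * (f t * f' t) = f x ^ 2 - f y ^ 2 := by
    refine intervalIntegral.integral_eq_sub_of_hasDerivAt (f := fun t => f t ^ 2) (fun t _ => ?_)
      (Continuous.intervalIntegrable (by fun_prop) _ _)
    have := (hf t).pow 2
    refine HasDerivAt.congr_deriv this ?_
    push_cast
    ring
  rw [← h1]
  have h2 : ∫ t in y..x, 2 * (f t * f' t) ≤ abs (∫ t in y..x, 2 * |f t * f' t|) := by
    refine (le_abs_self _).trans ?_
    have := intervalIntegral.norm_integral_le_abs_integral_norm (a := y) (b := x) (μ := volume)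
      (f := fun t => 2 * (f t * f' t))
    simp only [Real.norm_eq_abs, abs_mul, abs_two] at this
    simpa only [abs_mul] using this
  refine h2.trans ?_
  have h3 : ∀ a b : ℝ, a ∈ Icc (0 : ℝ) 1 → b ∈ Icc (0 : ℝ) 1 → a ≤ b →
      abs (∫ t in a..b, 2 * |f t * f' t|) ≤ ∫ t in (0 : ℝ)..1, 2 * |f t * f' t| := by
    intro a b ha hb hab
    rw [abs_of_nonneg (intervalIntegral.integral_nonneg hab fun t _ => by positivity)]
    refine intervalIntegral.integral_mono_interval ha.1 hab hb.2 ?_ ?_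
    · exact Eventually.of_forall fun t => by positivity
    · exact Continuous.intervalIntegrable (by fun_prop) _ _
  rcases le_total y x with h | h
  · exact h3 y x hy hx h
  · rw [intervalIntegral.integral_symm, abs_neg]
    exact h3 x y hx hy h

theorem sq_le_of_zero {f f' : ℝ → ℝ} (hf : ∀ x, HasDerivAt f (f' x) x) (hc : Continuous f')
    (h0 : f 0 = 0) {x : ℝ} (hx : x ∈ Icc (0 : ℝ) 1) :
    f x ^ 2 ≤ ∫ t in (0 : ℝ)..1, 2 * |f t * f' t| := by
  have := sq_sub_sq_le hf hc hx (left_mem_Icc.2 zero_le_one)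
  rw [h0] at this
  simpa using this

theorem sq_le_average {f f' : ℝ → ℝ} (hf : ∀ x, HasDerivAt f (f' x) x) (hc : Continuous f')
    {x : ℝ} (hx : x ∈ Icc (0 : ℝ) 1) :
    f x ^ 2 ≤ ∫ t in (0 : ℝ)..1, (f t ^ 2 + 2 * |f t * f' t|) := by
  have cf : Continuous f := continuous_iff_continuousAt.2 fun x => (hf x).continuousAt
  have h1 : ∀ y ∈ Icc (0 : ℝ) 1, f x ^ 2 ≤ f y ^ 2 + ∫ t in (0 : ℝ)..1, 2 * |f t * f' t| := by
    intro y hy
    linarith [sq_sub_sq_le hf hc hx hy]
  have h2 := intervalIntegral.integral_mono_on (a := 0) (b := 1) (μ := volume) zero_le_one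
    (f := fun _ => f x ^ 2) (g := fun y => f y ^ 2 + ∫ t in (0 : ℝ)..1, 2 * |f t * f' t|)
    (by simp) (Continuous.intervalIntegrable (by fun_prop) _ _) h1
  rw [intervalIntegral.integral_const, sub_zero, one_smul,
    intervalIntegral.integral_add (Continuous.intervalIntegrable (by fun_prop) _ _) (by simp),
    intervalIntegral.integral_const, sub_zero, one_smul] at h2
  rwa [intervalIntegral.integral_add (Continuous.intervalIntegrable (by fun_prop) _ _)
    (Continuous.intervalIntegrable (by fun_prop) _ _)]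

theorem int_abs_mul_le {f g : ℝ × ℝ → ℝ} (hf : Continuous f) (hg : Continuous g) :
    ∫ z, 2 * |f z * g z| ∂muOm ≤ ∫ z, f z ^ 2 ∂muOm + ∫ z, g z ^ 2 ∂muOm := by
  rw [← int_add (by fun_prop) (by fun_prop)]
  refine int_mono (by fun_prop) (by fun_prop) fun z => ?_
  rw [abs_mul, ← sq_abs (f z), ← sq_abs (g z)]
  nlinarith [sq_nonneg (|f z| - |g z|)]

/-- the two dimensional inequality -/
theorem L4_bound {F FX FY : ℝ × ℝ → ℝ} (cF : Continuous F) (cX : Continuous FX) (cY : Continuous FY)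
    (hX : ∀ x y, HasDerivAt (fun x => F (x, y)) (FX (x, y)) x)
    (hY : ∀ x y, HasDerivAt (fun y => F (x, y)) (FY (x, y)) y) (h0 : ∀ x, F (x, 0) = 0)
    (b1 : ∫ z, F z ^ 2 ∂muOm ≤ 1) (b2 : ∫ z, FX z ^ 2 ∂muOm ≤ 1) (b3 : ∫ z, FY z ^ 2 ∂muOm ≤ 1) :
    ∫ z, F z ^ 4 ∂muOm ≤ 6 := by
  set A : ℝ → ℝ := fun y => ∫ x in (0 : ℝ)..1, (F (x, y) ^ 2 + 2 * |F (x, y) * FX (x, y)|) with hA
  set B : ℝ → ℝ := fun x => ∫ y in (0 : ℝ)..1, 2 * |F (x, y) * FY (x, y)| with hB
  have cA : Continuous A := by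
    refine intervalIntegral.continuous_parametric_intervalIntegral_of_continuous' ?_ 0 1
    fun_prop
  have cB : Continuous B := by
    refine intervalIntegral.continuous_parametric_intervalIntegral_of_continuous' ?_ 0 1
    fun_prop
  have A0 : ∀ y, 0 ≤ A y := fun y =>
    intervalIntegral.integral_nonneg zero_le_one fun x _ => by positivity
  have B0 : ∀ x, 0 ≤ B x := fun x =>
    intervalIntegral.integral_nonneg zero_le_one fun y _ => by positivity
  have h1 : ∫ z, F z ^ 4 ∂muOm ≤ ∫ z : ℝ × ℝ, B z.1 * A z.2 ∂muOm := by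
    refine integral_mono_ae (integrable_of_cont (by fun_prop)) (integrable_of_cont (by fun_prop)) ?_
    rw [muOm]
    filter_upwards [ae_restrict_mem measurableSet_Om] with z hz
    have hz1 : z.1 ∈ Icc (0 : ℝ) 1 := Ioo_subset_Icc_self hz.1
    have hz2 : z.2 ∈ Icc (0 : ℝ) 1 := Ioo_subset_Icc_self hz.2
    have k1 : F z ^ 2 ≤ A z.2 := by
      exact sq_le_average (f := fun x => F (x, z.2)) (f' := fun x => FX (x, z.2))
        (fun x => hX x z.2) (by fun_prop) hz1
    have k2 : F z ^ 2 ≤ B z.1 := by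
      exact sq_le_of_zero (f := fun y => F (z.1, y)) (f' := fun y => FY (z.1, y))
        (fun y => hY z.1 y) (by fun_prop) (h0 z.1) hz2
    calc F z ^ 4 = F z ^ 2 * F z ^ 2 := by ring
      _ ≤ B z.1 * A z.2 := mul_le_mul k2 k1 (sq_nonneg _) (B0 _)
  refine h1.trans ?_
  rw [muOm_eq_prod, integral_prod_mul B A]
  have hA' : ∫ y, A y ∂m1 = ∫ z, (F z ^ 2 + 2 * |F z * FX z|) ∂muOm := by
    have hi := integrable_of_cont (f := fun z => F z ^ 2 + 2 * |F z * FX z|) (by fun_prop)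
    rw [muOm_eq_prod] at hi ⊢
    rw [integral_prod_symm _ hi]
    refine integral_congr_ae (Eventually.of_forall fun y => ?_)
    simp only [hA, integral_m1]
  have hB' : ∫ x, B x ∂m1 = ∫ z, 2 * |F z * FY z| ∂muOm := by
    have hi := integrable_of_cont (f := fun z => 2 * |F z * FY z|) (by fun_prop)
    rw [muOm_eq_prod] at hi ⊢
    rw [integral_prod _ hi]
    refine integral_congr_ae (Eventually.of_forall fun x => ?_)
    simp only [hB, integral_m1]
  have g1 : ∫ y, A y ∂m1 ≤ 3 := by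
    rw [hA', int_add (by fun_prop) (by fun_prop)]
    have := int_abs_mul_le cF cX
    linarith
  have g2 : ∫ x, B x ∂m1 ≤ 2 := by
    rw [hB']
    have := int_abs_mul_le cF cY
    linarith
  have g3 : 0 ≤ ∫ y, A y ∂m1 := integral_nonneg A0
  calc (∫ x, B x ∂m1) * ∫ y, A y ∂m1 ≤ 2 * 3 := mul_le_mul g2 g1 g3 (by norm_num)
    _ = 6 := by norm_num

/-- the same with the roles of the variables exchanged -/
theorem L4_bound' {F FX FY : ℝ × ℝ → ℝ} (cF : Continuous F) (cX : Continuous FX) (cY : Continuous FY)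
    (hX : ∀ x y, HasDerivAt (fun x => F (x, y)) (FX (x, y)) x)
    (hY : ∀ x y, HasDerivAt (fun y => F (x, y)) (FY (x, y)) y) (h0 : ∀ y, F (0, y) = 0)
    (b1 : ∫ z, F z ^ 2 ∂muOm ≤ 1) (b2 : ∫ z, FX z ^ 2 ∂muOm ≤ 1) (b3 : ∫ z, FY z ^ 2 ∂muOm ≤ 1) :
    ∫ z, F z ^ 4 ∂muOm ≤ 6 := by
  have sw : ∀ f : ℝ × ℝ → ℝ, ∫ z, f (z.2, z.1) ∂muOm = ∫ z, f z ∂muOm := by
    intro f
    rw [muOm_eq_prod]
    exact (Measure.measurePreserving_swap (μ := m1) (ν := m1)).integral_comp
      MeasurableEquiv.prodComm.measurableEmbedding f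
  have h := L4_bound (F := fun z => F (z.2, z.1)) (FX := fun z => FY (z.2, z.1))
    (FY := fun z => FX (z.2, z.1)) (by fun_prop) (by fun_prop) (by fun_prop)
    (fun x y => hY y x) (fun x y => hX y x) (fun x => h0 x)
    (by rw [sw fun z => F z ^ 2]; exact b1) (by rw [sw fun z => FY z ^ 2]; exact b3)
    (by rw [sw fun z => FX z ^ 2]; exact b2)
  rw [sw fun z => F z ^ 4] at h
  exact h

end Pool.Agent.Helper270_PL
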