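import Pool.Agent.Helper270_PL.LargeUpper

/-!
# `λ₂ < λ₃` when `p ≥ 400`
-/

open MeasureTheory Set Filter Topology
open scoped ENNReal

namespace Pool.Agent.Helper270_PL

variable {p : ℝ≥0∞} [Fact (1 ≤ p)]

theorem lam_two_lt_lam_three_of_large (hp : p ≠ ∞) (hq : 400 ≤ p.toReal) : lam p 2 < lam p 3 := by
  set q := p.toReal with hqd
  have hq0 : 0 < q := by linarith
  have h2q : 2 / q ≤ 1 / 200 := by
    rw [div_le_div_iff₀ hq0 (by norm_num)]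
    linarith
  have hup := lam_two_le_cone (p := p) hp (ρ := 117 / 400) (a := 1 / 1250) (c := 2927 / 10000)
    (by norm_num) (by norm_num) (by norm_num) (by norm_num) (by norm_num)
  have hlo := lam_three_ge (p := p) hp (by linarith : 2 < p.toReal) (δ := 1 / 1250) (by norm_num)
  refine hup.trans_lt (lt_of_lt_of_le ?_ hlo)
  rw [← hqd]
  set δ : ℝ := 1 / 1250 with hδ
  have hδ0 : 0 < δ := by norm_num
  have hden : 199 / 200 ≤ 1 - 2 / q := by linarith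
  have hden0 : 0 < 1 - 2 / q := by linarith
  have hK : 0 < (17 / 64 + 2 * δ) * δ ^ (-(2 / q)) / (1 - 2 / q) := by positivity
  rw [Real.rpow_neg hK.le]
  have hB : (0 : ℝ) < (1 / 1250) ^ 2 * (117 / 400 - 13 / 4 * (1 / 1250)) ^ q := by
    have : (0 : ℝ) < 117 / 400 - 13 / 4 * (1 / 1250) := by norm_num
    positivity
  refine inv_strictAnti₀ (Real.rpow_pos_of_pos hK _) ?_
  -- compute the power
  have h1 : ((17 / 64 + 2 * δ) * δ ^ (-(2 / q)) / (1 - 2 / q)) ^ q =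
      ((17 / 64 + 2 * δ) / (1 - 2 / q)) ^ q * δ ^ (-2 : ℝ) := by
    rw [mul_div_right_comm, Real.mul_rpow (by positivity) (by positivity), ← Real.rpow_mul hδ0.le]
    congr 2
    field_simp
  rw [h1]
  have hA : (17 / 64 + 2 * δ) / (1 - 2 / q) ≤ 9265 / 10000 * (117 / 400 - 13 / 4 * (1 / 1250)) := by
    rw [div_le_iff₀ hden0]
    calc (17 : ℝ) / 64 + 2 * δ ≤ 9265 / 10000 * (117 / 400 - 13 / 4 * (1 / 1250)) * (199 / 200) := by
          rw [hδ]; norm_num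
      _ ≤ _ := by
          refine mul_le_mul_of_nonneg_left hden ?_
          norm_num
  have h2 : ((17 / 64 + 2 * δ) / (1 - 2 / q)) ^ q ≤
      (9265 / 10000 : ℝ) ^ q * (117 / 400 - 13 / 4 * (1 / 1250) : ℝ) ^ q := by
    rw [← Real.mul_rpow (by norm_num) (by norm_num)]
    exact Real.rpow_le_rpow (by positivity) hA hq0.le
  have h3 : (9265 / 10000 : ℝ) ^ q ≤ (9265 / 10000 : ℝ) ^ (400 : ℕ) := by
    rw [← Real.rpow_natCast]
    exact Real.rpow_le_rpow_of_exponent_ge (by norm_num) (by norm_num) (by exact_mod_cast hq)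
  have h4 : (9265 / 10000 : ℝ) ^ (400 : ℕ) < δ ^ 2 * δ ^ 2 := by
    have e1 : (9265 / 10000 : ℝ) ^ (20 : ℕ) ≤ 2180 / 10000 := by norm_num
    calc (9265 / 10000 : ℝ) ^ (400 : ℕ) = ((9265 / 10000 : ℝ) ^ (20 : ℕ)) ^ (20 : ℕ) := by
          rw [← pow_mul]
      _ ≤ (2180 / 10000 : ℝ) ^ (20 : ℕ) := pow_le_pow_left₀ (by positivity) e1 20
      _ < δ ^ 2 * δ ^ 2 := by rw [hδ]; norm_num
  have h5 : δ ^ (-2 : ℝ) = (δ ^ 2)⁻¹ := by
    rw [Real.rpow_neg hδ0.le]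
    norm_num
  rw [h5]
  have hBq : (0 : ℝ) < (117 / 400 - 13 / 4 * (1 / 1250) : ℝ) ^ q :=
    Real.rpow_pos_of_pos (by norm_num) _
  have hδ2 : (0 : ℝ) < δ ^ 2 := by positivity
  rw [mul_inv_lt_iff₀ hδ2]
  calc ((17 / 64 + 2 * δ) / (1 - 2 / q)) ^ q
      ≤ (9265 / 10000 : ℝ) ^ q * (117 / 400 - 13 / 4 * (1 / 1250) : ℝ) ^ q := h2
    _ < (δ ^ 2 * δ ^ 2) * (117 / 400 - 13 / 4 * (1 / 1250) : ℝ) ^ q :=
        mul_lt_mul_of_pos_right (h3.trans_lt h4) hBq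
    _ = (1 / 1250) ^ 2 * (117 / 400 - 13 / 4 * (1 / 1250) : ℝ) ^ q * δ ^ 2 := by
        rw [hδ]; ring

end Pool.Agent.Helper270_PL
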