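import Pool.Agent.Helper270_PL.LargeLower

/-!
# Upper bound for the second eigenvalue when `p` is large
-/

open MeasureTheory Set Filter Topology
open scoped ENNReal

namespace Pool.Agent.Helper270_PL

variable {p : ℝ≥0∞} [Fact (1 ≤ p)]

/-- a smooth cone of radius `ρ` around `(c, c)` -/
noncomputable def cone (ρ a c : ℝ) (z : ℝ × ℝ) : ℝ :=
  ρ - Real.sqrt ((z.1 - c) ^ 2 + (z.2 - c) ^ 2 + a ^ 2)

theorem contDiff_cone {ρ a c : ℝ} (ha : 0 < a) :
    ContDiff ℝ ((⊤ : ℕ∞) : WithTop ℕ∞) (cone ρ a c) := by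
  unfold cone
  refine contDiff_const.sub (ContDiff.sqrt (by fun_prop) fun z => ?_)
  positivity

theorem hasFDerivAt_cone {ρ a c : ℝ} (ha : 0 < a) (z : ℝ × ℝ) :
    HasFDerivAt (cone ρ a c)
      (-((1 / (2 * Real.sqrt ((z.1 - c) ^ 2 + (z.2 - c) ^ 2 + a ^ 2))) •
        ((2 * (z.1 - c)) • ContinuousLinearMap.fst ℝ ℝ ℝ +
          (2 * (z.2 - c)) • ContinuousLinearMap.snd ℝ ℝ ℝ))) z := by
  have h1 : HasFDerivAt (fun z : ℝ × ℝ => (z.1 - c) ^ 2 + (z.2 - c) ^ 2 + a ^ 2)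
      ((2 * (z.1 - c)) • ContinuousLinearMap.fst ℝ ℝ ℝ +
          (2 * (z.2 - c)) • ContinuousLinearMap.snd ℝ ℝ ℝ) z := by
    have hf : HasFDerivAt (fun z : ℝ × ℝ => z.1 - c) (ContinuousLinearMap.fst ℝ ℝ ℝ) z :=
      hasFDerivAt_fst.sub_const c
    have hs : HasFDerivAt (fun z : ℝ × ℝ => z.2 - c) (ContinuousLinearMap.snd ℝ ℝ ℝ) z :=
      hasFDerivAt_snd.sub_const c
    have := ((hf.pow 2).add (hs.pow 2)).add_const (a ^ 2)
    refine this.congr_fderiv ?_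
    ext <;> simp
  have h2 : (z.1 - c) ^ 2 + (z.2 - c) ^ 2 + a ^ 2 ≠ 0 := by positivity
  exact (h1.sqrt h2).const_sub ρ

theorem dX_cone {ρ a c : ℝ} (ha : 0 < a) (z : ℝ × ℝ) :
    dX (cone ρ a c) z = -((z.1 - c) / Real.sqrt ((z.1 - c) ^ 2 + (z.2 - c) ^ 2 + a ^ 2)) := by
  rw [dX, (hasFDerivAt_cone ha z).fderiv]
  simp
  field_simp

theorem dY_cone {ρ a c : ℝ} (ha : 0 < a) (z : ℝ × ℝ) :
    dY (cone ρ a c) z = -((z.2 - c) / Real.sqrt ((z.1 - c) ^ 2 + (z.2 - c) ^ 2 + a ^ 2)) := by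
  rw [dY, (hasFDerivAt_cone ha z).fderiv]
  simp
  field_simp

theorem grad_cone_le {ρ a c : ℝ} (ha : 0 < a) (z : ℝ × ℝ) :
    dX (cone ρ a c) z ^ 2 + dY (cone ρ a c) z ^ 2 ≤ 1 := by
  rw [dX_cone ha, dY_cone ha, neg_sq, neg_sq, div_pow, div_pow, Real.sq_sqrt (by positivity),
    ← add_div, div_le_one (by positivity)]
  nlinarith

theorem cone_neg {ρ a c : ℝ} (ha : 0 < a) (hc : ρ ≤ c) (hc' : c + ρ ≤ 1) {z : ℝ × ℝ}
    (hz : z ∉ Om) : cone ρ a c z < a := by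
  by_contra hcon
  push Not at hcon
  apply hz
  unfold cone at hcon
  have h1 : Real.sqrt ((z.1 - c) ^ 2 + (z.2 - c) ^ 2 + a ^ 2) ≤ ρ - a := by linarith
  have h0 : 0 ≤ ρ - a := (Real.sqrt_nonneg _).trans h1
  rw [Real.sqrt_le_left h0] at h1
  have h2 : (z.1 - c) ^ 2 ≤ (ρ - a) ^ 2 := by nlinarith [sq_nonneg (z.2 - c)]
  have h3 : (z.2 - c) ^ 2 ≤ (ρ - a) ^ 2 := by nlinarith [sq_nonneg (z.1 - c)]
  have h4 := abs_le_of_sq_le_sq' h2 h0
  have h5 := abs_le_of_sq_le_sq' h3 h0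
  rw [Om, mem_prod]
  exact ⟨⟨by linarith [h4.1], by linarith [h4.2]⟩, ⟨by linarith [h5.1], by linarith [h5.2]⟩⟩

theorem isTest_cone {ρ a c : ℝ} (ha : 0 < a) (hc : ρ ≤ c) (hc' : c + ρ ≤ 1) :
    IsTest (cut a (cone ρ a c)) :=
  isTest_cut ha (contDiff_cone ha) fun _ _ h => cone_neg ha hc hc' h

theorem energy_cone_le {ρ a c q : ℝ} (ha : 0 < a) (hq : 0 < q) (hc : ρ ≤ c) (hc' : c + ρ ≤ 1) :
    ∫ z, (dX (cut a (cone ρ a c)) z ^ 2 + dY (cut a (cone ρ a c)) z ^ 2) ^ (q / 2) ∂muOm ≤ 1 := by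
  have hT := isTest_cone ha hc hc'
  calc ∫ z, (dX (cut a (cone ρ a c)) z ^ 2 + dY (cut a (cone ρ a c)) z ^ 2) ^ (q / 2) ∂muOm
      ≤ ∫ z, (1 : ℝ) ∂muOm := by
        refine integral_mono_ae (hT.integrable_grad_rpow (by positivity)) (integrable_const _) ?_
        filter_upwards [ae_muOm_mem] with z hz
        refine Real.rpow_le_one (by positivity) ?_ (by positivity)
        have hd := (contDiff_cone (ρ := ρ) (c := c) ha).differentiable (by simp)
        rw [dX_cut_of_mem hd hz, dY_cut_of_mem hd hz, mul_pow, mul_pow, ← mul_add]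
        have h1 := Real.smoothTransition.nonneg (cone ρ a c z / a - 1)
        have h2 := Real.smoothTransition.le_one (cone ρ a c z / a - 1)
        have h3 := grad_cone_le (ρ := ρ) (c := c) ha z
        have h4 : Real.smoothTransition (cone ρ a c z / a - 1) ^ 2 ≤ 1 := by nlinarith
        calc _ ≤ (1 : ℝ) * 1 := mul_le_mul h4 h3 (by positivity) zero_le_one
          _ = 1 := one_mul 1
    _ = 1 := by simp

theorem mass_cone_ge {ρ a c q : ℝ} (ha : 0 < a) (hq : 0 < q) (hc : ρ ≤ c) (hc' : c + ρ ≤ 1)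
    (hρ : 13 / 4 * a < ρ) :
    a ^ 2 * (ρ - 13 / 4 * a) ^ q ≤ ∫ z, |cut a (cone ρ a c) z| ^ q ∂muOm := by
  have hT := isTest_cone ha hc hc'
  set S : Set (ℝ × ℝ) := Icc (c - a / 2) (c + a / 2) ×ˢ Icc (c - a / 2) (c + a / 2) with hS
  have hSm : MeasurableSet S := measurableSet_Icc.prod measurableSet_Icc
  have hSO : S ⊆ Om := by
    rintro z ⟨h1, h2⟩
    rw [mem_Icc] at h1 h2
    rw [Om, mem_prod]
    exact ⟨⟨by linarith [h1.1], by linarith [h1.2]⟩, ⟨by linarith [h2.1], by linarith [h2.2]⟩⟩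
  have hvol : muOm.real S = a ^ 2 := by
    rw [Measure.real, muOm, Measure.restrict_apply hSm, inter_eq_left.2 hSO, hS,
      Measure.volume_eq_prod, Measure.prod_prod, Real.volume_Icc,
      ← ENNReal.ofReal_mul (by linarith), ENNReal.toReal_ofReal (by nlinarith)]
    ring
  have hlow : ∀ z ∈ S, (ρ - 13 / 4 * a) ^ q ≤ |cut a (cone ρ a c) z| ^ q := by
    rintro z hz
    have hzO := hSO hz
    obtain ⟨h1, h2⟩ := hz
    rw [mem_Icc] at h1 h2
    refine Real.rpow_le_rpow (by linarith) ?_ hq.le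
    rw [cut_of_mem hzO]
    refine le_trans ?_ (le_abs_self _)
    refine le_trans ?_ (le_PP ha _)
    have h3 : Real.sqrt ((z.1 - c) ^ 2 + (z.2 - c) ^ 2 + a ^ 2) ≤ 5 / 4 * a := by
      rw [Real.sqrt_le_left (by positivity)]
      have h4 : (z.1 - c) ^ 2 ≤ (a / 2) ^ 2 := by
        apply sq_le_sq' <;> linarith [h1.1, h1.2]
      have h5 : (z.2 - c) ^ 2 ≤ (a / 2) ^ 2 := by
        apply sq_le_sq' <;> linarith [h2.1, h2.2]
      nlinarith
    unfold cone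
    linarith
  calc a ^ 2 * (ρ - 13 / 4 * a) ^ q = ∫ z in S, (ρ - 13 / 4 * a) ^ q ∂muOm := by
        rw [setIntegral_const, hvol, smul_eq_mul]
    _ ≤ ∫ z in S, |cut a (cone ρ a c) z| ^ q ∂muOm :=
        setIntegral_mono_on (integrable_const _) (hT.integrable_rpow hq).integrableOn hSm hlow
    _ ≤ ∫ z, |cut a (cone ρ a c) z| ^ q ∂muOm :=
        setIntegral_le_integral (hT.integrable_rpow hq)
          (Eventually.of_forall fun z => Real.rpow_nonneg (abs_nonneg _) _)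

/-- Upper bound for `λ₂` by two cones. -/
theorem lam_two_le_cone (hp : p ≠ ∞) {ρ a c : ℝ} (ha : 0 < a) (hc : ρ ≤ c)
    (hc2 : 2 * ρ ^ 2 ≤ (1 - 2 * c) ^ 2) (hc12 : c ≤ 1 / 2) (hρ : 13 / 4 * a < ρ) :
    lam p 2 ≤ (a ^ 2 * (ρ - 13 / 4 * a) ^ p.toReal)⁻¹ := by
  have hq0 := toReal_pos' hp
  have hρ0 : 0 < ρ := by linarith
  have hc1 : c + ρ ≤ 1 := by linarith
  have hT1 := isTest_cone ha hc hc1
  have hT2 : IsTest (cut a (cone ρ a (1 - c))) := isTest_cone ha (by linarith) (by linarith)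
  set φ : Fin 2 → testFun := ![⟨_, hT1⟩, ⟨_, hT2⟩] with hφ
  have hpos : 0 < a ^ 2 * (ρ - 13 / 4 * a) ^ p.toReal := by
    have : 0 < ρ - 13 / 4 * a := by linarith
    positivity
  have hm1 := mass_cone_ge (c := c) ha hq0 hc hc1 hρ
  have hm2 := mass_cone_ge (c := 1 - c) ha hq0 (by linarith) (by linarith) hρ
  have he1 := energy_cone_le (c := c) ha hq0 hc hc1
  have he2 := energy_cone_le (c := 1 - c) ha hq0 (by linarith : ρ ≤ 1 - c) (by linarith)
  have hdis : Disjoint (tsupport (cut a (cone ρ a c))) (tsupport (cut a (cone ρ a (1 - c)))) := by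
    rw [Set.disjoint_left]
    intro z hz1 hz2
    have h1 := (tsupport_cut ha (contDiff_cone ha).continuous hz1).2
    have h2 := (tsupport_cut ha (contDiff_cone ha).continuous hz2).2
    simp only [mem_ofPred_eq, cone] at h1 h2
    have h3 : Real.sqrt ((z.1 - c) ^ 2 + (z.2 - c) ^ 2 + a ^ 2) ≤ ρ := by linarith
    have h4 : Real.sqrt ((z.1 - (1 - c)) ^ 2 + (z.2 - (1 - c)) ^ 2 + a ^ 2) ≤ ρ := by linarith
    rw [Real.sqrt_le_left hρ0.le] at h3 h4
    nlinarith [sq_nonneg (z.1 - c + (z.1 - (1 - c))), sq_nonneg (z.2 - c + (z.2 - (1 - c))),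
      sq_pos_of_pos ha]
  refine (lam_le_of_disjoint hp (n := 1) φ ?_ ?_ ?_).1
  · intro i j hij
    fin_cases i <;> fin_cases j
    · exact absurd rfl hij
    · exact hdis
    · exact hdis.symm
    · exact absurd rfl hij
  · intro i
    fin_cases i
    · exact hpos.trans_le hm1
    · exact hpos.trans_le hm2
  · intro i
    fin_cases i
    · refine he1.trans ?_
      rw [inv_mul_eq_div, one_le_div hpos]
      exact hm1
    · refine he2.trans ?_
      rw [inv_mul_eq_div, one_le_div hpos]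
      exact hm2

end Pool.Agent.Helper270_PL
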