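import Mathlib

/-!
# Some logarithmic trigonometric integrals
-/

open MeasureTheory Set Filter Topology

namespace Pool.Agent.Helper270_PL

/-- `log |cos π t|` -/
noncomputable def lc (t : ℝ) : ℝ := Real.log (Real.cos (Real.pi * t))

theorem lc_neg (t : ℝ) : lc (-t) = lc t := by
  rw [lc, lc, mul_neg, Real.cos_neg]

theorem lc_add_one (t : ℝ) : lc (t + 1) = lc t := by
  rw [lc, lc, mul_add, mul_one, Real.cos_add_pi, Real.log_neg_eq_log]

theorem lc_one_sub (t : ℝ) : lc (1 - t) = lc t := by
  rw [← lc_neg t, ← lc_add_one (-t)]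
  congr 1
  ring

theorem ii_lc (a b : ℝ) : IntervalIntegrable lc volume a b := by
  have h := (intervalIntegrable_log_cos (a := Real.pi * a) (b := Real.pi * b)).comp_mul_left
    (c := Real.pi)
  have e : (fun x => (Real.log ∘ Real.cos) (Real.pi * x)) = lc := rfl
  rw [e] at h
  have hpi := Real.pi_ne_zero
  simpa [mul_div_cancel_left₀ _ hpi] using h

theorem ii_mul_lc {f : ℝ → ℝ} (hf : Continuous f) (a b : ℝ) :
    IntervalIntegrable (fun t => f t * lc t) volume a b :=
  (ii_lc a b).continuousOn_mul hf.continuousOn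

theorem integral_lc_half : ∫ t in (0 : ℝ)..(1 / 2), lc t = -Real.log 2 / 2 := by
  have h1 : ∫ t in (0 : ℝ)..(1 / 2), lc t =
      Real.pi⁻¹ • ∫ x in (Real.pi * 0)..(Real.pi * (1 / 2)), Real.log (Real.cos x) :=
    intervalIntegral.integral_comp_mul_left (fun x => Real.log (Real.cos x)) Real.pi_ne_zero
  have h2 : ∫ x in (0 : ℝ)..(Real.pi / 2), Real.log (Real.cos x) =
      ∫ x in (0 : ℝ)..(Real.pi / 2), Real.log (Real.sin x) := by
    have := intervalIntegral.integral_comp_sub_left (a := 0) (b := Real.pi / 2)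
      (fun x => Real.log (Real.sin x)) (Real.pi / 2)
    simp only [Real.sin_pi_div_two_sub, sub_self, sub_zero] at this
    exact this
  rw [h1, mul_zero, show Real.pi * (1 / 2) = Real.pi / 2 by ring, h2,
    integral_log_sin_zero_pi_div_two, smul_eq_mul]
  have := Real.pi_ne_zero
  field_simp

/-- the quotient `sin (2mθ) / cos θ` -/
noncomputable def qt : ℕ → ℝ → ℝ
  | 0, _ => 0
  | m + 1, θ => 2 * Real.sin ((2 * m + 1) * θ) - qt m θ

theorem continuous_qt (m : ℕ) : Continuous (qt m) := by
  induction m with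
  | zero => exact continuous_const
  | succ m ih =>
    have : qt (m + 1) = fun θ => 2 * Real.sin ((2 * m + 1) * θ) - qt m θ := rfl
    rw [this]
    fun_prop

theorem sin_eq_qt (m : ℕ) (θ : ℝ) : Real.sin (2 * m * θ) = Real.cos θ * qt m θ := by
  induction m with
  | zero => simp [qt]
  | succ m ih =>
    have e : qt (m + 1) θ = 2 * Real.sin ((2 * m + 1) * θ) - qt m θ := rfl
    rw [e, mul_sub, ← ih]
    push_cast
    have h1 : Real.sin (2 * (m + 1) * θ) = Real.sin ((2 * m + 1) * θ + θ) := by ring_nf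
    have h2 : Real.sin (2 * m * θ) = Real.sin ((2 * m + 1) * θ - θ) := by ring_nf
    rw [h1, h2, Real.sin_add, Real.sin_sub]
    ring

theorem integral_cos_two_mul (m : ℕ) (hm : m ≠ 0) :
    ∫ t in (0 : ℝ)..(1 / 2), Real.cos (2 * m * (Real.pi * t)) = 0 := by
  have hne : 2 * (m : ℝ) * Real.pi ≠ 0 := by positivity
  have e : ∀ t : ℝ, Real.cos (2 * m * (Real.pi * t)) = Real.cos ((2 * m * Real.pi) * t) := by
    intro t; ring_nf
  simp only [e]
  rw [intervalIntegral.integral_comp_mul_left (fun x => Real.cos x) hne, integral_cos]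
  have : (2 * (m : ℝ) * Real.pi) * (1 / 2) = m * Real.pi := by ring
  rw [this, Real.sin_nat_mul_pi]
  simp

theorem integral_qt_sin (m : ℕ) :
    ∫ t in (0 : ℝ)..(1 / 2), qt (m + 1) (Real.pi * t) * Real.sin (Real.pi * t) = (-1) ^ m / 2 := by
  induction m with
  | zero =>
    have e : ∀ t : ℝ, qt (0 + 1) (Real.pi * t) * Real.sin (Real.pi * t) =
        1 - Real.cos (2 * (1 : ℕ) * (Real.pi * t)) := by
      intro t
      have e : qt (0 + 1) (Real.pi * t) = 2 * Real.sin ((2 * (0 : ℕ) + 1) * (Real.pi * t)) -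
        qt 0 (Real.pi * t) := rfl
      have e0 : qt 0 (Real.pi * t) = 0 := rfl
      rw [e, e0]
      push_cast
      have := Real.cos_two_mul (Real.pi * t)
      have h2 := Real.sin_sq_add_cos_sq (Real.pi * t)
      simp only [mul_zero, zero_add, one_mul, sub_zero, mul_one]
      nlinarith
    simp only [e]
    rw [intervalIntegral.integral_sub (by simp) (Continuous.intervalIntegrable (by fun_prop) _ _),
      integral_cos_two_mul 1 one_ne_zero]
    simp
  | succ m ih =>
    have e : ∀ t : ℝ, qt (m + 1 + 1) (Real.pi * t) * Real.sin (Real.pi * t) =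
        (Real.cos (2 * (m + 1 : ℕ) * (Real.pi * t)) - Real.cos (2 * (m + 2 : ℕ) * (Real.pi * t))) -
        qt (m + 1) (Real.pi * t) * Real.sin (Real.pi * t) := by
      intro t
      have e : qt (m + 1 + 1) (Real.pi * t) = 2 * Real.sin ((2 * (m + 1 : ℕ) + 1) * (Real.pi * t)) -
        qt (m + 1) (Real.pi * t) := rfl
      rw [e]
      push_cast
      have h1 : Real.cos (2 * ((m : ℝ) + 1) * (Real.pi * t)) =
        Real.cos ((2 * ((m : ℝ) + 1) + 1) * (Real.pi * t) - Real.pi * t) := by ring_nf
      have h2 : Real.cos (2 * ((m : ℝ) + 2) * (Real.pi * t)) =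
        Real.cos ((2 * ((m : ℝ) + 1) + 1) * (Real.pi * t) + Real.pi * t) := by ring_nf
      rw [h1, h2, Real.cos_sub, Real.cos_add]
      ring
    have c1 := continuous_qt (m + 1)
    simp only [e]
    rw [intervalIntegral.integral_sub (Continuous.intervalIntegrable (by fun_prop) _ _)
        (Continuous.intervalIntegrable (by fun_prop) _ _),
      intervalIntegral.integral_sub (Continuous.intervalIntegrable (by fun_prop) _ _)
        (Continuous.intervalIntegrable (by fun_prop) _ _), ih,
      integral_cos_two_mul _ (by omega), integral_cos_two_mul _ (by omega)]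
    rw [pow_succ]; ring

theorem integral_cos_lc_half (m : ℕ) :
    ∫ t in (0 : ℝ)..(1 / 2), Real.cos (2 * (m + 1 : ℕ) * (Real.pi * t)) * lc t =
      (-1) ^ m / (4 * (m + 1)) := by
  set M : ℕ := m + 1 with hM
  have hM0 : (M : ℝ) ≠ 0 := by positivity
  have c1 := continuous_qt M
  set F : ℝ → ℝ := fun t => Real.sin (2 * M * (Real.pi * t)) * lc t with hF
  have hFc : Continuous F := by
    have e : F = fun t => qt M (Real.pi * t) *
        (Real.cos (Real.pi * t) * Real.log (Real.cos (Real.pi * t))) := by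
      funext t
      rw [hF]
      simp only [lc]
      rw [sin_eq_qt]
      ring
    rw [e]
    refine (c1.comp (by fun_prop)).mul ?_
    exact Real.continuous_mul_log.comp (by fun_prop : Continuous fun t : ℝ => Real.cos (Real.pi * t))
  have hd : ∀ t ∈ Ioo (0 : ℝ) (1 / 2), HasDerivAt F
      ((2 * M * Real.pi) * (Real.cos (2 * M * (Real.pi * t)) * lc t) -
        Real.pi * (qt M (Real.pi * t) * Real.sin (Real.pi * t))) t := by
    intro t ht
    have hpi := Real.pi_pos
    have hcos : 0 < Real.cos (Real.pi * t) := by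
      refine Real.cos_pos_of_mem_Ioo ⟨?_, ?_⟩
      · have := mul_pos hpi ht.1
        linarith
      · have := mul_lt_mul_of_pos_left ht.2 hpi
        linarith
    have h1 : HasDerivAt (fun t : ℝ => Real.pi * t) Real.pi t := by
      simpa using (hasDerivAt_id t).const_mul Real.pi
    have h2 := (h1.cos).log hcos.ne'
    have h3 := ((h1.const_mul (2 * (M : ℝ))).sin).mul h2
    refine HasDerivAt.congr_deriv h3 ?_
    rw [sin_eq_qt]
    simp only [lc]
    field_simp
    ring
  have hint : IntervalIntegrable (fun t => (2 * M * Real.pi) * (Real.cos (2 * M * (Real.pi * t)) * lc t) -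
        Real.pi * (qt M (Real.pi * t) * Real.sin (Real.pi * t))) volume 0 (1 / 2) := by
    refine IntervalIntegrable.sub ?_ (Continuous.intervalIntegrable (by fun_prop) _ _)
    exact (ii_mul_lc (f := fun t => Real.cos (2 * M * (Real.pi * t))) (by fun_prop) _ _).const_mul _
  have h := intervalIntegral.integral_eq_sub_of_hasDerivAt_of_le (by norm_num) hFc.continuousOn hd hint
  have e0 : F 0 = 0 := by simp [hF]
  have e1 : F (1 / 2) = 0 := by
    simp only [hF]
    have : 2 * (M : ℝ) * (Real.pi * (1 / 2)) = M * Real.pi := by ring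
    rw [this, Real.sin_nat_mul_pi, zero_mul]
  rw [e0, e1, sub_zero, intervalIntegral.integral_sub
    ((ii_mul_lc (f := fun t => Real.cos (2 * M * (Real.pi * t))) (by fun_prop) _ _).const_mul _)
    (Continuous.intervalIntegrable (by fun_prop) _ _), intervalIntegral.integral_const_mul,
    intervalIntegral.integral_const_mul, hM, integral_qt_sin] at h
  have hpi := Real.pi_pos
  have h' : (2 * ((m + 1 : ℕ) : ℝ)) *
      ∫ t in (0 : ℝ)..(1 / 2), Real.cos (2 * (m + 1 : ℕ) * (Real.pi * t)) * lc t = (-1) ^ m / 2 := by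
    have : Real.pi * ((2 * ((m + 1 : ℕ) : ℝ)) *
      ∫ t in (0 : ℝ)..(1 / 2), Real.cos (2 * (m + 1 : ℕ) * (Real.pi * t)) * lc t) =
      Real.pi * ((-1) ^ m / 2) := by linarith
    exact mul_left_cancel₀ hpi.ne' this
  rw [hM]
  have h3 : (2 * ((m + 1 : ℕ) : ℝ)) ≠ 0 := by positivity
  rw [← mul_right_inj' h3, h']
  push_cast
  have : (m : ℝ) + 1 ≠ 0 := by positivity
  field_simp
  ring

/-- folding of `[0,1]` -/
theorem integral_fold {f : ℝ → ℝ} (hf : IntervalIntegrable f volume 0 1)
    (hs : ∀ t, f (1 - t) = f t) : ∫ t in (0 : ℝ)..1, f t = 2 * ∫ t in (0 : ℝ)..(1 / 2), f t := by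
  have i1 : IntervalIntegrable f volume 0 (1 / 2) :=
    hf.mono_set (by rw [uIcc_of_le, uIcc_of_le] <;> [exact Icc_subset_Icc le_rfl (by norm_num); norm_num; norm_num])
  have i2 : IntervalIntegrable f volume (1 / 2) 1 :=
    hf.mono_set (by rw [uIcc_of_le, uIcc_of_le] <;> [exact Icc_subset_Icc (by norm_num) le_rfl; norm_num; norm_num])
  rw [← intervalIntegral.integral_add_adjacent_intervals i1 i2]
  have h := intervalIntegral.integral_comp_sub_left (a := 0) (b := 1 / 2) f 1
  simp only [hs] at h
  rw [show (1 : ℝ) - 1 / 2 = 1 / 2 by norm_num, sub_zero] at h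
  rw [← h]
  ring

/-- the values `∫₀¹ cos (2πmt) log |cos πt| dt` -/
theorem integral_lc : ∫ t in (0 : ℝ)..1, lc t = -Real.log 2 := by
  rw [integral_fold (ii_lc _ _) lc_one_sub, integral_lc_half]
  ring

theorem cos_refl (m : ℕ) (t : ℝ) :
    Real.cos (2 * m * (Real.pi * (1 - t))) = Real.cos (2 * m * (Real.pi * t)) := by
  have : 2 * (m : ℝ) * (Real.pi * (1 - t)) = m * (2 * Real.pi) - 2 * m * (Real.pi * t) := by ring
  rw [this, Real.cos_nat_mul_two_pi_sub]

theorem sin_refl (m : ℕ) (t : ℝ) :
    Real.sin (2 * m * (Real.pi * (1 - t))) = -Real.sin (2 * m * (Real.pi * t)) := by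
  have : 2 * (m : ℝ) * (Real.pi * (1 - t)) = m * (2 * Real.pi) - 2 * m * (Real.pi * t) := by ring
  rw [this, Real.sin_nat_mul_two_pi_sub]

theorem integral_cos_lc (m : ℕ) :
    ∫ t in (0 : ℝ)..1, Real.cos (2 * (m + 1 : ℕ) * (Real.pi * t)) * lc t =
      (-1) ^ m / (2 * (m + 1)) := by
  rw [integral_fold (ii_mul_lc (f := fun t => Real.cos (2 * (m + 1 : ℕ) * (Real.pi * t)))
    (by fun_prop) _ _) (fun t => by rw [cos_refl, lc_one_sub]), integral_cos_lc_half]
  have : (m : ℝ) + 1 ≠ 0 := by positivity
  field_simp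
  ring

theorem integral_sin_lc (m : ℕ) :
    ∫ t in (0 : ℝ)..1, Real.sin (2 * m * (Real.pi * t)) * lc t = 0 := by
  have h := intervalIntegral.integral_comp_sub_left (a := 0) (b := 1)
    (fun t => Real.sin (2 * m * (Real.pi * t)) * lc t) 1
  simp only [sin_refl, lc_one_sub, sub_self, sub_zero, neg_mul] at h
  rw [intervalIntegral.integral_neg] at h
  linarith

/-- the constants `K_m` -/
noncomputable def Km : ℕ → ℝ
  | 0 => -Real.log 2
  | m + 1 => (-1) ^ m / (2 * (m + 1))

theorem integral_Km (m : ℕ) :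
    ∫ t in (0 : ℝ)..1, Real.cos (2 * m * (Real.pi * t)) * lc t = Km m := by
  cases m with
  | zero => simpa [Km] using integral_lc
  | succ m => rw [integral_cos_lc]; rfl

/-! ### The potential of the sum -/

theorem ae_ne (c : ℝ) : ∀ᵐ x : ℝ ∂volume, Real.cos (Real.pi * ((x + c) / 2)) ≠ 0 := by
  rw [ae_iff]
  have : {x : ℝ | ¬Real.cos (Real.pi * ((x + c) / 2)) ≠ 0} ⊆
      range fun k : ℤ => (2 * (k : ℝ) + 1) - c := by
    intro x hx
    simp only [mem_ofPred_eq, not_not] at hx
    obtain ⟨k, hk⟩ := Real.cos_eq_zero_iff.1 hx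
    refine ⟨k, ?_⟩
    have hpi := Real.pi_pos
    have h2 : Real.pi * (x + c) = Real.pi * (2 * k + 1) := by linarith
    have h3 := mul_left_cancel₀ hpi.ne' h2
    simp only
    linarith
  exact measure_mono_null this ((countable_range _).measure_zero _)

theorem log_cos_add (y : ℝ) : ∀ᵐ x : ℝ ∂volume,
    Real.log (Real.cos (Real.pi * x) + Real.cos (Real.pi * y)) =
      Real.log 2 + lc ((x + y) / 2) + lc ((y - x) / 2) := by
  filter_upwards [ae_ne y, ae_ne (-y)] with x h1 h2
  have h3 : Real.cos (Real.pi * ((y - x) / 2)) ≠ 0 := by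
    have : Real.pi * ((y - x) / 2) = -(Real.pi * ((x + -y) / 2)) := by ring
    rw [this, Real.cos_neg]
    exact h2
  have e : Real.cos (Real.pi * x) + Real.cos (Real.pi * y) =
      2 * Real.cos (Real.pi * ((x + y) / 2)) * Real.cos (Real.pi * ((y - x) / 2)) := by
    have e1 : Real.pi * x = Real.pi * ((x + y) / 2) - Real.pi * ((y - x) / 2) := by ring
    have e2 : Real.pi * y = Real.pi * ((x + y) / 2) + Real.pi * ((y - x) / 2) := by ring
    conv_lhs => rw [e1, e2, Real.cos_sub, Real.cos_add]
    ring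
  rw [e, Real.log_mul (by positivity) h3, Real.log_mul (by norm_num) h1, lc, lc]

theorem ii_lc1 (y a b : ℝ) : IntervalIntegrable (fun x => lc ((x + y) / 2)) volume a b := by
  have h := (ii_lc ((1 / 2) * a + y / 2) ((1 / 2) * b + y / 2)).comp_add_right (y / 2)
  have h' := h.comp_mul_left (c := 1 / 2)
  have e : (fun x => lc (1 / 2 * x + y / 2)) = fun x => lc ((x + y) / 2) := by
    funext x; congr 1; ring
  rw [e] at h'
  convert h' using 1 <;> ring

theorem ii_lc2 (y a b : ℝ) : IntervalIntegrable (fun x => lc ((y - x) / 2)) volume a b := by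
  have h := ii_lc1 (-y) a b
  have e : (fun x => lc ((y - x) / 2)) = fun x => lc ((x + -y) / 2) := by
    funext x
    rw [← lc_neg]
    congr 1
    ring
  rw [e]
  exact h

theorem ii_gm {f : ℝ → ℝ} (hf : Continuous f) (y : ℝ) (a b : ℝ) :
    IntervalIntegrable (fun x => f x * Real.log (Real.cos (Real.pi * x) + Real.cos (Real.pi * y)))
      volume a b := by
  refine IntervalIntegrable.continuousOn_mul ?_ hf.continuousOn
  have h : IntervalIntegrable (fun x => Real.log 2 + lc ((x + y) / 2) + lc ((y - x) / 2)) volume a b :=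
    ((intervalIntegrable_const).add (ii_lc1 y a b)).add (ii_lc2 y a b)
  refine h.congr_ae ?_
  filter_upwards [ae_restrict_of_ae (log_cos_add y)] with x hx
  exact hx.symm

theorem integral_gm (m : ℕ) (y : ℝ) :
    ∫ x in (0 : ℝ)..1, Real.cos (m * (Real.pi * x)) *
      Real.log (Real.cos (Real.pi * x) + Real.cos (Real.pi * y)) =
      (if m = 0 then Real.log 2 else 0) + 2 * Real.cos (m * (Real.pi * y)) * Km m := by
  set f1 : ℝ → ℝ := fun t => Real.cos (m * (Real.pi * (2 * t - y))) * lc t with hf1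
  have hper : Function.Periodic f1 1 := by
    intro t
    simp only [hf1, lc_add_one]
    congr 1
    have : (m : ℝ) * (Real.pi * (2 * (t + 1) - y)) = m * (Real.pi * (2 * t - y)) + m * (2 * Real.pi) := by
      ring
    rw [this, Real.cos_add_nat_mul_two_pi]
  have hf1i : ∀ a b, IntervalIntegrable f1 volume a b := fun a b =>
    ii_mul_lc (f := fun t => Real.cos (m * (Real.pi * (2 * t - y)))) (by fun_prop) a b
  have hA : ∫ x in (0 : ℝ)..1, Real.cos (m * (Real.pi * x)) * lc ((x + y) / 2) =
      2 * ∫ t in (y / 2)..((1 + y) / 2), f1 t := by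
    have h := intervalIntegral.integral_comp_mul_add (a := 0) (b := 1) f1
      (by norm_num : (1 / 2 : ℝ) ≠ 0) (y / 2)
    have e : ∀ x : ℝ, f1 (1 / 2 * x + y / 2) = Real.cos (m * (Real.pi * x)) * lc ((x + y) / 2) := by
      intro x
      simp only [hf1]
      congr 2
      · ring
      · ring
    simp only [e] at h
    rw [h, smul_eq_mul]
    norm_num
    congr 1 <;> ring
  have hB : ∫ x in (0 : ℝ)..1, Real.cos (m * (Real.pi * x)) * lc ((y - x) / 2) =
      2 * ∫ t in ((y - 1) / 2)..(y / 2), f1 t := by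
    have h := intervalIntegral.integral_comp_mul_add (a := 0) (b := 1) f1
      (by norm_num : (-1 / 2 : ℝ) ≠ 0) (y / 2)
    have e : ∀ x : ℝ, f1 (-1 / 2 * x + y / 2) = Real.cos (m * (Real.pi * x)) * lc ((y - x) / 2) := by
      intro x
      simp only [hf1]
      have e1 : (m : ℝ) * (Real.pi * (2 * (-1 / 2 * x + y / 2) - y)) = -(m * (Real.pi * x)) := by ring
      have e2 : -1 / 2 * x + y / 2 = (y - x) / 2 := by ring
      rw [e1, e2, Real.cos_neg]
    simp only [e] at h
    rw [h, smul_eq_mul, intervalIntegral.integral_symm]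
    norm_num
    congr 1 <;> ring
  have hsum : ∫ t in ((y - 1) / 2)..((1 + y) / 2), f1 t = Real.cos (m * (Real.pi * y)) * Km m := by
    have h1 := hper.intervalIntegral_add_eq ((y - 1) / 2) 0
    rw [zero_add, show (y - 1) / 2 + 1 = (1 + y) / 2 by ring] at h1
    rw [h1]
    have e : ∀ t, f1 t = Real.cos (m * (Real.pi * y)) * (Real.cos (2 * m * (Real.pi * t)) * lc t) +
        Real.sin (m * (Real.pi * y)) * (Real.sin (2 * m * (Real.pi * t)) * lc t) := by
      intro t
      simp only [hf1]
      have : (m : ℝ) * (Real.pi * (2 * t - y)) = 2 * m * (Real.pi * t) - m * (Real.pi * y) := by ring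
      rw [this, Real.cos_sub]
      ring
    simp only [e]
    rw [intervalIntegral.integral_add
      ((ii_mul_lc (f := fun t => Real.cos (2 * m * (Real.pi * t))) (by fun_prop) _ _).const_mul _)
      ((ii_mul_lc (f := fun t => Real.sin (2 * m * (Real.pi * t))) (by fun_prop) _ _).const_mul _),
      intervalIntegral.integral_const_mul, intervalIntegral.integral_const_mul, integral_Km,
      integral_sin_lc]
    ring
  have hC : ∫ x in (0 : ℝ)..1, Real.cos (m * (Real.pi * x)) * Real.log 2 =
      if m = 0 then Real.log 2 else 0 := by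
    rw [intervalIntegral.integral_mul_const]
    split_ifs with h0
    · subst h0; simp
    · have hne : (m : ℝ) * Real.pi ≠ 0 := by positivity
      have e : ∀ t : ℝ, Real.cos (m * (Real.pi * t)) = Real.cos ((m * Real.pi) * t) := by
        intro t; ring_nf
      simp only [e]
      rw [intervalIntegral.integral_comp_mul_left (fun x => Real.cos x) hne, integral_cos]
      simp [Real.sin_nat_mul_pi]
  have e : ∫ x in (0 : ℝ)..1, Real.cos (m * (Real.pi * x)) *
      Real.log (Real.cos (Real.pi * x) + Real.cos (Real.pi * y)) =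
      ∫ x in (0 : ℝ)..1, (Real.cos (m * (Real.pi * x)) * Real.log 2 +
        Real.cos (m * (Real.pi * x)) * lc ((x + y) / 2) +
        Real.cos (m * (Real.pi * x)) * lc ((y - x) / 2)) := by
    refine intervalIntegral.integral_congr_ae ?_
    filter_upwards [log_cos_add y] with x hx _
    rw [hx]; ring
  have iA : IntervalIntegrable (fun x => Real.cos (m * (Real.pi * x)) * lc ((x + y) / 2)) volume 0 1 :=
    (ii_lc1 y 0 1).continuousOn_mul (Continuous.continuousOn (by fun_prop))
  have iB : IntervalIntegrable (fun x => Real.cos (m * (Real.pi * x)) * lc ((y - x) / 2)) volume 0 1 :=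
    (ii_lc2 y 0 1).continuousOn_mul (Continuous.continuousOn (by fun_prop))
  have iC : IntervalIntegrable (fun x => Real.cos (m * (Real.pi * x)) * Real.log 2) volume 0 1 :=
    Continuous.intervalIntegrable (by fun_prop) _ _
  rw [e, intervalIntegral.integral_add (iC.add iA) iB, intervalIntegral.integral_add iC iA, hA, hB, hC,
    add_assoc, ← mul_add, add_comm (∫ t in (y / 2)..((1 + y) / 2), f1 t),
    intervalIntegral.integral_add_adjacent_intervals (hf1i _ _) (hf1i _ _), hsum]
  ring

end Pool.Agent.Helper270_PL
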