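import Pool.Agent.Helper270_PL.Cut

/-!
# A Morrey type estimate
-/

open MeasureTheory Set Filter Topology
open scoped ENNReal

namespace Pool.Agent.Helper270_PL

/-- Hölder's inequality against the constant one. -/
theorem integral_le_rpow {α : Type*} [MeasurableSpace α] {μ : Measure α} [IsFiniteMeasure μ]
    {q : ℝ} (hq : 1 < q) {h : α → ℝ} (h0 : ∀ x, 0 ≤ h x) (hm : MemLp h (ENNReal.ofReal q) μ) :
    ∫ x, h x ∂μ ≤ (∫ x, h x ^ q ∂μ) ^ (1 / q) * (μ.real univ) ^ (1 - 1 / q) := by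
  have hc : q.HolderConjugate (q / (q - 1)) := Real.HolderConjugate.conjExponent hq
  have h1 := integral_mul_le_Lp_mul_Lq_of_nonneg (μ := μ) hc (f := h) (g := fun _ => (1 : ℝ))
    (Eventually.of_forall h0) (Eventually.of_forall fun _ => zero_le_one) hm (memLp_const _)
  simp only [mul_one, Real.one_rpow, integral_const, smul_eq_mul] at h1
  refine h1.trans_eq ?_
  congr 2
  have : q - 1 ≠ 0 := by linarith
  field_simp

/-- the length of the gradient -/
noncomputable def gr (φ : ℝ × ℝ → ℝ) (z : ℝ × ℝ) : ℝ := Real.sqrt (dX φ z ^ 2 + dY φ z ^ 2)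

theorem gr_nonneg (φ : ℝ × ℝ → ℝ) (z : ℝ × ℝ) : 0 ≤ gr φ z := Real.sqrt_nonneg _

theorem gr_rpow (φ : ℝ × ℝ → ℝ) (z : ℝ × ℝ) (q : ℝ) :
    gr φ z ^ q = (dX φ z ^ 2 + dY φ z ^ 2) ^ (q / 2) := by
  rw [gr, Real.sqrt_eq_rpow, ← Real.rpow_mul (by positivity)]
  congr 1
  ring

theorem IsTest.continuous_gr {φ : ℝ × ℝ → ℝ} (h : IsTest φ) : Continuous (gr φ) :=
  ((h.continuous_dX.pow 2).add (h.continuous_dY.pow 2)).sqrt

theorem gr_eq_zero_of_notMem {φ : ℝ × ℝ → ℝ} {z : ℝ × ℝ} (h : z ∉ tsupport φ) : gr φ z = 0 := by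
  simp [gr, dX_eq_zero_of_notMem h, dY_eq_zero_of_notMem h]

theorem IsTest.hasCompactSupport_gr {φ : ℝ × ℝ → ℝ} (h : IsTest φ) : HasCompactSupport (gr φ) :=
  HasCompactSupport.intro h.2.1 fun _ hz => gr_eq_zero_of_notMem hz

theorem abs_fderiv_le (φ : ℝ × ℝ → ℝ) (z v : ℝ × ℝ) :
    |fderiv ℝ φ z v| ≤ gr φ z * Real.sqrt (v.1 ^ 2 + v.2 ^ 2) := by
  have h1 : fderiv ℝ φ z v = v.1 * dX φ z + v.2 * dY φ z := by
    have : v = v.1 • ((1, 0) : ℝ × ℝ) + v.2 • ((0, 1) : ℝ × ℝ) := by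
      ext <;> simp
    conv_lhs => rw [this]
    rw [map_add, map_smul, map_smul]
    rfl
  rw [h1, gr, ← Real.sqrt_mul (by positivity)]
  apply Real.abs_le_sqrt
  nlinarith [sq_nonneg (v.1 * dY φ z - v.2 * dX φ z)]

/-- the mean value inequality along a segment -/
theorem IsTest.sub_le_integral {φ : ℝ × ℝ → ℝ} (h : IsTest φ) (x v : ℝ × ℝ) :
    |φ x - φ (x + v)| ≤ Real.sqrt (v.1 ^ 2 + v.2 ^ 2) * ∫ t in (0 : ℝ)..1, gr φ (x + t • v) := by
  have hd : ∀ t : ℝ, HasDerivAt (fun t : ℝ => φ (x + t • v)) (fderiv ℝ φ (x + t • v) v) t := by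
    intro t
    have h1 : HasDerivAt (fun t : ℝ => x + t • v) v t := by
      have := ((hasDerivAt_id t).smul_const v).const_add x
      simpa using this
    exact (h.differentiable (x + t • v)).hasFDerivAt.comp_hasDerivAt t h1
  have hcont : Continuous fun t : ℝ => fderiv ℝ φ (x + t • v) v :=
    (h.continuous_fderiv.comp (by fun_prop)).clm_apply continuous_const
  have hcontg : Continuous fun t : ℝ => gr φ (x + t • v) := h.continuous_gr.comp (by fun_prop)
  have h2 : ∫ t in (0 : ℝ)..1, fderiv ℝ φ (x + t • v) v = φ (x + v) - φ x := by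
    have := intervalIntegral.integral_eq_sub_of_hasDerivAt (fun t _ => hd t)
      (hcont.intervalIntegrable 0 1)
    simpa using this
  rw [abs_sub_comm, ← h2]
  refine (intervalIntegral.abs_integral_le_integral_abs zero_le_one).trans ?_
  rw [← intervalIntegral.integral_const_mul]
  refine intervalIntegral.integral_mono_on zero_le_one (hcont.abs.intervalIntegrable _ _)
    ((continuous_const.mul hcontg).intervalIntegrable _ _) fun t _ => ?_
  rw [mul_comm]
  exact abs_fderiv_le _ _ _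

/-- the small square -/
def Sq (δ : ℝ) : Set (ℝ × ℝ) := Icc (-(δ / 2)) (δ / 2) ×ˢ Icc (-(δ / 2)) (δ / 2)

theorem measurableSet_Sq (δ : ℝ) : MeasurableSet (Sq δ) := measurableSet_Icc.prod measurableSet_Icc

theorem volume_Sq {δ : ℝ} (hδ : 0 < δ) : volume (Sq δ) = ENNReal.ofReal (δ ^ 2) := by
  rw [Sq, Measure.volume_eq_prod, Measure.prod_prod, Real.volume_Icc,
    ← ENNReal.ofReal_mul (by linarith)]
  congr 1
  ring

theorem volume_real_Sq {δ : ℝ} (hδ : 0 < δ) : (volume.restrict (Sq δ)).real univ = δ ^ 2 := by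
  rw [Measure.real, Measure.restrict_apply_univ, volume_Sq hδ, ENNReal.toReal_ofReal (by positivity)]

instance (δ : ℝ) : IsFiniteMeasure (volume.restrict (Sq δ)) := by
  refine ⟨?_⟩
  rw [Measure.restrict_apply_univ, Sq, Measure.volume_eq_prod, Measure.prod_prod]
  simp [Real.volume_Icc, ENNReal.mul_lt_top]

/-- scaling estimate for a nonnegative continuous function with compact support -/
theorem integral_Sq_le {g : ℝ × ℝ → ℝ} (hg : Continuous g) (hc : HasCompactSupport g)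
    (h0 : ∀ z, 0 ≤ g z) {q : ℝ} (hq : 1 < q) {δ : ℝ} (hδ : 0 < δ) (a : ℝ × ℝ) {t : ℝ}
    (ht : 0 < t) :
    ∫ y in Sq δ, g (a + t • y) ≤
      t ^ (-(2 / q)) * (∫ z, g z ^ q) ^ (1 / q) * δ ^ (2 - 2 / q) := by
  have hq0 : 0 < q := by linarith
  have hcg : Continuous fun y : ℝ × ℝ => g (a + t • y) := hg.comp (by fun_prop)
  obtain ⟨C, hC⟩ := hc.exists_bound_of_continuous hg
  have hmem : MemLp (fun y : ℝ × ℝ => g (a + t • y)) (ENNReal.ofReal q)
      (volume.restrict (Sq δ)) :=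
    MemLp.of_bound hcg.aestronglyMeasurable C (Eventually.of_forall fun y => hC _)
  have h1 := integral_le_rpow hq (fun y => h0 (a + t • y)) hmem
  rw [volume_real_Sq hδ] at h1
  have hgq : Continuous fun z => g z ^ q := hg.rpow_const fun _ => Or.inr hq0.le
  have hgqc : HasCompactSupport fun z => g z ^ q := by
    have : (fun z => g z ^ q) = (fun x : ℝ => x ^ q) ∘ g := rfl
    rw [this]
    exact hc.comp_left (by simp [Real.zero_rpow hq0.ne'])
  have hint : Integrable (fun z => g z ^ q) := hgq.integrable_of_hasCompactSupport hgqc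
  have h2 : ∫ y : ℝ × ℝ, g (a + t • y) ^ q = t ^ (-2 : ℝ) * ∫ z, g z ^ q := by
    have h3 := Measure.integral_comp_smul (μ := (volume : Measure (ℝ × ℝ)))
      (fun z => g (a + z) ^ q) t
    rw [h3, integral_add_left_eq_self (fun z => g z ^ q) a]
    have h4 : Module.finrank ℝ (ℝ × ℝ) = 2 := by simp
    rw [h4, smul_eq_mul, abs_of_nonneg (by positivity), Real.rpow_neg ht.le]
    norm_num
  have hint2 : Integrable fun y : ℝ × ℝ => g (a + t • y) ^ q := by
    have h3 : Integrable fun z : ℝ × ℝ => g (a + z) ^ q := hint.comp_add_left a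
    exact h3.comp_smul ht.ne'
  have h3 : ∫ y in Sq δ, g (a + t • y) ^ q ≤ t ^ (-2 : ℝ) * ∫ z, g z ^ q := by
    rw [← h2]
    exact setIntegral_le_integral hint2 (Eventually.of_forall fun y => Real.rpow_nonneg (h0 _) _)
  have hI0 : 0 ≤ ∫ z, g z ^ q := integral_nonneg fun z => Real.rpow_nonneg (h0 z) _
  refine h1.trans ?_
  have h4 : (∫ y in Sq δ, g (a + t • y) ^ q) ^ (1 / q) ≤
      t ^ (-(2 / q)) * (∫ z, g z ^ q) ^ (1 / q) := by
    refine (Real.rpow_le_rpow (integral_nonneg fun y => Real.rpow_nonneg (h0 _) _) h3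
      (by positivity)).trans_eq ?_
    rw [Real.mul_rpow (by positivity) hI0, ← Real.rpow_mul ht.le]
    congr 2
    ring
  have h5 : (δ ^ 2) ^ (1 - 1 / q) = δ ^ (2 - 2 / q) := by
    rw [← Real.rpow_natCast, ← Real.rpow_mul hδ.le]
    congr 1
    push_cast
    ring
  rw [h5]
  exact mul_le_mul_of_nonneg_right h4 (Real.rpow_nonneg hδ.le _)

/-- Morrey type estimate: the difference of a point value and of an average over a small
square. -/
theorem IsTest.sub_average_le {φ : ℝ × ℝ → ℝ} (h : IsTest φ) {q : ℝ} (hq : 2 < q) {δ : ℝ}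
    (hδ : 0 < δ) (x z : ℝ × ℝ) {L : ℝ}
    (hL : ∀ y ∈ Sq δ, Real.sqrt ((z.1 + y.1 - x.1) ^ 2 + (z.2 + y.2 - x.2) ^ 2) ≤ L) :
    |φ x - (δ ^ 2)⁻¹ * ∫ y in Sq δ, φ (z + y)| ≤
      L * δ ^ (-(2 / q)) / (1 - 2 / q) * (∫ y, gr φ y ^ q) ^ (1 / q) := by
  have hq0 : 0 < q := by linarith
  have hL0 : 0 ≤ L := (Real.sqrt_nonneg _).trans (hL 0 (by
    rw [Sq, mem_prod]; simp; linarith))
  have hδ2 : (0 : ℝ) < δ ^ 2 := by positivity
  set μ := (volume.restrict (Sq δ)) with hμ
  have hgc := h.continuous_gr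
  obtain ⟨C, hC⟩ := h.hasCompactSupport_gr.exists_bound_of_continuous hgc
  have hcz : Continuous fun y : ℝ × ℝ => φ (z + y) := h.continuous.comp (by fun_prop)
  obtain ⟨C', hC'⟩ := h.2.1.exists_bound_of_continuous h.continuous
  have hint : Integrable (fun y => φ (z + y)) μ :=
    Integrable.of_bound hcz.aestronglyMeasurable C' (Eventually.of_forall fun y => hC' _)
  have h1 : φ x - (δ ^ 2)⁻¹ * ∫ y in Sq δ, φ (z + y) =
      (δ ^ 2)⁻¹ * ∫ y, (φ x - φ (z + y)) ∂μ := by
    rw [integral_sub (integrable_const _) hint, integral_const, volume_real_Sq hδ, smul_eq_mul]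
    field_simp
    rfl
  -- the inner function
  set K : (ℝ × ℝ) → ℝ → ℝ := fun y t => gr φ (x + t • (z + y - x)) with hK
  have hKc : Continuous (Function.uncurry K) := by
    refine hgc.comp ?_
    fun_prop
  have hKint : Integrable (Function.uncurry K) (μ.prod (volume.restrict (Ioc (0 : ℝ) 1))) :=
    Integrable.of_bound hKc.aestronglyMeasurable C (Eventually.of_forall fun y => hC _)
  have h2 : ∀ y ∈ Sq δ, |φ x - φ (z + y)| ≤ L * ∫ t in Ioc (0 : ℝ) 1, K y t := by
    intro y hy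
    have h3 := h.sub_le_integral x (z + y - x)
    rw [show x + (z + y - x) = z + y by abel] at h3
    refine h3.trans ?_
    rw [intervalIntegral.integral_of_le zero_le_one]
    refine mul_le_mul_of_nonneg_right ?_ (integral_nonneg fun t => gr_nonneg _ _)
    have := hL y hy
    simpa using this
  have h3 : |∫ y, (φ x - φ (z + y)) ∂μ| ≤ L * ∫ y, (∫ t in Ioc (0 : ℝ) 1, K y t) ∂μ := by
    refine abs_integral_le_integral_abs.trans ?_
    rw [← integral_const_mul]
    refine integral_mono_ae ((integrable_const _).sub hint).abs ?_ ?_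
    · exact (hKint.integral_prod_left).const_mul L
    · filter_upwards [ae_restrict_mem (measurableSet_Sq δ)] with y hy
      exact h2 y hy
  have h4 : ∫ y, (∫ t in Ioc (0 : ℝ) 1, K y t) ∂μ = ∫ t in Ioc (0 : ℝ) 1, (∫ y, K y t ∂μ) :=
    integral_integral_swap hKint
  set N := (∫ y, gr φ y ^ q) ^ (1 / q) with hN
  have hN0 : 0 ≤ N := Real.rpow_nonneg (integral_nonneg fun z => Real.rpow_nonneg (gr_nonneg _ _) _) _
  have h5 : ∀ t ∈ Ioc (0 : ℝ) 1, ∫ y, K y t ∂μ ≤ t ^ (-(2 / q)) * N * δ ^ (2 - 2 / q) := by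
    intro t ht
    have h6 := integral_Sq_le hgc h.hasCompactSupport_gr (gr_nonneg φ) (by linarith : 1 < q) hδ
      (x + t • (z - x)) ht.1
    refine (le_of_eq ?_).trans h6
    refine integral_congr_ae (Eventually.of_forall fun y => ?_)
    simp only [hK]
    congr 1
    rw [add_assoc, ← smul_add]
    congr 2
    abel
  have hrp : ∫ t in Ioc (0 : ℝ) 1, t ^ (-(2 / q)) = 1 / (1 - 2 / q) := by
    rw [← intervalIntegral.integral_of_le zero_le_one, integral_rpow (Or.inl ?_)]
    · have : -(2 / q) + 1 = 1 - 2 / q := by ring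
      rw [this, Real.one_rpow, Real.zero_rpow, sub_zero]
      have : 2 / q < 1 := (div_lt_one hq0).2 hq
      linarith
    · have : 2 / q < 1 := (div_lt_one hq0).2 hq
      linarith
  have hrpi : IntegrableOn (fun t : ℝ => t ^ (-(2 / q))) (Ioc 0 1) := by
    have h7 := intervalIntegral.intervalIntegrable_rpow' (a := 0) (b := 1) (r := -(2 / q)) (by
      have : 2 / q < 1 := (div_lt_one hq0).2 hq
      linarith)
    rwa [intervalIntegrable_iff_integrableOn_Ioc_of_le zero_le_one] at h7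
  have h6 : ∫ t in Ioc (0 : ℝ) 1, (∫ y, K y t ∂μ) ≤ 1 / (1 - 2 / q) * (N * δ ^ (2 - 2 / q)) := by
    rw [← hrp, ← integral_mul_const]
    refine setIntegral_mono_on ?_ (hrpi.mul_const _) measurableSet_Ioc fun t ht => ?_
    · exact hKint.integral_prod_right
    · have := h5 t ht
      linarith
  have h12 : 0 < 1 - 2 / q := by
    have : 2 / q < 1 := (div_lt_one hq0).2 hq
    linarith
  rw [h1, abs_mul, abs_of_nonneg (inv_nonneg.2 hδ2.le)]
  calc (δ ^ 2)⁻¹ * |∫ y, (φ x - φ (z + y)) ∂μ|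
      ≤ (δ ^ 2)⁻¹ * (L * (1 / (1 - 2 / q) * (N * δ ^ (2 - 2 / q)))) := by
        refine mul_le_mul_of_nonneg_left (h3.trans ?_) (inv_nonneg.2 hδ2.le)
        refine mul_le_mul_of_nonneg_left ?_ hL0
        rw [h4]
        exact h6
    _ = L * δ ^ (-(2 / q)) / (1 - 2 / q) * N := by
        have : δ ^ (2 - 2 / q) = δ ^ 2 * δ ^ (-(2 / q)) := by
          rw [sub_eq_add_neg, Real.rpow_add hδ]
          norm_num
        rw [this]
        field_simp

end Pool.Agent.Helper270_PL
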