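import Pool.Agent.Helper270_PL.BelowOne

/-!
# The side `p < 2`
-/

open MeasureTheory Set Filter Topology
open scoped ENNReal

namespace Pool.Agent.Helper270_PL

variable {α β : ℝ}

theorem cf_add {f g : ℝ × ℝ → ℝ} (hf : Continuous f) (hg : Continuous g) (j k : ℕ) :
    cf (fun z => f z + g z) j k = cf f j k + cf g j k := by
  have c := continuous_ee j k
  rw [cf, cf, cf, ← int_add (by fun_prop) (by fun_prop)]
  refine integral_congr_ae (Eventually.of_forall fun z => ?_)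
  simp only
  ring

theorem cf_sub {f g : ℝ × ℝ → ℝ} (hf : Continuous f) (hg : Continuous g) (j k : ℕ) :
    cf (fun z => f z - g z) j k = cf f j k - cf g j k := by
  have c := continuous_ee j k
  rw [cf, cf, cf, ← int_sub (by fun_prop) (by fun_prop)]
  refine integral_congr_ae (Eventually.of_forall fun z => ?_)
  simp only
  ring

/-- polarised Parseval identity -/
theorem hasSum_cf_mul {f g : ℝ × ℝ → ℝ} (hf : Continuous f) (hg : Continuous g) {B1 B2 : ℝ}
    (h1 : ∀ z, |f z| ≤ B1) (h2 : ∀ z, |g z| ≤ B2) :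
    HasSum (fun i : ℕ × ℕ => cf f i.1 i.2 * cf g i.1 i.2) (∫ z, f z * g z ∂muOm) := by
  have ka : ∀ z, |f z + g z| ≤ B1 + B2 := fun z =>
    (abs_add_le _ _).trans (add_le_add (h1 z) (h2 z))
  have kb : ∀ z, |f z - g z| ≤ B1 + B2 := fun z =>
    (abs_sub _ _).trans (add_le_add (h1 z) (h2 z))
  have s1 := hasSum_cf (v := fun z => f z + g z) (hf.add hg) ka
  have s2 := hasSum_cf (v := fun z => f z - g z) (hf.sub hg) kb
  have s3 := (s1.sub s2).mul_left (1 / 4)
  have e3 : 1 / 4 * (∫ z, (f z + g z) ^ 2 ∂muOm - ∫ z, (f z - g z) ^ 2 ∂muOm) =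
      ∫ z, f z * g z ∂muOm := by
    rw [← int_sub (by fun_prop) (by fun_prop), ← integral_const_mul]
    refine integral_congr_ae (Eventually.of_forall fun z => ?_)
    simp only
    ring
  rw [e3] at s3
  have e4 : (fun i : ℕ × ℕ => 1 / 4 * (cf (fun z => f z + g z) i.1 i.2 ^ 2 -
      cf (fun z => f z - g z) i.1 i.2 ^ 2)) = fun i : ℕ × ℕ => cf f i.1 i.2 * cf g i.1 i.2 := by
    funext i
    rw [cf_add hf hg, cf_sub hf hg]
    ring
  rwa [e4] at s3

theorem memLp_of_cont' {f : ℝ × ℝ → ℝ} (hf : Continuous f) (q : ℝ≥0∞) : MemLp f q muOm := by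
  obtain ⟨C, hC⟩ := ((isCompact_Icc (a := (0 : ℝ)) (b := 1)).prod
    (isCompact_Icc (a := (0 : ℝ)) (b := 1))).exists_bound_of_continuousOn (f := f) hf.continuousOn
  refine MemLp.of_bound hf.aestronglyMeasurable C ?_
  rw [muOm]
  filter_upwards [ae_restrict_mem measurableSet_Om] with z hz
  exact hC z ⟨Ioo_subset_Icc_self hz.1, Ioo_subset_Icc_self hz.2⟩

theorem holder_pair {a b c d : ℝ × ℝ → ℝ} (ha : Continuous a) (hb : Continuous b)
    (hc : Continuous c) (hd : Continuous d) {p q : ℝ} (hpq : p.HolderConjugate q) :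
    ∫ z, (a z * c z + b z * d z) ∂muOm ≤ (∫ z, (a z ^ 2 + b z ^ 2) ^ (p / 2) ∂muOm) ^ (1 / p) *
      (∫ z, (c z ^ 2 + d z ^ 2) ^ (q / 2) ∂muOm) ^ (1 / q) := by
  have cf1 : Continuous fun z => Real.sqrt (a z ^ 2 + b z ^ 2) := by fun_prop
  have cf2 : Continuous fun z => Real.sqrt (c z ^ 2 + d z ^ 2) := by fun_prop
  have h1 := integral_mul_le_Lp_mul_Lq_of_nonneg (μ := muOm) hpq
    (Eventually.of_forall fun z => Real.sqrt_nonneg (a z ^ 2 + b z ^ 2))
    (Eventually.of_forall fun z => Real.sqrt_nonneg (c z ^ 2 + d z ^ 2))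
    (memLp_of_cont' cf1 _) (memLp_of_cont' cf2 _)
  have h2 : ∫ z, (a z * c z + b z * d z) ∂muOm ≤
      ∫ z, Real.sqrt (a z ^ 2 + b z ^ 2) * Real.sqrt (c z ^ 2 + d z ^ 2) ∂muOm := by
    refine int_mono (by fun_prop) (cf1.mul cf2) fun z => ?_
    rw [← Real.sqrt_mul (by positivity)]
    refine Real.le_sqrt_of_sq_le ?_
    nlinarith [sq_nonneg (a z * d z - b z * c z)]
  have e : ∀ (x y s : ℝ), Real.sqrt (x ^ 2 + y ^ 2) ^ s = (x ^ 2 + y ^ 2) ^ (s / 2) := by
    intro x y s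
    rw [Real.sqrt_eq_rpow, ← Real.rpow_mul (by positivity)]
    congr 1
    ring
  simp only [e] at h1
  exact h2.trans h1

/-- final arithmetic of the dual argument -/
theorem dual_arith {E LLv l y C0 ε : ℝ} (hE : 0 ≤ E) (hLL : 0 < LLv) (hl : 0 ≤ l) (hC0 : 0 ≤ C0)
    (hε : 0 < ε) (hε2 : ε ≤ 1 / 2) (hεy : ε * |y| ≤ 1 / 4) (hεC : ε * C0 ≤ 1 / 4)
    (hεl : ε * l ≤ 1) (hmain : LLv * (1 - ε * l) ≤ E * (1 + (ε * y + C0 * ε ^ 2))) :
    LLv - ε * (LLv * (l + y)) - LLv * (C0 + |l * y|) * ε ^ 2 ≤ E := by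
  set x := ε * y + C0 * ε ^ 2 with hx
  have h1 : |ε * y| ≤ 1 / 4 := by rw [abs_mul, abs_of_pos hε]; exact hεy
  have h1' := abs_le.1 h1
  have h2 : C0 * ε ^ 2 ≤ 1 / 8 := by
    have : C0 * ε ^ 2 = ε * C0 * ε := by ring
    rw [this]
    have := mul_le_mul hεC hε2 hε.le (by norm_num)
    linarith
  have h3 : 0 ≤ C0 * ε ^ 2 := by positivity
  have hx1 : x ≤ 1 := by rw [hx]; linarith
  have hN : 0 ≤ LLv * (1 - ε * l) := mul_nonneg hLL.le (by linarith)
  have h4 := mul_le_mul_of_nonneg_right hmain (by linarith : 0 ≤ 1 - x)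
  have h5 : E * (1 + x) * (1 - x) ≤ E := by
    have : E * (1 + x) * (1 - x) = E - E * x ^ 2 := by ring
    rw [this]
    have : 0 ≤ E * x ^ 2 := by positivity
    linarith
  refine le_trans ?_ (h4.trans h5)
  have e1 : LLv * (1 - ε * l) * (1 - x) = LLv - ε * (LLv * (l + y)) - LLv * C0 * ε ^ 2 +
      LLv * (l * y) * ε ^ 2 + LLv * (ε * l * (C0 * ε ^ 2)) := by rw [hx]; ring
  have e2 : LLv * (C0 + |l * y|) * ε ^ 2 = LLv * C0 * ε ^ 2 + LLv * |l * y| * ε ^ 2 := by ring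
  rw [e1, e2]
  have h6 : -(LLv * |l * y| * ε ^ 2) ≤ LLv * (l * y) * ε ^ 2 := by
    have a1 := neg_abs_le (l * y)
    have a2 : 0 ≤ LLv * ε ^ 2 := by positivity
    have a3 := mul_le_mul_of_nonneg_left a1 a2
    linarith
  have h7 : 0 ≤ LLv * (ε * l * (C0 * ε ^ 2)) := by positivity
  linarith

theorem integral_sgp_sub_le' {u : ℝ × ℝ → ℝ} (hu : Continuous u) {ε : ℝ} (h0 : 0 < ε)
    (h1 : ε ≤ 1 / 2) (hm : ∫ z, |u z| ^ (2 - ε) ∂muOm = 1)
    {h : ℝ × ℝ → ℝ} (hh : Continuous h) {C : ℝ} (hC : ∀ z, |h z| ≤ C) :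
    |∫ z, sgp (1 - ε) (u z) * h z ∂muOm| ≤ |∫ z, h z * u z ∂muOm| + C * (4 * ε) := by
  have hC0 : 0 ≤ C := (abs_nonneg _).trans (hC 0)
  have c1 : Continuous fun z => sgp (1 - ε) (u z) := (continuous_sgp (by linarith)).comp hu
  have c2 : Continuous fun z => |u z| ^ (2 - ε) := hu.abs.rpow_const fun _ => Or.inr (by linarith)
  have e : ∫ z, sgp (1 - ε) (u z) * h z ∂muOm = ∫ z, h z * u z ∂muOm +
      ∫ z, (sgp (1 - ε) (u z) - u z) * h z ∂muOm := by
    rw [← int_add (by fun_prop) (by fun_prop)]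
    refine integral_congr_ae (Eventually.of_forall fun z => ?_)
    simp only
    ring
  rw [e]
  refine (abs_add_le _ _).trans (add_le_add le_rfl ?_)
  have h1 : |∫ z, (sgp (1 - ε) (u z) - u z) * h z ∂muOm| ≤
      ∫ z, C * (2 * ε * (1 + |u z| ^ (2 - ε))) ∂muOm := by
    refine abs_integral_le_integral_abs.trans ?_
    refine int_mono (by fun_prop) (by fun_prop) fun z => ?_
    rw [abs_mul, mul_comm]
    exact mul_le_mul (hC z) (abs_sgp_sub_le' h0 h1 _) (abs_nonneg _) hC0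
  refine h1.trans (le_of_eq ?_)
  rw [integral_const_mul, integral_const_mul, int_add (by fun_prop) (by fun_prop), hm, int_const]
  ring

theorem rpow_step {E R ε : ℝ} (hE : 0 ≤ E) (hR : 0 < R) (hε : 0 < ε) (hε2 : ε ≤ 1 / 2)
    {p q : ℝ} (hp : p = 2 - ε) (hq : q = (2 - ε) / (1 - ε))
    (h : 1 ≤ E ^ (1 / p) * R ^ (1 / q)) : 1 ≤ E * R ^ (1 - ε) := by
  have hp0 : 0 < p := by linarith
  have h1 := Real.one_le_rpow h hp0.le
  rw [Real.mul_rpow (by positivity) (by positivity), ← Real.rpow_mul hE, ← Real.rpow_mul hR.le]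
    at h1
  have e1 : 1 / p * p = 1 := by field_simp
  have e2 : 1 / q * p = 1 - ε := by
    rw [hq, hp]
    have : (2 - ε) ≠ 0 := by linarith
    field_simp
  rwa [e1, e2, Real.rpow_one] at h1

/-- Lower bound of the energy for normalised functions. -/
theorem energy_lower_below (h : α ^ 2 + β ^ 2 = 1) {κ : ℝ} (hκ : 0 < κ) :
    ∃ C, ∃ δ, 0 < δ ∧ δ ≤ 1 / 2 ∧ ∀ ε, 0 < ε → ε < δ → ∀ u, C1c u →
      ∫ z, |u z| ^ (2 - ε) ∂muOm = 1 → |∫ z, ee 0 0 z * u z ∂muOm| ≤ 2 * ε →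
      |∫ z, psi (-β) α z * u z ∂muOm| ≤ 2 * ε →
      LL - ε * (GG α β + LL * κ) - C * ε ^ 2 ≤
        ∫ z, (dX u z ^ 2 + dY u z ^ 2) ^ ((2 - ε) / 2) ∂muOm := by
  have hL := LL_pos
  have hl : 0 < Real.log LL := Real.log_pos (by linarith [LL_ge])
  obtain ⟨C0, hC0, δ0, hδ0, hZ⟩ := Z_power_bound h hκ (K := 68) (by norm_num)
  set l := Real.log LL with hld
  set y := GG α β / LL - l + κ with hy
  refine ⟨LL * (C0 + |l * y|), min (min (1 / 2) δ0) (min (1 / (4 * (|y| + 1)))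
    (min (1 / (4 * (C0 + 1))) (1 / l))), by positivity,
    (min_le_left _ _).trans (min_le_left _ _), fun ε hε hεδ u hu hm hu0 hup => ?_⟩
  have d1 : ε < 1 / 2 := hεδ.trans_le ((min_le_left _ _).trans (min_le_left _ _))
  have d2 : ε < δ0 := hεδ.trans_le ((min_le_left _ _).trans (min_le_right _ _))
  have d3 : ε < 1 / (4 * (|y| + 1)) := hεδ.trans_le ((min_le_right _ _).trans (min_le_left _ _))
  have d4 : ε < 1 / (4 * (C0 + 1)) :=
    hεδ.trans_le ((min_le_right _ _).trans ((min_le_right _ _).trans (min_le_left _ _)))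
  have d5 : ε < 1 / l :=
    hεδ.trans_le ((min_le_right _ _).trans ((min_le_right _ _).trans (min_le_right _ _)))
  rw [lt_div_iff₀ (by positivity)] at d3 d4 d5
  have hy0 := abs_nonneg y
  have f3 : ε * |y| ≤ 1 / 4 := by nlinarith
  have f4 : ε * C0 ≤ 1 / 4 := by nlinarith
  set r := ε / (2 * (1 - ε)) with hr
  have h1ε : 0 < 1 - ε := by linarith
  have hr0 : 0 < r := by positivity
  have hrε : r ≤ ε := by
    rw [hr, div_le_iff₀ (by positivity)]; nlinarith
  have hr2 : (1 - ε) * (2 * r) = ε := by rw [hr]; field_simp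
  have hrε2 : ε ≤ 2 * r := by nlinarith
  have hqr : (2 - ε) / (1 - ε) / 2 = 1 + r := by rw [hr]; field_simp; ring
  -- the dual function
  set g : ℝ × ℝ → ℝ := fun z => sgp (1 - ε) (u z) with hg
  have cg : Continuous g := (continuous_sgp h1ε).comp hu.continuous
  obtain ⟨B1, -, hB1⟩ := exists_bound_of_compactSupport hu.continuous hu.2.1
  have hgc : HasCompactSupport g := hu.2.1.comp_left sgp_zero
  obtain ⟨B2, -, hB2⟩ := exists_bound_of_compactSupport cg hgc
  have hmass : ∫ z, (g z ^ 2) ^ (1 + r) ∂muOm ≤ 1 := by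
    refine le_of_eq ?_
    rw [← hm]
    refine integral_congr_ae (Eventually.of_forall fun z => ?_)
    simp only [hg]
    rw [← sq_abs, abs_sgp h1ε.ne', ← Real.rpow_natCast, ← Real.rpow_mul (abs_nonneg _),
      ← Real.rpow_mul (abs_nonneg _)]
    congr 1
    push_cast
    nlinarith
  have hpair : ∫ z, g z * u z ∂muOm = 1 := by
    rw [← hm]
    refine integral_congr_ae (Eventually.of_forall fun z => ?_)
    simp only [hg]
    rcases eq_or_ne (u z) 0 with k | k
    · rw [k, sgp_zero, abs_zero, Real.zero_rpow (by linarith), zero_mul]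
    · have ht : 0 < |u z| := abs_pos.2 k
      rw [sgp, show 1 - ε - 1 = -ε by ring, mul_assoc, ← sq, ← sq_abs,
        ← Real.rpow_natCast |u z| 2, ← Real.rpow_add ht]
      congr 1
      push_cast
      ring
  have ha0 : |cf g 0 0| ≤ 68 * r := by
    rw [cf]
    have := integral_sgp_sub_le' hu.continuous hε d1.le hm (continuous_ee 0 0) (abs_ee_le 0 0)
    linarith
  have hb0 : |∫ z, g z * psi (-β) α z ∂muOm| ≤ 68 * r := by
    have := integral_sgp_sub_le' hu.continuous hε d1.le hm (continuous_psi (-β) α)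
      (abs_psi_le (by rw [neg_sq]; linarith))
    linarith
  -- the bound for every finite sum
  set E := ∫ z, (dX u z ^ 2 + dY u z ^ 2) ^ ((2 - ε) / 2) ∂muOm with hEd
  have hE0 : 0 ≤ E := integral_nonneg fun z => by positivity
  set R := (1 + 2 * r * y + C0 * r ^ 2) / LL with hRd
  have hR0 : 0 < R := by
    rw [hRd]
    refine div_pos ?_ hL
    have a1 : |2 * r * y| ≤ 1 / 2 := by
      rw [abs_mul, abs_of_pos (by positivity : 0 < 2 * r)]
      nlinarith
    have a2 := (abs_le.1 a1).1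
    have a3 : 0 ≤ C0 * r ^ 2 := by positivity
    linarith
  have hpq : (2 - ε).HolderConjugate ((2 - ε) / (1 - ε)) := by
    rw [Real.holderConjugate_iff]
    refine ⟨by linarith, ?_⟩
    have : (2 - ε) ≠ 0 := by linarith
    field_simp
    ring
  have hfin : ∀ s : Finset (ℕ × ℕ), {(0, 1), (1, 0)} ≤ s →
      ∑ i ∈ s, cf g i.1 i.2 * cf u i.1 i.2 ≤
        E ^ (1 / (2 - ε)) * R ^ (1 / ((2 - ε) / (1 - ε))) := by
    intro s hs
    have hs1 : ((0, 1) : ℕ × ℕ) ∈ s := hs (by simp)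
    have hs2 : ((1, 0) : ℕ × ℕ) ∈ s := hs (by simp)
    have k1 := hZ r hr0 (hrε.trans_lt d2) g cg B2 hB2 hmass ha0 hb0 s hs1 hs2
    have k2 := hu.integral_Z (s := s) (a := fun i => cf g i.1 i.2)
    have k3 := holder_pair (continuous_dX_of hu.1) (continuous_dY_of hu.1)
      (continuous_ZX s fun i => cf g i.1 i.2) (continuous_ZY s fun i => cf g i.1 i.2) hpq
    rw [k2, hqr] at k3
    refine k3.trans ?_
    refine mul_le_mul_of_nonneg_left ?_ (by positivity)
    refine Real.rpow_le_rpow (integral_nonneg fun z => by positivity) ?_ (by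
      have : 0 < 2 - ε := by linarith
      positivity)
    exact k1
  have hlim : (1 : ℝ) ≤ E ^ (1 / (2 - ε)) * R ^ (1 / ((2 - ε) / (1 - ε))) := by
    have hsum := hasSum_cf_mul cg hu.continuous hB2 hB1
    rw [hpair] at hsum
    exact le_of_tendsto hsum ((eventually_ge_atTop {(0, 1), (1, 0)}).mono hfin)
  have hER := rpow_step hE0 hR0 hε d1.le rfl rfl hlim
  -- conclude
  have hmain : LL * (1 - ε * l) ≤ E * (1 + (ε * y + C0 * ε ^ 2)) := by
    have b1 : R ^ (1 - ε) ≤ (1 + (ε * y + C0 * ε ^ 2)) / LL ^ (1 - ε) := by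
      have hnum : 0 < 1 + 2 * r * y + C0 * r ^ 2 := by
        have := mul_pos hR0 hL
        rwa [hRd, div_mul_cancel₀ _ hL.ne'] at this
      rw [hRd, Real.div_rpow hnum.le hL.le]
      refine div_le_div_of_nonneg_right ?_ (by positivity)
      have := rpow_one_add_le_one_add_mul_self (s := 2 * r * y + C0 * r ^ 2) (p := 1 - ε)
        (by linarith) h1ε.le (by linarith)
      rw [← add_assoc] at this
      refine this.trans ?_
      have e1 : (1 - ε) * (2 * r * y + C0 * r ^ 2) = (1 - ε) * (2 * r) * y + (1 - ε) * (C0 * r ^ 2) := by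
        ring
      rw [e1, hr2]
      have b2 : (1 - ε) * (C0 * r ^ 2) ≤ C0 * ε ^ 2 := by
        have c1 : C0 * r ^ 2 ≤ C0 * ε ^ 2 := by gcongr
        have c2 : 0 ≤ C0 * r ^ 2 := by positivity
        nlinarith
      linarith
    have b3 : LL * (1 - ε * l) ≤ LL ^ (1 - ε) := by
      have : LL ^ (1 - ε) = LL * LL ^ (-ε) := by
        rw [show 1 - ε = 1 + -ε by ring, Real.rpow_add hL, Real.rpow_one]
      rw [this]
      refine mul_le_mul_of_nonneg_left ?_ hL.le
      rw [Real.rpow_def_of_pos hL, ← hld]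
      have := Real.add_one_le_exp (l * -ε)
      linarith
    have b4 : 0 < LL ^ (1 - ε) := by positivity
    have b5 : 1 ≤ E * ((1 + (ε * y + C0 * ε ^ 2)) / LL ^ (1 - ε)) :=
      hER.trans (mul_le_mul_of_nonneg_left b1 hE0)
    rw [← mul_div_assoc, le_div_iff₀ b4, one_mul] at b5
    exact b3.trans b5
  have hfinal := dual_arith hE0 hL hl.le hC0 hε d1.le f3 f4 d5.le hmain
  have e : LL * (l + y) = GG α β + LL * κ := by
    rw [hy]; field_simp; ring
  rwa [e] at hfinal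

end Pool.Agent.Helper270_PL
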