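import Pool.Agent.Helper270_PL.NearBelow

/-!
# Strict inequality for exponents near `2`
-/

open MeasureTheory Set Filter Topology
open scoped ENNReal

namespace Pool.Agent.Helper270_PL

variable {α β : ℝ}

/-- First order lower bound for `λ₃` below `2`. -/
theorem lam_three_below (h : α ^ 2 + β ^ 2 = 1) {κ : ℝ} (hκ : 0 < κ) :
    ∃ C, ∃ δ, 0 < δ ∧ ∀ ε, 0 < ε → ε < δ → ∀ (p : ℝ≥0∞) [Fact (1 ≤ p)], p ≠ ∞ →
      p.toReal = 2 - ε → LL - ε * (GG α β + LL * κ) - C * ε ^ 2 ≤ lam p 3 := by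
  obtain ⟨C, δ, hδ, hδ2, hmain⟩ := energy_lower_below h hκ
  refine ⟨C, δ, hδ, fun ε hε hεδ p _ hp hpe => ?_⟩
  refine lam_three_ge_of_test hp h hε fun φ hφ h1 h2 h3 h4 => ?_
  rw [hpe] at h3 h4 ⊢
  set M := ∫ z, |φ z| ^ (2 - ε) ∂muOm with hM
  have hM0 : 0 < M := by linarith
  have h2e : 1 < 2 - ε := by linarith
  have h2e0 : 0 < 2 - ε := by linarith
  set t := M ^ (-(1 / (2 - ε))) with ht
  have ht0 : 0 < t := by positivity
  have htp : t ^ (2 - ε) = M⁻¹ := by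
    rw [ht, ← Real.rpow_mul hM0.le, show -(1 / (2 - ε)) * (2 - ε) = -1 by field_simp,
      Real.rpow_neg_one]
  have ht2 : t ≤ 2 := by
    have a1 : M⁻¹ ≤ 2 := by
      rw [inv_le_comm₀ hM0 (by norm_num)]; linarith
    have a2 : t = M⁻¹ ^ (1 / (2 - ε)) := by
      rw [ht, Real.rpow_neg hM0.le, Real.inv_rpow hM0.le]
    rw [a2]
    calc M⁻¹ ^ (1 / (2 - ε)) ≤ 2 ^ (1 / (2 - ε)) :=
          Real.rpow_le_rpow (by positivity) a1 (by positivity)
      _ ≤ 2 ^ (1 : ℝ) := Real.rpow_le_rpow_of_exponent_le (by norm_num) (by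
          rw [div_le_one h2e0]; linarith)
      _ = 2 := Real.rpow_one 2
  have hu : IsTest (t • φ) := hφ.smul t
  have e1 : ∫ z, |(t • φ) z| ^ (2 - ε) ∂muOm = 1 := by
    have : ∀ z, |(t • φ) z| ^ (2 - ε) = M⁻¹ * |φ z| ^ (2 - ε) := by
      intro z
      rw [Pi.smul_apply, smul_eq_mul, abs_mul, abs_of_pos ht0, Real.mul_rpow ht0.le (abs_nonneg _),
        htp]
    simp only [this]
    rw [integral_const_mul, ← hM, inv_mul_cancel₀ hM0.ne']
  have e2 : ∫ z, (dX (t • φ) z ^ 2 + dY (t • φ) z ^ 2) ^ ((2 - ε) / 2) ∂muOm =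
      M⁻¹ * ∫ z, (dX φ z ^ 2 + dY φ z ^ 2) ^ ((2 - ε) / 2) ∂muOm := by
    rw [← integral_const_mul]
    refine integral_congr_ae (Eventually.of_forall fun z => ?_)
    simp only
    rw [dX_smul hφ.differentiable, dY_smul hφ.differentiable, Pi.smul_apply, Pi.smul_apply,
      smul_eq_mul, smul_eq_mul, ← htp]
    have e3 : (t * dX φ z) ^ 2 + (t * dY φ z) ^ 2 = t ^ 2 * (dX φ z ^ 2 + dY φ z ^ 2) := by ring
    rw [e3, Real.mul_rpow (by positivity) (by positivity)]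
    congr 1
    rw [← Real.rpow_natCast, ← Real.rpow_mul ht0.le]
    congr 1
    push_cast
    ring
  have e4 : ∀ f : ℝ × ℝ → ℝ, ∫ z, f z * (t • φ) z ∂muOm = t * ∫ z, f z * φ z ∂muOm := by
    intro f
    rw [← integral_const_mul]
    refine integral_congr_ae (Eventually.of_forall fun z => ?_)
    simp only [Pi.smul_apply, smul_eq_mul]
    ring
  have b1 : |∫ z, ee 0 0 z * (t • φ) z ∂muOm| ≤ 2 * ε := by
    rw [e4, abs_mul, abs_of_pos ht0]
    exact mul_le_mul ht2 h1.le (abs_nonneg _) (by norm_num)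
  have b2 : |∫ z, psi (-β) α z * (t • φ) z ∂muOm| ≤ 2 * ε := by
    rw [e4, abs_mul, abs_of_pos ht0]
    exact mul_le_mul ht2 h2.le (abs_nonneg _) (by norm_num)
  have key := hmain ε hε hεδ (t • φ) hu.c1c e1 b1 b2
  rw [e2] at key
  have := mul_le_mul_of_nonneg_right key hM0.le
  rwa [mul_comm M⁻¹, mul_assoc, inv_mul_cancel₀ hM0.ne', mul_one] at this

theorem near_below : ∃ δ : ℝ, 0 < δ ∧ ∀ (p : ℝ≥0∞) [Fact (1 ≤ p)], p ≠ ∞ →
    2 - δ < p.toReal → p.toReal < 2 → lam p 2 < lam p 3 := by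
  have hlt := GG_lt
  have hL := LL_pos
  set κ := (GG 1 0 - GG rt rt) / 2 with hκ
  have hκ0 : 0 < κ := by rw [hκ]; linarith
  obtain ⟨C1, δ1, hδ1, h1⟩ := lam_three_below rt_unit (κ := κ / LL) (by positivity)
  obtain ⟨C2, δ2, hδ2, h2⟩ := lam_two_first_order one_unit
  refine ⟨min δ1 (min δ2 (κ / (|C1| + |C2| + 1))), by positivity, fun p _ hp hpδ hp2 => ?_⟩
  obtain ⟨ε, hε⟩ : ∃ ε, ε = 2 - p.toReal := ⟨_, rfl⟩
  have hε0 : 0 < ε := by linarith
  have hpe : p.toReal = 2 - ε := by linarith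
  have hεδ : ε < min δ1 (min δ2 (κ / (|C1| + |C2| + 1))) := by linarith
  have e1 : ε < δ1 := hεδ.trans_le (min_le_left _ _)
  have e2 : ε < δ2 := hεδ.trans_le ((min_le_right _ _).trans (min_le_left _ _))
  have e3 : ε < κ / (|C1| + |C2| + 1) := hεδ.trans_le ((min_le_right _ _).trans (min_le_right _ _))
  rw [lt_div_iff₀ (by positivity)] at e3
  have a1 := h1 ε hε0 e1 p hp hpe
  have a2 := h2 (-ε) (by rw [abs_neg, abs_of_pos hε0]; exact e2) p hp (by rw [hpe]; ring)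
  rw [neg_sq, show 5 * Real.pi ^ 2 = LL from rfl] at a2
  have b1 := le_abs_self C1
  have b2 := le_abs_self C2
  have b3 : C1 * ε ^ 2 + C2 * ε ^ 2 < ε * κ := by
    have : C1 * ε + C2 * ε < κ := by nlinarith [abs_nonneg C1, abs_nonneg C2]
    nlinarith
  have b4 : LL * (κ / LL) = κ := by field_simp
  rw [b4] at a1
  have b5 : ε * (GG rt rt + κ) + ε * κ = ε * GG 1 0 := by rw [hκ]; ring
  linarith

/-- The strict inequality for all exponents near `2`, different from `2`. -/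
theorem near_two : ∃ δ : ℝ, 0 < δ ∧ ∀ (p : ℝ≥0∞) [Fact (1 ≤ p)], p ≠ ∞ →
    p.toReal ≠ 2 → |p.toReal - 2| < δ → lam p 2 < lam p 3 := by
  obtain ⟨δ1, hδ1, h1⟩ := near_above
  obtain ⟨δ2, hδ2, h2⟩ := near_below
  refine ⟨min δ1 δ2, by positivity, fun p _ hp hne hlt => ?_⟩
  obtain ⟨k1, k2⟩ := abs_lt.1 hlt
  have m1 := min_le_left δ1 δ2
  have m2 := min_le_right δ1 δ2
  rcases lt_or_gt_of_ne hne with h | h
  · exact h2 p hp (by linarith) h
  · exact h1 p hp h (by linarith)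

end Pool.Agent.Helper270_PL
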