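import Pool.Agent.Helper270_PL.F1diff
import Pool.Agent.Helper270_PL.Kappa

/-!
# Comparison of the gradient entropies of the two eigenfunctions
-/

open MeasureTheory Set Filter Topology
open scoped ENNReal

namespace Pool.Agent.Helper270_PL

/-- evaluation of a list of monomials -/
def pev (l : List (ℝ × ℕ × ℕ)) (X Y : ℝ) : ℝ := (l.map fun t => t.1 * (X ^ t.2.1 * Y ^ t.2.2)).sum

/-- expectation of a list of monomials -/
noncomputable def pex (l : List (ℝ × ℕ × ℕ)) : ℝ := (l.map fun t => t.1 * (mm t.2.1 * mm t.2.2)).sum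

theorem continuous_pev (l : List (ℝ × ℕ × ℕ)) :
    Continuous fun z : ℝ × ℝ => pev l (Real.cos (Real.pi * z.1) ^ 2) (Real.cos (Real.pi * z.2) ^ 2) := by
  induction l with
  | nil => simp only [pev, List.map_nil, List.sum_nil]; exact continuous_const
  | cons a l ih =>
    simp only [pev, List.map_cons, List.sum_cons] at ih ⊢
    fun_prop

theorem integral_pev (l : List (ℝ × ℕ × ℕ)) :
    ∫ z : ℝ × ℝ, pev l (Real.cos (Real.pi * z.1) ^ 2) (Real.cos (Real.pi * z.2) ^ 2) ∂muOm = pex l := by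
  induction l with
  | nil => simp [pev, pex]
  | cons a l ih =>
    have hc := continuous_pev l
    simp only [pev, pex, List.map_cons, List.sum_cons] at ih hc ⊢
    rw [int_add (by fun_prop) (by fun_prop), ih, integral_const_mul]
    congr 2
    rw [muOm_eq_prod, integral_prod_mul (fun x => (Real.cos (Real.pi * x) ^ 2) ^ a.2.1)
      (fun y => (Real.cos (Real.pi * y) ^ 2) ^ a.2.2), integral_mm', integral_mm']

/-- first list -/
noncomputable def l1 : List (ℝ × ℕ × ℕ) :=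
  [(-115 / 18, 0, 2), (3053 / 36, 0, 3), (-2080 / 9, 0, 4), (2581 / 12, 0, 5), (-131 / 3, 0, 6),
    (-67 / 4, 0, 7), (-1, 0, 8), (115 / 9, 1, 1), (-3053 / 36, 1, 2), (-931 / 18, 1, 3),
    (11281 / 18, 1, 4), (-1553 / 2, 1, 5), (673 / 3, 1, 6), (44, 1, 7), (5 / 4, 1, 8),
    (-115 / 18, 2, 0), (-3053 / 36, 2, 1), (1697 / 3, 2, 2), (-30305 / 36, 2, 3),
    (-151 / 2, 2, 4), (3341 / 4, 2, 5), (-713 / 2, 2, 6), (-115 / 4, 2, 7), (3053 / 36, 3, 0),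
    (-931 / 18, 3, 1), (-30305 / 36, 3, 2), (5374 / 3, 3, 3), (-6257 / 6, 3, 4),
    (-257 / 2, 3, 5), (180, 3, 6), (-2080 / 9, 4, 0), (11281 / 18, 4, 1), (-151 / 2, 4, 2),
    (-6257 / 6, 4, 3), (884, 4, 4), (-305 / 2, 4, 5), (2581 / 12, 5, 0), (-1553 / 2, 5, 1),
    (3341 / 4, 5, 2), (-257 / 2, 5, 3), (-305 / 2, 5, 4), (-131 / 3, 6, 0), (673 / 3, 6, 1),
    (-713 / 2, 6, 2), (180, 6, 3), (-67 / 4, 7, 0), (44, 7, 1), (-115 / 4, 7, 2), (-1, 8, 0),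
    (5 / 4, 8, 1)]

/-- second list -/
noncomputable def l2 : List (ℝ × ℕ × ℕ) :=
  [(35 / 18, 0, 0), (-9 / 4, 0, 1), (-1837 / 36, 0, 2), (3970 / 9, 0, 3), (-36649 / 18, 0, 4),
    (31673 / 6, 0, 5), (-139451 / 18, 0, 6), (25623 / 4, 0, 7), (-100433 / 36, 0, 8),
    (4489 / 9, 0, 9), (-9 / 4, 1, 0), (-1345 / 18, 1, 1), (16127 / 18, 1, 2),
    (-171919 / 36, 1, 3), (29887 / 2, 1, 4), (-511289 / 18, 1, 5), (390631 / 12, 1, 6),
    (-195791 / 9, 1, 7), (69680 / 9, 1, 8), (-4489 / 4, 1, 9), (-1837 / 36, 2, 0),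
    (16127 / 18, 2, 1), (-39013 / 6, 2, 2), (216704 / 9, 2, 3), (-1866665 / 36, 2, 4),
    (2475875 / 36, 2, 5), (-338279 / 6, 2, 6), (490243 / 18, 2, 7), (-40937 / 6, 2, 8),
    (22445 / 36, 2, 9), (3970 / 9, 3, 0), (-171919 / 36, 3, 1), (216704 / 9, 3, 2),
    (-1164665 / 18, 3, 3), (3602771 / 36, 3, 4), (-369517 / 4, 3, 5), (907127 / 18, 3, 6),
    (-270077 / 18, 3, 7), (22445 / 12, 3, 8), (-36649 / 18, 4, 0), (29887 / 2, 4, 1),
    (-1866665 / 36, 4, 2), (3602771 / 36, 4, 3), (-2001511 / 18, 4, 4), (2524709 / 36, 4, 5),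
    (-417343 / 18, 4, 6), (112225 / 36, 4, 7), (31673 / 6, 5, 0), (-511289 / 18, 5, 1),
    (2475875 / 36, 5, 2), (-369517 / 4, 5, 3), (2524709 / 36, 5, 4), (-499753 / 18, 5, 5),
    (157115 / 36, 5, 6), (-139451 / 18, 6, 0), (390631 / 12, 6, 1), (-338279 / 6, 6, 2),
    (907127 / 18, 6, 3), (-417343 / 18, 6, 4), (157115 / 36, 6, 5), (25623 / 4, 7, 0),
    (-195791 / 9, 7, 1), (490243 / 18, 7, 2), (-270077 / 18, 7, 3), (112225 / 36, 7, 4),
    (-100433 / 36, 8, 0), (69680 / 9, 8, 1), (-40937 / 6, 8, 2), (22445 / 12, 8, 3),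
    (4489 / 9, 9, 0), (-4489 / 4, 9, 1), (22445 / 36, 9, 2)]

theorem pex_l1 : pex l1 = 170743 / 1179648 := by
  simp only [pex, l1, List.map_cons, List.map_nil, List.sum_cons, List.sum_nil, mm]
  norm_num

theorem pex_l2 : pex l2 = 408059 / 1572864 := by
  simp only [pex, l2, List.map_cons, List.map_nil, List.sum_cons, List.sum_nil, mm]
  norm_num

/-- the polynomial `P` -/
def PP0 (X Y : ℝ) : ℝ :=
  X * Y * (1 - Y) + (1 - X) * (2 * Y - 1) ^ 2 + (1 - Y) * (2 * X - 1) ^ 2 + X * Y * (1 - X)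

/-- the polynomial `h / (X - Y)` -/
noncomputable def hh0 (X Y : ℝ) : ℝ :=
  23 / 6 - 9 / 2 * (X + Y) - 1 / 2 * (X ^ 2 + Y ^ 2) + 11 / 2 * (X * Y)

/-- the polynomial `k / (s₁ s₂)` -/
noncomputable def kk0 (X Y : ℝ) : ℝ :=
  -5 / 6 - 13 / 3 * (X + Y) + 56 / 3 * (X ^ 2 + Y ^ 2) - 67 / 6 * (X ^ 3 + Y ^ 3) +
    73 / 6 * (X * Y) - 67 / 6 * (X * Y ^ 2 + X ^ 2 * Y)

theorem pev_l1 (X Y : ℝ) : pev l1 X Y =
    2 * ((X - Y) * hh0 X Y) * ((X - Y) * (5 * X * Y - 4 * X - 4 * Y + 3)) -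
      ((X - Y) * hh0 X Y) ^ 2 * PP0 X Y := by
  simp only [pev, l1, List.map_cons, List.map_nil, List.sum_cons, List.sum_nil, hh0, PP0]
  ring

theorem pev_l2 (X Y : ℝ) : pev l2 X Y =
    (1 - X) * (1 - Y) * (4 * kk0 X Y * (2 * X + 2 * Y - 3 * (X * Y) - 1) -
      kk0 X Y ^ 2 * PP0 X Y) := by
  simp only [pev, l2, List.map_cons, List.map_nil, List.sum_cons, List.sum_nil, kk0, PP0]
  ring

end Pool.Agent.Helper270_PL
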