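import Pool.Agent.Helper270_PL.Spec

/-!
# Second eigenfunctions of the Laplacian on the square
-/

open MeasureTheory Set Filter Topology
open scoped ENNReal

namespace Pool.Agent.Helper270_PL

theorem int_add {f g : ℝ × ℝ → ℝ} (hf : Continuous f) (hg : Continuous g) :
    ∫ z, (f z + g z) ∂muOm = ∫ z, f z ∂muOm + ∫ z, g z ∂muOm :=
  integral_add (integrable_of_cont hf) (integrable_of_cont hg)

theorem int_sub {f g : ℝ × ℝ → ℝ} (hf : Continuous f) (hg : Continuous g) :
    ∫ z, (f z - g z) ∂muOm = ∫ z, f z ∂muOm - ∫ z, g z ∂muOm :=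
  integral_sub (integrable_of_cont hf) (integrable_of_cont hg)

theorem int_mono {f g : ℝ × ℝ → ℝ} (hf : Continuous f) (hg : Continuous g)
    (h : ∀ z, f z ≤ g z) : ∫ z, f z ∂muOm ≤ ∫ z, g z ∂muOm :=
  integral_mono (integrable_of_cont hf) (integrable_of_cont hg) h

/-- the second eigenfunctions of the Laplacian -/
noncomputable def psi (α β : ℝ) (z : ℝ × ℝ) : ℝ := α * ee 0 1 z + β * ee 1 0 z

/-- the `x`-derivative of `psi` -/
noncomputable def psiX (α β : ℝ) (z : ℝ × ℝ) : ℝ :=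
  α * (Real.pi * cs 0 1 z) + β * (2 * Real.pi * cs 1 0 z)

/-- the `y`-derivative of `psi` -/
noncomputable def psiY (α β : ℝ) (z : ℝ × ℝ) : ℝ :=
  α * (2 * Real.pi * sc 0 1 z) + β * (Real.pi * sc 1 0 z)

theorem contDiff_psi (α β : ℝ) {m : WithTop ℕ∞} : ContDiff ℝ m (psi α β) :=
  (contDiff_const.mul (contDiff_ee 0 1)).add (contDiff_const.mul (contDiff_ee 1 0))

theorem continuous_psi (α β : ℝ) : Continuous (psi α β) := (contDiff_psi α β (m := 0)).continuous

theorem continuous_cs (j k : ℕ) : Continuous (cs j k) := (contDiff_cs j k (m := 0)).continuous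

theorem continuous_sc (j k : ℕ) : Continuous (sc j k) := (contDiff_sc j k (m := 0)).continuous

theorem continuous_cc (j k : ℕ) : Continuous (cc j k) := (contDiff_cc j k (m := 0)).continuous

theorem continuous_psiX (α β : ℝ) : Continuous (psiX α β) := by
  have h1 := continuous_cs 0 1
  have h2 := continuous_cs 1 0
  unfold psiX; fun_prop

theorem continuous_psiY (α β : ℝ) : Continuous (psiY α β) := by
  have h1 := continuous_sc 0 1
  have h2 := continuous_sc 1 0
  unfold psiY; fun_prop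

theorem dX_psi (α β : ℝ) (z : ℝ × ℝ) : dX (psi α β) z = psiX α β z := by
  have e : psi α β = α • ee 0 1 + β • ee 1 0 := rfl
  have d1 : Differentiable ℝ (ee 0 1) := (contDiff_ee 0 1 (m := 1)).differentiable (by simp)
  have d2 : Differentiable ℝ (ee 1 0) := (contDiff_ee 1 0 (m := 1)).differentiable (by simp)
  rw [e, dX_add (d1.const_smul α) (d2.const_smul β), dX_smul d1, dX_smul d2]
  simp only [Pi.add_apply, Pi.smul_apply, smul_eq_mul, dX_ee', psiX]
  push_cast
  ring

theorem dY_psi (α β : ℝ) (z : ℝ × ℝ) : dY (psi α β) z = psiY α β z := by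
  have e : psi α β = α • ee 0 1 + β • ee 1 0 := rfl
  have d1 : Differentiable ℝ (ee 0 1) := (contDiff_ee 0 1 (m := 1)).differentiable (by simp)
  have d2 : Differentiable ℝ (ee 1 0) := (contDiff_ee 1 0 (m := 1)).differentiable (by simp)
  rw [e, dY_add (d1.const_smul α) (d2.const_smul β), dY_smul d1, dY_smul d2]
  simp only [Pi.add_apply, Pi.smul_apply, smul_eq_mul, dY_ee', psiY]
  push_cast
  ring

theorem abs_psi_le {α β : ℝ} (h : α ^ 2 + β ^ 2 = 1) (z : ℝ × ℝ) : |psi α β z| ≤ 8 := by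
  have h1 := abs_ee_le 0 1 z
  have h2 := abs_ee_le 1 0 z
  have ha : |α| ≤ 1 := by
    rw [← sq_le_one_iff_abs_le_one]; nlinarith [sq_nonneg β]
  have hb : |β| ≤ 1 := by
    rw [← sq_le_one_iff_abs_le_one]; nlinarith [sq_nonneg α]
  rw [psi]
  calc |α * ee 0 1 z + β * ee 1 0 z| ≤ |α * ee 0 1 z| + |β * ee 1 0 z| := abs_add_le _ _
    _ = |α| * |ee 0 1 z| + |β| * |ee 1 0 z| := by rw [abs_mul, abs_mul]
    _ ≤ 1 * 4 + 1 * 4 := by gcongr
    _ = 8 := by norm_num

theorem integral_psi_sq {α β : ℝ} (h : α ^ 2 + β ^ 2 = 1) : ∫ z, psi α β z ^ 2 ∂muOm = 1 := by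
  have e : ∀ z, psi α β z ^ 2 = α ^ 2 * (ee 0 1 z * ee 0 1 z) + (2 * α * β) * (ee 0 1 z * ee 1 0 z) +
      β ^ 2 * (ee 1 0 z * ee 1 0 z) := fun z => by rw [psi]; ring
  simp only [e]
  have c1 := continuous_ee 0 1
  have c2 := continuous_ee 1 0
  rw [int_add (by fun_prop) (by fun_prop), int_add (by fun_prop) (by fun_prop), integral_const_mul,
    integral_const_mul, integral_const_mul]
  have h1 := orth_ee (0, 1) (0, 1)
  have h2 := orth_ee (0, 1) (1, 0)
  have h3 := orth_ee (1, 0) (1, 0)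
  simp only [if_true] at h1 h3
  rw [if_neg (by simp)] at h2
  rw [h1, h2, h3]
  linarith

theorem integral_grad_psi_sq {α β : ℝ} (h : α ^ 2 + β ^ 2 = 1) :
    ∫ z, (psiX α β z ^ 2 + psiY α β z ^ 2) ∂muOm = 5 * Real.pi ^ 2 := by
  have e : ∀ z, psiX α β z ^ 2 + psiY α β z ^ 2 =
      Real.pi ^ 2 * (α ^ 2 * (cs 0 1 z * cs 0 1 z) + (4 * α * β) * (cs 0 1 z * cs 1 0 z) +
      (4 * β ^ 2) * (cs 1 0 z * cs 1 0 z) +
      ((4 * α ^ 2) * (sc 0 1 z * sc 0 1 z) + (4 * α * β) * (sc 0 1 z * sc 1 0 z) +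
      β ^ 2 * (sc 1 0 z * sc 1 0 z))) := fun z => by rw [psiX, psiY]; ring
  simp only [e]
  have c1 := continuous_cs 0 1
  have c2 := continuous_cs 1 0
  have c3 := continuous_sc 0 1
  have c4 := continuous_sc 1 0
  rw [integral_const_mul, int_add (by fun_prop) (by fun_prop), int_add (by fun_prop) (by fun_prop),
    int_add (by fun_prop) (by fun_prop), int_add (by fun_prop) (by fun_prop),
    int_add (by fun_prop) (by fun_prop)]
  simp only [integral_const_mul]
  have h1 := orth_cs (0, 1) (0, 1)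
  have h2 := orth_cs (0, 1) (1, 0)
  have h3 := orth_cs (1, 0) (1, 0)
  have k1 := orth_sc (0, 1) (0, 1)
  have k2 := orth_sc (0, 1) (1, 0)
  have k3 := orth_sc (1, 0) (1, 0)
  simp only [if_true] at h1 h3 k1 k3
  rw [if_neg (by simp)] at h2 k2
  rw [h1, h2, h3, k1, k2, k3]
  linear_combination (5 * Real.pi ^ 2) * h

theorem integral_mul_psi {v : ℝ × ℝ → ℝ} (hv : Continuous v) (α β : ℝ) :
    ∫ z, v z * psi α β z ∂muOm = α * cf v 0 1 + β * cf v 1 0 := by
  have e : ∀ z, v z * psi α β z = α * (v z * ee 0 1 z) + β * (v z * ee 1 0 z) :=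
    fun z => by rw [psi]; ring
  simp only [e]
  have c1 := continuous_ee 0 1
  have c2 := continuous_ee 1 0
  rw [int_add (by fun_prop) (by fun_prop), integral_const_mul, integral_const_mul]
  rfl

theorem C1c.integral_grad_mul_psi {v : ℝ × ℝ → ℝ} (h : C1c v) (α β : ℝ) :
    ∫ z, (dX v z * psiX α β z + dY v z * psiY α β z) ∂muOm =
      5 * Real.pi ^ 2 * ∫ z, v z * psi α β z ∂muOm := by
  rw [integral_mul_psi h.continuous]
  have e : ∀ z, dX v z * psiX α β z + dY v z * psiY α β z =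
      (α * Real.pi) * (dX v z * cs 0 1 z) + (2 * β * Real.pi) * (dX v z * cs 1 0 z) +
      ((2 * α * Real.pi) * (dY v z * sc 0 1 z) + (β * Real.pi) * (dY v z * sc 1 0 z)) :=
    fun z => by rw [psiX, psiY]; ring
  simp only [e]
  have c1 := continuous_cs 0 1
  have c2 := continuous_cs 1 0
  have c3 := continuous_sc 0 1
  have c4 := continuous_sc 1 0
  have c5 := continuous_dX_of h.1
  have c6 := continuous_dY_of h.1
  rw [int_add (by fun_prop) (by fun_prop), int_add (by fun_prop) (by fun_prop),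
    int_add (by fun_prop) (by fun_prop)]
  simp only [integral_const_mul, h.cf_ibp_X, h.cf_ibp_Y]
  push_cast
  ring

end Pool.Agent.Helper270_PL
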