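import Pool.Agent.Helper270_PL.Basic

/-!
# Parseval's identity for the sine system, in one and two variables
-/

open MeasureTheory Set Filter Topology
open scoped ENNReal

namespace Pool.Agent.Helper270_PL

/-- Lebesgue measure on the unit interval -/
noncomputable def m1 : Measure ℝ := volume.restrict (Ioo (0 : ℝ) 1)

instance : IsProbabilityMeasure m1 := ⟨by simp [m1]⟩

theorem muOm_eq_prod : muOm = m1.prod m1 := by
  rw [muOm, m1, Om, Measure.volume_eq_prod, Measure.prod_restrict]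

theorem integral_m1 (f : ℝ → ℝ) : ∫ x, f x ∂m1 = ∫ x in (0 : ℝ)..1, f x := by
  rw [m1, intervalIntegral.integral_of_le zero_le_one, integral_Ioc_eq_integral_Ioo]

/-- the normalised sines -/
noncomputable def Sn (n : ℕ) (x : ℝ) : ℝ := Real.sqrt 2 * Real.sin ((n + 1 : ℝ) * Real.pi * x)

/-- the normalised cosines -/
noncomputable def Cn (n : ℕ) (x : ℝ) : ℝ := Real.sqrt 2 * Real.cos ((n + 1 : ℝ) * Real.pi * x)

theorem continuous_Sn (n : ℕ) : Continuous (Sn n) := by unfold Sn; fun_prop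

theorem continuous_Cn (n : ℕ) : Continuous (Cn n) := by unfold Cn; fun_prop

theorem abs_Sn_le (n : ℕ) (x : ℝ) : |Sn n x| ≤ 2 := by
  rw [Sn, abs_mul, abs_of_nonneg (Real.sqrt_nonneg _)]
  have h1 : Real.sqrt 2 ≤ 2 := by
    rw [Real.sqrt_le_left (by norm_num)]; norm_num
  have h2 := Real.abs_sin_le_one ((n + 1 : ℝ) * Real.pi * x)
  nlinarith [Real.sqrt_nonneg 2, abs_nonneg (Real.sin ((n + 1 : ℝ) * Real.pi * x))]

theorem abs_Cn_le (n : ℕ) (x : ℝ) : |Cn n x| ≤ 2 := by
  rw [Cn, abs_mul, abs_of_nonneg (Real.sqrt_nonneg _)]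
  have h1 : Real.sqrt 2 ≤ 2 := by
    rw [Real.sqrt_le_left (by norm_num)]; norm_num
  have h2 := Real.abs_cos_le_one ((n + 1 : ℝ) * Real.pi * x)
  nlinarith [Real.sqrt_nonneg 2, abs_nonneg (Real.cos ((n + 1 : ℝ) * Real.pi * x))]

/-- odd extension from `[0,1]` to `[-1,1]` -/
noncomputable def oddExt (w : ℝ → ℝ) (x : ℝ) : ℂ := if 0 ≤ x then (w x : ℂ) else -(w (-x) : ℂ)

theorem measurable_oddExt {w : ℝ → ℝ} (hw : Continuous w) : Measurable (oddExt w) := by
  unfold oddExt
  refine Measurable.ite measurableSet_Ici ?_ ?_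
  · exact (Complex.continuous_ofReal.comp hw).measurable
  · exact ((Complex.continuous_ofReal.comp (hw.comp continuous_neg)).neg).measurable

theorem oddExt_intervalIntegral {E : Type*} [NormedAddCommGroup E] [NormedSpace ℝ E]
    {w : ℝ → ℝ} (_hw : Continuous w) (F : ℝ → ℂ → E)
    (hF1 : IntervalIntegrable (fun x => F x (w x : ℂ)) volume 0 1)
    (hF2 : IntervalIntegrable (fun x => F (-x) (-(w x : ℂ))) volume 0 1) :
    ∫ x in (-1 : ℝ)..1, F x (oddExt w x) =
      ∫ x in (0 : ℝ)..1, (F x (w x : ℂ) + F (-x) (-(w x : ℂ))) := by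
  have e1 : ∫ x in (0 : ℝ)..1, F x (oddExt w x) = ∫ x in (0 : ℝ)..1, F x (w x : ℂ) := by
    refine intervalIntegral.integral_congr fun x hx => ?_
    rw [uIcc_of_le zero_le_one] at hx
    simp [oddExt, hx.1]
  have e2 : ∫ x in (-1 : ℝ)..0, F x (oddExt w x) = ∫ x in (0 : ℝ)..1, F (-x) (-(w x : ℂ)) := by
    have h : ∫ x in (0 : ℝ)..1, F (-x) (-(w x : ℂ)) =
        ∫ x in (-1 : ℝ)..(-0 : ℝ), F x (-(w (-x) : ℂ)) := by
      rw [← intervalIntegral.integral_comp_neg (fun x => F x (-(w (-x) : ℂ)))]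
      simp
    rw [h, neg_zero]
    refine intervalIntegral.integral_congr_ae ?_
    have hne : ∀ᵐ x : ℝ ∂volume, x ≠ 0 := by
      rw [ae_iff]; simp
    filter_upwards [hne] with x hx0 hx
    rw [uIoc_of_le (by norm_num)] at hx
    have : ¬ 0 ≤ x := not_le.2 (lt_of_le_of_ne hx.2 hx0)
    simp [oddExt, this]
  have i1 : IntervalIntegrable (fun x => F x (oddExt w x)) volume 0 1 := by
    refine hF1.congr ?_
    intro x hx
    rw [uIoc_of_le zero_le_one] at hx
    simp [oddExt, hx.1.le]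
  have i2 : IntervalIntegrable (fun x => F x (oddExt w x)) volume (-1) 0 := by
    have h := (IntervalIntegrable.iff_comp_neg (f := fun x => F (-x) (-(w x : ℂ)))).1 hF2
    simp only [neg_neg, neg_zero] at h
    refine (h.symm).congr_ae ?_
    have hne : ∀ᵐ x : ℝ ∂volume, x ≠ 0 := by
      rw [ae_iff]; simp
    rw [uIoc_of_le (by norm_num : (-1 : ℝ) ≤ 0)]
    filter_upwards [ae_restrict_of_ae hne, ae_restrict_mem measurableSet_Ioc] with x hx0 hx
    have : ¬ 0 ≤ x := not_le.2 (lt_of_le_of_ne hx.2 hx0)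
    simp [oddExt, this]
  rw [← intervalIntegral.integral_add_adjacent_intervals i2 i1, e1, e2,
    intervalIntegral.integral_add hF1 hF2, add_comm]

theorem fourierCoeffOn_oddExt {w : ℝ → ℝ} (hw : Continuous w) (n : ℤ) :
    fourierCoeffOn (by norm_num : (-1 : ℝ) < 1) (oddExt w) n =
      -Complex.I * ((∫ x in (0 : ℝ)..1, Real.sin (n * Real.pi * x) * w x : ℝ) : ℂ) := by
  rw [fourierCoeffOn_eq_integral]
  have hf : ∀ x : ℝ, (fourier (-n) (x : AddCircle ((1 : ℝ) - (-1))) : ℂ) =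
      Complex.exp (-(Complex.I * (n * Real.pi * x : ℝ))) := by
    intro x
    rw [fourier_coe_apply]
    congr 1
    push_cast
    ring
  simp only [hf]
  have hc : Continuous fun x : ℝ => Complex.exp (-(Complex.I * (n * Real.pi * x : ℝ))) • (w x : ℂ) := by
    fun_prop
  have hc' : Continuous fun x : ℝ =>
      Complex.exp (-(Complex.I * (n * Real.pi * (-x) : ℝ))) • (-(w x : ℂ)) := by
    fun_prop
  rw [oddExt_intervalIntegral hw (fun x z => Complex.exp (-(Complex.I * (n * Real.pi * x : ℝ))) • z)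
    (hc.intervalIntegrable _ _) (hc'.intervalIntegrable _ _)]
  rw [← intervalIntegral.integral_ofReal, ← intervalIntegral.integral_const_mul,
    ← intervalIntegral.integral_smul]
  refine intervalIntegral.integral_congr fun x _ => ?_
  have hs : Complex.sin ((n * Real.pi * x : ℝ) : ℂ) =
      (Complex.exp (-(Complex.I * (n * Real.pi * x : ℝ))) -
        Complex.exp (Complex.I * (n * Real.pi * x : ℝ))) * Complex.I / 2 := by
    rw [Complex.sin]
    ring_nf
  have hneg : (-(Complex.I * ((n * Real.pi * (-x) : ℝ) : ℂ))) =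
      Complex.I * ((n * Real.pi * x : ℝ) : ℂ) := by
    push_cast; ring
  simp only [smul_eq_mul]
  have hsw : ((Real.sin (n * Real.pi * x) * w x : ℝ) : ℂ) =
      Complex.sin ((n * Real.pi * x : ℝ) : ℂ) * (w x : ℂ) := by
    rw [Complex.ofReal_mul, Complex.ofReal_sin]
  have hI : Complex.I * Complex.I = -1 := Complex.I_mul_I
  rw [hneg, hsw, hs, Complex.real_smul]
  generalize Complex.exp (-(Complex.I * ((n * Real.pi * x : ℝ) : ℂ))) = E1
  generalize Complex.exp (Complex.I * ((n * Real.pi * x : ℝ) : ℂ)) = E2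
  push_cast
  linear_combination ((1 / 2 : ℂ) * (E1 - E2) * (w x)) * hI

/-- Parseval's identity for the sine system -/
theorem hasSum_Sn {w : ℝ → ℝ} (hw : Continuous w) :
    HasSum (fun n : ℕ => (∫ x, w x * Sn n x ∂m1) ^ 2) (∫ x, w x ^ 2 ∂m1) := by
  have hbd : ∃ C, ∀ x ∈ Ioc (-1 : ℝ) 1, ‖oddExt w x‖ ≤ C := by
    obtain ⟨C, hC⟩ := (isCompact_Icc (a := (-1 : ℝ)) (b := 1)).exists_bound_of_continuousOn
      (f := w) hw.continuousOn
    refine ⟨C, fun x hx => ?_⟩
    unfold oddExt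
    split_ifs with h
    · rw [Complex.norm_real]; exact hC x ⟨hx.1.le, hx.2⟩
    · rw [norm_neg, Complex.norm_real]
      refine hC (-x) ⟨by linarith [hx.2], by linarith [hx.1]⟩
  obtain ⟨C, hC⟩ := hbd
  have hL : MemLp (oddExt w) 2 (volume.restrict (Ioc (-1 : ℝ) 1)) := by
    refine MemLp.of_bound (measurable_oddExt hw).aestronglyMeasurable C ?_
    filter_upwards [ae_restrict_mem measurableSet_Ioc] with x hx using hC x hx
  have h := hasSum_sq_fourierCoeffOn (by norm_num : (-1 : ℝ) < 1) hL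
  have e1 : ((1 : ℝ) - (-1))⁻¹ • ∫ x in (-1 : ℝ)..1, ‖oddExt w x‖ ^ 2 = ∫ x, w x ^ 2 ∂m1 := by
    rw [oddExt_intervalIntegral hw (fun _ z => ‖z‖ ^ 2)]
    · rw [integral_m1, ← intervalIntegral.integral_smul]
      refine intervalIntegral.integral_congr fun x _ => ?_
      simp only [norm_neg, Complex.norm_real, Real.norm_eq_abs, sq_abs, smul_eq_mul]
      ring
    · refine Continuous.intervalIntegrable ?_ _ _
      fun_prop
    · refine Continuous.intervalIntegrable ?_ _ _
      fun_prop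
  rw [e1] at h
  have h2 := h.nat_add_neg
  simp only [fourierCoeffOn_oddExt hw] at h2
  have e3 : ‖(-Complex.I * ((∫ x in (0 : ℝ)..1, Real.sin ((0 : ℤ) * Real.pi * x) * w x : ℝ) : ℂ))‖ ^ 2
      = 0 := by simp
  rw [e3, add_zero] at h2
  have h3 := (hasSum_nat_add_iff' 1).2 h2
  simp only [Finset.range_one, Finset.sum_singleton] at h3
  have e4 : ‖(-Complex.I * ((∫ x in (0 : ℝ)..1, Real.sin (((0 : ℕ) : ℤ) * Real.pi * x) * w x : ℝ) : ℂ))‖ ^ 2
      + ‖(-Complex.I * ((∫ x in (0 : ℝ)..1, Real.sin ((-((0 : ℕ) : ℤ) : ℤ) * Real.pi * x) * w x : ℝ) : ℂ))‖ ^ 2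
      = 0 := by simp
  rw [e4, sub_zero] at h3
  refine h3.congr_fun ?_
  intro n
  rw [norm_mul, norm_mul, Complex.norm_real, Complex.norm_real, norm_neg, Complex.norm_I, one_mul,
    one_mul, Real.norm_eq_abs, Real.norm_eq_abs, sq_abs, sq_abs, integral_m1]
  have e5 : ∫ x in (0 : ℝ)..1, w x * Sn n x =
      Real.sqrt 2 * ∫ x in (0 : ℝ)..1, Real.sin (((n + 1 : ℕ) : ℤ) * Real.pi * x) * w x := by
    rw [← intervalIntegral.integral_const_mul]
    refine intervalIntegral.integral_congr fun x _ => ?_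
    simp only [Sn]
    push_cast
    ring
  have e6 : ∫ x in (0 : ℝ)..1, Real.sin ((-((n + 1 : ℕ) : ℤ) : ℤ) * Real.pi * x) * w x =
      - ∫ x in (0 : ℝ)..1, Real.sin (((n + 1 : ℕ) : ℤ) * Real.pi * x) * w x := by
    rw [← intervalIntegral.integral_neg]
    refine intervalIntegral.integral_congr fun x _ => ?_
    push_cast
    rw [show (-((n : ℝ) + 1)) * Real.pi * x = -(((n : ℝ) + 1) * Real.pi * x) by ring, Real.sin_neg]
    ring
  rw [e5, e6, mul_pow, Real.sq_sqrt (by norm_num)]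
  ring

end Pool.Agent.Helper270_PL
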