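import Pool.Agent.Helper270_PL.Sine

/-!
# Parseval's identity for the sine system in two variables
-/

open MeasureTheory Set Filter Topology
open scoped ENNReal

namespace Pool.Agent.Helper270_PL

/-- the Dirichlet eigenfunctions of the unit square, with indices shifted by one -/
noncomputable def ee (j k : ℕ) (z : ℝ × ℝ) : ℝ := Sn j z.1 * Sn k z.2

theorem continuous_ee (j k : ℕ) : Continuous (ee j k) :=
  ((continuous_Sn j).comp continuous_fst).mul ((continuous_Sn k).comp continuous_snd)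

theorem abs_ee_le (j k : ℕ) (z : ℝ × ℝ) : |ee j k z| ≤ 4 := by
  rw [ee, abs_mul]
  nlinarith [abs_Sn_le j z.1, abs_Sn_le k z.2, abs_nonneg (Sn j z.1), abs_nonneg (Sn k z.2)]

theorem exists_bound_of_compactSupport {v : ℝ × ℝ → ℝ} (hv : Continuous v)
    (hc : HasCompactSupport v) : ∃ C, 0 ≤ C ∧ ∀ z, |v z| ≤ C := by
  obtain ⟨C, hC⟩ := hc.exists_bound_of_continuous hv
  exact ⟨max C 0, le_max_right _ _, fun z => (hC z).trans (le_max_left _ _)⟩

theorem integrable_of_bdd {μ : Measure (ℝ × ℝ)} [IsFiniteMeasure μ] {f : ℝ × ℝ → ℝ}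
    (hf : Continuous f) {C : ℝ} (hC : ∀ z, |f z| ≤ C) : Integrable f μ :=
  Integrable.of_bound hf.aestronglyMeasurable C (Eventually.of_forall hC)

theorem integrable_of_bdd1 {μ : Measure ℝ} [IsFiniteMeasure μ] {f : ℝ → ℝ}
    (hf : Continuous f) {C : ℝ} (hC : ∀ z, |f z| ≤ C) : Integrable f μ :=
  Integrable.of_bound hf.aestronglyMeasurable C (Eventually.of_forall hC)

/-- partial sine coefficient -/
noncomputable def pc (v : ℝ × ℝ → ℝ) (j : ℕ) (y : ℝ) : ℝ := ∫ x, v (x, y) * Sn j x ∂m1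

theorem continuous_pc {v : ℝ × ℝ → ℝ} (hv : Continuous v) {C : ℝ} (hC : ∀ z, |v z| ≤ C) (j : ℕ) :
    Continuous (pc v j) := by
  refine continuous_of_dominated (bound := fun _ => C * 2) ?_ ?_ ?_ ?_
  · intro y
    exact (Continuous.mul (by fun_prop) (continuous_Sn j)).aestronglyMeasurable
  · intro y
    refine Eventually.of_forall fun x => ?_
    rw [Real.norm_eq_abs, abs_mul]
    exact mul_le_mul (hC _) (abs_Sn_le j x) (abs_nonneg _) ((abs_nonneg _).trans (hC (x, y)))
  · exact integrable_const _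
  · refine Eventually.of_forall fun x => ?_
    fun_prop

theorem hasSum_pc {v : ℝ × ℝ → ℝ} (hv : Continuous v) {C : ℝ} (hC : ∀ z, |v z| ≤ C) :
    HasSum (fun j : ℕ => ∫ y, pc v j y ^ 2 ∂m1) (∫ z, v z ^ 2 ∂muOm) := by
  have hint : Integrable (fun z : ℝ × ℝ => v z ^ 2) (m1.prod m1) := by
    refine integrable_of_bdd (by fun_prop) (C := C ^ 2) fun z => ?_
    rw [abs_pow]
    exact pow_le_pow_left₀ (abs_nonneg _) (hC z) 2
  rw [muOm_eq_prod, integral_prod_symm _ hint]
  have hy : ∀ y : ℝ, HasSum (fun j : ℕ => pc v j y ^ 2) (∫ x, v (x, y) ^ 2 ∂m1) := by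
    intro y
    exact hasSum_Sn (w := fun x => v (x, y)) (by fun_prop)
  refine hasSum_integral_of_dominated_convergence (fun j y => pc v j y ^ 2) ?_ ?_ ?_ ?_ ?_
  · intro j
    exact ((continuous_pc hv hC j).pow 2).aestronglyMeasurable
  · intro j
    refine Eventually.of_forall fun y => ?_
    rw [Real.norm_eq_abs, abs_of_nonneg (sq_nonneg _)]
  · exact Eventually.of_forall fun y => (hy y).summable
  · have : (fun y => ∑' j, pc v j y ^ 2) = fun y => ∫ x, v (x, y) ^ 2 ∂m1 :=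
      funext fun y => (hy y).tsum_eq
    rw [this]
    exact hint.integral_prod_right
  · exact Eventually.of_forall hy

/-- the coefficients -/
noncomputable def cf (v : ℝ × ℝ → ℝ) (j k : ℕ) : ℝ := ∫ z, v z * ee j k z ∂muOm

theorem integrable_mul_ee {v : ℝ × ℝ → ℝ} (hv : Continuous v) {C : ℝ} (hC : ∀ z, |v z| ≤ C)
    (j k : ℕ) : Integrable (fun z => v z * ee j k z) muOm := by
  refine integrable_of_bdd (hv.mul (continuous_ee j k)) (C := C * 4) fun z => ?_
  rw [abs_mul]
  exact mul_le_mul (hC _) (abs_ee_le j k z) (abs_nonneg _) ((abs_nonneg _).trans (hC z))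

theorem cf_eq {v : ℝ × ℝ → ℝ} (hv : Continuous v) {C : ℝ} (hC : ∀ z, |v z| ≤ C) (j k : ℕ) :
    cf v j k = ∫ y, pc v j y * Sn k y ∂m1 := by
  have hint := integrable_mul_ee hv hC j k
  rw [cf]
  rw [muOm_eq_prod] at hint ⊢
  rw [integral_prod_symm _ hint]
  refine integral_congr_ae (Eventually.of_forall fun y => ?_)
  simp only [pc]
  rw [← integral_mul_const]
  refine integral_congr_ae (Eventually.of_forall fun x => ?_)
  simp only [ee]
  ring

/-- Parseval's identity in two variables -/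
theorem hasSum_cf {v : ℝ × ℝ → ℝ} (hv : Continuous v) {C : ℝ} (hC : ∀ z, |v z| ≤ C) :
    HasSum (fun jk : ℕ × ℕ => cf v jk.1 jk.2 ^ 2) (∫ z, v z ^ 2 ∂muOm) := by
  have h1 := hasSum_pc hv hC
  have h2 : ∀ j, HasSum (fun k => cf v j k ^ 2) (∫ y, pc v j y ^ 2 ∂m1) := by
    intro j
    have := hasSum_Sn (continuous_pc hv hC j)
    simpa only [cf_eq hv hC] using this
  have hs : Summable fun jk : ℕ × ℕ => cf v jk.1 jk.2 ^ 2 := by
    rw [summable_prod_of_nonneg (fun _ => sq_nonneg _)]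
    refine ⟨fun j => (h2 j).summable, ?_⟩
    have : (fun j => ∑' k, cf v j k ^ 2) = fun j => ∫ y, pc v j y ^ 2 ∂m1 :=
      funext fun j => (h2 j).tsum_eq
    simp only [this]
    exact h1.summable
  have h3 := hs.hasSum.prod_fiberwise h2
  rw [h1.unique h3]
  exact hs.hasSum

/-! ### Orthogonality -/

theorem integral_cos_nat {n : ℕ} (hn : n ≠ 0) :
    ∫ x in (0 : ℝ)..1, Real.cos (n * Real.pi * x) = 0 := by
  have hne : (n : ℝ) * Real.pi ≠ 0 := by positivity
  rw [intervalIntegral.integral_comp_mul_left (fun x => Real.cos x) hne, integral_cos]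
  simp [Real.sin_nat_mul_pi]

theorem integral_Sn_Sn (j k : ℕ) : ∫ x, Sn j x * Sn k x ∂m1 = if j = k then 1 else 0 := by
  rw [integral_m1]
  split_ifs with h
  · subst h
    have : ∀ x : ℝ, Sn j x * Sn j x = 1 - Real.cos (((2 * (j + 1) : ℕ) : ℝ) * Real.pi * x) := by
      intro x
      rw [Sn, show (Real.sqrt 2 * Real.sin ((j + 1 : ℝ) * Real.pi * x)) *
        (Real.sqrt 2 * Real.sin ((j + 1 : ℝ) * Real.pi * x)) =
        Real.sqrt 2 ^ 2 * Real.sin ((j + 1 : ℝ) * Real.pi * x) ^ 2 by ring,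
        Real.sq_sqrt (by norm_num), Real.sin_sq_eq_half_sub]
      push_cast
      rw [show 2 * ((j + 1 : ℝ) * Real.pi * x) = 2 * (j + 1 : ℝ) * Real.pi * x by ring]
      ring
    simp only [this]
    rw [intervalIntegral.integral_sub (by simp) (Continuous.intervalIntegrable (by fun_prop) _ _),
      integral_cos_nat (by omega)]
    simp
  · wlog hjk : k < j generalizing j k
    · exact (intervalIntegral.integral_congr fun x _ => mul_comm _ _).trans
        (this k j (Ne.symm h) (by omega))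
    · have : ∀ x : ℝ, Sn j x * Sn k x = Real.cos (((j - k : ℕ) : ℝ) * Real.pi * x) -
          Real.cos (((j + k + 2 : ℕ) : ℝ) * Real.pi * x) := by
        intro x
        rw [Sn, Sn, show (Real.sqrt 2 * Real.sin ((j + 1 : ℝ) * Real.pi * x)) *
          (Real.sqrt 2 * Real.sin ((k + 1 : ℝ) * Real.pi * x)) =
          Real.sqrt 2 ^ 2 * (Real.sin ((j + 1 : ℝ) * Real.pi * x) *
            Real.sin ((k + 1 : ℝ) * Real.pi * x)) by ring,
          Real.sq_sqrt (by norm_num), Nat.cast_sub hjk.le]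
        push_cast
        rw [show ((j : ℝ) - k) * Real.pi * x = (j + 1 : ℝ) * Real.pi * x - (k + 1 : ℝ) * Real.pi * x by
          ring, show ((j : ℝ) + k + 2) * Real.pi * x =
            (j + 1 : ℝ) * Real.pi * x + (k + 1 : ℝ) * Real.pi * x by ring,
          Real.cos_sub, Real.cos_add]
        ring
      simp only [this]
      rw [intervalIntegral.integral_sub (Continuous.intervalIntegrable (by fun_prop) _ _)
        (Continuous.intervalIntegrable (by fun_prop) _ _),
        integral_cos_nat (by omega), integral_cos_nat (by omega)]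
      simp

theorem integral_Cn_Cn (j k : ℕ) : ∫ x, Cn j x * Cn k x ∂m1 = if j = k then 1 else 0 := by
  rw [integral_m1]
  split_ifs with h
  · subst h
    have : ∀ x : ℝ, Cn j x * Cn j x = 1 + Real.cos (((2 * (j + 1) : ℕ) : ℝ) * Real.pi * x) := by
      intro x
      rw [Cn, show (Real.sqrt 2 * Real.cos ((j + 1 : ℝ) * Real.pi * x)) *
        (Real.sqrt 2 * Real.cos ((j + 1 : ℝ) * Real.pi * x)) =
        Real.sqrt 2 ^ 2 * Real.cos ((j + 1 : ℝ) * Real.pi * x) ^ 2 by ring,
        Real.sq_sqrt (by norm_num), Real.cos_sq]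
      push_cast
      rw [show 2 * ((j + 1 : ℝ) * Real.pi * x) = 2 * (j + 1 : ℝ) * Real.pi * x by ring]
      ring
    simp only [this]
    rw [intervalIntegral.integral_add (by simp) (Continuous.intervalIntegrable (by fun_prop) _ _),
      integral_cos_nat (by omega)]
    simp
  · wlog hjk : k < j generalizing j k
    · exact (intervalIntegral.integral_congr fun x _ => mul_comm _ _).trans
        (this k j (Ne.symm h) (by omega))
    · have : ∀ x : ℝ, Cn j x * Cn k x = Real.cos (((j - k : ℕ) : ℝ) * Real.pi * x) +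
          Real.cos (((j + k + 2 : ℕ) : ℝ) * Real.pi * x) := by
        intro x
        rw [Cn, Cn, show (Real.sqrt 2 * Real.cos ((j + 1 : ℝ) * Real.pi * x)) *
          (Real.sqrt 2 * Real.cos ((k + 1 : ℝ) * Real.pi * x)) =
          Real.sqrt 2 ^ 2 * (Real.cos ((j + 1 : ℝ) * Real.pi * x) *
            Real.cos ((k + 1 : ℝ) * Real.pi * x)) by ring,
          Real.sq_sqrt (by norm_num), Nat.cast_sub hjk.le]
        push_cast
        rw [show ((j : ℝ) - k) * Real.pi * x = (j + 1 : ℝ) * Real.pi * x - (k + 1 : ℝ) * Real.pi * x by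
          ring, show ((j : ℝ) + k + 2) * Real.pi * x =
            (j + 1 : ℝ) * Real.pi * x + (k + 1 : ℝ) * Real.pi * x by ring,
          Real.cos_sub, Real.cos_add]
        ring
      simp only [this]
      rw [intervalIntegral.integral_add (Continuous.intervalIntegrable (by fun_prop) _ _)
        (Continuous.intervalIntegrable (by fun_prop) _ _),
        integral_cos_nat (by omega), integral_cos_nat (by omega)]
      simp

/-! ### Derivatives -/

theorem hasDerivAt_Sn (n : ℕ) (x : ℝ) :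
    HasDerivAt (Sn n) ((n + 1 : ℝ) * Real.pi * Cn n x) x := by
  have h : HasDerivAt (fun x : ℝ => (n + 1 : ℝ) * Real.pi * x) ((n + 1 : ℝ) * Real.pi) x := by
    simpa using (hasDerivAt_id x).const_mul ((n + 1 : ℝ) * Real.pi)
  have := (h.sin).const_mul (Real.sqrt 2)
  refine HasDerivAt.congr_deriv (f := Sn n) this ?_
  simp only [Cn]; ring

theorem hasDerivAt_Cn (n : ℕ) (x : ℝ) :
    HasDerivAt (Cn n) (-((n + 1 : ℝ) * Real.pi * Sn n x)) x := by
  have h : HasDerivAt (fun x : ℝ => (n + 1 : ℝ) * Real.pi * x) ((n + 1 : ℝ) * Real.pi) x := by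
    simpa using (hasDerivAt_id x).const_mul ((n + 1 : ℝ) * Real.pi)
  have := (h.cos).const_mul (Real.sqrt 2)
  refine HasDerivAt.congr_deriv (f := Cn n) this ?_
  simp only [Sn]; ring

theorem contDiff_Sn (n : ℕ) {m : WithTop ℕ∞} : ContDiff ℝ m (Sn n) := by
  unfold Sn; fun_prop

theorem contDiff_Cn (n : ℕ) {m : WithTop ℕ∞} : ContDiff ℝ m (Cn n) := by
  unfold Cn; fun_prop

theorem dX_prod {f g : ℝ → ℝ} {f' : ℝ} {z : ℝ × ℝ} (hf : HasDerivAt f f' z.1)
    (hg : DifferentiableAt ℝ g z.2) : dX (fun z : ℝ × ℝ => f z.1 * g z.2) z = f' * g z.2 := by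
  have h1 : HasFDerivAt (fun z : ℝ × ℝ => f z.1) (f' • ContinuousLinearMap.fst ℝ ℝ ℝ) z :=
    hf.comp_hasFDerivAt z hasFDerivAt_fst
  have h2 : HasFDerivAt (fun z : ℝ × ℝ => g z.2)
      ((deriv g z.2) • ContinuousLinearMap.snd ℝ ℝ ℝ) z :=
    hg.hasDerivAt.comp_hasFDerivAt z hasFDerivAt_snd
  have h3 : HasFDerivAt (fun z : ℝ × ℝ => f z.1 * g z.2) _ z := h1.mul h2
  rw [dX, h3.fderiv]
  simp
  ring

theorem dY_prod {f g : ℝ → ℝ} {g' : ℝ} {z : ℝ × ℝ} (hf : DifferentiableAt ℝ f z.1)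
    (hg : HasDerivAt g g' z.2) : dY (fun z : ℝ × ℝ => f z.1 * g z.2) z = f z.1 * g' := by
  have h1 : HasFDerivAt (fun z : ℝ × ℝ => f z.1) ((deriv f z.1) • ContinuousLinearMap.fst ℝ ℝ ℝ) z :=
    hf.hasDerivAt.comp_hasFDerivAt z hasFDerivAt_fst
  have h2 : HasFDerivAt (fun z : ℝ × ℝ => g z.2) (g' • ContinuousLinearMap.snd ℝ ℝ ℝ) z :=
    hg.comp_hasFDerivAt z hasFDerivAt_snd
  have h3 : HasFDerivAt (fun z : ℝ × ℝ => f z.1 * g z.2) _ z := h1.mul h2
  rw [dY, h3.fderiv]
  simp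

theorem dX_ee (j k : ℕ) (z : ℝ × ℝ) :
    dX (ee j k) z = ((j + 1 : ℝ) * Real.pi) * (Cn j z.1 * Sn k z.2) := by
  have := dX_prod (hasDerivAt_Sn j z.1) (hasDerivAt_Sn k z.2).differentiableAt
  have e : ee j k = fun z : ℝ × ℝ => Sn j z.1 * Sn k z.2 := rfl
  rw [e, this]; ring

theorem dY_ee (j k : ℕ) (z : ℝ × ℝ) :
    dY (ee j k) z = ((k + 1 : ℝ) * Real.pi) * (Sn j z.1 * Cn k z.2) := by
  have := dY_prod (hasDerivAt_Sn j z.1).differentiableAt (hasDerivAt_Sn k z.2)
  have e : ee j k = fun z : ℝ × ℝ => Sn j z.1 * Sn k z.2 := rfl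
  rw [e, this]; ring

/-- the eigenvalues -/
noncomputable def lm (j k : ℕ) : ℝ := ((j + 1 : ℝ) ^ 2 + (k + 1 : ℝ) ^ 2) * Real.pi ^ 2

theorem lm_pos (j k : ℕ) : 0 < lm j k := by unfold lm; positivity

end Pool.Agent.Helper270_PL
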