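import Pool.Agent.Helper270_PL.Sine2

/-!
# The spectral inequality on the unit square
-/

open MeasureTheory Set Filter Topology
open scoped ENNReal

namespace Pool.Agent.Helper270_PL

/-- `C¹` functions with compact support in the square -/
def C1c (φ : ℝ × ℝ → ℝ) : Prop :=
  ContDiff ℝ 1 φ ∧ HasCompactSupport φ ∧ tsupport φ ⊆ Om

theorem IsTest.c1c {φ : ℝ × ℝ → ℝ} (h : IsTest φ) : C1c φ := ⟨h.contDiff_one, h.2.1, h.2.2⟩

theorem C1c.continuous {φ : ℝ × ℝ → ℝ} (h : C1c φ) : Continuous φ := h.1.continuous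

theorem continuous_dX_of {φ : ℝ × ℝ → ℝ} (h : ContDiff ℝ 1 φ) : Continuous (dX φ) :=
  (h.continuous_fderiv (by simp)).clm_apply continuous_const

theorem continuous_dY_of {φ : ℝ × ℝ → ℝ} (h : ContDiff ℝ 1 φ) : Continuous (dY φ) :=
  (h.continuous_fderiv (by simp)).clm_apply continuous_const

theorem C1c.eq_zero {φ : ℝ × ℝ → ℝ} (h : C1c φ) {z : ℝ × ℝ} (hz : z ∉ Om) : φ z = 0 :=
  image_eq_zero_of_notMem_tsupport fun h' => hz (h.2.2 h')

theorem C1c.fderiv_eq_zero {φ : ℝ × ℝ → ℝ} (h : C1c φ) {z : ℝ × ℝ} (hz : z ∉ Om) :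
    fderiv ℝ φ z = 0 := by
  have h1 : z ∉ tsupport φ := fun h' => hz (h.2.2 h')
  have h2 : z ∉ tsupport (fderiv ℝ φ) := fun h' => h1 (tsupport_fderiv_subset ℝ h')
  exact image_eq_zero_of_notMem_tsupport h2

theorem C1c.dX_eq_zero {φ : ℝ × ℝ → ℝ} (h : C1c φ) {z : ℝ × ℝ} (hz : z ∉ Om) : dX φ z = 0 := by
  rw [dX, h.fderiv_eq_zero hz]; rfl

theorem C1c.dY_eq_zero {φ : ℝ × ℝ → ℝ} (h : C1c φ) {z : ℝ × ℝ} (hz : z ∉ Om) : dY φ z = 0 := by
  rw [dY, h.fderiv_eq_zero hz]; rfl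

theorem integral_muOm_whole {f : ℝ × ℝ → ℝ} (hf : ∀ z, z ∉ Om → f z = 0) :
    ∫ z, f z ∂muOm = ∫ z, f z := by
  rw [muOm, setIntegral_eq_integral_of_forall_compl_eq_zero hf]

theorem C1c.ibp {φ F : ℝ × ℝ → ℝ} (h : C1c φ) (hF : ContDiff ℝ 1 F) (v : ℝ × ℝ) :
    ∫ z, fderiv ℝ φ z v * F z ∂muOm = -∫ z, φ z * fderiv ℝ F z v ∂muOm := by
  rw [integral_muOm_whole (fun z hz => by rw [h.fderiv_eq_zero hz]; simp),
    integral_muOm_whole (fun z hz => by rw [h.eq_zero hz]; simp)]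
  have c1 : Continuous fun z => fderiv ℝ φ z v :=
    (h.1.continuous_fderiv (by simp)).clm_apply continuous_const
  have c2 : Continuous fun z => fderiv ℝ F z v :=
    (hF.continuous_fderiv (by simp)).clm_apply continuous_const
  have s1 : HasCompactSupport fun z => fderiv ℝ φ z v := h.2.1.fderiv_apply (𝕜 := ℝ) v
  rw [integral_mul_fderiv_eq_neg_fderiv_mul_of_integrable, neg_neg]
  · exact (c1.mul hF.continuous).integrable_of_hasCompactSupport s1.mul_right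
  · exact (h.continuous.mul c2).integrable_of_hasCompactSupport h.2.1.mul_right
  · exact (h.continuous.mul hF.continuous).integrable_of_hasCompactSupport h.2.1.mul_right
  · exact fun x _ => (h.1.differentiable (by simp)) x
  · exact fun x _ => (hF.differentiable (by simp)) x

/-! ### Products of sines and cosines -/

/-- cosine times sine -/
noncomputable def cs (j k : ℕ) (z : ℝ × ℝ) : ℝ := Cn j z.1 * Sn k z.2

/-- sine times cosine -/
noncomputable def sc (j k : ℕ) (z : ℝ × ℝ) : ℝ := Sn j z.1 * Cn k z.2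

/-- cosine times cosine -/
noncomputable def cc (j k : ℕ) (z : ℝ × ℝ) : ℝ := Cn j z.1 * Cn k z.2

theorem contDiff_ee (j k : ℕ) {m : WithTop ℕ∞} : ContDiff ℝ m (ee j k) :=
  ((contDiff_Sn j).comp contDiff_fst).mul ((contDiff_Sn k).comp contDiff_snd)

theorem contDiff_cs (j k : ℕ) {m : WithTop ℕ∞} : ContDiff ℝ m (cs j k) :=
  ((contDiff_Cn j).comp contDiff_fst).mul ((contDiff_Sn k).comp contDiff_snd)

theorem contDiff_sc (j k : ℕ) {m : WithTop ℕ∞} : ContDiff ℝ m (sc j k) :=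
  ((contDiff_Sn j).comp contDiff_fst).mul ((contDiff_Cn k).comp contDiff_snd)

theorem contDiff_cc (j k : ℕ) {m : WithTop ℕ∞} : ContDiff ℝ m (cc j k) :=
  ((contDiff_Cn j).comp contDiff_fst).mul ((contDiff_Cn k).comp contDiff_snd)

theorem dX_ee' (j k : ℕ) (z : ℝ × ℝ) : dX (ee j k) z = ((j + 1 : ℝ) * Real.pi) * cs j k z :=
  dX_ee j k z

theorem dY_ee' (j k : ℕ) (z : ℝ × ℝ) : dY (ee j k) z = ((k + 1 : ℝ) * Real.pi) * sc j k z :=
  dY_ee j k z

theorem dX_cs (j k : ℕ) (z : ℝ × ℝ) : dX (cs j k) z = -((j + 1 : ℝ) * Real.pi) * ee j k z := by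
  have := dX_prod (hasDerivAt_Cn j z.1) (hasDerivAt_Sn k z.2).differentiableAt
  have e : cs j k = fun z : ℝ × ℝ => Cn j z.1 * Sn k z.2 := rfl
  rw [e, this, ee]; ring

theorem dY_cs (j k : ℕ) (z : ℝ × ℝ) : dY (cs j k) z = ((k + 1 : ℝ) * Real.pi) * cc j k z := by
  have := dY_prod (hasDerivAt_Cn j z.1).differentiableAt (hasDerivAt_Sn k z.2)
  have e : cs j k = fun z : ℝ × ℝ => Cn j z.1 * Sn k z.2 := rfl
  rw [e, this, cc]; ring

theorem dX_sc (j k : ℕ) (z : ℝ × ℝ) : dX (sc j k) z = ((j + 1 : ℝ) * Real.pi) * cc j k z := by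
  have := dX_prod (hasDerivAt_Sn j z.1) (hasDerivAt_Cn k z.2).differentiableAt
  have e : sc j k = fun z : ℝ × ℝ => Sn j z.1 * Cn k z.2 := rfl
  rw [e, this, cc]; ring

theorem dY_sc (j k : ℕ) (z : ℝ × ℝ) : dY (sc j k) z = -((k + 1 : ℝ) * Real.pi) * ee j k z := by
  have := dY_prod (hasDerivAt_Sn j z.1).differentiableAt (hasDerivAt_Cn k z.2)
  have e : sc j k = fun z : ℝ × ℝ => Sn j z.1 * Cn k z.2 := rfl
  rw [e, this, ee]; ring

theorem orth_aux {f g : ℕ → ℝ → ℝ} (hf : ∀ j k, ∫ x, f j x * f k x ∂m1 = if j = k then 1 else 0)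
    (hg : ∀ j k, ∫ x, g j x * g k x ∂m1 = if j = k then 1 else 0) (i j : ℕ × ℕ) :
    ∫ z, (f i.1 z.1 * g i.2 z.2) * (f j.1 z.1 * g j.2 z.2) ∂muOm = if i = j then 1 else 0 := by
  have : ∀ z : ℝ × ℝ, (f i.1 z.1 * g i.2 z.2) * (f j.1 z.1 * g j.2 z.2) =
      (f i.1 z.1 * f j.1 z.1) * (g i.2 z.2 * g j.2 z.2) := fun z => by ring
  simp only [this]
  rw [muOm_eq_prod, integral_prod_mul (fun x => f i.1 x * f j.1 x) (fun y => g i.2 y * g j.2 y),
    hf, hg]
  by_cases h : i = j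
  · subst h; simp
  · rw [if_neg h]
    rw [Prod.ext_iff, not_and_or] at h
    rcases h with h | h <;> simp [h]

theorem orth_ee (i j : ℕ × ℕ) : ∫ z, ee i.1 i.2 z * ee j.1 j.2 z ∂muOm = if i = j then 1 else 0 :=
  orth_aux integral_Sn_Sn integral_Sn_Sn i j

theorem orth_cs (i j : ℕ × ℕ) : ∫ z, cs i.1 i.2 z * cs j.1 j.2 z ∂muOm = if i = j then 1 else 0 :=
  orth_aux integral_Cn_Cn integral_Sn_Sn i j

theorem orth_sc (i j : ℕ × ℕ) : ∫ z, sc i.1 i.2 z * sc j.1 j.2 z ∂muOm = if i = j then 1 else 0 :=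
  orth_aux integral_Sn_Sn integral_Cn_Cn i j

theorem orth_cc (i j : ℕ × ℕ) : ∫ z, cc i.1 i.2 z * cc j.1 j.2 z ∂muOm = if i = j then 1 else 0 :=
  orth_aux integral_Cn_Cn integral_Cn_Cn i j

/-- continuous functions are integrable on the square -/
theorem integrable_of_cont {f : ℝ × ℝ → ℝ} (hf : Continuous f) : Integrable f muOm := by
  obtain ⟨C, hC⟩ := ((isCompact_Icc (a := (0 : ℝ)) (b := 1)).prod
    (isCompact_Icc (a := (0 : ℝ)) (b := 1))).exists_bound_of_continuousOn (f := f) hf.continuousOn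
  refine Integrable.of_bound hf.aestronglyMeasurable C ?_
  rw [muOm]
  filter_upwards [ae_restrict_mem measurableSet_Om] with z hz
  exact hC z ⟨Ioo_subset_Icc_self hz.1, Ioo_subset_Icc_self hz.2⟩

theorem integral_sq_sum {ι : Type*} [DecidableEq ι] {f : ι → ℝ × ℝ → ℝ}
    (hf : ∀ i, Continuous (f i))
    (ho : ∀ i j, ∫ z, f i z * f j z ∂muOm = if i = j then 1 else 0) (s : Finset ι) (c : ι → ℝ) :
    ∫ z, (∑ i ∈ s, c i * f i z) ^ 2 ∂muOm = ∑ i ∈ s, c i ^ 2 := by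
  have h1 : ∀ z, (∑ i ∈ s, c i * f i z) ^ 2 = ∑ i ∈ s, ∑ j ∈ s, (c i * c j) * (f i z * f j z) := by
    intro z
    rw [sq, Finset.sum_mul_sum]
    refine Finset.sum_congr rfl fun i _ => Finset.sum_congr rfl fun j _ => ?_
    ring
  simp only [h1]
  have hint : ∀ i j, Integrable (fun z => (c i * c j) * (f i z * f j z)) muOm := fun i j =>
    (integrable_of_cont (f := fun z => f i z * f j z) ((hf i).mul (hf j))).const_mul _
  rw [integral_finsetSum s fun i _ => integrable_finsetSum s fun j _ => hint i j]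
  refine Finset.sum_congr rfl fun i hi => ?_
  rw [integral_finsetSum s fun j _ => hint i j]
  simp only [integral_const_mul, ho]
  simp [hi, sq]

/-- the Dirichlet integral -/
noncomputable def DD (v : ℝ × ℝ → ℝ) : ℝ := ∫ z, (dX v z ^ 2 + dY v z ^ 2) ∂muOm

theorem C1c.cf_ibp_X {v : ℝ × ℝ → ℝ} (h : C1c v) (j k : ℕ) :
    ∫ z, dX v z * cs j k z ∂muOm = ((j + 1 : ℝ) * Real.pi) * cf v j k := by
  have := h.ibp (contDiff_cs j k) (1, 0)
  have e : ∀ z, fderiv ℝ (cs j k) z (1, 0) = -((j + 1 : ℝ) * Real.pi) * ee j k z :=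
    fun z => dX_cs j k z
  simp only [e] at this
  rw [show (fun z => dX v z * cs j k z) = fun z => fderiv ℝ v z (1, 0) * cs j k z from rfl, this, cf,
    ← integral_const_mul, ← integral_neg]
  refine integral_congr_ae (Eventually.of_forall fun z => ?_)
  simp only
  ring

theorem C1c.cf_ibp_Y {v : ℝ × ℝ → ℝ} (h : C1c v) (j k : ℕ) :
    ∫ z, dY v z * sc j k z ∂muOm = ((k + 1 : ℝ) * Real.pi) * cf v j k := by
  have := h.ibp (contDiff_sc j k) (0, 1)
  have e : ∀ z, fderiv ℝ (sc j k) z (0, 1) = -((k + 1 : ℝ) * Real.pi) * ee j k z :=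
    fun z => dY_sc j k z
  simp only [e] at this
  rw [show (fun z => dY v z * sc j k z) = fun z => fderiv ℝ v z (0, 1) * sc j k z from rfl, this, cf,
    ← integral_const_mul, ← integral_neg]
  refine integral_congr_ae (Eventually.of_forall fun z => ?_)
  simp only
  ring

theorem bessel_aux {ι : Type*} [DecidableEq ι] {f : ι → ℝ × ℝ → ℝ}
    (hf : ∀ i, Continuous (f i))
    (ho : ∀ i j, ∫ z, f i z * f j z ∂muOm = if i = j then 1 else 0) {g : ℝ × ℝ → ℝ}
    (hg : Continuous g) (s : Finset ι) :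
    ∑ i ∈ s, (∫ z, g z * f i z ∂muOm) ^ 2 ≤ ∫ z, g z ^ 2 ∂muOm := by
  set c : ι → ℝ := fun i => ∫ z, g z * f i z ∂muOm with hc
  have hP : Continuous fun z => ∑ i ∈ s, c i * f i z :=
    continuous_finsetSum _ fun i _ => continuous_const.mul (hf i)
  have h0 : 0 ≤ ∫ z, (g z - ∑ i ∈ s, c i * f i z) ^ 2 ∂muOm :=
    integral_nonneg fun _ => sq_nonneg _
  have h1 : ∀ z, (g z - ∑ i ∈ s, c i * f i z) ^ 2 =
      g z ^ 2 - 2 * ∑ i ∈ s, c i * (g z * f i z) + (∑ i ∈ s, c i * f i z) ^ 2 := by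
    intro z
    have : ∑ i ∈ s, c i * (g z * f i z) = g z * ∑ i ∈ s, c i * f i z := by
      rw [Finset.mul_sum]
      exact Finset.sum_congr rfl fun i _ => by ring
    rw [this]; ring
  simp only [h1] at h0
  rw [integral_add, integral_sub, integral_const_mul, integral_sq_sum hf ho,
    integral_finsetSum] at h0
  · have : ∑ i ∈ s, ∫ z, c i * (g z * f i z) ∂muOm = ∑ i ∈ s, c i ^ 2 := by
      refine Finset.sum_congr rfl fun i _ => ?_
      rw [integral_const_mul, sq]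
    rw [this] at h0
    linarith
  · intro i _
    exact (integrable_of_cont (hg.mul (hf i))).const_mul _
  · exact integrable_of_cont (hg.pow 2)
  · refine (integrable_finsetSum _ fun i _ => ?_).const_mul _
    exact (integrable_of_cont (hg.mul (hf i))).const_mul _
  · exact integrable_of_cont (by fun_prop)
  · exact integrable_of_cont (hP.pow 2)

theorem C1c.bessel {v : ℝ × ℝ → ℝ} (h : C1c v) (s : Finset (ℕ × ℕ)) :
    ∑ i ∈ s, lm i.1 i.2 * cf v i.1 i.2 ^ 2 ≤ DD v := by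
  have h1 := bessel_aux (f := fun i : ℕ × ℕ => cs i.1 i.2) (fun i => (contDiff_cs i.1 i.2 (m := 0)).continuous)
    orth_cs (continuous_dX_of h.1) s
  have h2 := bessel_aux (f := fun i : ℕ × ℕ => sc i.1 i.2) (fun i => (contDiff_sc i.1 i.2 (m := 0)).continuous)
    orth_sc (continuous_dY_of h.1) s
  simp only [h.cf_ibp_X, h.cf_ibp_Y] at h1 h2
  have i1 : Integrable (fun z => dX v z ^ 2) muOm := integrable_of_cont ((continuous_dX_of h.1).pow 2)
  have i2 : Integrable (fun z => dY v z ^ 2) muOm := integrable_of_cont ((continuous_dY_of h.1).pow 2)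
  rw [DD, integral_add i1 i2]
  refine le_trans (le_of_eq ?_) (add_le_add h1 h2)
  rw [← Finset.sum_add_distrib]
  refine Finset.sum_congr rfl fun i _ => ?_
  rw [lm]; ring

theorem lm_ge {i : ℕ × ℕ} (h0 : i ≠ (0, 0)) (h1 : i ≠ (0, 1)) (h2 : i ≠ (1, 0)) :
    8 * Real.pi ^ 2 ≤ lm i.1 i.2 := by
  obtain ⟨j, k⟩ := i
  have key : 8 ≤ (j + 1) ^ 2 + (k + 1) ^ 2 := by
    rcases Nat.lt_or_ge j 1 with hj | hj
    · have hj0 : j = 0 := by omega
      subst hj0
      have hk : 2 ≤ k := by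
        rcases Nat.lt_or_ge k 2 with hk | hk
        · interval_cases k
          · exact absurd rfl h0
          · exact absurd rfl h1
        · exact hk
      nlinarith
    · rcases Nat.lt_or_ge k 1 with hk | hk
      · have hk0 : k = 0 := by omega
        subst hk0
        have hj : 2 ≤ j := by
          rcases Nat.lt_or_ge j 2 with hj' | hj'
          · have : j = 1 := by omega
            subst this
            exact absurd rfl h2
          · exact hj'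
        nlinarith
      · nlinarith
  have key' : (8 : ℝ) ≤ ((j : ℝ) + 1) ^ 2 + ((k : ℝ) + 1) ^ 2 := by exact_mod_cast key
  rw [lm]
  nlinarith [sq_nonneg Real.pi]

/-- the spectral inequality -/
theorem C1c.spectral {v : ℝ × ℝ → ℝ} (h : C1c v) :
    8 * Real.pi ^ 2 * ∫ z, v z ^ 2 ∂muOm ≤ DD v + 6 * Real.pi ^ 2 * cf v 0 0 ^ 2 +
      3 * Real.pi ^ 2 * (cf v 0 1 ^ 2 + cf v 1 0 ^ 2) := by
  obtain ⟨C, -, hC⟩ := exists_bound_of_compactSupport h.continuous h.2.1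
  have hs := (hasSum_cf h.continuous hC).mul_left (8 * Real.pi ^ 2)
  refine hasSum_le_of_sum_le hs fun s => ?_
  set T : Finset (ℕ × ℕ) := {(0, 0), (0, 1), (1, 0)} with hT
  have h1 : ∑ i ∈ s, 8 * Real.pi ^ 2 * cf v i.1 i.2 ^ 2 ≤
      ∑ i ∈ s ∪ T, 8 * Real.pi ^ 2 * cf v i.1 i.2 ^ 2 :=
    Finset.sum_le_sum_of_subset_of_nonneg Finset.subset_union_left fun i _ _ => by positivity
  have h2 : ∑ i ∈ T, (8 * Real.pi ^ 2 - lm i.1 i.2) * cf v i.1 i.2 ^ 2 =
      6 * Real.pi ^ 2 * cf v 0 0 ^ 2 + 3 * Real.pi ^ 2 * (cf v 0 1 ^ 2 + cf v 1 0 ^ 2) := by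
    rw [hT, Finset.sum_insert (by simp), Finset.sum_insert (by simp), Finset.sum_singleton]
    simp only [lm]
    push_cast
    ring
  have h3 : ∑ i ∈ (s ∪ T) \ T, (8 * Real.pi ^ 2 - lm i.1 i.2) * cf v i.1 i.2 ^ 2 ≤ 0 := by
    refine Finset.sum_nonpos fun i hi => ?_
    have hi' : i ∉ T := (Finset.mem_sdiff.1 hi).2
    have : 8 * Real.pi ^ 2 ≤ lm i.1 i.2 := by
      refine lm_ge ?_ ?_ ?_ <;> rintro rfl <;> exact hi' (by simp [hT])
    nlinarith [sq_nonneg (cf v i.1 i.2)]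
  have h4 := Finset.sum_sdiff (f := fun i : ℕ × ℕ => (8 * Real.pi ^ 2 - lm i.1 i.2) * cf v i.1 i.2 ^ 2)
    (Finset.subset_union_right : T ⊆ s ∪ T)
  have h5 : ∑ i ∈ s ∪ T, 8 * Real.pi ^ 2 * cf v i.1 i.2 ^ 2 =
      ∑ i ∈ s ∪ T, (8 * Real.pi ^ 2 - lm i.1 i.2) * cf v i.1 i.2 ^ 2 +
      ∑ i ∈ s ∪ T, lm i.1 i.2 * cf v i.1 i.2 ^ 2 := by
    rw [← Finset.sum_add_distrib]
    exact Finset.sum_congr rfl fun i _ => by ring
  have h6 := h.bessel (s ∪ T)
  linarith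

end Pool.Agent.Helper270_PL
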