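import Pool.Agent.Helper270_PL.Entropy
import Pool.Agent.Helper270_PL.Cut

/-!
# Upper bound for `λ₂` by the second eigenfunctions of the Laplacian
-/

open MeasureTheory Set Filter Topology
open scoped ENNReal

namespace Pool.Agent.Helper270_PL

variable {α β : ℝ}

/-! ### Symmetries of the measure -/

theorem mp_refl1 : MeasurePreserving (fun x : ℝ => 1 - x) m1 m1 := by
  have h := (Measure.measurePreserving_sub_left (volume : Measure ℝ) 1).restrict_preimage
    (s := Ioo (0 : ℝ) 1) measurableSet_Ioo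
  have e : (fun x : ℝ => 1 - x) ⁻¹' Ioo (0 : ℝ) 1 = Ioo 0 1 := by
    ext x
    simp only [mem_preimage, mem_Ioo]
    constructor <;> rintro ⟨h1, h2⟩ <;> constructor <;> linarith
  rw [e] at h
  exact h

theorem me_refl1 : MeasurableEmbedding (fun x : ℝ => 1 - x) :=
  (Homeomorph.subLeft (1 : ℝ)).measurableEmbedding

theorem int_reflX (f : ℝ × ℝ → ℝ) : ∫ z, f (1 - z.1, z.2) ∂muOm = ∫ z, f z ∂muOm := by
  rw [muOm_eq_prod]
  have h1 := mp_refl1.prod (MeasurePreserving.id m1)
  have h2 : MeasurableEmbedding (Prod.map (fun x : ℝ => 1 - x) (id : ℝ → ℝ)) :=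
    me_refl1.prodMap MeasurableEmbedding.id
  exact h1.integral_comp h2 f

theorem int_reflY (f : ℝ × ℝ → ℝ) : ∫ z, f (z.1, 1 - z.2) ∂muOm = ∫ z, f z ∂muOm := by
  rw [muOm_eq_prod]
  have h1 := (MeasurePreserving.id m1).prod mp_refl1
  have h2 : MeasurableEmbedding (Prod.map (id : ℝ → ℝ) (fun x : ℝ => 1 - x)) :=
    MeasurableEmbedding.id.prodMap me_refl1
  exact h1.integral_comp h2 f

theorem int_refl (f : ℝ × ℝ → ℝ) : ∫ z, f (1 - z.1, 1 - z.2) ∂muOm = ∫ z, f z ∂muOm := by
  rw [← int_reflY f, ← int_reflX fun z => f (z.1, 1 - z.2)]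

theorem int_swap (f : ℝ × ℝ → ℝ) : ∫ z, f (z.2, z.1) ∂muOm = ∫ z, f z ∂muOm := by
  rw [muOm_eq_prod]
  exact (Measure.measurePreserving_swap (μ := m1) (ν := m1)).integral_comp
    MeasurableEquiv.prodComm.measurableEmbedding f

theorem Sn0_refl (x : ℝ) : Sn 0 (1 - x) = Sn 0 x := by
  simp only [Sn, Nat.cast_zero, zero_add, one_mul]
  rw [mul_sub, mul_one, Real.sin_pi_sub]

theorem Sn1_refl (x : ℝ) : Sn 1 (1 - x) = -Sn 1 x := by
  simp only [Sn, Nat.cast_one]
  rw [show (1 + 1) * Real.pi * (1 - x) = 2 * Real.pi - (1 + 1) * Real.pi * x by ring,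
    Real.sin_two_pi_sub]
  ring

theorem Cn0_refl (x : ℝ) : Cn 0 (1 - x) = -Cn 0 x := by
  simp only [Cn, Nat.cast_zero, zero_add, one_mul]
  rw [mul_sub, mul_one, Real.cos_pi_sub]
  ring

theorem Cn1_refl (x : ℝ) : Cn 1 (1 - x) = Cn 1 x := by
  simp only [Cn, Nat.cast_one]
  rw [show (1 + 1) * Real.pi * (1 - x) = 2 * Real.pi - (1 + 1) * Real.pi * x by ring,
    Real.cos_two_pi_sub]

theorem psi_refl (α β : ℝ) (z : ℝ × ℝ) : psi α β (1 - z.1, 1 - z.2) = -psi α β z := by
  simp only [psi, ee, Sn0_refl, Sn1_refl]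
  ring

theorem gg_refl (α β : ℝ) (z : ℝ × ℝ) : gg α β (1 - z.1, 1 - z.2) = gg α β z := by
  simp only [gg, psiX, psiY, cs, sc, Sn0_refl, Sn1_refl, Cn0_refl, Cn1_refl]
  ring

theorem psi_neg' (α β : ℝ) (z : ℝ × ℝ) : psi (-α) (-β) z = -psi α β z := by
  simp only [psi]; ring

theorem gg_neg' (α β : ℝ) (z : ℝ × ℝ) : gg (-α) (-β) z = gg α β z := by
  simp only [gg, psiX, psiY]; ring

theorem psi_boundary (α β : ℝ) {z : ℝ × ℝ} (hz : z ∈ closure Om) (hz' : z ∉ Om) :
    psi α β z = 0 := by
  rw [closure_Om] at hz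
  obtain ⟨x, y⟩ := z
  obtain ⟨⟨hx0, hx1⟩, ⟨hy0, hy1⟩⟩ := hz
  simp only at hx0 hx1 hy0 hy1
  rcases hx0.eq_or_lt with h | h
  · rw [← h]; exact psi_zero_left _ _ _
  rcases hx1.eq_or_lt with h' | h'
  · rw [h']; exact psi_one_left _ _ _
  rcases hy0.eq_or_lt with k | k
  · rw [← k]; exact psi_zero_right _ _ _
  rcases hy1.eq_or_lt with k' | k'
  · rw [k']; exact psi_one_right _ _ _
  exact absurd ⟨⟨h, h'⟩, ⟨k, k'⟩⟩ hz'

theorem isTest_cut_psi (α β : ℝ) {a : ℝ} (ha : 0 < a) : IsTest (cut a (psi α β)) :=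
  isTest_cut ha (contDiff_psi α β) fun z hz hz' => by rw [psi_boundary α β hz hz']; exact ha

/-! ### Halves -/

theorem measurableSet_pos (α β : ℝ) : MeasurableSet {z | 0 < psi α β z} :=
  (isOpen_lt continuous_const (continuous_psi α β)).measurableSet

/-- integral over the positive part -/
noncomputable def half (α β : ℝ) (f : ℝ × ℝ → ℝ) : ℝ :=
  ∫ z, {z | 0 < psi α β z}.indicator f z ∂muOm

theorem half_neg {f : ℝ × ℝ → ℝ} (hs : ∀ z, f (1 - z.1, 1 - z.2) = f z) :
    half (-α) (-β) f = half α β f := by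
  rw [half, half, ← int_refl]
  refine integral_congr_ae (Eventually.of_forall fun z => ?_)
  simp only [indicator, mem_ofPred_eq, psi_neg', psi_refl, neg_neg, hs]

theorem half_le {f : ℝ × ℝ → ℝ} (hf : Continuous f) (h0 : ∀ z, 0 ≤ f z)
    (hs : ∀ z, f (1 - z.1, 1 - z.2) = f z) : half α β f ≤ 1 / 2 * ∫ z, f z ∂muOm := by
  have h1 := half_neg (α := α) (β := β) hs
  have hi : Integrable f muOm := integrable_of_cont hf
  have h2 : half α β f + half (-α) (-β) f ≤ ∫ z, f z ∂muOm := by
    rw [half, half, ← integral_add (hi.indicator (measurableSet_pos _ _))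
      (hi.indicator (measurableSet_pos _ _))]
    refine integral_mono ((hi.indicator (measurableSet_pos _ _)).add
      (hi.indicator (measurableSet_pos _ _))) hi fun z => ?_
    simp only [indicator, mem_ofPred_eq, psi_neg']
    have := h0 z
    split_ifs with k1 k2 <;> linarith
  linarith

theorem half_eq {f : ℝ × ℝ → ℝ} (hf : Continuous f) 
    (hs : ∀ z, f (1 - z.1, 1 - z.2) = f z) (hz : ∀ z, psi α β z = 0 → f z = 0) :
    half α β f = 1 / 2 * ∫ z, f z ∂muOm := by
  have h1 := half_neg (α := α) (β := β) hs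
  have hi : Integrable f muOm := integrable_of_cont hf
  have h2 : half α β f + half (-α) (-β) f = ∫ z, f z ∂muOm := by
    rw [half, half, ← integral_add (hi.indicator (measurableSet_pos _ _))
      (hi.indicator (measurableSet_pos _ _))]
    refine integral_congr_ae (Eventually.of_forall fun z => ?_)
    simp only [indicator, mem_ofPred_eq, psi_neg']
    rcases lt_trichotomy (psi α β z) 0 with k | k | k
    · rw [if_neg (by linarith), if_pos (by linarith), zero_add]
    · rw [if_neg (by linarith), if_neg (by linarith), hz z k, zero_add]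
    · rw [if_pos k, if_neg (by linarith), add_zero]
  linarith

theorem energy_cut_le (α β : ℝ) {a q : ℝ} (ha : 0 < a) (hq : 0 < q) :
    ∫ z, (dX (cut a (psi α β)) z ^ 2 + dY (cut a (psi α β)) z ^ 2) ^ (q / 2) ∂muOm ≤
      half α β fun z => gg α β z ^ (q / 2) := by
  have hc : Continuous fun z => gg α β z ^ (q / 2) :=
    (continuous_gg α β).rpow_const fun _ => Or.inr (by positivity)
  have hd : Differentiable ℝ (psi α β) := (contDiff_psi α β (m := 1)).differentiable (by simp)
  rw [half]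
  refine integral_mono_ae ((isTest_cut_psi α β ha).integrable_grad_rpow (by positivity))
    ((integrable_of_cont hc).indicator (measurableSet_pos _ _)) ?_
  filter_upwards [ae_muOm_mem] with z hz
  rw [dX_cut_of_mem hd hz, dY_cut_of_mem hd hz]
  simp only [indicator, mem_ofPred_eq]
  have h1 := Real.smoothTransition.nonneg (psi α β z / a - 1)
  have h2 := Real.smoothTransition.le_one (psi α β z / a - 1)
  split_ifs with k
  · refine Real.rpow_le_rpow (by positivity) ?_ (by positivity)
    rw [dX_psi, dY_psi, gg]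
    have h3 : Real.smoothTransition (psi α β z / a - 1) ^ 2 ≤ 1 := pow_le_one₀ h1 h2
    nlinarith [sq_nonneg (psiX α β z), sq_nonneg (psiY α β z)]
  · have h3 : Real.smoothTransition (psi α β z / a - 1) = 0 := by
      apply Real.smoothTransition.zero_of_nonpos
      have : psi α β z / a ≤ 0 := div_nonpos_of_nonpos_of_nonneg (by linarith) ha.le
      linarith
    rw [h3]
    simp only [zero_mul]
    rw [show (0 : ℝ) ^ 2 + 0 ^ 2 = 0 by norm_num, Real.zero_rpow (by positivity)]

theorem bern {x a q : ℝ} (hx : 0 < x) (ha : 0 < a) (hq : 1 ≤ q) :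
    x ^ q - 2 * a * q * x ^ (q - 1) ≤ (max (x - 2 * a) 0) ^ q := by
  have e1 : x ^ q = x ^ (q - 1) * x := by
    rw [Real.rpow_sub_one hx.ne', div_mul_cancel₀ _ hx.ne']
  have hx1 : 0 < x ^ (q - 1) := Real.rpow_pos_of_pos hx _
  rcases le_total (x - 2 * a) 0 with h | h
  · rw [max_eq_right h, Real.zero_rpow (by linarith), e1]
    have : x ≤ 2 * a * q := by nlinarith
    nlinarith
  · rw [max_eq_left h]
    have h1 := one_add_mul_self_le_rpow_one_add (s := -(2 * a / x)) (by
      rw [neg_le_neg_iff, div_le_one hx]; linarith) hq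
    have h2 : x - 2 * a = x * (1 + -(2 * a / x)) := by field_simp; ring
    rw [h2, Real.mul_rpow hx.le (by
      have : 2 * a / x ≤ 1 := by rw [div_le_one hx]; linarith
      linarith)]
    have h3 := mul_le_mul_of_nonneg_left h1 (Real.rpow_pos_of_pos hx q).le
    refine le_trans (le_of_eq ?_) h3
    rw [e1]
    field_simp
    ring

theorem mass_cut_ge (h : α ^ 2 + β ^ 2 = 1) {a q : ℝ} (ha : 0 < a) (hq : 1 ≤ q) :
    half α β (fun z => |psi α β z| ^ q) - 2 * a * q * 8 ^ (q - 1) ≤
      ∫ z, |cut a (psi α β) z| ^ q ∂muOm := by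
  have hc : Continuous fun z => |psi α β z| ^ q :=
    (continuous_psi α β).abs.rpow_const fun _ => Or.inr (by linarith)
  have e : half α β (fun z => |psi α β z| ^ q) - 2 * a * q * 8 ^ (q - 1) =
      ∫ z, ({z | 0 < psi α β z}.indicator (fun z => |psi α β z| ^ q) z -
        2 * a * q * 8 ^ (q - 1)) ∂muOm := by
    rw [integral_sub ((integrable_of_cont hc).indicator (measurableSet_pos _ _))
      (integrable_const _), half]
    simp
  rw [e]
  refine integral_mono_ae (((integrable_of_cont hc).indicator (measurableSet_pos _ _)).sub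
    (integrable_const _)) ((isTest_cut_psi α β ha).integrable_rpow (by linarith)) ?_
  filter_upwards [ae_muOm_mem] with z hz
  rw [cut_of_mem hz]
  simp only [indicator, mem_ofPred_eq]
  have h8 : (0 : ℝ) < 8 ^ (q - 1) := by positivity
  split_ifs with k
  · have h1 := bern k ha hq
    have h2 : psi α β z ^ (q - 1) ≤ 8 ^ (q - 1) :=
      Real.rpow_le_rpow k.le ((le_abs_self _).trans (abs_psi_le h z)) (by linarith)
    have h3 : (max (psi α β z - 2 * a) 0) ^ q ≤ |PP a (psi α β z)| ^ q := by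
      refine Real.rpow_le_rpow (le_max_right _ _) ?_ (by linarith)
      rw [abs_of_nonneg (PP_nonneg ha _)]
      exact max_le (le_PP ha _) (PP_nonneg ha _)
    rw [abs_of_pos k]
    have h4 : 2 * a * q * psi α β z ^ (q - 1) ≤ 2 * a * q * 8 ^ (q - 1) := by
      have : 0 ≤ 2 * a * q := by positivity
      exact mul_le_mul_of_nonneg_left h2 this
    linarith
  · have h1 : 0 ≤ |PP a (psi α β z)| ^ q := Real.rpow_nonneg (abs_nonneg _) _
    have h2 : 0 ≤ 2 * a * q * 8 ^ (q - 1) := by positivity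
    linarith

variable {p : ℝ≥0∞} [Fact (1 ≤ p)]

/-- `λ₂` is at most the Rayleigh quotient of `psi`. -/
theorem lam_two_le_psi (hp : p ≠ ∞) (h : α ^ 2 + β ^ 2 = 1)
    (hM : 0 < ∫ z, |psi α β z| ^ p.toReal ∂muOm) :
    lam p 2 ≤ (∫ z, gg α β z ^ (p.toReal / 2) ∂muOm) / ∫ z, |psi α β z| ^ p.toReal ∂muOm := by
  have hp0 := toReal_pos' hp
  have hp1 : 1 ≤ p.toReal := by
    rw [← ENNReal.toReal_one]
    exact ENNReal.toReal_mono hp Fact.out
  set q := p.toReal with hq
  set M := ∫ z, |psi α β z| ^ q ∂muOm with hMd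
  set E := ∫ z, gg α β z ^ (q / 2) ∂muOm with hE
  have hE0 : 0 ≤ E := integral_nonneg fun z => Real.rpow_nonneg (gg_nonneg _ _ _) _
  refine le_of_forall_gt_imp_ge_of_dense fun e he => ?_
  have he0 : 0 < e := lt_of_le_of_lt (by positivity) he
  have heM : E < e * M := (div_lt_iff₀ hM).1 he
  set K := q * 8 ^ (q - 1) with hK
  have hK0 : 0 < K := by positivity
  -- choice of `a`
  obtain ⟨a, ha, ha1, ha2⟩ : ∃ a, 0 < a ∧ 4 * e * K * a ≤ e * M - E ∧ 8 * K * a ≤ M := by
    refine ⟨min ((e * M - E) / (4 * e * K)) (M / (8 * K)), ?_, ?_, ?_⟩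
    · refine lt_min (div_pos (by linarith) (by positivity)) (by positivity)
    · have := min_le_left ((e * M - E) / (4 * e * K)) (M / (8 * K))
      rw [le_div_iff₀ (by positivity)] at this
      linarith
    · have := min_le_right ((e * M - E) / (4 * e * K)) (M / (8 * K))
      rw [le_div_iff₀ (by positivity)] at this
      linarith
  have h' : (-α) ^ 2 + (-β) ^ 2 = 1 := by rw [neg_sq, neg_sq]; exact h
  have cM : Continuous fun z => |psi α β z| ^ q :=
    (continuous_psi α β).abs.rpow_const fun _ => Or.inr hp0.le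
  have cE : Continuous fun z => gg α β z ^ (q / 2) :=
    (continuous_gg α β).rpow_const fun _ => Or.inr (by positivity)
  have sM : ∀ z : ℝ × ℝ, |psi α β (1 - z.1, 1 - z.2)| ^ q = |psi α β z| ^ q := by
    intro z; rw [psi_refl, abs_neg]
  have sE : ∀ z : ℝ × ℝ, gg α β (1 - z.1, 1 - z.2) ^ (q / 2) = gg α β z ^ (q / 2) := by
    intro z; rw [gg_refl]
  have M1 : half α β (fun z => |psi α β z| ^ q) = 1 / 2 * M :=
    half_eq cM sM fun z hz => by rw [hz, abs_zero, Real.zero_rpow hp0.ne']
  have M2 : half (-α) (-β) (fun z => |psi (-α) (-β) z| ^ q) = 1 / 2 * M := by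
    simp only [psi_neg', abs_neg]
    rw [half_neg sM, M1]
  have E1 : half α β (fun z => gg α β z ^ (q / 2)) ≤ 1 / 2 * E :=
    half_le cE (fun z => Real.rpow_nonneg (gg_nonneg _ _ _) _) sE
  have E2 : half (-α) (-β) (fun z => gg (-α) (-β) z ^ (q / 2)) ≤ 1 / 2 * E := by
    simp only [gg_neg']
    rw [half_neg sE]
    exact E1
  have m1 := mass_cut_ge h ha hp1
  have m2 := mass_cut_ge h' ha hp1
  have e1 := energy_cut_le α β ha hp0
  have e2 := energy_cut_le (-α) (-β) ha hp0
  rw [M1] at m1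
  rw [M2] at m2
  have hKa : 2 * a * q * 8 ^ (q - 1) = 2 * K * a := by rw [hK]; ring
  rw [hKa] at m1 m2
  set φ : Fin 2 → testFun := ![⟨_, isTest_cut_psi α β ha⟩, ⟨_, isTest_cut_psi (-α) (-β) ha⟩] with hφ
  refine (lam_le_of_disjoint hp (n := 1) φ (e := e) ?_ ?_ ?_).1
  · intro i j hij
    have key : Disjoint (tsupport (cut a (psi α β))) (tsupport (cut a (psi (-α) (-β)))) := by
      rw [Set.disjoint_left]
      intro z hz1 hz2
      have k1 := (tsupport_cut ha (continuous_psi α β) hz1).2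
      have k2 := (tsupport_cut ha (continuous_psi (-α) (-β)) hz2).2
      simp only [mem_ofPred_eq, psi_neg'] at k1 k2
      linarith
    fin_cases i <;> fin_cases j
    · exact absurd rfl hij
    · exact key
    · exact key.symm
    · exact absurd rfl hij
  · intro i
    fin_cases i
    · exact lt_of_lt_of_le (by linarith) m1
    · exact lt_of_lt_of_le (by linarith) m2
  · intro i
    have key : ∀ m : ℝ, 1 / 2 * M - 2 * K * a ≤ m → 1 / 2 * E ≤ e * m := by
      intro m hm
      have := mul_le_mul_of_nonneg_left hm he0.le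
      nlinarith
    fin_cases i
    · exact (e1.trans E1).trans (key _ m1)
    · exact (e2.trans E2).trans (key _ m2)

end Pool.Agent.Helper270_PL
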